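import Pool.Agent.PSM.Dig

/-!
# Tree evaluation with registers over `ZMod p`: the homogeneous identity (helper96)

The polynomial `F^` of a node is multilinear and homogeneous of degree `N` in the registers of the children. Hence
`∑_(y < p) y ^ (p - 1 - N) F^(τ + y v) = - F^(v)` (`sum_Fh`), and the recursion `Pr`, which runs the children once for
every `y < p`, adds the value of the node to the target register and leaves all others unchanged:

* `sum_pow_range`, `sum_prod_add`, `sum_Fh`;
* `itr_child`, `itr_round`;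
* `V_lt`; **`alg : Pr p A nd lf K j t r = addV p A t (V A nd lf K j) r`**.
-/

set_option autoImplicit false

open Finset

namespace Pool.Agent.PSM

variable {p : ℕ}

/-! ### sums of powers -/

lemma sum_range_cast [Fact p.Prime] {M : Type} [AddCommMonoid M] (f : ZMod p → M) :
    ∑ y ∈ range p, f (y : ZMod p) = ∑ x : ZMod p, f x := by
  refine Finset.sum_nbij' (fun y : ℕ => (y : ZMod p)) (fun x : ZMod p => x.val) ?_ ?_ ?_ ?_ ?_
  · intro y _
    exact Finset.mem_univ _
  · intro x _
    exact Finset.mem_range.2 (ZMod.val_lt x)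
  · intro y hy
    exact ZMod.val_cast_of_lt (Finset.mem_range.1 hy)
  · intro x _
    exact ZMod.natCast_zmod_val x
  · intro y _
    rfl

lemma sum_pow_range [Fact p.Prime] {i : ℕ} (h0 : 0 < i) (h : i ≤ p - 1) :
    ∑ y ∈ range p, (y : ZMod p) ^ i = if i = p - 1 then -1 else 0 := by
  rw [sum_range_cast fun x : ZMod p => x ^ i]
  split_ifs with hi
  · have hp := (Fact.out : p.Prime)
    rw [hi] at h0 ⊢
    have h1 : ∀ x : ZMod p, x ^ (p - 1) = 1 - if x = 0 then 1 else 0 := by
      intro x
      split_ifs with hx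
      · rw [hx, zero_pow (by omega), sub_self]
      · rw [ZMod.pow_card_sub_one_eq_one hx, sub_zero]
    simp only [h1, Finset.sum_sub_distrib, Finset.sum_ite_eq', Finset.mem_univ, if_true,
      Finset.sum_const, Finset.card_univ, ZMod.card, nsmul_eq_mul, mul_one, CharP.cast_eq_zero, zero_sub]
  · exact FiniteField.sum_pow_lt_card_sub_one (ZMod p) i (by rw [ZMod.card]; omega)

/-- the top coefficient of a product of linear functions -/
lemma sum_prod_add [Fact p.Prime] {N : ℕ} (hN : N + 1 < p) (x w : ℕ → ZMod p) :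
    ∑ y ∈ range p, (y : ZMod p) ^ (p - 1 - N) * ∏ z ∈ range N, (x z + (y : ZMod p) * w z) =
      - ∏ z ∈ range N, w z := by
  have h1 : ∀ y : ZMod p, ∏ z ∈ range N, (x z + y * w z) =
      ∑ S ∈ (range N).powerset, y ^ (N - #S) * ((∏ z ∈ S, x z) * ∏ z ∈ range N \ S, w z) := by
    intro y
    rw [Finset.prod_add]
    refine Finset.sum_congr rfl fun S hS => ?_
    rw [Finset.prod_mul_distrib, Finset.prod_const, Finset.card_sdiff_of_subset (Finset.mem_powerset.1 hS),
      Finset.card_range]
    ring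
  simp only [h1, Finset.mul_sum]
  rw [Finset.sum_comm]
  have h2 : ∀ S ∈ (range N).powerset, ∑ y ∈ range p, (y : ZMod p) ^ (p - 1 - N) *
      ((y : ZMod p) ^ (N - #S) * ((∏ z ∈ S, x z) * ∏ z ∈ range N \ S, w z)) =
      if S = ∅ then - ∏ z ∈ range N, w z else 0 := by
    intro S hS
    have hc : #S ≤ N := by
      have := Finset.card_le_card (Finset.mem_powerset.1 hS)
      rwa [Finset.card_range] at this
    have e1 : ∀ y : ℕ, (y : ZMod p) ^ (p - 1 - N) *
        ((y : ZMod p) ^ (N - #S) * ((∏ z ∈ S, x z) * ∏ z ∈ range N \ S, w z)) =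
        (y : ZMod p) ^ (p - 1 - #S) * ((∏ z ∈ S, x z) * ∏ z ∈ range N \ S, w z) := by
      intro y
      rw [← mul_assoc, ← pow_add]
      congr 2
      omega
    simp only [e1]
    rw [← Finset.sum_mul, sum_pow_range (by omega) (by omega)]
    split_ifs with c1 c2 c2
    · rw [c2]
      simp
    · exact absurd (Finset.card_eq_zero.1 (by omega)) c2
    · rw [c2] at c1
      simp at c1
    · rw [zero_mul]
  rw [Finset.sum_congr rfl h2]
  simp

/-! ### the polynomial of a node -/

variable {A : TE}

/-- **the homogeneous identity** -/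
lemma sum_Fh [Fact p.Prime] (hN : A.N + 1 < p) (r w : St p) (t u s : ℕ) :
    ∑ y ∈ range p, (y : ZMod p) ^ (p - 1 - A.N) * Fh p A (fun t' u s => r t' u s + (y : ZMod p) * w t' u s) t u s =
      - Fh p A w t u s := by
  unfold Fh
  simp only [Finset.mul_sum]
  rw [Finset.sum_comm, ← Finset.sum_neg_distrib]
  refine Finset.sum_congr rfl fun a _ => ?_
  split_ifs with h
  · exact sum_prod_add hN _ _
  · simp

lemma Fh_congr (hA : A.Ok) (hq : 0 < A.q) {r r' : St p} {t : ℕ}
    (h : ∀ e < A.f, ∀ u < A.m, ∀ s < A.q, r (rg t e) u s = r' (rg t e) u s) (u s : ℕ) :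
    Fh p A r t u s = Fh p A r' t u s := by
  unfold Fh
  refine Finset.sum_congr rfl fun a _ => ?_
  split_ifs
  · refine Finset.prod_congr rfl fun z hz => ?_
    have hz' := Finset.mem_range.1 hz
    exact h _ (hA.ch z hz') _ (hA.cl z hz') _ (dg_lt hq _ _)
  · rfl

lemma rg_ne (t e : ℕ) : rg t e ≠ t := by
  unfold rg
  split_ifs <;> omega

lemma rg_inj {t e e' : ℕ} (h : rg t e = rg t e') : e = e' := by
  unfold rg at h
  split_ifs at h <;> omega

lemma rg_le {t e f : ℕ} (he : e < f) : rg t e ≤ f := by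
  unfold rg
  split_ifs <;> omega

/-- the unit vectors of the values of the children, in their registers -/
def chV (p : ℕ) (A : TE) (t : ℕ) (v : ℕ → ℕ → ℕ) (n : ℕ) : St p := fun t' u s =>
  ∑ e ∈ range n, if t' = rg t e ∧ u < A.m ∧ s < A.q then (if v e u = s then 1 else 0) else 0

lemma chV_self (t : ℕ) (v : ℕ → ℕ → ℕ) (n u s : ℕ) : chV p A t v n t u s = 0 := by
  unfold chV
  refine Finset.sum_eq_zero fun e _ => ?_
  rw [if_neg]
  rintro ⟨h, -⟩
  exact rg_ne t e h.symm

lemma chV_rg {t : ℕ} {v : ℕ → ℕ → ℕ} {n e u s : ℕ} (he : e < n) (hu : u < A.m) (hs : s < A.q) :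
    chV p A t v n (rg t e) u s = if v e u = s then 1 else 0 := by
  unfold chV
  rw [Finset.sum_eq_single e]
  · rw [if_pos ⟨rfl, hu, hs⟩]
  · intro e' _ hne
    rw [if_neg]
    rintro ⟨h, -⟩
    exact hne (rg_inj h).symm
  · intro h
    exact absurd (Finset.mem_range.2 he) h

/-- the polynomial at the unit vectors of the children is the unit vector of the node -/
lemma Fh_chV (hA : A.Ok) {v : ℕ → ℕ → ℕ} (hv : ∀ e u, v e u < A.q) (t u s : ℕ) :
    Fh p A (chV p A t v A.f) t u s =
      if A.Fb (en A.q A.N fun z => v (A.ch z) (A.cl z)) u = s then 1 else 0 := by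
  have hq : 0 < A.q := (Nat.zero_le _).trans_lt (hv 0 0)
  have h1 : Fh p A (chV p A t v A.f) t u s = ∑ a ∈ range (A.q ^ A.N),
      (∏ z ∈ range A.N, if v (A.ch z) (A.cl z) = dg A.q z a then (1 : ZMod p) else 0) *
        (if A.Fb a u = s then 1 else 0) := by
    unfold Fh
    refine Finset.sum_congr rfl fun a _ => ?_
    split_ifs with h
    · rw [mul_one]
      refine Finset.prod_congr rfl fun z hz => ?_
      have hz' := Finset.mem_range.1 hz
      exact chV_rg (hA.ch z hz') (hA.cl z hz') (dg_lt hq _ _)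
    · rw [mul_zero]
  rw [h1, sum_dg (fun z _ => hv _ _) fun a => if A.Fb a u = s then (1 : ZMod p) else 0]

/-! ### the recursion -/

variable {ι : Type} {nd : ι → ℕ → ι} {lf : ι → ℕ → ℕ}

theorem V_lt (hA : A.Ok) (hlf : ∀ j u, lf j u < A.q) (K : ℕ) (j : ι) (u : ℕ) : V A nd lf K j u < A.q := by
  cases K with
  | zero => exact hlf j u
  | succ K => exact hA.Fb _ _

lemma itr_child {t : ℕ} {P : ℕ → St p → St p} {v : ℕ → ℕ → ℕ} {f : ℕ}
    (h : ∀ e < f, ∀ r, P e r = addV p A (rg t e) (v e) r) (r : St p) (n : ℕ) (hn : n ≤ f) :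
    itr P r n = fun t' u s => r t' u s + chV p A t v n t' u s := by
  induction n with
  | zero =>
    funext t' u s
    show r t' u s = _
    unfold chV
    rw [Finset.range_zero, Finset.sum_empty, add_zero]
  | succ n ih =>
    show P n (itr P r n) = _
    rw [ih (by omega), h n (by omega)]
    funext t' u s
    unfold addV chV
    beta_reduce
    rw [Finset.sum_range_succ]
    by_cases c : t' = rg t n ∧ u < A.m ∧ s < A.q
    · rw [if_pos c, if_pos c, add_assoc]
    · rw [if_neg c, if_neg c, add_zero]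

lemma itr_round [Fact p.Prime] (hA : A.Ok) (hq : 0 < A.q) {t : ℕ} {v : ℕ → ℕ → ℕ} {Q : St p → St p}
    (hQ : ∀ r, Q r = fun t' u s => r t' u s + chV p A t v A.f t' u s) (r : St p) (n : ℕ) :
    itr (fun y r => Q (addF p A y t r)) r n = fun t' u s => r t' u s + (n : ZMod p) * chV p A t v A.f t' u s +
      (if t' = t ∧ u < A.m ∧ s < A.q then - ∑ y ∈ range n, (y : ZMod p) ^ (p - 1 - A.N) *
        Fh p A (fun t' u s => r t' u s + (y : ZMod p) * chV p A t v A.f t' u s) t u s else 0) := by
  induction n with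
  | zero =>
    funext t' u s
    show r t' u s = _
    simp
  | succ n ih =>
    obtain ⟨R, hR⟩ : ∃ R, R = itr (fun y r => Q (addF p A y t r)) r n := ⟨_, rfl⟩
    show Q (addF p A n t (itr (fun y r => Q (addF p A y t r)) r n)) = _
    rw [← hR] at ih ⊢
    rw [hQ]
    funext t' u s
    have e1 : Fh p A R t u s =
        Fh p A (fun t' u s => r t' u s + (n : ZMod p) * chV p A t v A.f t' u s) t u s := by
      refine Fh_congr hA hq (fun e _ u _ s _ => ?_) u s
      rw [ih]
      beta_reduce
      rw [if_neg (fun h => rg_ne t e h.1), add_zero]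
    have e2 : R t' u s = _ := congrFun (congrFun (congrFun ih t') u) s
    unfold addF
    by_cases c : t' = t ∧ u < A.m ∧ s < A.q
    · rw [if_pos c] at e2 ⊢
      rw [if_pos c, e2, e1, Finset.sum_range_succ]
      push_cast
      ring
    · rw [if_neg c] at e2 ⊢
      rw [if_neg c, e2]
      push_cast
      ring

/-- **the recursion adds the value of the node to the target** -/
theorem alg (hp : p.Prime) (hA : A.Ok) (hN : A.N + 1 < p) (hlf : ∀ j u, lf j u < A.q) (K : ℕ) (j : ι) {t : ℕ}
    (ht : t ≤ A.f) (r : St p) : Pr p A nd lf K j t r = addV p A t (V A nd lf K j) r := by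
  have : Fact p.Prime := ⟨hp⟩
  induction K generalizing j t r with
  | zero => rfl
  | succ K ih =>
    have hq : 0 < A.q := (Nat.zero_le _).trans_lt (hlf j 0)
    have h1 : ∀ r : St p, itr (fun e r => Pr p A nd lf K (nd j e) (rg t e) r) r A.f =
        fun t' u s => r t' u s + chV p A t (fun e => V A nd lf K (nd j e)) A.f t' u s := fun r =>
      itr_child (fun e he r => ih (nd j e) (rg_le he) r) r A.f le_rfl
    show itr (fun y r => itr (fun e r => Pr p A nd lf K (nd j e) (rg t e) r) (addF p A y t r) A.f) r p = _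
    rw [itr_round hA hq (Q := fun r => itr (fun e r => Pr p A nd lf K (nd j e) (rg t e) r) r A.f) h1 r p]
    funext t' u s
    unfold addV
    rw [CharP.cast_eq_zero, zero_mul, add_zero]
    by_cases c : t' = t ∧ u < A.m ∧ s < A.q
    · rw [if_pos c, if_pos c, sum_Fh hN, neg_neg, Fh_chV hA (fun e u => V_lt hA hlf _ _ _)]
      rfl
    · rw [if_neg c, if_neg c, add_zero]

end Pool.Agent.PSM
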