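import Mathlib

/-!
# Linear space against cellular automata: the sizes of the simulation (helper69)

`Big B D q b h p n`: every number of the simulation with dimension `D`, `q` states, blocks of side `b`, height `h`,
prime `p` and input length `n` stays below `B`.
-/

set_option autoImplicit false

namespace Pool.Agent.PSM

/-- all sizes of the simulation are at most `B` -/
structure Big (B D q b h p n : ℕ) : Prop where
  pw : p ^ ((3 ^ D + 1) * b ^ D * q) ≤ B
  qw : q ^ ((3 * b) ^ D) ≤ B
  hw : (p * (3 ^ D + 1)) ^ h ≤ B
  nw : (3 * b) ^ D ≤ B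
  q3 : q ^ 3 ^ D ≤ B
  nB : n ≤ B

end Pool.Agent.PSM
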