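import Mathlib

/-!
# Cellular automata: definitions

* `CA D Γ Q`: cellular automata on `ℤ ^ D` with the state set `Q`, neighbourhood `{-1, 0, 1} ^ D`, input letters `Γ`
  on the first axis; `CA.Result`: the first output of the origin;
* **`LinSpaceCA L`**: `L` is recognized by a one-dimensional cellular automaton which uses only the `n` cells of the
  input;
* `Quant`, `nest`, `game`: quantifiers on words and games with `n` rounds; **`Solves`**.
-/

set_option autoImplicit false

namespace Pool.Agent.PSM

/-! ### cellular automata -/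

/-- a cellular automaton on `ℤ ^ D` with the neighbourhood `{-1, 0, 1} ^ D`: state of the empty cells, states of the
input letters, rule, output (`none`: not yet) -/
structure CA (D : ℕ) (Γ Q : Type) where
  blank : Q
  inp : Γ → Q
  rule : ((Fin D → Fin 3) → Q) → Q
  out : Q → Option Bool

variable {d k g n : ℕ} {Γ Q : Type}

/-- one step of all cells -/
def CA.step {D : ℕ} (M : CA D Γ Q) (c : (Fin D → ℤ) → Q) : (Fin D → ℤ) → Q :=
  fun z => M.rule fun e => c fun i => z i + (e i : ℤ) - 1

/-- the start: the word on the first axis, from the origin on -/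
def CA.start (M : CA (d + 1) Γ Q) (w : Fin n → Γ) : (Fin (d + 1) → ℤ) → Q :=
  fun z => if h : (∀ i, i ≠ 0 → z i = 0) ∧ 0 ≤ z 0 ∧ (z 0).toNat < n then M.inp (w ⟨(z 0).toNat, h.2.2⟩)
    else M.blank

/-- the state of the origin at the time `t` -/
def CA.origin (M : CA (d + 1) Γ Q) (w : Fin n → Γ) (t : ℕ) : Q := M.step^[t] (M.start w) 0

/-- the first output of the origin comes within `T` steps and is `b` -/
def CA.Result (M : CA (d + 1) Γ Q) (T : ℕ) (w : Fin n → Γ) (b : Bool) : Prop :=
  ∃ t ≤ T, M.out (M.origin w t) = some b ∧ ∀ s < t, M.out (M.origin w s) = none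

/-- **linear space**: `L` is recognized by a one-dimensional cellular automaton; all cells outside of the input stay
blank for ever -/
def LinSpaceCA (L : Set (List Bool)) : Prop :=
  ∃ (Q : Type) (_ : Fintype Q) (M : CA 1 Bool Q), ∀ (n : ℕ) (x : Fin n → Bool),
    (∀ (t : ℕ) (z : Fin 1 → ℤ), ¬ (0 ≤ z 0 ∧ z 0 < n) → M.step^[t] (M.start x) z = M.blank) ∧
      ∃ (T : ℕ) (b : Bool), M.Result T x b ∧ (b = true ↔ List.ofFn x ∈ L)

/-! ### quantifiers and games -/

/-- `exists`, `for all`, `for more than half` -/
inductive Quant : Type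
  | ex : Quant
  | all : Quant
  | most : Quant

open Classical in
/-- the meaning of a quantifier on a finite type -/
noncomputable def Quant.Holds {α : Type} [Fintype α] : Quant → (α → Prop) → Prop
  | Quant.ex, P => ∃ a, P a
  | Quant.all, P => ∀ a, P a
  | Quant.most, P => Fintype.card α < 2 * (Finset.univ.filter P).card

/-- `k` quantifiers in front of a property of `k` objects -/
noncomputable def nest {α : Type} [Fintype α] : (k : ℕ) → (Fin k → Quant) → ((Fin k → α) → Prop) → Prop
  | 0, _, P => P Fin.elim0
  | k + 1, R, P => (R 0).Holds fun a => nest k (fun i => R i.succ) fun y => P (Fin.cons a y)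

/-- **the game with `n` rounds**: in the round `i` the first player chooses `u i`, then the second player chooses `v i`:
`∃ u_1 ∀ v_1 ∃ u_2 ∀ v_2 .. ∃ u_n ∀ v_n, S u v` -/
def game {g : ℕ} : (n : ℕ) → ((Fin n → Fin g) → (Fin n → Fin g) → Prop) → Prop
  | 0, S => S Fin.elim0 Fin.elim0
  | n + 1, S => ∃ a : Fin g, ∀ b : Fin g, game n fun u v => S (Fin.cons a u) (Fin.cons b v)

/-- **the automaton `M` with the quantifiers `R_1, .., R_k` and the game gives, within `T` steps, the right answer `A`
on the word `x`**: for all words `y_1, .., y_k, u, v` it accepts `(x, y, u, v)` within `T` steps or never, and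
`R_1 y_1 .. R_k y_k ∃ u_1 ∀ v_1 .. ∃ u_n ∀ v_n (M accepts (x, y, u, v))` holds exactly if `A` does -/
def Solves (M : CA (d + 1) (Bool × (Fin k → Fin g) × Fin g × Fin g) Q) (R : Fin k → Quant) (T : ℕ)
    (x : Fin n → Bool) (A : Prop) : Prop :=
  (∀ (y : Fin k → Fin n → Fin g) (u v : Fin n → Fin g),
    M.Result T (fun i => (x i, (fun j => y j i), u i, v i)) true ∨
      ∀ t : ℕ, ¬ M.Result t (fun i => (x i, (fun j => y j i), u i, v i)) true) ∧
    (nest k R (fun y : Fin k → Fin n → Fin g => game n fun u v =>
      M.Result T (fun i => (x i, (fun j => y j i), u i, v i)) true) ↔ A)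

end Pool.Agent.PSM
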