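import Pool.Agent.PSM.Num

/-!
# Linear space against cellular automata: the automaton as a number (helper38)

* `sc k g C`: number of states of the coded automaton; `ltr`: the number of a letter; `stw`: the coded start;
* **`code`**: every automaton is a table `E`, and its first output is read off from the state mod `3`.

States of the coded automaton: `3 s + flag`, `s = 0`: blank, `1 ≤ s ≤ 2 g ^ k`: input letters, then the states of the
automaton; flag: first output so far (`0`: none, `1`: accept, `2`: reject).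
-/

set_option autoImplicit false

open Finset

namespace Pool.Agent.PSM

/-- number of states of the coded automaton -/
def sc (k g C : ℕ) : ℕ := 3 * (1 + 2 * g ^ k + C)

variable {k g : ℕ}

/-- the number of a letter -/
def ltr (x : Bool) (y : Fin k → Fin g) : ℕ := x.toNat + 2 * ∑ j, (y j : ℕ) * g ^ (j : ℕ)

/-- the coded start -/
def stw {n : ℕ} (w : Fin n → Bool × (Fin k → Fin g)) : ℕ → ℕ :=
  fun i => if h : i < n then 3 * (1 + ltr (w ⟨i, h⟩).1 (w ⟨i, h⟩).2) else 0

/-! ### digits -/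

private lemma en_succ (a len : ℕ) (r : ℕ → ℕ) : en a (len + 1) r = en a len r + r len * a ^ len := by
  unfold en
  rw [sum_range_succ]

private lemma en_ltc {a len : ℕ} {r : ℕ → ℕ} (h : ∀ i < len, r i < a) : en a len r < a ^ len := by
  induction len with
  | zero => simp [en]
  | succ len ih =>
    rw [en_succ, pow_succ]
    have h1 := ih fun i hi => h i (by omega)
    have h2 : r len + 1 ≤ a := h len (by omega)
    calc en a len r + r len * a ^ len < a ^ len + r len * a ^ len := by omega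
      _ = (r len + 1) * a ^ len := by ring
      _ ≤ a * a ^ len := Nat.mul_le_mul_right _ h2
      _ = a ^ len * a := by ring

private lemma dg_enc {a len : ℕ} {r : ℕ → ℕ} (h : ∀ i < len, r i < a) {i : ℕ} (hi : i < len) :
    dg a i (en a len r) = r i := by
  induction len with
  | zero => omega
  | succ len ih =>
    have h1 := en_ltc (r := r) (fun i hi => h i (by omega) : ∀ i < len, r i < a)
    have ha : 0 < a := (Nat.zero_le _).trans_lt (h len (by omega))
    rw [en_succ]
    unfold dg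
    rcases Nat.lt_succ_iff_lt_or_eq.1 hi with h2 | h2
    · have h3 := ih (fun i hi => h i (by omega)) h2
      obtain ⟨c, rfl⟩ : ∃ c, len = i + 1 + c := ⟨len - (i + 1), by omega⟩
      unfold dg at h3
      rw [show r (i + 1 + c) * a ^ (i + 1 + c) = a ^ i * (a * (r (i + 1 + c) * a ^ c)) by ring,
        Nat.add_mul_div_left _ _ (Nat.pow_pos ha), Nat.add_mul_mod_self_left, h3]
    · subst h2
      rw [Nat.add_mul_div_right _ _ (Nat.pow_pos ha), Nat.div_eq_of_lt h1, zero_add,
        Nat.mod_eq_of_lt (h i (by omega))]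

/-! ### letters -/

theorem ltr_eq (x : Bool) (y : Fin k → Fin g) : ltr x y = x.toNat + 2 * (finFunctionFinEquiv y : ℕ) := by
  unfold ltr
  rw [finFunctionFinEquiv_apply]

theorem ltr_lt (x : Bool) (y : Fin k → Fin g) : ltr x y < 2 * g ^ k := by
  rw [ltr_eq]
  have h1 := (finFunctionFinEquiv y).2
  have h2 : x.toNat ≤ 1 := Bool.toNat_le x
  omega

theorem ltr_inj {x x' : Bool} {y y' : Fin k → Fin g} (h : ltr x y = ltr x' y') : x = x' ∧ y = y' := by
  rw [ltr_eq, ltr_eq] at h
  have h2 : x.toNat ≤ 1 := Bool.toNat_le x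
  have h3 : x'.toNat ≤ 1 := Bool.toNat_le x'
  have h4 : x.toNat = x'.toNat := by omega
  refine ⟨?_, finFunctionFinEquiv.injective (Fin.ext (by omega))⟩
  cases x <;> cases x' <;> simp_all

theorem stw_lt {n : ℕ} (w : Fin n → Bool × (Fin k → Fin g)) (C : ℕ) (i : ℕ) : stw w i < sc k g C := by
  unfold stw sc
  split_ifs with h
  · have := ltr_lt (w ⟨i, h⟩).1 (w ⟨i, h⟩).2
    omega
  · omega

/-! ### the coded automaton -/

section

variable {d : ℕ} {Q : Type} [Fintype Q] (M : CA (d + 1) (Bool × (Fin k → Fin g)) Q)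

open Classical in
/-- the state of a code -/
noncomputable def dcs (c : ℕ) : Q :=
  if c / 3 = 0 then M.blank
  else if h : ∃ a : Bool × (Fin k → Fin g), ltr a.1 a.2 = c / 3 - 1 then M.inp h.choose
  else if h : c / 3 - 1 - 2 * g ^ k < Fintype.card Q then (Fintype.equivFin Q).symm ⟨c / 3 - 1 - 2 * g ^ k, h⟩
  else M.blank

/-- the code of a state with a flag -/
noncomputable def ecs (k g : ℕ) (a : Q) (fl : ℕ) : ℕ := 3 * (1 + 2 * g ^ k + (Fintype.equivFin Q a : ℕ)) + fl

omit [Fintype Q] in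
/-- the flag of an output -/
def flg : Option Bool → ℕ
  | none => 0
  | some true => 1
  | some false => 2

lemma flg_lt (o : Option Bool) : flg o < 3 := by
  rcases o with _ | _ | _ <;> decide

lemma dcs_blank : dcs M 0 = M.blank := by
  unfold dcs
  simp

lemma dcs_inp (a : Bool × (Fin k → Fin g)) : dcs M (3 * (1 + ltr a.1 a.2)) = M.inp a := by
  have h0 : 3 * (1 + ltr a.1 a.2) / 3 = 1 + ltr a.1 a.2 := by omega
  have h1 : ∃ b : Bool × (Fin k → Fin g), ltr b.1 b.2 = 3 * (1 + ltr a.1 a.2) / 3 - 1 := ⟨a, by omega⟩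
  unfold dcs
  rw [if_neg (by omega), dif_pos h1]
  have h2 := h1.choose_spec
  have h3 : ltr h1.choose.1 h1.choose.2 = ltr a.1 a.2 := by rw [h2]; omega
  have h4 := ltr_inj h3
  congr 1
  exact Prod.ext h4.1 h4.2

lemma dcs_ecs (a : Q) {fl : ℕ} (hfl : fl < 3) : dcs M (ecs k g a fl) = a := by
  have h0 : ecs k g a fl / 3 = 1 + 2 * g ^ k + (Fintype.equivFin Q a : ℕ) := by
    unfold ecs
    omega
  have h1 : ¬ ∃ b : Bool × (Fin k → Fin g), ltr b.1 b.2 = ecs k g a fl / 3 - 1 := by
    rintro ⟨b, hb⟩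
    have := ltr_lt b.1 b.2
    omega
  have h2 := (Fintype.equivFin Q a).2
  have h3 : ecs k g a fl / 3 - 1 - 2 * g ^ k < Fintype.card Q := by omega
  unfold dcs
  rw [if_neg (by omega), dif_neg h1, dif_pos h3]
  rw [Equiv.symm_apply_eq]
  exact Fin.ext (by simp only; omega)

lemma ecs_lt (a : Q) {fl : ℕ} (hfl : fl < 3) : ecs k g a fl < sc k g (Fintype.card Q) := by
  have h2 := (Fintype.equivFin Q a).2
  unfold ecs sc
  omega

/-- the number of a neighbour -/
def ixn {D : ℕ} (e : Fin D → Fin 3) : ℕ := en 3 D fun i => if h : i < D then (e ⟨i, h⟩ : ℕ) else 0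

lemma ixn_lt {D : ℕ} (e : Fin D → Fin 3) : ixn e < 3 ^ D :=
  en_ltc fun i hi => by
    rw [dif_pos hi]
    exact (e ⟨i, hi⟩).2

lemma dg_ixn {D : ℕ} (e : Fin D → Fin 3) (i : Fin D) : dg 3 i (ixn e) = e i := by
  unfold ixn
  rw [dg_enc (fun i hi => by rw [dif_pos hi]; exact (e ⟨i, hi⟩).2) i.2, dif_pos i.2]

/-- the rule on codes -/
noncomputable def ruc (c : ℕ → ℕ) : ℕ :=
  ecs k g (M.rule fun e => dcs M (c (ixn e)))
    (if c (ixn fun _ : Fin (d + 1) => 1) % 3 = 0 then flg (M.out (dcs M (c (ixn fun _ : Fin (d + 1) => 1))))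
      else c (ixn fun _ : Fin (d + 1) => 1) % 3)

lemma ruc_lt (c : ℕ → ℕ) : ruc M c < sc k g (Fintype.card Q) := by
  unfold ruc
  refine ecs_lt _ ?_
  split_ifs
  · exact flg_lt _
  · exact Nat.mod_lt _ (by norm_num)

lemma ruc_congr {c c' : ℕ → ℕ} (h : ∀ e < 3 ^ (d + 1), c e = c' e) : ruc M c = ruc M c' := by
  unfold ruc
  have h1 : ∀ e : Fin (d + 1) → Fin 3, c (ixn e) = c' (ixn e) := fun e => h _ (ixn_lt e)
  simp only [h1]

/-- the table -/
noncomputable def tbc : ℕ :=
  en (sc k g (Fintype.card Q)) (sc k g (Fintype.card Q) ^ (3 ^ (d + 1))) fun a =>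
    ruc M fun e => dg (sc k g (Fintype.card Q)) e a

lemma tbc_lt : tbc M < sc k g (Fintype.card Q) ^ (sc k g (Fintype.card Q) ^ (3 ^ (d + 1))) :=
  en_ltc fun _ _ => ruc_lt M _

lemma tbc_spec {c : ℕ → ℕ} (hc : ∀ e < 3 ^ (d + 1), c e < sc k g (Fintype.card Q)) :
    dg (sc k g (Fintype.card Q)) (en (sc k g (Fintype.card Q)) (3 ^ (d + 1)) c) (tbc M) = ruc M c := by
  unfold tbc
  rw [dg_enc (fun _ _ => ruc_lt M _) (en_ltc hc)]
  exact ruc_congr M fun e he => dg_enc hc he

/-! ### the run -/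

variable {n : ℕ} (w : Fin n → Bool × (Fin k → Fin g))

/-- the coded configuration -/
noncomputable def cfc (t : ℕ) (z : Fin (d + 1) → ℤ) : ℕ :=
  evZ (sc k g (Fintype.card Q)) (tbc M) (stZ n (stw w)) t z

lemma cfc_lt (t : ℕ) (z : Fin (d + 1) → ℤ) : cfc M w t z < sc k g (Fintype.card Q) := by
  have h0 : 0 < sc k g (Fintype.card Q) := by
    unfold sc
    omega
  cases t with
  | zero =>
    show stZ n (stw w) z < _
    unfold stZ
    split_ifs
    · exact stw_lt w _ _
    · exact h0
  | succ t =>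
    show dg _ _ _ < _
    exact Nat.mod_lt _ h0

lemma cfc_succ (t : ℕ) (z : Fin (d + 1) → ℤ) :
    cfc M w (t + 1) z = ruc M fun e => cfc M w t fun i => z i + (dg 3 i e : ℤ) - 1 :=
  tbc_spec M fun _ _ => cfc_lt M w t _

lemma dcs_cfc (t : ℕ) (z : Fin (d + 1) → ℤ) : dcs M (cfc M w t z) = M.step^[t] (M.start w) z := by
  induction t generalizing z with
  | zero =>
    show dcs M (stZ n (stw w) z) = M.start w z
    unfold stZ CA.start
    by_cases h : (∀ i, i ≠ 0 → z i = 0) ∧ 0 ≤ z 0 ∧ (z 0).toNat < n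
    · rw [if_pos h, dif_pos h]
      unfold stw
      rw [dif_pos h.2.2]
      exact dcs_inp M _
    · rw [if_neg h, dif_neg h]
      exact dcs_blank M
  | succ t ih =>
    rw [cfc_succ, Function.iterate_succ_apply']
    unfold ruc
    rw [dcs_ecs]
    · show M.rule _ = M.rule _
      congr 1
      funext e
      rw [ih]
      simp only [dg_ixn]
    · split_ifs
      · exact flg_lt _
      · exact Nat.mod_lt _ (by norm_num)

/-- the state of the cell `z` -/
def stt (t : ℕ) (z : Fin (d + 1) → ℤ) : Q := M.step^[t] (M.start w) z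

lemma flag_succ (t : ℕ) (z : Fin (d + 1) → ℤ) :
    cfc M w (t + 1) z % 3 = if cfc M w t z % 3 = 0 then flg (M.out (stt M w t z)) else cfc M w t z % 3 := by
  have e1 : (fun i : Fin (d + 1) => z i + ((dg 3 i (ixn fun _ : Fin (d + 1) => 1) : ℕ) : ℤ) - 1) = z := by
    funext i
    rw [dg_ixn]
    simp
  rw [cfc_succ]
  unfold ruc ecs
  simp only [e1, dcs_cfc]
  rw [show ∀ a b : ℕ, (3 * a + b) % 3 = b % 3 from fun a b => by omega, Nat.mod_eq_of_lt]
  · rfl
  · split_ifs
    · exact flg_lt _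
    · exact Nat.mod_lt _ (by norm_num)

lemma flag_zero (z : Fin (d + 1) → ℤ) : cfc M w 0 z % 3 = 0 := by
  show stZ n (stw w) z % 3 = 0
  unfold stZ stw
  split_ifs <;> omega

/-- the flag -/
lemma flag_iff (t : ℕ) (z : Fin (d + 1) → ℤ) :
    (cfc M w t z % 3 = 0 ∧ ∀ s < t, M.out (stt M w s z) = none) ∨
      ∃ s < t, ∃ b, M.out (stt M w s z) = some b ∧ (∀ s' < s, M.out (stt M w s' z) = none) ∧
        cfc M w t z % 3 = flg (some b) := by
  induction t with
  | zero => exact Or.inl ⟨flag_zero M w z, fun s hs => by omega⟩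
  | succ t ih =>
    rw [flag_succ]
    rcases ih with ⟨h1, h2⟩ | ⟨s, hs, b, h1, h2, h3⟩
    · rw [if_pos h1]
      rcases ho : M.out (stt M w t z) with _ | b
      · refine Or.inl ⟨rfl, fun s hs => ?_⟩
        rcases Nat.lt_succ_iff_lt_or_eq.1 hs with h | h
        · exact h2 s h
        · rw [h, ho]
      · exact Or.inr ⟨t, by omega, b, ho, h2, rfl⟩
    · have h4 : cfc M w t z % 3 ≠ 0 := by
        rw [h3]
        cases b <;> decide
      rw [if_neg h4]
      exact Or.inr ⟨s, by omega, b, h1, h2, h3⟩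

end

/-- **the automaton as a number** -/
theorem code {d : ℕ} {Q : Type} [Fintype Q] (M : CA (d + 1) (Bool × (Fin k → Fin g)) Q) :
    ∃ E : ℕ, E < sc k g (Fintype.card Q) ^ (sc k g (Fintype.card Q) ^ (3 ^ (d + 1))) ∧
      ∀ (n : ℕ) (w : Fin n → Bool × (Fin k → Fin g)) (T T' : ℕ), T < T' → (∃ b, M.Result T w b) →
        (evZ (sc k g (Fintype.card Q)) E (stZ (d := d) n (stw w)) T' 0 % 3 = 1 ↔ M.Result T w true) := by
  refine ⟨tbc M, tbc_lt M, fun n w T T' hT hb => ?_⟩
  obtain ⟨b0, s0, hs0, o0, n0⟩ := hb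
  have o0' : M.out (stt M w s0 0) = some b0 := o0
  have n0' : ∀ s < s0, M.out (stt M w s 0) = none := n0
  have key : ∃ s < T', ∃ b, M.out (stt M w s 0) = some b ∧ (∀ s' < s, M.out (stt M w s' 0) = none) ∧
      cfc M w T' 0 % 3 = flg (some b) := by
    rcases flag_iff M w T' 0 with ⟨-, h2⟩ | h
    · rw [h2 s0 (by omega)] at o0'
      exact absurd o0' (by simp)
    · exact h
  obtain ⟨s, hs, b, h1, h2, h3⟩ := key
  have hss : s = s0 := by
    rcases lt_trichotomy s s0 with h | h | h
    · rw [n0' s h] at h1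
      exact absurd h1 (by simp)
    · exact h
    · rw [h2 s0 h] at o0'
      exact absurd o0' (by simp)
  subst hss
  have hbb : b = b0 := by
    rw [h1] at o0'
    exact Option.some.inj o0'
  subst hbb
  show cfc M w T' 0 % 3 = 1 ↔ _
  rw [h3]
  constructor
  · intro h
    cases b with
    | false => exact absurd h (by decide)
    | true => exact ⟨s, hs0, o0, n0⟩
  · rintro ⟨s', hs', o', n'⟩
    have o'' : M.out (stt M w s' 0) = some true := o'
    have n'' : ∀ s < s', M.out (stt M w s 0) = none := n'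
    have : s' = s := by
      rcases lt_trichotomy s' s with h | h | h
      · rw [n0' s' h] at o''
        exact absurd o'' (by simp)
      · exact h
      · rw [n'' s h] at h1
        exact absurd h1 (by simp)
    subst this
    rw [h1] at o''
    rw [Option.some.inj o'']
    rfl

end Pool.Agent.PSM
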