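import Pool.Agent.PSM.Num

/-!
# Linear space against cellular automata: the cone (helper9, row E)

* `cone`: the block `j` at the time `(K + 1) b` from its `3 ^ D` neighbour blocks at the time `K b`;
* `ok_teW`; **`V_teW`**: the values of the tree evaluation are the states of the automaton.
-/

set_option autoImplicit false

open Finset

namespace Pool.Agent.PSM.Cn

/-! ### digits -/

theorem dg_lt {a : ℕ} (h : 0 < a) (i m : ℕ) : dg a i m < a := Nat.mod_lt _ h

theorem en_succ (a len : ℕ) (r : ℕ → ℕ) : en a (len + 1) r = en a len r + r len * a ^ len := by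
  unfold en
  rw [sum_range_succ]

theorem en_lt {a len : ℕ} {r : ℕ → ℕ} (h : ∀ i < len, r i < a) : en a len r < a ^ len := by
  induction len with
  | zero => simp [en]
  | succ len ih =>
    have h1 := ih fun i hi => h i (by omega)
    have h2 := h len (by omega)
    rw [en_succ, pow_succ]
    have h3 : (r len + 1) * a ^ len ≤ a * a ^ len := Nat.mul_le_mul_right _ h2
    linarith [h3, mul_comm a (a ^ len), add_mul (r len) 1 (a ^ len), one_mul (a ^ len)]

theorem dg_en {a len : ℕ} {r : ℕ → ℕ} (h : ∀ i < len, r i < a) {i : ℕ} (hi : i < len) :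
    dg a i (en a len r) = r i := by
  induction len with
  | zero => omega
  | succ len ih =>
    have ha : 0 < a := (Nat.zero_le _).trans_lt (h i hi)
    have h1 := en_lt (r := r) fun i hi => h i (by omega : i < len + 1)
    rw [en_succ]
    rcases Nat.lt_succ_iff_lt_or_eq.1 hi with h2 | h2
    · have h3 := ih (fun i hi => h i (by omega)) h2
      obtain ⟨k, hk⟩ : ∃ k, len = i + (k + 1) := ⟨len - i - 1, by omega⟩
      have e : r len * a ^ len = a ^ i * (r len * a ^ (k + 1)) := by
        rw [hk, pow_add]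
        ring
      unfold dg at h3 ⊢
      rw [e, Nat.add_mul_div_left _ _ (pow_pos ha i), pow_succ, ← mul_assoc, Nat.add_mul_mod_self_right]
      exact h3
    · subst h2
      unfold dg
      rw [mul_comm, Nat.add_mul_div_left _ _ (pow_pos ha i),
        Nat.div_eq_of_lt (en_lt fun j hj => h j (by omega)), zero_add, Nat.mod_eq_of_lt (h i hi)]

theorem en_congr {a len : ℕ} {r r' : ℕ → ℕ} (h : ∀ i < len, r i = r' i) : en a len r = en a len r' :=
  sum_congr rfl fun i hi => by rw [h i (mem_range.1 hi)]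

end Pool.Agent.PSM.Cn

namespace Pool.Agent.PSM

variable {D d b q T : ℕ}

/-- the states of the automaton are less than `q` -/
theorem evZ_lt (hq : 0 < q) {c : (Fin D → ℤ) → ℕ} (hc : ∀ z, c z < q) (t : ℕ) (z : Fin D → ℤ) :
    evZ q T c t z < q := by
  cases t with
  | zero => exact hc z
  | succ t => exact Cn.dg_lt hq _ _

theorem evZ_add (c : (Fin D → ℤ) → ℕ) (s t : ℕ) : evZ q T (evZ q T c s) t = evZ q T c (s + t) := by
  induction t with
  | zero => rfl
  | succ t ih =>
    funext z
    show dg q (en q (3 ^ D) fun e => evZ q T (evZ q T c s) t fun i => z i + (dg 3 i e : ℤ) - 1) T =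
      dg q (en q (3 ^ D) fun e => evZ q T c (s + t) fun i => z i + (dg 3 i e : ℤ) - 1) T
    rw [ih]

/-- the digits of a neighbour -/
theorem dg_nbW {w z e : ℕ} (h : inW D w z e) {i : ℕ} (hi : i < D) :
    dg w i (nbW D w z e) = dg w i z + dg 3 i e - 1 := by
  refine Cn.dg_en (r := fun i => dg w i z + dg 3 i e - 1) (fun i hi => ?_) hi
  obtain ⟨h1, h2⟩ := h i hi
  omega

theorem nbW_lt {w z e : ℕ} (h : inW D w z e) : nbW D w z e < w ^ D := by
  refine Cn.en_lt fun i hi => ?_
  obtain ⟨h1, h2⟩ := h i hi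
  omega

/-- one step -/
theorem dg_stepW (hq : 0 < q) {w a z : ℕ} (hz : z < w ^ D) : dg q z (stepW D q T w a) =
    dg q (en q (3 ^ D) fun e => if inW D w z e then dg q (nbW D w z e) a else 0) T :=
  Cn.dg_en (r := fun z => dg q (en q (3 ^ D) fun e => if inW D w z e then dg q (nbW D w z e) a else 0) T)
    (fun _ _ => Cn.dg_lt hq _ _) hz

/-- **the light cone**: `s` steps in the window are right at distance `s` from its border -/
theorem window (hq : 0 < q) {w : ℕ} {c : (Fin D → ℤ) → ℕ} (o : Fin D → ℤ) {a : ℕ}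
    (ha : ∀ z < w ^ D, dg q z a = c fun i => o i + (dg w i z : ℤ)) (s : ℕ) :
    ∀ z < w ^ D, (∀ i < D, s ≤ dg w i z ∧ dg w i z + s < w) →
      dg q z (itr (fun _ a => stepW D q T w a) a s) = evZ q T c s fun i => o i + (dg w i z : ℤ) := by
  induction s with
  | zero => exact fun z hz _ => ha z hz
  | succ s ih =>
    intro z hz hs
    show dg q z (stepW D q T w (itr (fun _ a => stepW D q T w a) a s)) =
      dg q (en q (3 ^ D) fun e => evZ q T c s fun i => o i + (dg w i z : ℤ) + (dg 3 i e : ℤ) - 1) T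
    rw [dg_stepW hq hz]
    congr 1
    refine Cn.en_congr fun e _ => ?_
    have hin : inW D w z e := fun i hi => by
      have h1 := hs i hi
      have h2 := Cn.dg_lt (a := 3) (by norm_num) i e
      omega
    rw [if_pos hin, ih _ (nbW_lt hin) fun i hi => ?_]
    · congr 1
      funext i
      rw [dg_nbW hin i.2]
      have h1 := hin i i.2
      push_cast [Nat.cast_sub h1.1]
      ring
    · rw [dg_nbW hin hi]
      have h1 := hs i hi
      have h2 := Cn.dg_lt (a := 3) (by norm_num) i e
      omega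

theorem dg_chW (hb : 0 < b) {z i : ℕ} (hi : i < D) : dg 3 i (chW D b z) = dg (3 * b) i z / b := by
  refine Cn.dg_en (r := fun i => dg (3 * b) i z / b) (fun i _ => ?_) hi
  exact Nat.div_lt_of_lt_mul (by rw [mul_comm b 3]; exact Cn.dg_lt (by positivity) _ _)

theorem chW_lt (hb : 0 < b) (z : ℕ) : chW D b z < 3 ^ D := by
  refine Cn.en_lt fun i _ => ?_
  exact Nat.div_lt_of_lt_mul (by rw [mul_comm b 3]; exact Cn.dg_lt (by positivity) _ _)

theorem dg_clW (hb : 0 < b) {z i : ℕ} (hi : i < D) : dg b i (clW D b z) = dg (3 * b) i z % b :=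
  Cn.dg_en (r := fun i => dg (3 * b) i z % b) (fun _ _ => Nat.mod_lt _ hb) hi

theorem clW_lt (hb : 0 < b) (z : ℕ) : clW D b z < b ^ D :=
  Cn.en_lt fun _ _ => Nat.mod_lt _ hb

theorem dg_ctW (hb : 0 < b) {u i : ℕ} (hi : i < D) : dg (3 * b) i (ctW D b u) = dg b i u + b := by
  refine Cn.dg_en (r := fun i => dg b i u + b) (fun i _ => ?_) hi
  have := Cn.dg_lt hb i u
  omega

theorem ctW_lt (hb : 0 < b) (u : ℕ) : ctW D b u < (3 * b) ^ D := by
  refine Cn.en_lt fun i _ => ?_
  have := Cn.dg_lt hb i u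
  omega

/-- **the block `j` at the time `(K + 1) b` from its neighbour blocks at the time `K b`** -/
theorem cone (hb : 0 < b) (hq : 0 < q) {c : (Fin D → ℤ) → ℕ} (hc : ∀ z, c z < q) (K : ℕ)
    (j : Fin D → ℤ) (u : ℕ) :
    evZ q T c ((K + 1) * b) (fun i => (b : ℤ) * j i + (dg b i u : ℤ)) =
      FbW D q T b (en q ((3 * b) ^ D) fun z => evZ q T c (K * b) fun i =>
        (b : ℤ) * ndZ j (chW D b z) i + (dg b i (clW D b z) : ℤ)) u := by
  have key := window (T := T) hq (w := 3 * b) (c := evZ q T c (K * b)) (fun i => (b : ℤ) * (j i - 1))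
    (a := en q ((3 * b) ^ D) fun z => evZ q T c (K * b) fun i =>
        (b : ℤ) * ndZ j (chW D b z) i + (dg b i (clW D b z) : ℤ)) (fun z hz => ?_) b (ctW D b u)
    (ctW_lt hb u) fun i hi => ?_
  · unfold FbW
    rw [key, evZ_add, show (K + 1) * b = K * b + b by ring]
    congr 1
    funext i
    rw [dg_ctW hb i.2]
    push_cast
    ring
  · rw [Cn.dg_en (fun z _ => evZ_lt hq hc _ _) hz]
    congr 1
    funext i
    unfold ndZ
    rw [dg_chW hb i.2, dg_clW hb i.2]
    have h1 := Nat.div_add_mod (dg (3 * b) i z) b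
    have h2 : (dg (3 * b) i z : ℤ) = b * (dg (3 * b) i z / b : ℕ) + (dg (3 * b) i z % b : ℕ) := by
      exact_mod_cast h1.symm
    rw [h2]
    ring
  · rw [dg_ctW hb hi]
    have := Cn.dg_lt hb i u
    omega

/-- the data are admissible -/
theorem ok_teW (hb : 0 < b) (hq : 0 < q) : (teW D q T b).Ok :=
  ⟨fun z _ => chW_lt hb z, fun z _ => clW_lt hb z, fun _ _ => Cn.dg_lt hq _ _⟩

theorem stZ_lt {n : ℕ} {st : ℕ → ℕ} (hst : ∀ i, st i < q) (z : Fin (d + 1) → ℤ) : stZ n st z < q := by
  unfold stZ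
  split_ifs
  · exact hst _
  · exact (Nat.zero_le _).trans_lt (hst 0)

/-- **the values of the tree evaluation are the states of the automaton** -/
theorem V_teW {n : ℕ} {st : ℕ → ℕ} (hst : ∀ i, st i < q) (K : ℕ) (j : Fin (d + 1) → ℤ) {u : ℕ}
    (hu : u < b ^ (d + 1)) : V (teW (d + 1) q T b) ndZ (lfZ b n st) K j u =
      evZ q T (stZ n st) (K * b) fun i => (b : ℤ) * j i + (dg b i u : ℤ) := by
  have hb : 0 < b := by
    rcases Nat.eq_zero_or_pos b with h | h
    · rw [h] at hu
      simp at hu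
    · exact h
  have hq : 0 < q := (Nat.zero_le _).trans_lt (hst 0)
  induction K generalizing j u with
  | zero =>
    show stZ n st _ = evZ q T (stZ n st) (0 * b) _
    rw [zero_mul]
    rfl
  | succ K ih =>
    show FbW (d + 1) q T b (en q ((3 * b) ^ (d + 1)) fun z =>
      V (teW (d + 1) q T b) ndZ (lfZ b n st) K (ndZ j (chW (d + 1) b z)) (clW (d + 1) b z)) u = _
    rw [cone hb hq (stZ_lt hst) K j u]
    congr 1
    exact Cn.en_congr fun z _ => ih _ (clW_lt hb z)

end Pool.Agent.PSM
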