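import Pool.Agent.PSM.CADefs

/-!
# Linear space against cellular automata: definitions

* `Prg`, `Run B`: programs with registers, every increment stays at most `B`;
* `num x`: the number of a word; **`LinSpace L`**: `L` is decided by a program whose registers stay at most
  `(num x + 2) ^ c` (linear space: registers of `O(n)` bits);
* `Decides`: the right answer with `k` quantifiers (see `CADefs` for the automata and quantifiers).
-/

set_option autoImplicit false

namespace Pool.Agent.PSM

/-! ### linear space -/

/-- programs: increment, decrement, one after the other, repeat while a register is not zero -/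
inductive Prg : Type
  | inc (i : ℕ) : Prg
  | dec (i : ℕ) : Prg
  | seq (p q : Prg) : Prg
  | loop (i : ℕ) (p : Prg) : Prg

/-- `Run B p s t`: the program `p`, started with the registers `s`, stops with the registers `t`, and every increment
gives a value at most `B` -/
inductive Run (B : ℕ) : Prg → (ℕ → ℕ) → (ℕ → ℕ) → Prop
  | inc (i : ℕ) (s : ℕ → ℕ) (h : s i + 1 ≤ B) : Run B (Prg.inc i) s (Function.update s i (s i + 1))
  | dec (i : ℕ) (s : ℕ → ℕ) : Run B (Prg.dec i) s (Function.update s i (s i - 1))
  | seq {p q : Prg} {s t u : ℕ → ℕ} (h : Run B p s t) (h' : Run B q t u) : Run B (Prg.seq p q) s u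
  | stop {i : ℕ} {p : Prg} {s : ℕ → ℕ} (h : s i = 0) : Run B (Prg.loop i p) s s
  | step {i : ℕ} {p : Prg} {s t u : ℕ → ℕ} (h : s i ≠ 0) (h' : Run B p s t)
      (h'' : Run B (Prg.loop i p) t u) : Run B (Prg.loop i p) s u

/-- the number of a word: binary, the first letter is the lowest digit, a last digit `1` marks the length -/
def num : List Bool → ℕ
  | [] => 1
  | b :: l => 2 * num l + b.toNat

/-- **linear space**: one program, registers at most `(num x + 2) ^ c`; input in the register `0`, output there -/
def LinSpace (L : Set (List Bool)) : Prop :=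
  ∃ (p : Prg) (c : ℕ), ∀ x : List Bool, ∃ t : ℕ → ℕ,
    Run ((num x + 2) ^ c) p (fun i => if i = 0 then num x else 0) t ∧ (x ∈ L → t 0 = 1) ∧ (x ∉ L → t 0 = 0)

/-! ### the right answer, without a game -/

variable {d k g n : ℕ} {Q : Type}

/-- **the automaton `M` with the quantifiers `R` gives, within `T` steps, the right answer `A` on the word `x`**: for
all words `y` it stops within `T` steps, and `R_1 y_1 .. R_k y_k (M accepts (x, y))` holds exactly if `A` does -/
def Decides (M : CA (d + 1) (Bool × (Fin k → Fin g)) Q) (R : Fin k → Quant) (T : ℕ) (x : Fin n → Bool)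
    (A : Prop) : Prop :=
  (∀ y : Fin k → Fin n → Fin g, ∃ b, M.Result T (fun i => (x i, fun j => y j i)) b) ∧
    (nest k R (fun y : Fin k → Fin n → Fin g => M.Result T (fun i => (x i, fun j => y j i)) true) ↔ A)

end Pool.Agent.PSM
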