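import Pool.Agent.PSM.Num

/-!
# Digits (helper27)

`dg a i m` = digit `i` of `m` in base `a`; `en a len r` = number with the digits `r i`, `i < len`.
-/

set_option autoImplicit false

open Finset

namespace Pool.Agent.PSM

/-! ### `itr` -/

theorem itr_zero {α : Type} (F : ℕ → α → α) (r : α) : itr F r 0 = r := rfl

theorem itr_succ {α : Type} (F : ℕ → α → α) (r : α) (n : ℕ) : itr F r (n + 1) = F n (itr F r n) := rfl

theorem itr_congr {α : Type} {F G : ℕ → α → α} (r : α) (n : ℕ) (h : ∀ i < n, ∀ s, F i s = G i s) :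
    itr F r n = itr G r n := by
  induction n with
  | zero => rfl
  | succ n ih =>
    rw [itr_succ, itr_succ, ih fun i hi => h i (by omega), h n (by omega)]

theorem itr_add {α : Type} (F : ℕ → α → α) (r : α) (m n : ℕ) :
    itr F r (m + n) = itr (fun i => F (m + i)) (itr F r m) n := by
  induction n with
  | zero => rfl
  | succ n ih => rw [← add_assoc, itr_succ, itr_succ, ih]

/-- first step first -/
theorem itr_succ' {α : Type} (F : ℕ → α → α) (r : α) (n : ℕ) :
    itr F r (n + 1) = itr (fun i => F (i + 1)) (F 0 r) n := by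
  rw [add_comm, itr_add]
  congr 1
  funext i
  rw [add_comm]

/-- a loop of `a * b` steps as `a` loops of `b` steps -/
theorem itr_mul {α : Type} (F : ℕ → α → α) (r : α) (a b : ℕ) :
    itr F r (a * b) = itr (fun y r => itr (fun i => F (y * b + i)) r b) r a := by
  induction a with
  | zero => simp [itr_zero]
  | succ a ih => rw [Nat.add_mul, one_mul, itr_add, itr_succ, ih]

/-- a map of states commutes with the loop -/
theorem itr_map {α β : Type} {F : ℕ → α → α} {G : ℕ → β → β} (φ : α → β) (r : α) (n : ℕ)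
    (h : ∀ i < n, ∀ s, φ (F i s) = G i (φ s)) : φ (itr F r n) = itr G (φ r) n := by
  induction n with
  | zero => rfl
  | succ n ih => rw [itr_succ, itr_succ, h n (by omega), ih fun i hi => h i (by omega)]

/-- an invariant of a loop -/
theorem itr_ind {α : Type} {F : ℕ → α → α} (I : ℕ → α → Prop) {r : α} (n : ℕ) (h0 : I 0 r)
    (h : ∀ i < n, ∀ s, I i s → I (i + 1) (F i s)) : I n (itr F r n) := by
  induction n with
  | zero => exact h0
  | succ n ih => exact h n (by omega) _ (ih fun i hi => h i (by omega))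

/-- two loops, an invariant relation -/
theorem itr_rel {α β : Type} {F : ℕ → α → α} {G : ℕ → β → β} (I : ℕ → α → β → Prop) {r : α} {s : β} (n : ℕ)
    (h0 : I 0 r s) (h : ∀ i < n, ∀ x y, I i x y → I (i + 1) (F i x) (G i y)) : I n (itr F r n) (itr G s n) := by
  induction n with
  | zero => exact h0
  | succ n ih => exact h n (by omega) _ _ (ih fun i hi => h i (by omega))

/-! ### one digit -/

theorem dg_lt {a : ℕ} (ha : 0 < a) (i m : ℕ) : dg a i m < a := Nat.mod_lt _ ha

theorem dg_le (a i m : ℕ) : dg a i m ≤ m := (Nat.mod_le _ _).trans (Nat.div_le_self _ _)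

theorem dg_zero (a m : ℕ) : dg a 0 m = m % a := by simp [dg]

theorem dg_of_zero (a i : ℕ) : dg a i 0 = 0 := by simp [dg]

theorem dg_succ (a i m : ℕ) : dg a (i + 1) m = dg a i (m / a) := by
  unfold dg
  rw [pow_succ', Nat.div_div_eq_div_mul]

theorem dg_add (a i j m : ℕ) : dg a (i + j) m = dg a i (m / a ^ j) := by
  unfold dg
  rw [Nat.div_div_eq_div_mul, pow_add, mul_comm]

/-- digits of the remainder -/
theorem dg_mod_pow {a i len : ℕ} (m : ℕ) (hi : i < len) : dg a i (m % a ^ len) = dg a i m := by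
  unfold dg
  obtain ⟨c, rfl⟩ : ∃ c, len = i + 1 + c := ⟨len - (i + 1), by omega⟩
  have h1 : m % a ^ (i + 1 + c) / a ^ i = m / a ^ i % a ^ (1 + c) := by
    rw [show i + 1 + c = i + (1 + c) by omega, pow_add, Nat.mod_mul_right_div_self]
  rw [h1, pow_add, pow_one, Nat.mod_mul_right_mod]

/-- the high digits are zero -/
theorem dg_pos_len {a i len m : ℕ} (hm : m < a ^ len) (hi : len ≤ i) : dg a i m = 0 := by
  unfold dg
  rcases Nat.eq_zero_or_pos a with rfl | ha
  · rcases Nat.eq_zero_or_pos len with rfl | hl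
    · have : m = 0 := by simpa using hm
      subst this
      simp
    · rw [zero_pow (by omega)] at hm
      omega
  · rw [Nat.div_eq_of_lt (hm.trans_le (Nat.pow_le_pow_right ha hi)), Nat.zero_mod]

/-- digits of `N + D W ^ h`, `N < W ^ h` -/
theorem dg_add_mul {W h : ℕ} {N D : ℕ} (hN : N < W ^ h) (i : ℕ) :
    dg W i (N + D * W ^ h) = if i < h then dg W i N else dg W (i - h) D := by
  split_ifs with hi
  · rw [← dg_mod_pow _ hi, Nat.add_mul_mod_self_right, dg_mod_pow _ hi]
  · obtain ⟨c, rfl⟩ : ∃ c, i = c + h := ⟨i - h, by omega⟩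
    rw [dg_add, Nat.add_mul_div_right _ _ (by omega), Nat.div_eq_of_lt hN, zero_add, Nat.add_sub_cancel]

theorem dg_add_mul_lt {W h i : ℕ} {N D : ℕ} (hN : N < W ^ h) (hi : i < h) :
    dg W i (N + D * W ^ h) = dg W i N := by
  rw [dg_add_mul hN, if_pos hi]

theorem dg_add_mul_eq {W h : ℕ} {N D : ℕ} (hN : N < W ^ h) (hD : D < W) :
    dg W h (N + D * W ^ h) = D := by
  rw [dg_add_mul hN, if_neg (lt_irrefl _), Nat.sub_self, dg_zero, Nat.mod_eq_of_lt hD]

/-- the part above the digits `< i` -/
theorem div_pow_eq (a i m : ℕ) : m / a ^ i = dg a i m + m / a ^ (i + 1) * a := by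
  unfold dg
  rw [pow_succ, ← Nat.div_div_eq_div_mul]
  have := Nat.mod_add_div (m / a ^ i) a
  rw [mul_comm] at this
  omega

/-- `n` is a multiple of `a ^ i` exactly if its digits `< i` are zero -/
theorem mod_pow_eq_zero_iff (a i m : ℕ) : m % a ^ i = 0 ↔ ∀ j < i, dg a j m = 0 := by
  rcases Nat.eq_zero_or_pos a with rfl | ha
  · rcases Nat.eq_zero_or_pos i with rfl | hi
    · simp [Nat.mod_one]
    · rw [zero_pow (by omega), Nat.mod_zero]
      constructor
      · rintro rfl j _
        exact dg_of_zero _ _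
      · intro h
        have := h 0 hi
        rwa [dg_zero, Nat.mod_zero] at this
  induction i with
  | zero => simp [Nat.mod_one]
  | succ i ih =>
    have hkey : m % a ^ (i + 1) = m % a ^ i + a ^ i * dg a i m := by
      unfold dg
      rw [pow_succ, Nat.mod_mul]
    have hp : 0 < a ^ i := Nat.pow_pos ha
    constructor
    · intro h j hj
      rw [hkey, Nat.add_eq_zero_iff] at h
      rcases Nat.lt_or_ge j i with hji | hji
      · exact ih.1 h.1 j hji
      · obtain rfl : j = i := by omega
        rcases Nat.mul_eq_zero.1 h.2 with h' | h'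
        · omega
        · exact h'
    · intro h
      rw [hkey, h i (by omega), ih.2 fun j hj => h j (by omega)]
      simp

/-! ### the number of digits -/

theorem en_zero (a : ℕ) (r : ℕ → ℕ) : en a 0 r = 0 := by simp [en]

theorem en_succ (a n : ℕ) (r : ℕ → ℕ) : en a (n + 1) r = en a n r + r n * a ^ n := by
  unfold en
  rw [sum_range_succ]

theorem en_succ' (a n : ℕ) (r : ℕ → ℕ) : en a (n + 1) r = r 0 + a * en a n fun i => r (i + 1) := by
  unfold en
  rw [sum_range_succ', pow_zero, mul_one, add_comm, mul_sum]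
  congr 1
  exact sum_congr rfl fun i _ => by rw [pow_succ]; ring

theorem en_congr {a len : ℕ} {r s : ℕ → ℕ} (h : ∀ i < len, r i = s i) : en a len r = en a len s :=
  sum_congr rfl fun i hi => by rw [h i (mem_range.1 hi)]

theorem en_zero_fun (a len : ℕ) : en a len (fun _ => 0) = 0 := by simp [en]

theorem en_add (a len : ℕ) (r s : ℕ → ℕ) : en a len (fun i => r i + s i) = en a len r + en a len s := by
  unfold en
  rw [← sum_add_distrib]
  exact sum_congr rfl fun i _ => by ring

/-- digits `< len`, then the digits from `len` on -/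
theorem en_append (a m n : ℕ) (r : ℕ → ℕ) : en a (m + n) r = en a m r + en a n (fun i => r (m + i)) * a ^ m := by
  unfold en
  rw [sum_range_add, sum_mul]
  congr 1
  exact sum_congr rfl fun i _ => by rw [pow_add]; ring

theorem en_lt {a len : ℕ} {r : ℕ → ℕ} (h : ∀ i < len, r i < a) : en a len r < a ^ len := by
  induction len with
  | zero => simp [en_zero]
  | succ n ih =>
    have h1 := ih fun i hi => h i (by omega)
    have h2 : r n + 1 ≤ a := h n (by omega)
    rw [en_succ, pow_succ]
    calc en a n r + r n * a ^ n < a ^ n + r n * a ^ n := by omega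
      _ = a ^ n * (r n + 1) := by ring
      _ ≤ a ^ n * a := Nat.mul_le_mul_left _ h2

theorem dg_en {a len i : ℕ} {r : ℕ → ℕ} (h : ∀ i < len, r i < a) (hi : i < len) : dg a i (en a len r) = r i := by
  induction len with
  | zero => omega
  | succ n ih =>
    have h1 := en_lt fun i (hi : i < n) => h i (by omega)
    rw [en_succ, dg_add_mul h1]
    split_ifs with hin
    · exact ih (fun i hi => h i (by omega)) hin
    · obtain rfl : i = n := by omega
      rw [Nat.sub_self, dg_zero, Nat.mod_eq_of_lt (h i hi)]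

theorem dg_en_of_le {a len i : ℕ} {r : ℕ → ℕ} (h : ∀ i < len, r i < a) (hi : len ≤ i) : dg a i (en a len r) = 0 :=
  dg_pos_len (en_lt h) hi

/-- the lowest `len` digits -/
theorem en_dg_mod (a len m : ℕ) : en a len (fun i => dg a i m) = m % a ^ len := by
  induction len with
  | zero => simp [en_zero, Nat.mod_one]
  | succ n ih =>
    rw [en_succ, ih, pow_succ, Nat.mod_mul, dg, mul_comm]

theorem en_dg {a len m : ℕ} (hm : m < a ^ len) : en a len (fun i => dg a i m) = m := by
  rw [en_dg_mod, Nat.mod_eq_of_lt hm]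

/-- numbers `< a ^ len` with the same digits are equal -/
theorem eq_of_dg {a len m m' : ℕ} (hm : m < a ^ len) (hm' : m' < a ^ len) (h : ∀ i < len, dg a i m = dg a i m') :
    m = m' := by
  rw [← en_dg hm, ← en_dg hm']
  exact en_congr h

theorem en_eq_iff {a len m : ℕ} {r : ℕ → ℕ} (hr : ∀ i < len, r i < a) (hm : m < a ^ len) :
    en a len r = m ↔ ∀ i < len, r i = dg a i m := by
  constructor
  · rintro rfl i hi
    rw [dg_en hr hi]
  · intro h
    rw [en_congr h, en_dg hm]

theorem en_inj {a len : ℕ} {r s : ℕ → ℕ} (hr : ∀ i < len, r i < a) (hs : ∀ i < len, s i < a)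
    (h : en a len r = en a len s) {i : ℕ} (hi : i < len) : r i = s i := by
  rw [← dg_en hr hi, h, dg_en hs hi]

/-- a number of digits `< a` is at most the number with the same digits in a larger length -/
theorem en_mono {a m n : ℕ} {r : ℕ → ℕ} (h : m ≤ n) : en a m r ≤ en a n r := by
  obtain ⟨c, rfl⟩ := Nat.exists_eq_add_of_le h
  rw [en_append]
  omega

/-! ### sums over all numbers `< q ^ N` -/

theorem dg_prod {R : Type} [CommSemiring R] {q N : ℕ} {v : ℕ → ℕ} (hv : ∀ z < N, v z < q) {a : ℕ}
    (ha : a < q ^ N) : (∏ z ∈ range N, if v z = dg q z a then (1 : R) else 0) = if a = en q N v then 1 else 0 := by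
  split_ifs with h
  · refine prod_eq_one fun z hz => ?_
    rw [h, dg_en hv (mem_range.1 hz), if_pos rfl]
  · have : ¬ ∀ i < N, v i = dg q i a := fun h' => h ((en_eq_iff hv ha).2 h').symm
    push Not at this
    obtain ⟨i, hi, hne⟩ := this
    exact prod_eq_zero (mem_range.2 hi) (if_neg hne)

/-- **the sum over all assignments has one term** -/
theorem sum_dg {R : Type} [CommSemiring R] {q N : ℕ} {v : ℕ → ℕ} (hv : ∀ z < N, v z < q) (G : ℕ → R) :
    ∑ a ∈ range (q ^ N), (∏ z ∈ range N, if v z = dg q z a then (1 : R) else 0) * G a = G (en q N v) := by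
  rw [sum_congr rfl fun a ha => by rw [dg_prod hv (mem_range.1 ha)]]
  rw [sum_eq_single (en q N v)]
  · rw [if_pos rfl, one_mul]
  · intro a _ hne
    rw [if_neg hne, zero_mul]
  · intro h
    exact absurd (mem_range.2 (en_lt hv)) h

/-- the form of `Fh`: `if .. then product else 0` -/
theorem sum_dg_ite {R : Type} [CommSemiring R] {q N : ℕ} {v : ℕ → ℕ} (hv : ∀ z < N, v z < q) (P : ℕ → Prop)
    [DecidablePred P] :
    ∑ a ∈ range (q ^ N), (if P a then ∏ z ∈ range N, if v z = dg q z a then (1 : R) else 0 else 0)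
      = if P (en q N v) then 1 else 0 := by
  rw [← sum_dg hv fun a => if P a then (1 : R) else 0]
  refine sum_congr rfl fun a _ => ?_
  split_ifs <;> simp

/-! ### numbers and functions on `Fin D` -/

/-- a function on `Fin D` as digits -/
def exF {D w : ℕ} (f : Fin D → Fin w) (i : ℕ) : ℕ := if h : i < D then (f ⟨i, h⟩ : ℕ) else 0

theorem exF_lt {D w : ℕ} (f : Fin D → Fin w) {i : ℕ} (hi : i < D) : exF f i < w := by
  rw [exF, dif_pos hi]
  exact (f ⟨i, hi⟩).2

theorem exF_val {D w : ℕ} (f : Fin D → Fin w) (i : Fin D) : exF f i = f i := by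
  rw [exF, dif_pos i.2]

/-- the number of a function -/
def toN {D w : ℕ} (f : Fin D → Fin w) : ℕ := en w D (exF f)

theorem toN_lt {D w : ℕ} (f : Fin D → Fin w) : toN f < w ^ D := en_lt fun _ hi => exF_lt f hi

theorem dg_toN {D w : ℕ} (f : Fin D → Fin w) (i : Fin D) : dg w i (toN f) = f i := by
  rw [toN, dg_en (fun _ hi => exF_lt f hi) i.2, exF_val]

/-- **the bijection** -/
def dgE (w D : ℕ) : Fin (w ^ D) ≃ (Fin D → Fin w) where
  toFun a := fun i => ⟨dg w i a, dg_lt (by
    rcases Nat.eq_zero_or_pos w with rfl | h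
    · have h1 : (a : ℕ) < 0 ^ D := a.2
      have h2 : D ≠ 0 := by
        have := i.2
        omega
      have h3 : (0 : ℕ) ^ D = 0 := zero_pow h2
      omega
    · exact h) _ _⟩
  invFun f := ⟨toN f, toN_lt f⟩
  left_inv a := by
    apply Fin.ext
    change en w D _ = (a : ℕ)
    conv_rhs => rw [← en_dg a.2]
    refine en_congr fun i hi => ?_
    rw [exF, dif_pos hi]
  right_inv f := by
    funext i
    apply Fin.ext
    exact dg_toN f i

theorem dgE_apply (w D : ℕ) (a : Fin (w ^ D)) (i : Fin D) : ((dgE w D a i : Fin w) : ℕ) = dg w i a := rfl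

theorem dgE_symm_val (w D : ℕ) (f : Fin D → Fin w) : (((dgE w D).symm f : Fin (w ^ D)) : ℕ) = toN f := rfl

theorem toN_inj {D w : ℕ} {f g : Fin D → Fin w} (h : toN f = toN g) : f = g := by
  funext i
  apply Fin.ext
  rw [← dg_toN f i, h, dg_toN g i]

/-- the function with given digits -/
def ofN {w : ℕ} (hw : 0 < w) (D m : ℕ) : Fin D → Fin w := fun i => ⟨dg w i m, dg_lt hw _ _⟩

theorem toN_ofN {w : ℕ} (hw : 0 < w) {D m : ℕ} (hm : m < w ^ D) : toN (ofN hw D m) = m := by
  conv_rhs => rw [← en_dg hm]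
  refine en_congr fun i hi => ?_
  rw [exF, dif_pos hi, ofN]

theorem ofN_toN {w : ℕ} (hw : 0 < w) {D : ℕ} (f : Fin D → Fin w) : ofN hw D (toN f) = f := by
  funext i
  apply Fin.ext
  exact dg_toN f i

/-- sums over all numbers `< w ^ D` are sums over all functions -/
theorem sum_range_pow {R : Type} [AddCommMonoid R] (w D : ℕ) (G : ℕ → R) :
    ∑ a ∈ range (w ^ D), G a = ∑ f : Fin D → Fin w, G (toN f) := by
  rw [← Fin.sum_univ_eq_sum_range G (w ^ D), ← (dgE w D).symm.sum_comp fun a : Fin (w ^ D) => G a]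
  rfl

/-- the number of numbers `< w ^ D` with a property -/
theorem card_range_pow (w D : ℕ) (P : ℕ → Prop) [DecidablePred P] :
    ((range (w ^ D)).filter P).card = (univ.filter fun f : Fin D → Fin w => P (toN f)).card := by
  rw [card_filter, card_filter]
  exact sum_range_pow w D fun a => if P a then 1 else 0

theorem exists_lt_pow (w D : ℕ) (P : ℕ → Prop) :
    (∃ a < w ^ D, P a) ↔ ∃ f : Fin D → Fin w, P (toN f) := by
  constructor
  · rintro ⟨a, ha, h⟩
    refine ⟨dgE w D ⟨a, ha⟩, ?_⟩
    have : toN (dgE w D ⟨a, ha⟩) = a := by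
      rw [← dgE_symm_val, Equiv.symm_apply_apply]
    rwa [this]
  · rintro ⟨f, h⟩
    exact ⟨toN f, toN_lt f, h⟩

theorem forall_lt_pow (w D : ℕ) (P : ℕ → Prop) :
    (∀ a < w ^ D, P a) ↔ ∀ f : Fin D → Fin w, P (toN f) := by
  constructor
  · intro h f
    exact h _ (toN_lt f)
  · intro h a ha
    have : toN (dgE w D ⟨a, ha⟩) = a := by
      rw [← dgE_symm_val, Equiv.symm_apply_apply]
    rw [← this]
    exact h _

/-- an empty base: the only function is the empty one -/
theorem toN_fin_zero {w : ℕ} (f : Fin 0 → Fin w) : toN f = 0 := en_zero _ _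

/-- first digit, then the rest -/
theorem toN_cons {D w : ℕ} (f : Fin (D + 1) → Fin w) : toN f = f 0 + w * toN fun i => f i.succ := by
  rw [toN, en_succ', toN, exF, dif_pos (by omega : 0 < D + 1)]
  congr 2
  refine en_congr fun i hi => ?_
  rw [exF, exF, dif_pos (by omega : i + 1 < D + 1), dif_pos hi]
  rfl

/-! ### the index `(t m + u) q + s` -/

theorem idx_lt {F m q t u s : ℕ} (ht : t < F) (hu : u < m) (hs : s < q) : (t * m + u) * q + s < F * m * q := by
  calc (t * m + u) * q + s < (t * m + u) * q + q := by omega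
    _ = (t * m + u + 1) * q := by ring
    _ ≤ (t * m + m) * q := Nat.mul_le_mul_right _ (by omega)
    _ = (t + 1) * m * q := by ring
    _ ≤ F * m * q := Nat.mul_le_mul_right _ (Nat.mul_le_mul_right _ ht)

theorem idx_mod {m q t u s : ℕ} (hs : s < q) : ((t * m + u) * q + s) % q = s := by
  rw [Nat.mul_add_mod_self_right, Nat.mod_eq_of_lt hs]

theorem idx_div {m q t u s : ℕ} (hs : s < q) : ((t * m + u) * q + s) / q = t * m + u := by
  rw [mul_comm, Nat.mul_add_div (by omega), Nat.div_eq_of_lt hs, add_zero]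

theorem idx_div_mod {m q t u s : ℕ} (hu : u < m) (hs : s < q) : ((t * m + u) * q + s) / q % m = u := by
  rw [idx_div hs, Nat.mul_add_mod_self_right, Nat.mod_eq_of_lt hu]

theorem idx_div_mul {m q t u s : ℕ} (hu : u < m) (hs : s < q) : ((t * m + u) * q + s) / (m * q) = t := by
  rw [mul_comm m q, ← Nat.div_div_eq_div_mul, idx_div hs, mul_comm t m, Nat.mul_add_div (by omega),
    Nat.div_eq_of_lt hu, add_zero]

/-- the parts of an index -/
theorem idx_eq (m q i : ℕ) : (i / (m * q) * m + i / q % m) * q + i % q = i := by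
  have h1 : i / (m * q) = i / q / m := by rw [mul_comm m q, Nat.div_div_eq_div_mul]
  rw [h1, Nat.div_add_mod', Nat.div_add_mod']

theorem idx_parts {F m q i : ℕ} (hi : i < F * m * q) : i / (m * q) < F ∧ i / q % m < m ∧ i % q < q := by
  have hq : 0 < q := by
    rcases Nat.eq_zero_or_pos q with rfl | h
    · simp at hi
    · exact h
  have hm : 0 < m := by
    rcases Nat.eq_zero_or_pos m with rfl | h
    · simp at hi
    · exact h
  refine ⟨?_, Nat.mod_lt _ hm, Nat.mod_lt _ hq⟩
  rw [Nat.div_lt_iff_lt_mul (Nat.mul_pos hm hq), ← mul_assoc]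
  exact hi

end Pool.Agent.PSM
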