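import Pool.Agent.PSM.Dig

/-!
# Linear space against cellular automata: more on digits (helper70)

* `dg_div_pow`, `dg_add_mul_ge`, `dg_en_if`, `eq_en`; `sum_dg'`; **`sum_prod_dg`**: a sum over all numbers of a product over
  the digits.
-/

set_option autoImplicit false

open Finset

namespace Pool.Agent.PSM

/-- the digits of the rest -/
theorem dg_div_pow (a h i m : ℕ) : dg a i (m / a ^ h) = dg a (h + i) m := by
  rw [add_comm h i, dg_add]

/-- the digits from `h` on -/
theorem dg_add_mul_ge {W h N : ℕ} (hN : N < W ^ h) (D i : ℕ) : dg W (h + i) (N + D * W ^ h) = dg W i D := by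
  rw [dg_add_mul hN, if_neg (by omega), Nat.add_sub_cancel_left]

/-- the digits of a number with digits `r` -/
theorem dg_en_if {a len : ℕ} {r : ℕ → ℕ} (h : ∀ i < len, r i < a) (i : ℕ) :
    dg a i (en a len r) = if i < len then r i else 0 := by
  split_ifs with hi
  · exact dg_en h hi
  · exact dg_en_of_le h (by omega)

theorem eq_en {a len m : ℕ} {r : ℕ → ℕ} (h : m < a ^ len) (he : ∀ i < len, dg a i m = r i) : m = en a len r := by
  rw [← en_dg h]
  exact en_congr he

/-- the indicator on the other side -/
theorem sum_dg' {R : Type} [CommSemiring R] {q N : ℕ} {v : ℕ → ℕ} (hv : ∀ z < N, v z < q) (G : ℕ → R) :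
    ∑ a ∈ range (q ^ N), (∏ z ∈ range N, if dg q z a = v z then (1 : R) else 0) * G a = G (en q N v) := by
  rw [← sum_dg hv G]
  refine sum_congr rfl fun a _ => ?_
  congr 1
  exact prod_congr rfl fun z _ => by simp only [eq_comm]

/-- **products over the digits** -/
theorem sum_prod_dg {R : Type} [CommSemiring R] (w D : ℕ) (f : ℕ → ℕ → R) :
    ∑ m ∈ range (w ^ D), ∏ i ∈ range D, f i (dg w i m) = ∏ i ∈ range D, ∑ s ∈ range w, f i s := by
  have h1 : ∏ i ∈ range D, ∑ s ∈ range w, f i s = ∏ i : Fin D, ∑ s : Fin w, f i s := by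
    rw [Finset.prod_range fun i => ∑ s ∈ range w, f i s]
    exact Finset.prod_congr rfl fun i _ => Finset.sum_range fun s => f i s
  rw [h1, Finset.prod_univ_sum, sum_range_pow, Fintype.piFinset_univ]
  refine Finset.sum_congr rfl fun e _ => ?_
  rw [Finset.prod_range fun i => f i (dg w i (toN e))]
  exact Finset.prod_congr rfl fun i _ => by rw [dg_toN]

end Pool.Agent.PSM
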