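import Pool.Agent.PSM.EDef

/-!
# Functions computed in linear space: the closure properties

* `Run.mono`, `run_clr`, `run_mov`, `run_cpy`, `run_loop`, `run_fin`: programs;
* `Eat c f`: `E f` with the exponent `c`, `Eat.mono`;
* `E.get`, `E.fst`, `E.snd`, `E.const`, `E.succ`, **`E.comp`**, `E.bind`, **`E.natRec`**, `E.ext`;
* **`linSpace_of`**: a language with a characteristic function in `E` is in `LinSpace`.
-/

set_option autoImplicit false

namespace Pool.Agent.PSM

open Function

/-! ### runs of programs -/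

theorem Run.mono {B B' : ℕ} (h : B ≤ B') {p : Prg} {s t : ℕ → ℕ} (r : Run B p s t) : Run B' p s t := by
  induction r with
  | inc i s h1 => exact Run.inc i s (h1.trans h)
  | dec i s => exact Run.dec i s
  | seq _ _ ih ih' => exact Run.seq ih ih'
  | stop h1 => exact Run.stop h1
  | step h1 _ _ ih ih' => exact Run.step h1 ih ih'

/-- a run with another name of the end -/
theorem Run.to {B : ℕ} {p : Prg} {s t t' : ℕ → ℕ} (r : Run B p s t) (h : t = t') : Run B p s t' := h ▸ r

/-- set a register to zero -/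
def clr (r : ℕ) : Prg := Prg.loop r (Prg.dec r)

theorem run_clr (B r : ℕ) (σ : ℕ → ℕ) : Run B (clr r) σ (update σ r 0) := by
  obtain ⟨n, hn⟩ : ∃ n, n = σ r := ⟨_, rfl⟩
  induction n generalizing σ with
  | zero =>
    refine (Run.stop hn.symm).to ?_
    rw [hn, update_eq_self]
  | succ n ih =>
    refine Run.step (by omega) (Run.dec r σ) ?_
    refine (ih (update σ r (σ r - 1)) (by rw [update_self]; omega)).to ?_
    rw [update_idem]

/-- add the register `r` to `t`, `r` becomes zero -/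
def mov (r t : ℕ) : Prg := Prg.loop r (Prg.seq (Prg.dec r) (Prg.inc t))

theorem run_mov {B r t : ℕ} (hrt : r ≠ t) {σ : ℕ → ℕ} (hB : σ t + σ r ≤ B) :
    Run B (mov r t) σ (update (update σ r 0) t (σ t + σ r)) := by
  obtain ⟨n, hn⟩ : ∃ n, n = σ r := ⟨_, rfl⟩
  induction n generalizing σ with
  | zero =>
    refine (Run.stop hn.symm).to ?_
    funext j
    by_cases j1 : j = t
    · subst j1; simp [← hn]
    · by_cases j2 : j = r
      · subst j2; simp [j1, ← hn]
      · simp [j1, j2]
  | succ n ih =>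
    obtain ⟨σ1, h1⟩ : ∃ σ1, σ1 = update σ r (σ r - 1) := ⟨_, rfl⟩
    obtain ⟨σ2, h2⟩ : ∃ σ2, σ2 = update σ1 t (σ1 t + 1) := ⟨_, rfl⟩
    have a1 : σ1 t = σ t := by rw [h1, update_of_ne hrt.symm]
    have a2 : σ2 r = σ r - 1 := by rw [h2, update_of_ne hrt, h1, update_self]
    have a3 : σ2 t = σ t + 1 := by rw [h2, update_self, a1]
    have r1 : Run B (Prg.dec r) σ σ1 := h1 ▸ Run.dec r σ
    have r2 : Run B (Prg.inc t) σ1 σ2 := h2 ▸ Run.inc t σ1 (by omega)
    refine Run.step (by omega) (Run.seq r1 r2) ((ih (σ := σ2) (by omega) (by omega)).to ?_)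
    have e : σ2 t + σ2 r = σ t + σ r := by omega
    rw [e, h2, h1]
    funext j
    by_cases j1 : j = t
    · subst j1; simp
    · by_cases j2 : j = r
      · subst j2; simp [j1]
      · simp [j1, j2]

/-- add the register `r` to `t` and to `u` -/
def mov2 (r t u : ℕ) : Prg := Prg.loop r (Prg.seq (Prg.dec r) (Prg.seq (Prg.inc t) (Prg.inc u)))

theorem run_mov2 {B r t u : ℕ} (hrt : r ≠ t) (hru : r ≠ u) (htu : t ≠ u) {σ : ℕ → ℕ}
    (hB : σ t + σ r ≤ B) (hB' : σ u + σ r ≤ B) :
    Run B (mov2 r t u) σ (update (update (update σ r 0) t (σ t + σ r)) u (σ u + σ r)) := by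
  obtain ⟨n, hn⟩ : ∃ n, n = σ r := ⟨_, rfl⟩
  induction n generalizing σ with
  | zero =>
    refine (Run.stop hn.symm).to ?_
    funext j
    by_cases j1 : j = u
    · subst j1; simp [← hn]
    · by_cases j2 : j = t
      · subst j2; simp [j1, ← hn]
      · by_cases j3 : j = r
        · subst j3; simp [j1, j2, ← hn]
        · simp [j1, j2, j3]
  | succ n ih =>
    obtain ⟨σ1, h1⟩ : ∃ σ1, σ1 = update σ r (σ r - 1) := ⟨_, rfl⟩
    obtain ⟨σ2, h2⟩ : ∃ σ2, σ2 = update σ1 t (σ1 t + 1) := ⟨_, rfl⟩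
    obtain ⟨σ3, h3⟩ : ∃ σ3, σ3 = update σ2 u (σ2 u + 1) := ⟨_, rfl⟩
    have a1 : σ1 t = σ t := by rw [h1, update_of_ne hrt.symm]
    have a1' : σ1 u = σ u := by rw [h1, update_of_ne hru.symm]
    have a2' : σ2 u = σ u := by rw [h2, update_of_ne htu.symm, a1']
    have a2 : σ3 r = σ r - 1 := by rw [h3, update_of_ne hru, h2, update_of_ne hrt, h1, update_self]
    have a3 : σ3 t = σ t + 1 := by rw [h3, update_of_ne htu, h2, update_self, a1]
    have a4 : σ3 u = σ u + 1 := by rw [h3, update_self, a2']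
    have r1 : Run B (Prg.dec r) σ σ1 := h1 ▸ Run.dec r σ
    have r2 : Run B (Prg.inc t) σ1 σ2 := h2 ▸ Run.inc t σ1 (by omega)
    have r3 : Run B (Prg.inc u) σ2 σ3 := h3 ▸ Run.inc u σ2 (by omega)
    refine Run.step (by omega) (Run.seq r1 (Run.seq r2 r3))
      ((ih (σ := σ3) (by omega) (by omega) (by omega)).to ?_)
    have e : σ3 t + σ3 r = σ t + σ r := by omega
    have e' : σ3 u + σ3 r = σ u + σ r := by omega
    rw [e, e', h3, h2, h1]
    funext j
    by_cases j1 : j = u
    · subst j1; simp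
    · by_cases j2 : j = t
      · subst j2; simp [j1]
      · by_cases j3 : j = r
        · subst j3; simp [j1, j2]
        · simp [j1, j2, j3]

/-- add the register `r` to `t`, `u` a scratch register -/
def cpy (r t u : ℕ) : Prg := Prg.seq (mov2 r t u) (mov u r)

theorem run_cpy {B r t u : ℕ} (hrt : r ≠ t) (hru : r ≠ u) (htu : t ≠ u) {σ : ℕ → ℕ}
    (hB : σ t + σ r ≤ B) (hu : σ u = 0) : Run B (cpy r t u) σ (update σ t (σ t + σ r)) := by
  refine Run.seq (run_mov2 hrt hru htu hB (by omega)) ((run_mov hru.symm ?_).to ?_)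
  · simp [hrt, hru, hu]
    omega
  · funext j
    by_cases j1 : j = r
    · subst j1; simp [hrt, hru, hu]
    · by_cases j2 : j = u
      · subst j2; simp [j1, htu.symm, hu]
      · by_cases j3 : j = t
        · subst j3; simp [j1, j2]
        · simp [j1, j2, j3]

/-- **a loop with known states** -/
theorem run_loop {B i : ℕ} {p : Prg} (n : ℕ) (S : ℕ → ℕ → ℕ) (h0 : ∀ k < n, S k i ≠ 0)
    (hn : S n i = 0) (hs : ∀ k < n, Run B p (S k) (S (k + 1))) : Run B (Prg.loop i p) (S 0) (S n) := by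
  induction n generalizing S with
  | zero => exact Run.stop hn
  | succ n ih =>
    exact Run.step (h0 0 (Nat.succ_pos n)) (hs 0 (Nat.succ_pos n))
      (ih (fun k => S (k + 1)) (fun k hk => h0 (k + 1) (by omega)) hn fun k hk => hs (k + 1) (by omega))

/-- the result from the scratch register `s` to `out` -/
def fin (s out : ℕ) : Prg := Prg.seq (clr out) (mov s out)

theorem run_fin {B s out v : ℕ} (h : out ≠ s) {σ : ℕ → ℕ} (hs : σ s = 0) (hv : v ≤ B) :
    Run B (fin s out) (update σ s v) (update σ out v) := by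
  refine Run.seq (run_clr B out _) ((run_mov h.symm ?_).to ?_)
  · simp [h.symm, hv]
  · funext j
    by_cases j1 : j = out
    · subst j1; simp [h.symm]
    · by_cases j2 : j = s
      · subst j2; simp [j1, hs]
      · simp [j1, j2]

/-- registers of an interval become zero -/
theorem exists_clrs (s n u : ℕ) : ∃ P : Prg, ∀ (B : ℕ) (σ : ℕ → ℕ), σ u = 0 →
    Run B P σ (fun j => if s ≤ j ∧ j < s + n then 0 else σ j) := by
  induction n with
  | zero =>
    refine ⟨clr u, fun B σ hu => (run_clr B u σ).to ?_⟩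
    funext j
    by_cases j1 : j = u
    · subst j1
      simp [hu]
    · rw [update_of_ne j1, if_neg (by omega)]
  | succ n ih =>
    obtain ⟨P, hP⟩ := ih
    refine ⟨Prg.seq P (clr (s + n)), fun B σ hu => Run.seq (hP B σ hu) ((run_clr B _ _).to ?_)⟩
    funext j
    by_cases j1 : j = s + n
    · subst j1
      rw [update_self, if_pos (by omega)]
    · rw [update_of_ne j1]
      by_cases j2 : s ≤ j ∧ j < s + n
      · rw [if_pos j2, if_pos (by omega)]
      · rw [if_neg j2, if_neg (by omega)]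

/-! ### the exponent -/

section

variable {α β : Type} [Ctx α] [Ctx β]

/-- `E f` with the exponent `c` -/
def Eat (c : ℕ) (f : α → ℕ) : Prop :=
  (∀ a, f a ≤ (mx a + 2) ^ c) ∧
    ∀ (ρ : ℕ → ℕ) (out s : ℕ), (∀ i < Ctx.len α, ρ i < s) → out < s →
      ∃ P : Prg, ∀ (a : α) (σ : ℕ → ℕ), (∀ i < Ctx.len α, σ (ρ i) = Ctx.get a i) →
        (∀ j, s ≤ j → σ j = 0) → Run ((mx a + 2) ^ c) P σ (update σ out (f a))

theorem E_iff {f : α → ℕ} : E f ↔ ∃ c, Eat c f := Iff.rfl

theorem pow_mono {a : α} {c c' : ℕ} (h : c ≤ c') : (mx a + 2) ^ c ≤ (mx a + 2) ^ c' :=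
  Nat.pow_le_pow_right (by omega) h

theorem add_two_le {N x c : ℕ} (hN : 2 ≤ N) (h : x ≤ N ^ c) : x + 2 ≤ N ^ (c + 2) := by
  have e1 : 1 ≤ N ^ c := Nat.one_le_pow _ _ (by omega)
  have e2 : N ^ (c + 2) = N ^ c * (N * N) := by rw [pow_add, sq]
  have e3 : 4 ≤ N * N := Nat.mul_le_mul hN hN
  have e4 : N ^ c * 4 ≤ N ^ c * (N * N) := Nat.mul_le_mul_left _ e3
  omega

theorem Eat.mono {c c' : ℕ} (h : c ≤ c') {f : α → ℕ} (hf : Eat c f) : Eat c' f := by
  refine ⟨fun a => (hf.1 a).trans (pow_mono h), fun ρ out s h1 h2 => ?_⟩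
  obtain ⟨P, hP⟩ := hf.2 ρ out s h1 h2
  exact ⟨P, fun a σ h3 h4 => (hP a σ h3 h4).mono (pow_mono h)⟩

/-- it is enough to give the result in the first scratch register -/
theorem Eat.mk' {c : ℕ} {f : α → ℕ} (h0 : ∀ a, f a ≤ (mx a + 2) ^ c)
    (h : ∀ (ρ : ℕ → ℕ) (s : ℕ), (∀ i < Ctx.len α, ρ i < s) →
      ∃ P : Prg, ∀ (a : α) (σ : ℕ → ℕ), (∀ i < Ctx.len α, σ (ρ i) = Ctx.get a i) →
        (∀ j, s ≤ j → σ j = 0) → Run ((mx a + 2) ^ c) P σ (update σ s (f a))) : Eat c f := by
  refine ⟨h0, fun ρ out s h1 h2 => ?_⟩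
  obtain ⟨P, hP⟩ := h ρ s h1
  exact ⟨Prg.seq P (fin s out), fun a σ h3 h4 =>
    Run.seq (hP a σ h3 h4) (run_fin (by omega) (h4 s le_rfl) (h0 a))⟩

theorem E.ext {f g : α → ℕ} (hf : E f) (h : ∀ a, f a = g a) : E g := by
  have e : f = g := funext h
  exact e ▸ hf

theorem get_le (a : α) {i : ℕ} (h : i < Ctx.len α) : Ctx.get a i ≤ mx a :=
  Finset.le_sup (f := Ctx.get a) (Finset.mem_range.2 h)

theorem mx_le {a : α} {N : ℕ} (h : ∀ i < Ctx.len α, Ctx.get a i ≤ N) : mx a ≤ N :=
  Finset.sup_le fun i hi => h i (Finset.mem_range.1 hi)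

theorem mx_cons (x : ℕ) (a : α) : mx (x, a) = max x (mx a) := by
  refine le_antisymm (mx_le fun i hi => ?_) (max_le ?_ (mx_le fun i hi => ?_))
  · rcases i with _ | i
    · exact le_max_left _ _
    · exact (get_le a (Nat.lt_of_succ_lt_succ hi)).trans (le_max_right _ _)
  · exact get_le (α := ℕ × α) (x, a) (i := 0) (Nat.succ_pos _)
  · exact get_le (α := ℕ × α) (x, a) (i := i + 1) (Nat.succ_lt_succ hi)

/-! ### the first functions -/

theorem E.get {i : ℕ} (hi : i < Ctx.len α) : E fun a : α => Ctx.get a i := by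
  refine ⟨1, Eat.mk' (fun a => ?_) fun ρ s h1 => ⟨cpy (ρ i) s (s + 1), fun a σ h3 h4 => ?_⟩⟩
  · have := get_le a hi
    rw [pow_one]
    omega
  · have := h1 i hi
    have h5 := h3 i hi
    have h6 := get_le a hi
    refine (run_cpy (by omega) (by omega) (by omega) ?_ (h4 (s + 1) (by omega))).to ?_
    · rw [h4 s le_rfl, h5, pow_one]
      omega
    · rw [h4 s le_rfl, h5, zero_add]

theorem E.fst : E fun v : ℕ × α => v.1 :=
  (E.get (α := ℕ × α) (i := 0) (Nat.succ_pos _)).ext fun _ => rfl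

/-- `n` increments -/
theorem exists_incs (n r : ℕ) : ∃ P : Prg, ∀ (B : ℕ) (σ : ℕ → ℕ), σ r + n + 1 ≤ B →
    Run B P σ (update σ r (σ r + n)) := by
  induction n with
  | zero =>
    refine ⟨Prg.seq (Prg.inc r) (Prg.dec r), fun B σ h => Run.seq (Run.inc r σ (by omega))
      ((Run.dec r _).to ?_)⟩
    simp
  | succ n ih =>
    obtain ⟨P, hP⟩ := ih
    refine ⟨Prg.seq P (Prg.inc r), fun B σ h => Run.seq (hP B σ (by omega))
      ((Run.inc r _ (by rw [update_self]; omega)).to ?_)⟩
    simp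
    rfl

theorem le_two_pow_self (n : ℕ) : n + 1 ≤ 2 ^ n := Nat.lt_two_pow_self

theorem E.const (n : ℕ) : E fun _ : α => n := by
  have hb : ∀ a : α, n + 1 ≤ (mx a + 2) ^ n := fun a =>
    (le_two_pow_self n).trans (Nat.pow_le_pow_left (by omega) n)
  refine ⟨n, Eat.mk' (fun a => by have := hb a; omega) fun ρ s h1 => ?_⟩
  obtain ⟨P, hP⟩ := exists_incs n s
  refine ⟨P, fun a σ h3 h4 => (hP _ σ ?_).to ?_⟩
  · rw [h4 s le_rfl]
    have := hb a
    omega
  · rw [h4 s le_rfl, zero_add]

/-! ### composition -/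

theorem exists_uni {G : β → α} (hG : ∀ i < Ctx.len α, E fun b => Ctx.get (G b) i) :
    ∃ c, ∀ i < Ctx.len α, Eat c fun b => Ctx.get (G b) i := by
  have key : ∀ n ≤ Ctx.len α, ∃ c, ∀ i < n, Eat c fun b => Ctx.get (G b) i := by
    intro n
    induction n with
    | zero => exact fun _ => ⟨0, fun i hi => absurd hi (Nat.not_lt_zero i)⟩
    | succ n ih =>
      intro hn
      obtain ⟨c, hc⟩ := ih (by omega)
      obtain ⟨c', hc'⟩ := hG n (by omega)
      refine ⟨max c c', fun i hi => ?_⟩
      rcases Nat.lt_succ_iff_lt_or_eq.1 hi with h | h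
      · exact (hc i h).mono (le_max_left _ _)
      · subst h
        exact Eat.mono (le_max_right _ _) hc'
  exact key _ le_rfl

/-- **composition** -/
theorem E.comp {G : β → α} (hG : ∀ i < Ctx.len α, E fun b => Ctx.get (G b) i) {F : α → ℕ}
    (hF : E F) : E fun b => F (G b) := by
  obtain ⟨c1, h1⟩ := exists_uni hG
  obtain ⟨c2, h2⟩ := hF
  have hmx : ∀ b, mx (G b) + 2 ≤ (mx b + 2) ^ (c1 + 2) := fun b =>
    add_two_le (Nat.le_add_left 2 _) (mx_le fun i hi => (h1 i hi).1 b)
  have hpw : ∀ b, (mx (G b) + 2) ^ c2 ≤ (mx b + 2) ^ (c1 + (c1 + 2) * c2) := fun b =>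
    calc (mx (G b) + 2) ^ c2 ≤ ((mx b + 2) ^ (c1 + 2)) ^ c2 := Nat.pow_le_pow_left (hmx b) c2
      _ = (mx b + 2) ^ ((c1 + 2) * c2) := (pow_mul _ _ _).symm
      _ ≤ _ := pow_mono (by omega)
  refine ⟨c1 + (c1 + 2) * c2, Eat.mk' (fun b => (h2.1 (G b)).trans (hpw b)) fun ρ s hρ => ?_⟩
  -- the components
  have comps : ∀ n ≤ Ctx.len α, ∃ P : Prg, ∀ (b : β) (σ : ℕ → ℕ),
      (∀ i < Ctx.len β, σ (ρ i) = Ctx.get b i) → (∀ j, s ≤ j → σ j = 0) →
      Run ((mx b + 2) ^ (c1 + (c1 + 2) * c2)) P σ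
        (fun j => if s + 1 ≤ j ∧ j < s + 1 + n then Ctx.get (G b) (j - (s + 1)) else σ j) := by
    intro n
    induction n with
    | zero =>
      intro _
      refine ⟨clr s, fun b σ h3 h4 => (run_clr _ s σ).to ?_⟩
      funext j
      by_cases j1 : j = s
      · subst j1
        rw [update_self, if_neg (by omega), h4 j le_rfl]
      · rw [update_of_ne j1, if_neg (by omega)]
    | succ n ih =>
      intro hn
      obtain ⟨P, hP⟩ := ih (by omega)
      obtain ⟨P', hP'⟩ := ((h1 n (by omega)).mono (c' := c1 + (c1 + 2) * c2) (by omega)).2 ρ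
        (s + 1 + n) (s + 1 + n + 1) (fun i hi => by have := hρ i hi; omega) (by omega)
      refine ⟨Prg.seq P P', fun b σ h3 h4 => Run.seq (hP b σ h3 h4) ((hP' b _ ?_ ?_).to ?_)⟩
      · intro i hi
        have := hρ i hi
        rw [if_neg (by omega)]
        exact h3 i hi
      · intro j hj
        rw [if_neg (by omega)]
        exact h4 j (by omega)
      · funext j
        by_cases j1 : j = s + 1 + n
        · subst j1
          rw [update_self, if_pos (by omega), show s + 1 + n - (s + 1) = n by omega]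
        · rw [update_of_ne j1]
          by_cases j2 : s + 1 ≤ j ∧ j < s + 1 + n
          · rw [if_pos j2, if_pos (by omega)]
          · rw [if_neg j2, if_neg (by omega)]
  obtain ⟨P1, hP1⟩ := comps _ le_rfl
  obtain ⟨P2, hP2⟩ := h2.2 (fun i => s + 1 + i) s (s + 1 + Ctx.len α) (fun i hi => by omega)
    (by omega)
  obtain ⟨P3, hP3⟩ := exists_clrs (s + 1) (Ctx.len α) (s + 1 + Ctx.len α)
  refine ⟨Prg.seq P1 (Prg.seq P2 P3), fun b σ h3 h4 => ?_⟩
  obtain ⟨σ1, hσ1⟩ : ∃ σ1 : ℕ → ℕ, σ1 = fun j => if s + 1 ≤ j ∧ j < s + 1 + Ctx.len α then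
    Ctx.get (G b) (j - (s + 1)) else σ j := ⟨_, rfl⟩
  have r1 := hP1 b σ h3 h4
  rw [← hσ1] at r1
  have r2 := (hP2 (G b) σ1 (fun i hi => by
      rw [hσ1]
      simp only
      rw [if_pos (by omega)]
      congr 1
      omega) (fun j hj => by
      rw [hσ1]
      simp only
      rw [if_neg (by omega)]
      exact h4 j (by omega))).mono (hpw b)
  refine Run.seq r1 (Run.seq r2 ((hP3 _ _ ?_).to ?_))
  · rw [update_of_ne (by omega), hσ1]
    simp only
    rw [if_neg (by omega)]
    exact h4 _ (by omega)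
  · funext j
    by_cases j1 : j = s
    · subst j1
      rw [update_self, if_neg (by omega), update_self]
    · rw [update_of_ne (f := σ) j1]
      by_cases j2 : s + 1 ≤ j ∧ j < s + 1 + Ctx.len α
      · rw [if_pos j2]
        exact (h4 j (by omega)).symm
      · rw [if_neg j2, update_of_ne j1, hσ1]
        simp only
        rw [if_neg j2]

theorem E.snd {f : α → ℕ} (hf : E f) : E fun v : ℕ × α => f v.2 :=
  E.comp (G := fun v : ℕ × α => v.2)
    (fun i hi => (E.get (α := ℕ × α) (i := i + 1) (Nat.succ_lt_succ hi)).ext fun _ => rfl) hf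

theorem E.bind {g : α → ℕ} (hg : E g) {F : ℕ → α → ℕ} (hF : E fun v : ℕ × α => F v.1 v.2) :
    E fun a => F (g a) a :=
  E.comp (β := α) (α := ℕ × α) (G := fun a => (g a, a)) (fun i hi => by
    rcases i with _ | i
    · exact hg.ext fun _ => rfl
    · exact (E.get (α := α) (i := i) (Nat.lt_of_succ_lt_succ hi)).ext fun _ => rfl) hF

/-- the successor -/
theorem E.succ : E fun v : ℕ × α => v.1 + 1 := by
  refine ⟨2, Eat.mk' (fun v => ?_) fun ρ s h1 => ⟨Prg.seq (cpy (ρ 0) s (s + 1)) (Prg.inc s),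
    fun v σ h3 h4 => ?_⟩⟩
  · have := get_le v (i := 0) (Nat.succ_pos _)
    have e : v.1 ≤ mx v := this
    nlinarith
  · have h5 := h1 0 (Nat.succ_pos _)
    have h6 : σ (ρ 0) = v.1 := h3 0 (Nat.succ_pos _)
    have e : v.1 ≤ mx v := get_le v (i := 0) (Nat.succ_pos _)
    have e2 : v.1 + 1 ≤ (mx v + 2) ^ 2 := by nlinarith
    refine Run.seq ((run_cpy (by omega) (by omega) (by omega) ?_ (h4 (s + 1) (by omega))).to rfl)
      ((Run.inc s _ ?_).to ?_)
    · rw [h4 s le_rfl, h6]
      omega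
    · rw [update_self, h4 s le_rfl, h6]
      omega
    · rw [update_self, update_idem, h4 s le_rfl, h6, zero_add]

/-! ### recursion -/

/-- **recursion with a bound** -/
theorem E.natRec {y g : α → ℕ} {H : ℕ → ℕ → α → ℕ} (hy : E y) (hg : E g)
    (hH : E fun w : ℕ × ℕ × α => H w.1 w.2.1 w.2.2)
    (hb : ∃ c, ∀ a, ∀ i ≤ y a, Nat.rec (motive := fun _ => ℕ) (g a) (fun i r => H i r a) i ≤
      (mx a + 2) ^ c) :
    E fun a => Nat.rec (motive := fun _ => ℕ) (g a) (fun i r => H i r a) (y a) := by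
  obtain ⟨cy, hy⟩ := hy
  obtain ⟨cg, hg⟩ := hg
  obtain ⟨cH, hH⟩ := hH
  obtain ⟨cb, hb⟩ := hb
  obtain ⟨R, hR⟩ : ∃ R : α → ℕ → ℕ, R = fun a i =>
    Nat.rec (motive := fun _ => ℕ) (g a) (fun i r => H i r a) i := ⟨_, rfl⟩
  have R0 : ∀ a, R a 0 = g a := fun a => by subst hR; rfl
  have R1 : ∀ a i, R a (i + 1) = H i (R a i) a := fun a i => by subst hR; rfl
  have hb' : ∀ a, ∀ i ≤ y a, R a i ≤ (mx a + 2) ^ cb := by rw [hR]; exact hb
  obtain ⟨e, he⟩ : ∃ e, e = cy + cb + 1 := ⟨_, rfl⟩
  obtain ⟨c, hc⟩ : ∃ c, c = cy + cg + cb + (e + 2) * cH + 1 := ⟨_, rfl⟩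
  -- the contexts of the recursion
  have hw : ∀ a, ∀ k ≤ y a, (mx (k, R a k, a) + 2) ^ cH ≤ (mx a + 2) ^ c := by
    intro a k hk
    have e1 : mx (k, R a k, a) ≤ (mx a + 2) ^ e := by
      rw [mx_cons, mx_cons]
      refine max_le ((hk.trans (hy.1 a)).trans (pow_mono (by omega))) (max_le
        ((hb' a k hk).trans (pow_mono (by omega))) ?_)
      calc mx a ≤ (mx a + 2) ^ 1 := by rw [pow_one]; omega
        _ ≤ _ := pow_mono (by omega)
    have e3 : mx (k, R a k, a) + 2 ≤ (mx a + 2) ^ (e + 2) :=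
      add_two_le (Nat.le_add_left 2 _) e1
    calc (mx (k, R a k, a) + 2) ^ cH ≤ ((mx a + 2) ^ (e + 2)) ^ cH := Nat.pow_le_pow_left e3 cH
      _ = (mx a + 2) ^ ((e + 2) * cH) := (pow_mul _ _ _).symm
      _ ≤ _ := pow_mono (by omega)
  have hfin : ∀ a, R a (y a) ≤ (mx a + 2) ^ c := fun a =>
    (hb' a _ le_rfl).trans (pow_mono (by omega))
  have main : Eat c (fun a => R a (y a)) := by
    refine Eat.mk' hfin fun ρ s hρ => ?_
    obtain ⟨Py, hPy⟩ := (Eat.mono (c' := c) (by omega) hy).2 ρ (s + 2) (s + 3)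
      (fun i hi => by have := hρ i hi; omega) (by omega)
    obtain ⟨Pg, hPg⟩ := (Eat.mono (c' := c) (by omega) hg).2 ρ s (s + 3)
      (fun i hi => by have := hρ i hi; omega) (by omega)
    obtain ⟨PH, hPH⟩ := hH.2 (fun i => if i = 0 then s + 1 else if i = 1 then s else ρ (i - 2)) s
      (s + 3) (fun i hi => by
        split_ifs
        · omega
        · omega
        · have h9 : i - 2 < Ctx.len α := by
            have : Ctx.len (ℕ × ℕ × α) = Ctx.len α + 1 + 1 := rfl
            omega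
          have := hρ _ h9
          omega) (by omega)
    refine ⟨Prg.seq Py (Prg.seq Pg (Prg.seq (Prg.loop (s + 2) (Prg.seq PH (Prg.seq
      (Prg.inc (s + 1)) (Prg.dec (s + 2))))) (clr (s + 1)))), fun a σ h3 h4 => ?_⟩
    obtain ⟨S, hS⟩ : ∃ S : ℕ → ℕ → ℕ, S = fun k => update (update (update σ (s + 2) (y a - k))
      s (R a k)) (s + 1) k := ⟨_, rfl⟩
    have Se : ∀ k, S k = update (update (update σ (s + 2) (y a - k)) s (R a k)) (s + 1) k :=
      fun k => by subst hS; rfl
    have r1 : Run ((mx a + 2) ^ c) Py σ (update σ (s + 2) (y a)) :=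
      hPy a σ h3 fun j hj => h4 j (by omega)
    have r2 : Run ((mx a + 2) ^ c) Pg (update σ (s + 2) (y a)) (S 0) := by
      refine (hPg a _ (fun i hi => ?_) fun j hj => ?_).to ?_
      · have := hρ i hi
        rw [update_of_ne (by omega)]
        exact h3 i hi
      · rw [update_of_ne (by omega)]
        exact h4 j (by omega)
      · rw [Se, R0, Nat.sub_zero]
        funext j
        by_cases j1 : j = s + 1
        · subst j1
          simp [h4 (s + 1) (by omega)]
        · rw [update_of_ne j1]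
    have r3 : Run ((mx a + 2) ^ c) (Prg.loop (s + 2) (Prg.seq PH (Prg.seq
        (Prg.inc (s + 1)) (Prg.dec (s + 2))))) (S 0) (S (y a)) := by
      refine run_loop (y a) S (fun k hk => ?_) ?_ fun k hk => ?_
      · rw [Se, update_of_ne (by omega), update_of_ne (by omega), update_self]
        omega
      · rw [Se, update_of_ne (by omega), update_of_ne (by omega), update_self]
        omega
      · have q1 : Run ((mx a + 2) ^ c) PH (S k) (update (S k) s (R a (k + 1))) := by
          refine (Run.mono (hw a k hk.le) (hPH (k, R a k, a) (S k) (fun i hi => ?_) fun j hj =>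
            ?_)).to ?_
          · rcases i with _ | _ | i
            · rw [if_pos rfl, Se, update_self]
              rfl
            · rw [if_neg (by omega), if_pos (by omega), Se, update_of_ne (by omega), update_self]
              rfl
            · have h9 : i < Ctx.len α := by
                have : Ctx.len (ℕ × ℕ × α) = Ctx.len α + 1 + 1 := rfl
                omega
              have h10 := hρ i h9
              have e9 : i + 1 + 1 - 2 = i := by omega
              rw [if_neg (by omega), if_neg (by omega), e9, Se, update_of_ne (by omega),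
                update_of_ne (by omega), update_of_ne (by omega), h3 i h9]
              rfl
          · rw [Se, update_of_ne (by omega), update_of_ne (by omega), update_of_ne (by omega)]
            exact h4 j (by omega)
          · rw [R1]
        have q2 : Run ((mx a + 2) ^ c) (Prg.inc (s + 1)) (update (S k) s (R a (k + 1)))
            (update (update (S k) s (R a (k + 1))) (s + 1) (k + 1)) := by
          have e1 : update (S k) s (R a (k + 1)) (s + 1) = k := by
            rw [update_of_ne (by omega), Se, update_self]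
          refine (Run.inc (s + 1) _ ?_).to ?_
          · rw [e1]
            have h5 : y a ≤ (mx a + 2) ^ c := (hy.1 a).trans (pow_mono (by omega))
            omega
          · rw [e1]
        refine Run.seq q1 (Run.seq q2 ((Run.dec (s + 2) _).to ?_))
        rw [Se, Se]
        funext j
        by_cases j1 : j = s + 2
        · subst j1
          simp
          omega
        · by_cases j2 : j = s + 1
          · subst j2
            simp
          · by_cases j3 : j = s
            · subst j3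
              simp
            · simp [j1, j2, j3]
    refine Run.seq r1 (Run.seq r2 (Run.seq r3 ((run_clr _ (s + 1) _).to ?_)))
    rw [Se]
    funext j
    by_cases j1 : j = s + 1
    · subst j1
      simp [h4 (s + 1) (by omega)]
    · by_cases j2 : j = s
      · subst j2
        simp
      · by_cases j3 : j = s + 2
        · subst j3
          simp [h4 (s + 2) (by omega)]
        · simp [j1, j2, j3]
  have e0 : (fun a => Nat.rec (motive := fun _ => ℕ) (g a) (fun i r => H i r a) (y a)) =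
      fun a => R a (y a) := by rw [hR]
  rw [e0]
  exact ⟨c, main⟩

end

/-! ### languages -/

/-- **a language with a characteristic function in `E` is in linear space** -/
theorem linSpace_of {f : ℕ × Unit → ℕ} (hf : E f) (hf1 : ∀ a, f a ≤ 1) :
    LinSpace {x | f (num x, ()) = 1} := by
  obtain ⟨c, hc⟩ := hf
  obtain ⟨P, hP⟩ := hc.2 (fun _ => 0) 0 1 (fun _ _ => Nat.one_pos) Nat.one_pos
  refine ⟨P, c, fun x => ?_⟩
  have h1 := hP (num x, ()) (fun i => if i = 0 then num x else 0) (fun i hi => by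
    have : i = 0 := by
      have h2 : i < 0 + 1 := hi
      omega
    subst this
    rfl) (fun j hj => if_neg (by omega))
  have e : mx (num x, ()) = num x := by
    rw [mx_cons]
    have : mx () = 0 := rfl
    rw [this]
    exact Nat.max_zero _
  rw [e] at h1
  refine ⟨_, h1, fun h => ?_, fun h => ?_⟩
  · rw [update_self]
    exact h
  · rw [update_self]
    have h2 := hf1 (num x, ())
    have h3 : f (num x, ()) ≠ 1 := h
    omega

end Pool.Agent.PSM
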