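import Pool.Agent.PSM.Defs

/-!
# Functions computed in linear space (literals; proofs: helper31)

* `Ctx α`: contexts (finitely many natural numbers: `ℕ × ℕ × .. × Unit`), `mx a`: the largest of them;
* **`E f`**: `f : α → ℕ` is computed by a program whose registers stay at most `(mx a + 2) ^ c`.
-/

set_option autoImplicit false

namespace Pool.Agent.PSM

/-- contexts: finitely many natural numbers -/
class Ctx (α : Type) where
  len : ℕ
  get : α → ℕ → ℕ

instance : Ctx Unit := ⟨0, fun _ _ => 0⟩

instance {α : Type} [Ctx α] : Ctx (ℕ × α) :=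
  ⟨Ctx.len α + 1, fun a i => Nat.casesOn i a.1 fun i => Ctx.get a.2 i⟩

variable {α : Type} [Ctx α]

/-- the largest number of the context -/
def mx (a : α) : ℕ := (Finset.range (Ctx.len α)).sup (Ctx.get a)

/-- **computed by a program with registers at most `(mx a + 2) ^ c`**: inputs in the registers `ρ i`, output in `out`,
all registers from `s` on are zero before and after, nothing else is changed -/
def E (f : α → ℕ) : Prop :=
  ∃ c : ℕ, (∀ a, f a ≤ (mx a + 2) ^ c) ∧
    ∀ (ρ : ℕ → ℕ) (out s : ℕ), (∀ i < Ctx.len α, ρ i < s) → out < s →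
      ∃ P : Prg, ∀ (a : α) (σ : ℕ → ℕ), (∀ i < Ctx.len α, σ (ρ i) = Ctx.get a i) →
        (∀ j, s ≤ j → σ j = 0) → Run ((mx a + 2) ^ c) P σ (Function.update σ out (f a))

end Pool.Agent.PSM
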