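import Pool.Agent.PSM.EMem

/-!
# Linear space against cellular automata: the cut simulation is the simulation

* **`simB_eq`**: under `Big` the function `simB` is `min 1 simN`; **`E_sim`**.
-/

set_option autoImplicit false
set_option linter.unusedSectionVars false

open Finset

namespace Pool.Agent.PSM

section

variable {B D q T b h p n : ℕ} (hb : 0 < b) (hq : 0 < q) (hp : 2 ≤ p)

theorem pow3_le (hb : 0 < b) (hN : (3 * b) ^ D ≤ B) : 3 ^ D ≤ B :=
  (Nat.pow_le_pow_left (by omega) D).trans hN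

theorem powb_le (hb : 0 < b) (hN : (3 * b) ^ D ≤ B) : b ^ D ≤ B :=
  (Nat.pow_le_pow_left (by omega) D).trans hN

theorem nbWB_eq (hb : 0 < b) (hN : (3 * b) ^ D ≤ B) {z e : ℕ} (hi : inW D (3 * b) z e) :
    nbWB B D (3 * b) z e = nbW D (3 * b) z e :=
  enC_eq (by omega) hN fun i hD => by
    have h1 := hi i hD
    omega

theorem ruB_eq (hb : 0 < b) (hq : 0 < q) (hN : (3 * b) ^ D ≤ B) (h3 : q ^ 3 ^ D ≤ B) (a z : ℕ) :
    ruB B D q (3 * b) a z = en q (3 ^ D) fun e => if inW D (3 * b) z e then dg q (nbW D (3 * b) z e) a else 0 := by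
  unfold ruB
  rw [min_eq_right (pow3_le hb hN), enC_eq hq h3 fun e _ => ?_]
  · refine en_congr fun e _ => ?_
    by_cases hi : inW D (3 * b) z e
    · rw [if_pos hi, if_pos hi, nbWB_eq hb hN hi]
    · rw [if_neg hi, if_neg hi]
  · split_ifs
    · exact dg_lt hq _ _
    · exact hq

theorem stepWB_eq (hb : 0 < b) (hq : 0 < q) (hN : (3 * b) ^ D ≤ B) (h3 : q ^ 3 ^ D ≤ B)
    (hQ : q ^ (3 * b) ^ D ≤ B) (a : ℕ) : stepWB B D q T (3 * b) a = stepW D q T (3 * b) a := by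
  unfold stepWB stepW
  rw [min_eq_right hN, enC_eq hq hQ fun z _ => dg_lt hq _ _]
  exact en_congr fun z _ => by rw [ruB_eq hb hq hN h3]

theorem chWB_eq (hb : 0 < b) (hN : (3 * b) ^ D ≤ B) (z : ℕ) : chWB B D b z = chW D b z :=
  enC_eq (by norm_num) (pow3_le hb hN) fun i _ => by
    have h1 := dg_lt (a := 3 * b) (by omega) i z
    exact (Nat.div_lt_iff_lt_mul hb).2 h1

theorem clWB_eq (hb : 0 < b) (hN : (3 * b) ^ D ≤ B) (z : ℕ) : clWB B D b z = clW D b z :=
  enC_eq hb (powb_le hb hN) fun i _ => Nat.mod_lt _ hb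

theorem ctWB_eq (hb : 0 < b) (hN : (3 * b) ^ D ≤ B) (u : ℕ) : ctWB B D b u = ctW D b u :=
  enC_eq (by omega) hN fun i _ => by
    have h1 := dg_lt (a := b) hb i u
    omega

theorem stepW_lt (hq : 0 < q) (w a : ℕ) : stepW D q T w a < q ^ w ^ D := en_lt fun z _ => dg_lt hq _ _

theorem FbWB_eq (hb : 0 < b) (hq : 0 < q) (hN : (3 * b) ^ D ≤ B) (h3 : q ^ 3 ^ D ≤ B)
    (hQ : q ^ (3 * b) ^ D ≤ B) {a : ℕ} (ha : a ≤ B) (u : ℕ) : FbWB B D q T b a u = FbW D q T b a u := by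
  have hle : ∀ i ≤ b, itr (fun _ a => stepW D q T (3 * b) a) a i ≤ B := by
    intro i _
    cases i with
    | zero => exact ha
    | succ i => exact (stepW_lt hq _ _).le.trans hQ
  unfold FbWB FbW
  rw [ctWB_eq hb hN, ← itB_eq hle]
  congr 1
  have e : (fun (_ : ℕ) (a : ℕ) => stepWB B D q T (3 * b) a) = fun _ a => stepW D q T (3 * b) a := by
    funext _ a
    exact stepWB_eq hb hq hN h3 hQ a
  rw [e]

theorem mB_eq (hb : 0 < b) (hN : (3 * b) ^ D ≤ B) : mB B D b = b ^ D := min_eq_right (powb_le hb hN)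

theorem slB_eq (hb : 0 < b) (hN : (3 * b) ^ D ≤ B) (R t a z : ℕ) :
    slB B D q b p R t a z = dg p ((rg t (chW D b z) * b ^ D + clW D b z) * q + dg q z a) R := by
  unfold slB ixB
  rw [mB_eq hb hN, chWB_eq hb hN, clWB_eq hb hN]

theorem FhB_eq (hb : 0 < b) (hq : 0 < q) (hN : (3 * b) ^ D ≤ B) (h3 : q ^ 3 ^ D ≤ B)
    (hQ : q ^ (3 * b) ^ D ≤ B) (R t u s : ℕ) :
    FhB B D q T b p R t u s = FhN p (teW D q T b) t u s R := by
  unfold FhB FhN prB
  rw [min_eq_right hN, min_eq_right hQ]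
  congr 1
  refine sum_congr rfl fun a ha => ?_
  have ha' : a ≤ B := (mem_range.1 ha).le.trans hQ
  rw [FbWB_eq hb hq hN h3 hQ ha']
  show (if FbW D q T b a u = s then (∏ z ∈ range ((3 * b) ^ D), slB B D q b p R t a z) % p else 0) =
    if FbW D q T b a u = s then (∏ z ∈ range ((3 * b) ^ D),
      dg p ((rg t (chW D b z) * b ^ D + clW D b z) * q + dg q z a) R) % p else 0
  split_ifs
  · congr 1
    exact prod_congr rfl fun z _ => slB_eq hb hN _ _ _ _
  · rfl

theorem lenB_eq (hb : 0 < b) (hN : (3 * b) ^ D ≤ B) : lenB B D q b = (3 ^ D + 1) * b ^ D * q := by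
  unfold lenB
  rw [mB_eq hb hN, min_eq_right (pow3_le hb hN)]

theorem lenN_teW : lenN (teW D q T b) = (3 ^ D + 1) * b ^ D * q := rfl

theorem addFB_eq (hb : 0 < b) (hq : 0 < q) (hp : 2 ≤ p) (H : Big B D q b h p n) (y t R : ℕ) :
    addFB B D q T b p y t R = addFN p (teW D q T b) y t R := by
  have hm : b ^ D ≠ 0 := (pow_pos hb D).ne'
  unfold addFB addFN
  rw [lenB_eq hb H.nw, enC_eq (by omega) H.pw fun i _ => ?_, lenN_teW]
  · refine en_congr fun i _ => ?_
    rw [mB_eq hb H.nw, min_eq_right H.nw, FhB_eq hb hq H.nw H.q3 H.qw]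
    rfl
  · split_ifs
    · exact Nat.mod_lt _ (by omega)
    · exact dg_lt (by omega) _ _

theorem addVB_eq (hb : 0 < b) (hp : 2 ≤ p) (H : Big B D q b h p n) (t : ℕ) (v v' : ℕ → ℕ)
    (hv : ∀ u, v u = v' u) (R : ℕ) :
    addVB B D q b p t v R = addVN p (teW D q T b) t v' R := by
  unfold addVB addVN
  rw [lenB_eq hb H.nw, enC_eq (by omega) H.pw fun i _ => ?_, lenN_teW (T := T)]
  · refine en_congr fun i _ => ?_
    rw [mB_eq hb H.nw, hv]
    rfl
  · split_ifs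
    · exact Nat.mod_lt _ (by omega)
    · exact Nat.mod_lt _ (by omega)
    · exact dg_lt (by omega) _ _

theorem WB_eq (hb : 0 < b) (hN : (3 * b) ^ D ≤ B) : WB B D p = p * (3 ^ D + 1) := by
  unfold WB
  rw [min_eq_right (pow3_le hb hN)]

theorem leB_eq (hb : 0 < b) (hN : (3 * b) ^ D ≤ B) (τ : ℕ) :
    leB B D h p τ = lsN (3 ^ D) (p * (3 ^ D + 1)) h τ := by
  unfold leB
  rw [WB_eq hb hN, min_eq_right (pow3_le hb hN)]

theorem rg_le_succ (t e : ℕ) : rg t e ≤ e + 1 := by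
  unfold rg
  split_ifs <;> omega

theorem tgB_eq {f W n' t l : ℕ} (hf : f + 1 ≤ B) (ht : t ≤ B) :
    tgB B f W h n' t l = tgN f W h n' t l := by
  unfold tgB tgN
  refine itB_eq fun i _ => ?_
  cases i with
  | zero => exact ht
  | succ i =>
    show rg _ (phs f W h i n' - 1) ≤ B
    refine (rg_le_succ _ _).trans (le_trans ?_ hf)
    have : phs f W h i n' < f + 1 := Nat.mod_lt _ (Nat.succ_pos _)
    omega

theorem two_h_le (hp : 2 ≤ p) (hh : (p * (3 ^ D + 1)) ^ h ≤ B) : 2 * h ≤ B := by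
  refine le_trans ?_ hh
  have h1 : 4 ≤ p * (3 ^ D + 1) := by
    have : 1 ≤ 3 ^ D := Nat.one_le_pow _ _ (by norm_num)
    nlinarith
  have h2 : 4 ^ h ≤ (p * (3 ^ D + 1)) ^ h := Nat.pow_le_pow_left h1 h
  refine le_trans ?_ h2
  clear hh h1 h2
  induction h with
  | zero => simp
  | succ n ih =>
    rw [pow_succ]
    have : 1 ≤ 4 ^ n := Nat.one_le_pow _ _ (by norm_num)
    omega

theorem jB_eq (hp : 2 ≤ p) (hh : (p * (3 ^ D + 1)) ^ h ≤ B) (f W n' i : ℕ) :
    jB B f W h n' i = jN f W h n' i := by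
  refine min_eq_right (le_trans ?_ (two_h_le hp hh))
  calc _ ≤ ∑ l ∈ range h, 2 := sum_le_sum fun l _ => by
        have := dg_lt (a := 3) (by norm_num) i (phs f W h l n' - 1)
        omega
    _ = 2 * h := by simp [mul_comm]

theorem lfB_eq (hp : 2 ≤ p) (hh : (p * (3 ^ D + 1)) ^ h ≤ B) (τ : ℕ) (st : ℕ → ℕ) (f W u : ℕ) :
    lfB B D b h n τ st f W u = lfN D b h n τ st f W u := by
  unfold lfB lfN
  simp only [jB_eq hp hh]

theorem stpB_eq (hb : 0 < b) (hq : 0 < q) (hp : 2 ≤ p) (hf : 3 ^ D + 1 ≤ B) (H : Big B D q b h p n)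
    (st : ℕ → ℕ) (τ R : ℕ) :
    stpB B D q T b h p n st τ R = stpN p (teW D q T b) D b h n st τ R := by
  have e3 : Min.min B (3 ^ D) = 3 ^ D := min_eq_right (pow3_le hb H.nw)
  have eW : WB B D p = p * (3 ^ D + 1) := WB_eq hb H.nw
  have el : leB B D h p τ = lsN (3 ^ D) (p * (3 ^ D + 1)) h τ := leB_eq hb H.nw τ
  have et : taB B D h p τ = tgN (3 ^ D) (p * (3 ^ D + 1)) h τ 0 (lsN (3 ^ D) (p * (3 ^ D + 1)) h τ) := by
    unfold taB
    rw [el, eW, e3]
    exact tgB_eq hf (Nat.zero_le _)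
  have hWp : (p * (3 ^ D + 1)) ^ (h - 1 - lsN (3 ^ D) (p * (3 ^ D + 1)) h τ) ≤ B := by
    refine le_trans (Nat.pow_le_pow_right ?_ ?_) H.hw
    · have : 1 ≤ 3 ^ D := Nat.one_le_pow _ _ (by norm_num)
      nlinarith
    · omega
  show (if leB B D h p τ = h then _ else if τ % Min.min B ((WB B D p) ^ (h - 1 - leB B D h p τ)) = 0 then _
    else R) = if lsN (3 ^ D) (p * (3 ^ D + 1)) h τ = h then _ else
      if τ % (p * (3 ^ D + 1)) ^ (h - 1 - lsN (3 ^ D) (p * (3 ^ D + 1)) h τ) = 0 then _ else R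
  rw [el, eW, min_eq_right hWp, et, e3]
  split_ifs
  · exact addVB_eq hb hp H _ _ _ (fun u => lfB_eq hp H.hw τ st _ _ u) R
  · exact addFB_eq hb hq hp H _ _ R
  · rfl

theorem stpN_le (hp : 2 ≤ p) (H : Big B D q b h p n) (st : ℕ → ℕ) (τ : ℕ) {R : ℕ} (hR : R ≤ B) :
    stpN p (teW D q T b) D b h n st τ R ≤ B := by
  unfold stpN
  simp only
  split_ifs
  · refine (en_lt (r := _) fun i _ => ?_).le.trans (lenN_teW (T := T) ▸ H.pw)
    split_ifs
    · exact Nat.mod_lt _ (by omega)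
    · exact Nat.mod_lt _ (by omega)
    · exact dg_lt (by omega) _ _
  · refine (en_lt (r := _) fun i _ => ?_).le.trans (lenN_teW (T := T) ▸ H.pw)
    split_ifs
    · exact Nat.mod_lt _ (by omega)
    · exact dg_lt (by omega) _ _
  · exact hR

/-- **the cut simulation is the simulation** -/
theorem simB_eq (hb : 0 < b) (hq : 0 < q) (hp : 2 ≤ p) (hf : 3 ^ D + 1 ≤ B) (H : Big B D q b h p n)
    (st : ℕ → ℕ) : simB B D q T b h p n st = Min.min 1 (simN D q T b h p n st) := by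
  have hle : ∀ i ≤ (p * (3 ^ D + 1)) ^ h,
      itr (fun τ R => stpN p (teW D q T b) D b h n st τ R) 0 i ≤ B := by
    intro i _
    induction i with
    | zero => exact Nat.zero_le _
    | succ i ih => exact stpN_le hp H st i (ih (by omega))
  have e : (fun τ R => stpB B D q T b h p n st τ R) = fun τ R => stpN p (teW D q T b) D b h n st τ R := by
    funext τ R
    exact stpB_eq hb hq hp hf H st τ R
  unfold simB simN
  rw [WB_eq hb H.nw, min_eq_right H.hw, e, itB_eq hle]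

end

/-- **the simulation is computed in linear space** -/
theorem E_sim {α : Type} [Ctx α] {B D q T b h p n : α → ℕ} {st : ℕ → α → ℕ} (hB : E B) (hD : E D) (hq : E q)
    (hT : E T) (hb : E b) (hh : E h) (hp : E p) (hn : E n) (hst : E fun w : ℕ × α => st w.1 w.2) :
    ∃ F : α → ℕ, E F ∧ (∀ a, F a ≤ 1) ∧ ∀ a, 0 < b a → 0 < q a → 2 ≤ p a → 3 ^ D a + 1 ≤ B a →
      Big (B a) (D a) (q a) (b a) (h a) (p a) (n a) →
      F a = Min.min 1 (simN (D a) (q a) (T a) (b a) (h a) (p a) (n a) fun i => st i a) :=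
  ⟨fun v => simB (B v) (D v) (q v) (T v) (b v) (h v) (Max.max 1 (p v)) (n v) fun i => st i v,
    E.simB (p := fun v => Max.max 1 (p v)) (fun v => lt_of_lt_of_le Nat.one_pos (le_max_left _ _)) hB hD hq hT hb
      hh (E.max (E.const 1) hp) hn hst, fun _ => min_le_left _ _, fun a h1 h2 h3 h4 h5 => by
    have e : Max.max 1 (p a) = p a := max_eq_right (by omega)
    simp only [e]
    exact simB_eq h1 h2 h3 h4 h5 _⟩

end Pool.Agent.PSM
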