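import Pool.Agent.PSM.EClo

/-!
# Library of functions computed in linear space

* **`E.rec`** (`E.of_rec`): recursion with a bound, in the form of a given function `R` with its two equations;
* `Bd f`: `f a` is at most `(mx a + 2) ^ c`; `E.bd`; closed under sums and products;
* `E.inc`, `E.add`, `E.mul`, `E.pred`, `E.sub`, `E.min`, `E.max`, `E.mod`, `E.div`;
* tests as functions with the values `1`, `0`: `E.eq`, `E.lt`, `E.le`, `E.and`, `E.or`, `E.not`, `E.imp`, **`E.ite`**,
  `E.all`, `E.ex`, `E.count`, `E.find`.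
-/

set_option autoImplicit false
set_option linter.unusedVariables false

open Finset

namespace Pool.Agent.PSM

variable {α : Type} [Ctx α]

/-! ### bounds -/

/-- at most `(mx a + 2) ^ c` -/
def Bd (f : α → ℕ) : Prop := ∃ c : ℕ, ∀ a, f a ≤ (mx a + 2) ^ c

theorem E.bd {f : α → ℕ} (hf : E f) : Bd f := by
  obtain ⟨c, h, -⟩ := hf
  exact ⟨c, h⟩

theorem Bd.mono {f g : α → ℕ} (hg : Bd g) (h : ∀ a, f a ≤ g a) : Bd f := by
  obtain ⟨c, hc⟩ := hg
  exact ⟨c, fun a => (h a).trans (hc a)⟩

theorem Bd.mul {f g : α → ℕ} (hf : Bd f) (hg : Bd g) : Bd fun a => f a * g a := by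
  obtain ⟨c, hc⟩ := hf
  obtain ⟨d, hd⟩ := hg
  exact ⟨c + d, fun a => by rw [pow_add]; exact Nat.mul_le_mul (hc a) (hd a)⟩

theorem Bd.add {f g : α → ℕ} (hf : Bd f) (hg : Bd g) : Bd fun a => f a + g a := by
  obtain ⟨c, hc⟩ := hf
  obtain ⟨d, hd⟩ := hg
  refine ⟨c + d + 1, fun a => ?_⟩
  have h1 : f a ≤ (mx a + 2) ^ (c + d) := (hc a).trans (pow_mono (by omega))
  have h2 : g a ≤ (mx a + 2) ^ (c + d) := (hd a).trans (pow_mono (by omega))
  have h3 : 2 ≤ mx a + 2 := by omega
  rw [pow_succ]
  nlinarith [Nat.mul_le_mul_left ((mx a + 2) ^ (c + d)) h3]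

theorem Bd.const (n : ℕ) : Bd fun _ : α => n := (E.const n).bd

/-! ### recursion for a given function -/

/-- **recursion**: `R` with its two equations and a bound -/
theorem E.of_rec {y g : α → ℕ} {H : ℕ → ℕ → α → ℕ} (hy : E y) (hg : E g)
    (hH : E fun w : ℕ × ℕ × α => H w.1 w.2.1 w.2.2) {R : ℕ → α → ℕ} (h0 : ∀ a, R 0 a = g a)
    (h1 : ∀ a, ∀ i < y a, R (i + 1) a = H i (R i a) a) {B : α → ℕ} (hB : Bd B)
    (hb : ∀ a, ∀ i ≤ y a, R i a ≤ B a) : E fun a => R (y a) a := by
  have key : ∀ a, ∀ i ≤ y a, Nat.rec (motive := fun _ => ℕ) (g a) (fun i r => H i r a) i = R i a := by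
    intro a i
    induction i with
    | zero => exact fun _ => (h0 a).symm
    | succ i ih =>
      intro hi
      rw [h1 a i (by omega), ← ih (by omega)]
  obtain ⟨c, hc⟩ := hB
  refine (E.natRec hy hg hH ⟨c, fun a i hi => ?_⟩).ext fun a => key a (y a) le_rfl
  rw [key a i hi]
  exact (hb a i hi).trans (hc a)

/-! ### arithmetic -/

theorem E.inc {f : α → ℕ} (hf : E f) : E fun a => f a + 1 := E.bind (F := fun n _ => n + 1) hf E.succ

theorem E.add {f g : α → ℕ} (hf : E f) (hg : E g) : E fun a => f a + g a :=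
  E.of_rec (H := fun _ r _ => r + 1) (R := fun i a => i + g a) hf hg (E.inc (E.snd E.fst))
    (fun a => Nat.zero_add _) (fun a i _ => by omega) (B := fun a => f a + g a) (hf.bd.add hg.bd)
    (fun a i hi => Nat.add_le_add_right hi _)

theorem E.mul {f g : α → ℕ} (hf : E f) (hg : E g) : E fun a => f a * g a :=
  E.of_rec (H := fun _ r a => r + g a) (R := fun i a => i * g a) hf (E.const 0)
    (E.add (E.snd E.fst) (E.snd (E.snd hg)))
    (fun a => Nat.zero_mul _) (fun a i _ => Nat.succ_mul _ _) (B := fun a => f a * g a) (hf.bd.mul hg.bd)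
    (fun a i hi => Nat.mul_le_mul_right _ hi)

theorem E.pred {f : α → ℕ} (hf : E f) : E fun a => f a - 1 :=
  E.of_rec (H := fun i _ _ => i) (R := fun i _ => i - 1) hf (E.const 0) E.fst
    (fun _ => rfl) (fun _ _ _ => rfl) hf.bd (fun a i hi => (Nat.sub_le _ _).trans hi)

theorem E.sub {f g : α → ℕ} (hf : E f) (hg : E g) : E fun a => f a - g a :=
  E.of_rec (H := fun _ r _ => r - 1) (R := fun i a => f a - i) hg hf (E.pred (E.snd E.fst))
    (fun _ => rfl) (fun a i _ => by omega) hf.bd (fun a i _ => Nat.sub_le _ _)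

theorem E.min {f g : α → ℕ} (hf : E f) (hg : E g) : E fun a => Min.min (f a) (g a) :=
  (E.sub hf (E.sub hf hg)).ext fun a => by omega

theorem E.max {f g : α → ℕ} (hf : E f) (hg : E g) : E fun a => Max.max (f a) (g a) :=
  (E.add hf (E.sub hg hf)).ext fun a => by omega

/-! ### tests -/

theorem E.le {f g : α → ℕ} (hf : E f) (hg : E g) : E fun a => if f a ≤ g a then 1 else 0 :=
  (E.sub (E.const 1) (E.sub hf hg)).ext fun a => by
    split_ifs with h <;> omega

theorem E.lt {f g : α → ℕ} (hf : E f) (hg : E g) : E fun a => if f a < g a then 1 else 0 :=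
  (E.le (E.inc hf) hg).ext fun a => rfl

theorem E.eq {f g : α → ℕ} (hf : E f) (hg : E g) : E fun a => if f a = g a then 1 else 0 :=
  (E.sub (E.const 1) (E.add (E.sub hf hg) (E.sub hg hf))).ext fun a => by
    split_ifs with h <;> omega

theorem E.and {c c' : α → Prop} [DecidablePred c] [DecidablePred c']
    (h : E fun a => if c a then 1 else 0) (h' : E fun a => if c' a then 1 else 0) :
    E fun a => if c a ∧ c' a then 1 else 0 :=
  (E.mul h h').ext fun a => by
    by_cases h1 : c a <;> by_cases h2 : c' a <;> simp [h1, h2]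

theorem E.not {c : α → Prop} [DecidablePred c] (h : E fun a => if c a then 1 else 0) :
    E fun a => if ¬ c a then 1 else 0 :=
  (E.sub (E.const 1) h).ext fun a => by
    by_cases h1 : c a <;> simp [h1]

theorem E.or {c c' : α → Prop} [DecidablePred c] [DecidablePred c']
    (h : E fun a => if c a then 1 else 0) (h' : E fun a => if c' a then 1 else 0) :
    E fun a => if c a ∨ c' a then 1 else 0 :=
  (E.max h h').ext fun a => by
    by_cases h1 : c a <;> by_cases h2 : c' a <;> simp [h1, h2]

theorem E.imp {c c' : α → Prop} [DecidablePred c] [DecidablePred c']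
    (h : E fun a => if c a then 1 else 0) (h' : E fun a => if c' a then 1 else 0) :
    E fun a => if c a → c' a then 1 else 0 :=
  (E.max (E.sub (E.const 1) h) h').ext fun a => by
    by_cases h1 : c a <;> by_cases h2 : c' a <;> simp [h1, h2]

/-- **distinction of cases** -/
theorem E.ite {c : α → Prop} [DecidablePred c] {f g : α → ℕ} (hc : E fun a => if c a then 1 else 0)
    (hf : E f) (hg : E g) : E fun a => if c a then f a else g a :=
  (E.add (E.mul hc hf) (E.mul (E.sub (E.const 1) hc) hg)).ext fun a => by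
    by_cases h1 : c a <;> simp [h1]

/-- a property in the context, from an equality of its values -/
theorem E.cond {c c' : α → Prop} [DecidablePred c] [DecidablePred c'] (h : E fun a => if c a then 1 else 0)
    (e : ∀ a, c a ↔ c' a) : E fun a => if c' a then 1 else 0 :=
  h.ext fun a => by
    by_cases h1 : c a
    · rw [if_pos h1, if_pos ((e a).1 h1)]
    · rw [if_neg h1, if_neg fun h2 => h1 ((e a).2 h2)]

/-! ### division -/

theorem E.mod {f g : α → ℕ} (hf : E f) (hg : E g) : E fun a => f a % g a := by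
  refine E.of_rec (H := fun _ r a => if r + 1 = g a then 0 else r + 1) (R := fun i a => i % g a) hf (E.const 0)
    ?_ (fun a => Nat.zero_mod _) ?_ hf.bd (fun a i hi => (Nat.mod_le _ _).trans hi)
  · exact E.ite (c := fun w : ℕ × ℕ × α => w.2.1 + 1 = g w.2.2)
      (E.eq (E.inc (E.snd E.fst)) (E.snd (E.snd hg))) (E.const 0) (E.inc (E.snd E.fst))
  · intro a i _
    show (i + 1) % g a = if i % g a + 1 = g a then 0 else i % g a + 1
    rcases Nat.eq_zero_or_pos (g a) with h | h
    · rw [h, Nat.mod_zero, Nat.mod_zero, if_neg (by omega)]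
    · have h1 := Nat.mod_lt i h
      split_ifs with h2
      · rw [Nat.add_mod, ← Nat.mod_eq_of_lt (Nat.lt_of_lt_of_le Nat.zero_lt_one h)]
        have h3 : i % g a + 1 % g a = g a ∨ g a = 1 := by
          rcases Nat.lt_or_ge 1 (g a) with h4 | h4
          · left
            rw [Nat.mod_eq_of_lt h4, h2]
          · right
            omega
        rcases h3 with h3 | h3
        · rw [h3, Nat.mod_self, Nat.zero_mod]
        · rw [h3, Nat.mod_one, Nat.mod_one]
      · rw [Nat.add_mod]
        rcases Nat.lt_or_ge 1 (g a) with h4 | h4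
        · rw [Nat.mod_eq_of_lt h4, Nat.mod_eq_of_lt (by omega)]
        · omega

theorem E.div {f g : α → ℕ} (hf : E f) (hg : E g) : E fun a => f a / g a := by
  refine E.of_rec (H := fun i r a => if (i + 1) % g a = 0 then r + 1 else r) (R := fun i a => i / g a) hf (E.const 0)
    ?_ (fun a => Nat.zero_div _) ?_ hf.bd (fun a i hi => (Nat.div_le_self _ _).trans hi)
  · exact E.ite (c := fun w : ℕ × ℕ × α => (w.1 + 1) % g w.2.2 = 0)
      (E.eq (E.mod (E.inc E.fst) (E.snd (E.snd hg))) (E.const 0)) (E.inc (E.snd E.fst)) (E.snd E.fst)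
  · intro a i _
    show (i + 1) / g a = if (i + 1) % g a = 0 then i / g a + 1 else i / g a
    rw [Nat.succ_div]
    simp only [Nat.dvd_iff_mod_eq_zero]
    split_ifs <;> rfl

/-! ### bounded quantifiers, counting, searching -/

theorem E.all {y : α → ℕ} {c : ℕ → α → Prop} [∀ i, DecidablePred (c i)] (hy : E y)
    (h : E fun w : ℕ × α => if c w.1 w.2 then 1 else 0) :
    E fun a => if ∀ i < y a, c i a then 1 else 0 := by
  have hH : E fun w : ℕ × ℕ × α => w.2.1 * if c w.1 w.2.2 then 1 else 0 := by
    refine E.mul (E.snd E.fst) ?_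
    exact E.comp (α := ℕ × α) (β := ℕ × ℕ × α) (G := fun w => (w.1, w.2.2)) (fun i hi => by
      rcases i with _ | i
      · exact E.fst.ext fun _ => rfl
      · exact (E.snd (E.snd (E.get (α := α) (i := i) (Nat.lt_of_succ_lt_succ hi)))).ext fun _ => rfl) h
  refine E.of_rec (H := fun i r a => r * if c i a then 1 else 0)
    (R := fun n a => if ∀ i < n, c i a then 1 else 0) hy (E.const 1) hH ?_ ?_ (Bd.const 1) ?_
  · intro a
    exact if_pos fun i hi => absurd hi (Nat.not_lt_zero i)
  · intro a n _
    show (if ∀ i < n + 1, c i a then 1 else 0) = (if ∀ i < n, c i a then 1 else 0) * if c n a then 1 else 0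
    by_cases h1 : ∀ i < n, c i a
    · rw [if_pos h1, one_mul]
      by_cases h2 : c n a
      · rw [if_pos h2, if_pos]
        intro i hi
        rcases Nat.lt_succ_iff_lt_or_eq.1 hi with h3 | h3
        · exact h1 i h3
        · exact h3 ▸ h2
      · rw [if_neg h2, if_neg]
        exact fun h3 => h2 (h3 n (Nat.lt_succ_self n))
    · rw [if_neg h1, zero_mul, if_neg]
      exact fun h3 => h1 fun i hi => h3 i (by omega)
  · intro a n _
    show (if ∀ i < n, c i a then 1 else 0) ≤ 1
    split_ifs <;> omega

/-- a function of the counter and of the context, used in the context with a second counter between -/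
theorem E.mid {F : ℕ → α → ℕ} (h : E fun w : ℕ × α => F w.1 w.2) : E fun w : ℕ × ℕ × α => F w.1 w.2.2 :=
  E.comp (α := ℕ × α) (β := ℕ × ℕ × α) (G := fun w => (w.1, w.2.2)) (fun i hi => by
    rcases i with _ | i
    · exact E.fst.ext fun _ => rfl
    · exact (E.snd (E.snd (E.get (α := α) (i := i) (Nat.lt_of_succ_lt_succ hi)))).ext fun _ => rfl) h

theorem E.ex {y : α → ℕ} {c : ℕ → α → Prop} [∀ i, DecidablePred (c i)] (hy : E y)
    (h : E fun w : ℕ × α => if c w.1 w.2 then 1 else 0) :
    E fun a => if ∃ i < y a, c i a then 1 else 0 :=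
  E.cond (E.not (E.all (c := fun i a => ¬ c i a) hy (E.not h))) fun a => by
    push Not
    rfl

/-- the number of the `i < y a` with `c i a` -/
theorem E.count {y : α → ℕ} {c : ℕ → α → Prop} [∀ i, DecidablePred (c i)] (hy : E y)
    (h : E fun w : ℕ × α => if c w.1 w.2 then 1 else 0) :
    E fun a => ((range (y a)).filter fun i => c i a).card := by
  refine E.of_rec (H := fun i r a => r + if c i a then 1 else 0)
    (R := fun n a => ((range n).filter fun i => c i a).card) hy (E.const 0)
    (E.add (E.snd E.fst) (E.mid (F := fun i a => if c i a then 1 else 0) h)) ?_ ?_ hy.bd ?_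
  · intro a
    rfl
  · intro a n _
    show ((range (n + 1)).filter fun i => c i a).card = ((range n).filter fun i => c i a).card + if c n a then 1 else 0
    rw [range_add_one, filter_insert]
    split_ifs with h1
    · rw [card_insert_of_notMem]
      intro h2
      exact absurd (mem_range.1 (mem_filter.1 h2).1) (lt_irrefl n)
    · rfl
  · intro a n hn
    show ((range n).filter fun i => c i a).card ≤ y a
    exact (card_filter_le _ _).trans (by rwa [card_range])

/-- the least `i < y a` with `c i a` (`y a` if there is none): how many `i < y a` have no `c j a`, `j ≤ i` -/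
theorem E.find {y : α → ℕ} {c : ℕ → α → Prop} [∀ i, DecidablePred (c i)] (hy : E y)
    (h : E fun w : ℕ × α => if c w.1 w.2 then 1 else 0) :
    E fun a => ((range (y a)).filter fun i => ∀ j < i + 1, ¬ c j a).card := by
  refine E.count (c := fun i a => ∀ j < i + 1, ¬ c j a) hy ?_
  refine E.all (α := ℕ × α) (y := fun w => w.1 + 1) (c := fun j w => ¬ c j w.2) (E.inc E.fst) ?_
  exact E.not (c := fun w : ℕ × ℕ × α => c w.1 w.2.2) (E.mid (F := fun i a => if c i a then 1 else 0) h)

/-- the value of `find` -/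
theorem card_find {n : ℕ} {c : ℕ → Prop} [DecidablePred c] {k : ℕ} (hk : k < n) (h : c k)
    (h' : ∀ j < k, ¬ c j) : ((range n).filter fun i => ∀ j < i + 1, ¬ c j).card = k := by
  have e : ((range n).filter fun i => ∀ j < i + 1, ¬ c j) = range k := by
    ext i
    rw [mem_filter, mem_range, mem_range]
    constructor
    · intro h1
      by_contra h2
      exact h1.2 k (by omega) h
    · intro h1
      exact ⟨by omega, fun j hj => h' j (by omega)⟩
  rw [e, card_range]

end Pool.Agent.PSM
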