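import Pool.Agent.PSM.Defs

/-!
# Linear space against cellular automata: the simulation on numbers (literals)

* `itr`, `dg` (digit), `en` (number with given digits);
* `TE`: tree evaluation data; `Fh`, `addF`, `addV`, `Pr` (the recursion on registers over `ZMod p`), `V` (the values);
* `phs`, `yph`, `lsN`, `tgN`, `stp`: the same as one loop;
* `stepW`, `FbW`, `chW`, `clW`, `ctW`: windows of a cellular automaton on numbers; `evZ`, `stZ`: the automaton;
* `addFN`, `addVN`, `stpN`: the registers as one number.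
-/

set_option autoImplicit false

open Finset

namespace Pool.Agent.PSM

/-- iteration with a counter -/
def itr {α : Type} (F : ℕ → α → α) (r : α) : ℕ → α
  | 0 => r
  | n + 1 => F n (itr F r n)

/-- digit `i` of `m` in base `a` -/
def dg (a i m : ℕ) : ℕ := m / a ^ i % a

/-- the number with the digits `r i`, `i < len` -/
def en (a len : ℕ) (r : ℕ → ℕ) : ℕ := ∑ i ∈ range len, r i * a ^ i

/-! ### tree evaluation -/

/-- tree evaluation: `f` children, `N` slots, `m` cells with `q` states; child and cell of a slot; value of a cell from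
the number with the digits (base `q`) of the slots -/
structure TE where
  f : ℕ
  N : ℕ
  m : ℕ
  q : ℕ
  ch : ℕ → ℕ
  cl : ℕ → ℕ
  Fb : ℕ → ℕ → ℕ

/-- admissible data -/
structure TE.Ok (A : TE) : Prop where
  ch : ∀ z < A.N, A.ch z < A.f
  cl : ∀ z < A.N, A.cl z < A.m
  Fb : ∀ a u, A.Fb a u < A.q

/-- the register of the child `e`, target `t` -/
def rg (t e : ℕ) : ℕ := if e < t then e else e + 1

/-- contents of the registers: register, cell, state -/
abbrev St (p : ℕ) : Type := ℕ → ℕ → ℕ → ZMod p

variable (p : ℕ) (A : TE)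

/-- the polynomial of the node function at the registers -/
def Fh (r : St p) (t u s : ℕ) : ZMod p :=
  ∑ a ∈ range (A.q ^ A.N), if A.Fb a u = s then ∏ z ∈ range A.N, r (rg t (A.ch z)) (A.cl z) (dg A.q z a) else 0

/-- add `- y ^ (p - 1 - N) F^` to the register `t` -/
def addF (y t : ℕ) (r : St p) : St p := fun t' u s =>
  if t' = t ∧ u < A.m ∧ s < A.q then r t' u s - (y : ZMod p) ^ (p - 1 - A.N) * Fh p A r t u s else r t' u s

/-- add the unit vectors of the values `v` to the register `t` -/
def addV (t : ℕ) (v : ℕ → ℕ) (r : St p) : St p := fun t' u s =>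
  if t' = t ∧ u < A.m ∧ s < A.q then r t' u s + (if v u = s then 1 else 0) else r t' u s

variable {ι : Type} (nd : ι → ℕ → ι) (lf : ι → ℕ → ℕ)

/-- the value of a node of height `K` -/
def V : ℕ → ι → ℕ → ℕ
  | 0, j, u => lf j u
  | K + 1, j, u => A.Fb (en A.q A.N fun z => V K (nd j (A.ch z)) (A.cl z)) u

/-- **the recursion**: adds the value of the node `j` of height `K` to the register `t` -/
def Pr : ℕ → ι → ℕ → St p → St p
  | 0, j, t, r => addV p A t (lf j) r
  | K + 1, j, t, r => itr (fun y r => itr (fun e r => Pr K (nd j e) (rg t e) r) (addF p A y t r) A.f) r p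

/-! ### the recursion as one loop of `(p (f + 1)) ^ h` steps -/

/-- phase of the level `l` (from the top) at the time `n`: `0`: polynomial; `e + 1`: child `e` -/
def phs (f W h l n : ℕ) : ℕ := dg W (h - 1 - l) n % (f + 1)

/-- round of the level `l` at the time `n` -/
def yph (f W h l n : ℕ) : ℕ := dg W (h - 1 - l) n / (f + 1)

/-- the highest level with phase `0`, else `h` -/
def lsN (f W h n : ℕ) : ℕ := ∑ l ∈ range h, ∏ l' ∈ range (l + 1), if phs f W h l' n = 0 then 0 else 1

/-- the target after the first `l` levels -/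
def tgN (f W h n : ℕ) (t : ℕ) (l : ℕ) : ℕ := itr (fun l t => rg t (phs f W h l n - 1)) t l

/-- the node after the first `l` levels -/
def ndN (f W h n : ℕ) (j : ι) (l : ℕ) : ι := itr (fun l j => nd j (phs f W h l n - 1)) j l

/-- one step of the loop -/
def stp (h : ℕ) (j : ι) (t n : ℕ) (r : St p) : St p :=
  let W := p * (A.f + 1)
  let l := lsN A.f W h n
  if l = h then addV p A (tgN A.f W h n t l) (lf (ndN nd A.f W h n j l)) r
  else if n % W ^ (h - 1 - l) = 0 then addF p A (yph A.f W h l n) (tgN A.f W h n t l) r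
  else r

/-! ### windows of a cellular automaton with states `0 .. q - 1`, table `T` -/

/-- the neighbour `z + e - 1` lies in the window `[0, w) ^ D` -/
def inW (D w z e : ℕ) : Prop := ∀ i < D, 1 ≤ dg w i z + dg 3 i e ∧ dg w i z + dg 3 i e ≤ w

instance (D w z e : ℕ) : Decidable (inW D w z e) := by
  unfold inW
  infer_instance

/-- the neighbour -/
def nbW (D w z e : ℕ) : ℕ := en w D fun i => dg w i z + dg 3 i e - 1

/-- one step in the window; outside the state is `0` -/
def stepW (D q T w a : ℕ) : ℕ :=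
  en q (w ^ D) fun z => dg q (en q (3 ^ D) fun e => if inW D w z e then dg q (nbW D w z e) a else 0) T

/-- child block of the cell `z` of the window of side `3 b` -/
def chW (D b z : ℕ) : ℕ := en 3 D fun i => dg (3 * b) i z / b

/-- cell of the child block -/
def clW (D b z : ℕ) : ℕ := en b D fun i => dg (3 * b) i z % b

/-- the cell `u` of the middle block in the window -/
def ctW (D b u : ℕ) : ℕ := en (3 * b) D fun i => dg b i u + b

/-- the state of the cell `u` of the middle block after `b` steps -/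
def FbW (D q T b a u : ℕ) : ℕ := dg q (ctW D b u) (itr (fun _ a => stepW D q T (3 * b) a) a b)

/-- tree evaluation data of the automaton -/
def teW (D q T b : ℕ) : TE where
  f := 3 ^ D
  N := (3 * b) ^ D
  m := b ^ D
  q := q
  ch := chW D b
  cl := clW D b
  Fb := FbW D q T b

variable {d : ℕ}

/-- the automaton on `ℤ ^ D` -/
def evZ {D : ℕ} (q T : ℕ) (c : (Fin D → ℤ) → ℕ) : ℕ → (Fin D → ℤ) → ℕ
  | 0 => c
  | t + 1 => fun z => dg q (en q (3 ^ D) fun e => evZ q T c t fun i => z i + (dg 3 i e : ℤ) - 1) T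

/-- the start, states `st i` on the first axis -/
def stZ (n : ℕ) (st : ℕ → ℕ) (z : Fin (d + 1) → ℤ) : ℕ :=
  if (∀ i, i ≠ 0 → z i = 0) ∧ 0 ≤ z 0 ∧ (z 0).toNat < n then st (z 0).toNat else 0

/-- child node -/
def ndZ {D : ℕ} (j : Fin D → ℤ) (e : ℕ) : Fin D → ℤ := fun i => j i + (dg 3 i e : ℤ) - 1

/-- the block `j` at the start -/
def lfZ (b n : ℕ) (st : ℕ → ℕ) (j : Fin (d + 1) → ℤ) (u : ℕ) : ℕ :=
  stZ n st fun i => (b : ℤ) * j i + (dg b i u : ℤ)

/-! ### the registers as one number in base `p` -/

/-- number of digits -/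
def lenN : ℕ := (A.f + 1) * A.m * A.q

/-- the registers of a number -/
def decN (R : ℕ) : St p := fun t u s => (dg p ((t * A.m + u) * A.q + s) R : ZMod p)

/-- the polynomial mod `p` -/
def FhN (t u s R : ℕ) : ℕ :=
  (∑ a ∈ range (A.q ^ A.N), if A.Fb a u = s then
    (∏ z ∈ range A.N, dg p ((rg t (A.ch z) * A.m + A.cl z) * A.q + dg A.q z a) R) % p else 0) % p

/-- `addF` on numbers -/
def addFN (y t R : ℕ) : ℕ :=
  en p (lenN A) fun i => if i / (A.m * A.q) = t then
    (dg p i R + (p - y ^ (p - 1 - A.N) % p) * FhN p A t (i / A.q % A.m) (i % A.q) R) % p else dg p i R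

/-- `addV` on numbers -/
def addVN (t : ℕ) (v : ℕ → ℕ) (R : ℕ) : ℕ :=
  en p (lenN A) fun i => if i / (A.m * A.q) = t then
    (dg p i R + (if v (i / A.q % A.m) = i % A.q then 1 else 0)) % p else dg p i R

/-- the leaf after the phases of the time `n`: sums of the offsets, `≥ 0` -/
def jN (f W h n i : ℕ) : ℕ := ∑ l ∈ range h, dg 3 i (phs f W h l n - 1)

/-- start state of the cell `u` of the leaf -/
def lfN (D b h n st' : ℕ) (st : ℕ → ℕ) (f W u : ℕ) : ℕ :=
  if (∀ i < D, i ≠ 0 → b * jN f W h st' i + dg b i u = b * h) ∧ b * h ≤ b * jN f W h st' 0 + dg b 0 u ∧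
    b * jN f W h st' 0 + dg b 0 u - b * h < n then st (b * jN f W h st' 0 + dg b 0 u - b * h) else 0

/-- one step of the loop on numbers; the time is `τ` -/
def stpN (D b h n : ℕ) (st : ℕ → ℕ) (τ R : ℕ) : ℕ :=
  let W := p * (A.f + 1)
  let l := lsN A.f W h τ
  if l = h then addVN p A (tgN A.f W h τ 0 l) (lfN D b h n τ st A.f W) R
  else if τ % W ^ (h - 1 - l) = 0 then addFN p A (yph A.f W h l τ) (tgN A.f W h τ 0 l) R
  else R

/-- **the simulation**: `1` if the state of the origin at the time `b h` is `1` mod `3` -/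
def simN (D q T b h p n : ℕ) (st : ℕ → ℕ) : ℕ :=
  let R := itr (stpN p (teW D q T b) D b h n st) 0 ((p * (3 ^ D + 1)) ^ h)
  ∑ s ∈ range q, if s % 3 = 1 then dg p s R else 0

end Pool.Agent.PSM
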