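import Pool.Agent.PSM.ELib
import Pool.Agent.PSM.Num

/-!
# Functions computed in linear space: recursion, sums, products, powers, digits

* `itB`, **`E.itB`**, `itB_eq`: recursion cut at `B` in every step;
* `E.sum`, `E.sumB`, `E.sumM`, `E.prodB`, `E.powB`, `E.prodM`, `E.powM`, `E.prodM1`, `E.powM1`;
* `E.divPow`, `E.dg`, `E.enB`.
-/

set_option autoImplicit false

open Finset

namespace Pool.Agent.PSM

variable {α : Type} [Ctx α]

/-! ### recursion -/

/-- recursion cut at `B` in every step -/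
def itB (B : ℕ) (F : ℕ → ℕ → ℕ) (r : ℕ) : ℕ → ℕ := itr (fun i r => Min.min B (F i r)) (Min.min B r)

theorem itB_le (B : ℕ) (F : ℕ → ℕ → ℕ) (r n : ℕ) : itB B F r n ≤ B := by
  cases n with
  | zero => exact min_le_left _ _
  | succ n => exact min_le_left _ _

theorem itr_eq_rec (F : ℕ → ℕ → ℕ) (r n : ℕ) :
    itr F r n = Nat.rec (motive := fun _ => ℕ) r (fun i r => F i r) n := by
  induction n with
  | zero => rfl
  | succ n ih =>
    show F n (itr F r n) = F n _
    rw [ih]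

theorem itB_eq {B : ℕ} {F : ℕ → ℕ → ℕ} {r n : ℕ} (h : ∀ i ≤ n, itr F r i ≤ B) :
    itB B F r n = itr F r n := by
  have key : ∀ i ≤ n, itB B F r i = itr F r i := by
    intro i hi
    induction i with
    | zero => exact min_eq_right (h 0 hi)
    | succ i ih =>
      show Min.min B (F i (itB B F r i)) = F i (itr F r i)
      rw [ih (by omega)]
      exact min_eq_right (h (i + 1) hi)
  exact key n le_rfl

/-- a function in `E` is bounded -/
theorem E.bound {f : α → ℕ} (hf : E f) : ∃ c, ∀ a, f a ≤ (mx a + 2) ^ c := by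
  obtain ⟨c, hc⟩ := hf
  exact ⟨c, hc.1⟩

/-- **recursion, all values bounded by a function in `E`** -/
theorem E.itr {B y g : α → ℕ} {F : ℕ → ℕ → α → ℕ} (hB : E B) (hy : E y) (hg : E g)
    (hF : E fun w : ℕ × ℕ × α => F w.1 w.2.1 w.2.2)
    (hb : ∀ a, ∀ i ≤ y a, PSM.itr (fun i r => F i r a) (g a) i ≤ B a) :
    E fun a => PSM.itr (fun i r => F i r a) (g a) (y a) := by
  obtain ⟨c, hc⟩ := hB.bound
  refine (E.natRec hy hg hF ⟨c, fun a i hi => ?_⟩).ext fun a => (itr_eq_rec _ _ _).symm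
  rw [← itr_eq_rec (fun i r => F i r a)]
  exact (hb a i hi).trans (hc a)

/-- **recursion cut at `B`** -/
theorem E.itB {B y g : α → ℕ} {F : ℕ → ℕ → α → ℕ} (hB : E B) (hy : E y) (hg : E g)
    (hF : E fun w : ℕ × ℕ × α => F w.1 w.2.1 w.2.2) :
    E fun a => PSM.itB (B a) (fun i r => F i r a) (g a) (y a) :=
  E.itr (F := fun i r a => Min.min (B a) (F i r a)) hB hy (E.min hB hg) (E.min hB.snd.snd hF)
    fun a i _ => itB_le (B a) (fun i r => F i r a) (g a) i

/-! ### sums -/

theorem sum_eq_itr (F : ℕ → ℕ) (n : ℕ) : ∑ i ∈ range n, F i = itr (fun i r => r + F i) 0 n := by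
  induction n with
  | zero => rfl
  | succ n ih =>
    rw [sum_range_succ, ih]
    rfl

theorem prod_eq_itr (F : ℕ → ℕ) (n : ℕ) : ∏ i ∈ range n, F i = itr (fun i r => r * F i) 1 n := by
  induction n with
  | zero => rfl
  | succ n ih =>
    rw [prod_range_succ, ih]
    rfl

/-- the arguments of a family in a recursion -/
theorem E.fam {F : ℕ → α → ℕ} (hF : E fun w : ℕ × α => F w.1 w.2) :
    E fun w : ℕ × ℕ × α => F w.1 w.2.2 :=
  E.comp (β := ℕ × ℕ × α) (α := ℕ × α) (G := fun w => (w.1, w.2.2)) (fun i hi => by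
    rcases i with _ | i
    · exact E.fst.ext fun _ => rfl
    · exact (E.get (α := ℕ × ℕ × α) (i := i + 2)
        (Nat.succ_lt_succ hi)).ext fun _ => rfl) hF

theorem E.sum_bound {y : α → ℕ} {F : ℕ → α → ℕ} (hy : E y) (hF : E fun w : ℕ × α => F w.1 w.2) :
    ∃ c, ∀ a, ∀ i ≤ y a, ∑ i ∈ range i, F i a ≤ (mx a + 2) ^ c := by
  obtain ⟨c1, h1⟩ := hy.bound
  obtain ⟨c2, h2⟩ := hF.bound
  refine ⟨c1 + (c1 + 1 + 2) * c2, fun a i hi => ?_⟩
  have h3 : ∀ k ∈ range i, F k a ≤ (mx a + 2) ^ ((c1 + 1 + 2) * c2) := by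
    intro k hk
    have hk' : k < i := mem_range.1 hk
    have e1 : mx (k, a) ≤ (mx a + 2) ^ (c1 + 1) := by
      rw [mx_cons]
      refine max_le ((by omega : k ≤ y a).trans ((h1 a).trans (pow_mono (by omega)))) ?_
      calc mx a ≤ (mx a + 2) ^ 1 := by rw [pow_one]; omega
        _ ≤ _ := pow_mono (by omega)
    calc F k a ≤ (mx (k, a) + 2) ^ c2 := h2 (k, a)
      _ ≤ ((mx a + 2) ^ (c1 + 1 + 2)) ^ c2 :=
        Nat.pow_le_pow_left (add_two_le (Nat.le_add_left 2 _) e1) c2
      _ = _ := (pow_mul _ _ _).symm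
  calc ∑ k ∈ range i, F k a ≤ ∑ _k ∈ range i, (mx a + 2) ^ ((c1 + 1 + 2) * c2) := sum_le_sum h3
    _ = i * (mx a + 2) ^ ((c1 + 1 + 2) * c2) := by rw [sum_const, card_range, smul_eq_mul]
    _ ≤ (mx a + 2) ^ c1 * (mx a + 2) ^ ((c1 + 1 + 2) * c2) :=
      Nat.mul_le_mul_right _ (hi.trans (h1 a))
    _ = _ := (pow_add _ _ _).symm

/-- **sums** -/
theorem E.sum {y : α → ℕ} {F : ℕ → α → ℕ} (hy : E y) (hF : E fun w : ℕ × α => F w.1 w.2) :
    E fun a => ∑ i ∈ range (y a), F i a := by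
  obtain ⟨c, hc⟩ := hy.sum_bound hF
  refine (E.natRec (H := fun i r a => r + F i a) hy (E.const 0) (E.add E.fst.snd hF.fam)
    ⟨c, fun a i hi => ?_⟩).ext fun a => ?_
  · rw [← itr_eq_rec (fun i r => r + F i a), ← sum_eq_itr]
    exact hc a i hi
  · rw [← itr_eq_rec (fun i r => r + F i a), ← sum_eq_itr]

theorem E.sumB {B y : α → ℕ} {F : ℕ → α → ℕ} (hB : E B) (hy : E y) (hF : E fun w : ℕ × α => F w.1 w.2) :
    E fun a => Min.min (B a) (∑ i ∈ range (y a), F i a) := E.min hB (hy.sum hF)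

theorem E.sumM {p y : α → ℕ} {F : ℕ → α → ℕ} (hp : E p) (hy : E y) (hF : E fun w : ℕ × α => F w.1 w.2) :
    E fun a => (∑ i ∈ range (y a), F i a) % p a := E.mod (hy.sum hF) hp

/-! ### products -/

theorem min_mul_min (B x y : ℕ) : Min.min B (Min.min B x * y) = Min.min B (x * y) := by
  rcases le_total x B with h | h
  · rw [min_eq_right h]
  · rw [min_eq_left h]
    rcases Nat.eq_zero_or_pos y with rfl | hy
    · rfl
    · rw [min_eq_left (Nat.le_mul_of_pos_right B hy),
        min_eq_left (h.trans (Nat.le_mul_of_pos_right x hy))]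

theorem prod_itB (B : ℕ) (F : ℕ → ℕ) (n : ℕ) :
    itB B (fun i r => r * F i) 1 n = Min.min B (∏ i ∈ range n, F i) := by
  induction n with
  | zero => rfl
  | succ n ih =>
    show Min.min B (itB B (fun i r => r * F i) 1 n * F n) = _
    rw [ih, min_mul_min, prod_range_succ]

/-- **products cut at `B`** -/
theorem E.prodB {B y : α → ℕ} {F : ℕ → α → ℕ} (hB : E B) (hy : E y) (hF : E fun w : ℕ × α => F w.1 w.2) :
    E fun a => Min.min (B a) (∏ i ∈ range (y a), F i a) :=
  (E.itB (F := fun i r a => r * F i a) hB hy (E.const 1) (E.mul E.fst.snd hF.fam)).ext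
    fun a => prod_itB (B a) (fun i => F i a) (y a)

theorem E.powB {B f g : α → ℕ} (hB : E B) (hf : E f) (hg : E g) :
    E fun a => Min.min (B a) (f a ^ g a) :=
  (E.prodB (F := fun _ a => f a) hB hg hf.snd).ext fun a => by
    rw [prod_const, card_range]

theorem prod_itrM (p : ℕ) (F : ℕ → ℕ) (n : ℕ) :
    itr (fun i r => r * F i % p) (1 % p) n = (∏ i ∈ range n, F i) % p := by
  induction n with
  | zero => rfl
  | succ n ih =>
    show itr (fun i r => r * F i % p) (1 % p) n * F n % p = _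
    rw [ih, prod_range_succ, Nat.mod_mul_mod]

/-- **products modulo a positive number** -/
theorem E.prodM {p y : α → ℕ} {F : ℕ → α → ℕ} (h0 : ∀ a, 0 < p a) (hp : E p) (hy : E y)
    (hF : E fun w : ℕ × α => F w.1 w.2) : E fun a => (∏ i ∈ range (y a), F i a) % p a :=
  (E.itr (B := p) (F := fun i r a => r * F i a % p a) hp hy (E.mod (E.const 1) hp)
    (E.mod (E.mul E.fst.snd hF.fam) hp.snd.snd) fun a i _ => by
      rw [prod_itrM]
      exact (Nat.mod_lt _ (h0 a)).le).ext fun a => prod_itrM _ _ _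

theorem E.powM {p f g : α → ℕ} (h0 : ∀ a, 0 < p a) (hp : E p) (hf : E f) (hg : E g) :
    E fun a => f a ^ g a % p a :=
  (E.prodM (F := fun _ a => f a) h0 hp hg hf.snd).ext fun a => by
    rw [prod_const, card_range]

theorem E.prodM1 {p y : α → ℕ} {F : ℕ → α → ℕ} (hp : E p) (hy : E y)
    (hF : E fun w : ℕ × α => F w.1 w.2) :
    E fun a => (∏ i ∈ range (y a), F i a) % Max.max 1 (p a) :=
  E.prodM (p := fun a => Max.max 1 (p a)) (fun _ => Nat.lt_of_lt_of_le Nat.one_pos (le_max_left _ _))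
    (E.max (E.const 1) hp) hy hF

theorem E.powM1 {p f g : α → ℕ} (hp : E p) (hf : E f) (hg : E g) :
    E fun a => f a ^ g a % Max.max 1 (p a) :=
  E.powM (p := fun a => Max.max 1 (p a)) (fun _ => Nat.lt_of_lt_of_le Nat.one_pos (le_max_left _ _))
    (E.max (E.const 1) hp) hf hg

/-! ### digits -/

theorem itr_div (m a n : ℕ) : itr (fun _ r => r / a) m n = m / a ^ n := by
  induction n with
  | zero => exact (by rw [pow_zero, Nat.div_one] : m = m / a ^ 0)
  | succ n ih =>
    show itr (fun _ r => r / a) m n / a = _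
    rw [ih, Nat.div_div_eq_div_mul, pow_succ]

/-- division by a power -/
theorem E.divPow {a i m : α → ℕ} (ha : E a) (hi : E i) (hm : E m) : E fun v => m v / a v ^ i v :=
  (E.itr (B := m) (F := fun _ r v => r / a v) hm hi hm (E.div E.fst.snd ha.snd.snd) fun v k _ => by
    rw [itr_div]
    exact Nat.div_le_self _ _).ext fun v => itr_div _ _ _

/-- **digits** -/
theorem E.dg {a i m : α → ℕ} (ha : E a) (hi : E i) (hm : E m) : E fun v => PSM.dg (a v) (i v) (m v) :=
  E.mod (E.divPow ha hi hm) ha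

/-- **numbers with given digits**, powers cut at `B` -/
theorem E.enB {B a len : α → ℕ} {r : ℕ → α → ℕ} (hB : E B) (ha : E a) (hl : E len)
    (hr : E fun w : ℕ × α => r w.1 w.2) :
    E fun v => ∑ i ∈ range (len v), r i v * Min.min (B v) (a v ^ i) :=
  E.sum hl (E.mul hr (E.powB hB.snd ha.snd E.fst))

theorem enB_eq {B a len : ℕ} {r : ℕ → ℕ} (h : a ^ len ≤ B) (h0 : 0 < a) :
    ∑ i ∈ range len, r i * Min.min B (a ^ i) = en a len r := by
  refine sum_congr rfl fun i hi => ?_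
  have h1 : a ^ i ≤ a ^ len := Nat.pow_le_pow_right h0 (mem_range.1 hi).le
  rw [min_eq_right (h1.trans h)]

end Pool.Agent.PSM
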