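import Pool.Agent.PSM.ELib2
import Pool.Agent.PSM.Dig
import Pool.Agent.PSM.BigD

/-!
# Linear space against cellular automata: the simulation is computed in linear space

Every power is cut at a bound `B`; the cut functions are in the class `E`; if the numbers `p ^ ((3 ^ D + 1) b ^ D q)`,
`q ^ ((3 b) ^ D)`, `(p (3 ^ D + 1)) ^ h`, .. are at most `B`, they are the functions of `Num`.

* `enC`, `stepWB`, `FbWB`, `FhB`, `addFB`, `addVB`, `stpB`, `simB`; **`E.simB`**; `Big`; **`simB_eq`**; **`E_sim`**.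
-/

set_option autoImplicit false
set_option linter.unusedSectionVars false

open Finset

namespace Pool.Agent.PSM

variable {α : Type} [Ctx α]

/-- a function of the first variable and the context, below one more variable -/
theorem E.skip {V : ℕ → α → ℕ} (hV : E fun w : ℕ × α => V w.1 w.2) :
    E fun w : ℕ × ℕ × α => V w.1 w.2.2 :=
  E.comp (G := fun w : ℕ × ℕ × α => (w.1, w.2.2)) (F := fun w : ℕ × α => V w.1 w.2) (fun i hi => by
    cases i with
    | zero => exact E.fst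
    | succ i => exact E.snd (E.snd (E.get (Nat.lt_of_succ_lt_succ hi)))) hV

/-! ### numbers with given digits -/

/-- `en` cut at `B` -/
def enC (B a len : ℕ) (r : ℕ → ℕ) : ℕ := Min.min B (∑ i ∈ range len, r i * Min.min B (a ^ i))

theorem E.enC {B a len : α → ℕ} {r : ℕ → α → ℕ} (hB : E B) (ha : E a) (hl : E len)
    (hr : E fun w : ℕ × α => r w.1 w.2) : E fun v => PSM.enC (B v) (a v) (len v) fun i => r i v :=
  E.sumB hB hl (F := fun i v => r i v * Min.min (B v) (a v ^ i)) (E.mul hr (E.powB (E.snd hB) (E.snd ha) E.fst))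

theorem enC_eq {B a len : ℕ} {r : ℕ → ℕ} (ha : 0 < a) (hB : a ^ len ≤ B) (h : ∀ i < len, r i < a) :
    PSM.enC B a len r = en a len r := by
  have e : ∑ i ∈ range len, r i * Min.min B (a ^ i) = en a len r := by
    unfold en
    refine sum_congr rfl fun i hi => ?_
    have : a ^ i ≤ B := (Nat.pow_le_pow_right ha (mem_range.1 hi).le).trans hB
    rw [min_eq_right this]
  unfold PSM.enC
  rw [e]
  exact min_eq_right ((en_lt h).le.trans hB)

/-! ### windows -/

theorem E.inW {D w z e : α → ℕ} (hD : E D) (hw : E w) (hz : E z) (he : E e) :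
    E fun v => if inW (D v) (w v) (z v) (e v) then 1 else 0 := by
  refine E.ext (E.all (y := D) (c := fun i v => 1 ≤ PSM.dg (w v) i (z v) + PSM.dg 3 i (e v) ∧
    PSM.dg (w v) i (z v) + PSM.dg 3 i (e v) ≤ w v) hD ?_) fun v => ?_
  · have h1 : E fun u : ℕ × α => PSM.dg (w u.2) u.1 (z u.2) + PSM.dg 3 u.1 (e u.2) :=
      E.add (E.dg (E.snd hw) E.fst (E.snd hz)) (E.dg (E.const 3) E.fst (E.snd he))
    exact E.and (E.le (E.const 1) h1) (E.le h1 (E.snd hw))
  · unfold PSM.inW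
    rfl

/-- the neighbour -/
def nbWB (B D w z e : ℕ) : ℕ := enC B w D fun i => dg w i z + dg 3 i e - 1

theorem E.nbWB {B D w z e : α → ℕ} (hB : E B) (hD : E D) (hw : E w) (hz : E z) (he : E e) :
    E fun v => PSM.nbWB (B v) (D v) (w v) (z v) (e v) :=
  E.enC (r := fun i v => PSM.dg (w v) i (z v) + PSM.dg 3 i (e v) - 1) hB hw hD
    (E.sub (E.add (E.dg (E.snd hw) E.fst (E.snd hz)) (E.dg (E.const 3) E.fst (E.snd he))) (E.const 1))

/-- the code of the neighbourhood -/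
def ruB (B D q w a z : ℕ) : ℕ :=
  enC B q (Min.min B (3 ^ D)) fun e => if inW D w z e then dg q (nbWB B D w z e) a else 0

theorem E.ruB {B D q w a z : α → ℕ} (hB : E B) (hD : E D) (hq : E q) (hw : E w) (ha : E a) (hz : E z) :
    E fun v => PSM.ruB (B v) (D v) (q v) (w v) (a v) (z v) :=
  E.enC (r := fun e v => if PSM.inW (D v) (w v) (z v) e then
    PSM.dg (q v) (PSM.nbWB (B v) (D v) (w v) (z v) e) (a v) else 0) hB hq (E.powB hB (E.const 3) hD)
    (E.ite (E.inW (E.snd hD) (E.snd hw) (E.snd hz) E.fst)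
      (E.dg (E.snd hq) (E.nbWB (E.snd hB) (E.snd hD) (E.snd hw) (E.snd hz) E.fst) (E.snd ha)) (E.const 0))

/-- one step in the window -/
def stepWB (B D q T w a : ℕ) : ℕ := enC B q (Min.min B (w ^ D)) fun z => dg q (ruB B D q w a z) T

theorem E.stepWB {B D q T w a : α → ℕ} (hB : E B) (hD : E D) (hq : E q) (hT : E T) (hw : E w) (ha : E a) :
    E fun v => PSM.stepWB (B v) (D v) (q v) (T v) (w v) (a v) :=
  E.enC (r := fun z v => PSM.dg (q v) (PSM.ruB (B v) (D v) (q v) (w v) (a v) z) (T v)) hB hq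
    (E.powB hB hw hD)
    (E.dg (E.snd hq) (E.ruB (E.snd hB) (E.snd hD) (E.snd hq) (E.snd hw) (E.snd ha) E.fst) (E.snd hT))

/-- child block -/
def chWB (B D b z : ℕ) : ℕ := enC B 3 D fun i => dg (3 * b) i z / b

theorem E.chWB {B D b z : α → ℕ} (hB : E B) (hD : E D) (hb : E b) (hz : E z) :
    E fun v => PSM.chWB (B v) (D v) (b v) (z v) :=
  E.enC (a := fun _ => 3) (r := fun i v => PSM.dg (3 * b v) i (z v) / b v) hB (E.const 3) hD
    (E.div (E.dg (E.mul (E.const 3) (E.snd hb)) E.fst (E.snd hz)) (E.snd hb))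

/-- cell of the child block -/
def clWB (B D b z : ℕ) : ℕ := enC B b D fun i => dg (3 * b) i z % b

theorem E.clWB {B D b z : α → ℕ} (hB : E B) (hD : E D) (hb : E b) (hz : E z) :
    E fun v => PSM.clWB (B v) (D v) (b v) (z v) :=
  E.enC (r := fun i v => PSM.dg (3 * b v) i (z v) % b v) hB hb hD
    (E.mod (E.dg (E.mul (E.const 3) (E.snd hb)) E.fst (E.snd hz)) (E.snd hb))

/-- the cell of the middle block in the window -/
def ctWB (B D b u : ℕ) : ℕ := enC B (3 * b) D fun i => dg b i u + b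

theorem E.ctWB {B D b u : α → ℕ} (hB : E B) (hD : E D) (hb : E b) (hu : E u) :
    E fun v => PSM.ctWB (B v) (D v) (b v) (u v) :=
  E.enC (a := fun v => 3 * b v) (r := fun i v => PSM.dg (b v) i (u v) + b v) hB
    (E.mul (E.const 3) hb) hD (E.add (E.dg (E.snd hb) E.fst (E.snd hu)) (E.snd hb))

/-- the middle block after `b` steps -/
def FbWB (B D q T b a u : ℕ) : ℕ :=
  dg q (ctWB B D b u) (itB B (fun _ a => stepWB B D q T (3 * b) a) a b)

theorem E.FbWB {B D q T b a u : α → ℕ} (hB : E B) (hD : E D) (hq : E q) (hT : E T) (hb : E b) (ha : E a)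
    (hu : E u) : E fun v => PSM.FbWB (B v) (D v) (q v) (T v) (b v) (a v) (u v) :=
  E.dg hq (E.ctWB hB hD hb hu)
    (E.itB (F := fun _ a v => PSM.stepWB (B v) (D v) (q v) (T v) (3 * b v) a) hB hb ha
      (E.stepWB (E.snd (E.snd hB)) (E.snd (E.snd hD)) (E.snd (E.snd hq)) (E.snd (E.snd hT))
        (E.mul (E.const 3) (E.snd (E.snd hb))) (E.snd E.fst)))

/-! ### the registers -/

theorem E.rg {t e : α → ℕ} (ht : E t) (he : E e) : E fun v => PSM.rg (t v) (e v) :=
  E.ite (E.lt he ht) he (E.inc he)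

/-- number of cells -/
def mB (B D b : ℕ) : ℕ := Min.min B (b ^ D)

theorem E.mB {B D b : α → ℕ} (hB : E B) (hD : E D) (hb : E b) : E fun v => PSM.mB (B v) (D v) (b v) :=
  E.powB hB hb hD

/-- the index of a register entry -/
def ixB (B D q b t u s : ℕ) : ℕ := (t * mB B D b + u) * q + s

theorem E.ixB {B D q b t u s : α → ℕ} (hB : E B) (hD : E D) (hq : E q) (hb : E b) (ht : E t) (hu : E u)
    (hs : E s) : E fun v => PSM.ixB (B v) (D v) (q v) (b v) (t v) (u v) (s v) :=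
  E.add (E.mul (E.add (E.mul ht (E.mB hB hD hb)) hu) hq) hs

/-- the entry of the slot `z` for the configuration `a` -/
def slB (B D q b p R t a z : ℕ) : ℕ :=
  dg p (ixB B D q b (rg t (chWB B D b z)) (clWB B D b z) (dg q z a)) R

theorem E.slB {B D q b p R t a z : α → ℕ} (hB : E B) (hD : E D) (hq : E q) (hb : E b) (hp : E p)
    (hR : E R) (ht : E t) (ha : E a) (hz : E z) :
    E fun v => PSM.slB (B v) (D v) (q v) (b v) (p v) (R v) (t v) (a v) (z v) :=
  E.dg hp (E.ixB hB hD hq hb (E.rg ht (E.chWB hB hD hb hz)) (E.clWB hB hD hb hz) (E.dg hq hz ha)) hR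

/-- the product of the slots -/
def prB (B D q b p R t a : ℕ) : ℕ := (∏ z ∈ range (Min.min B ((3 * b) ^ D)), slB B D q b p R t a z) % p

theorem E.prB {B D q b p R t a : α → ℕ} (h0 : ∀ v, 0 < p v) (hB : E B) (hD : E D) (hq : E q) (hb : E b) (hp : E p)
    (hR : E R) (ht : E t) (ha : E a) :
    E fun v => PSM.prB (B v) (D v) (q v) (b v) (p v) (R v) (t v) (a v) :=
  E.prodM h0 (F := fun z v => PSM.slB (B v) (D v) (q v) (b v) (p v) (R v) (t v) (a v) z) hp
    (E.powB hB (E.mul (E.const 3) hb) hD)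
    (E.slB (E.snd hB) (E.snd hD) (E.snd hq) (E.snd hb) (E.snd hp) (E.snd hR) (E.snd ht) (E.snd ha) E.fst)

/-- the polynomial -/
def FhB (B D q T b p R t u s : ℕ) : ℕ :=
  (∑ a ∈ range (Min.min B (q ^ Min.min B ((3 * b) ^ D))),
    if FbWB B D q T b a u = s then prB B D q b p R t a else 0) % p

theorem E.FhB {B D q T b p R t u s : α → ℕ} (h0 : ∀ v, 0 < p v) (hB : E B) (hD : E D) (hq : E q) (hT : E T) (hb : E b)
    (hp : E p) (hR : E R) (ht : E t) (hu : E u) (hs : E s) :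
    E fun v => PSM.FhB (B v) (D v) (q v) (T v) (b v) (p v) (R v) (t v) (u v) (s v) :=
  E.sumM (F := fun a v => if PSM.FbWB (B v) (D v) (q v) (T v) (b v) a (u v) = s v then
      PSM.prB (B v) (D v) (q v) (b v) (p v) (R v) (t v) a else 0) hp
    (E.powB hB hq (E.powB hB (E.mul (E.const 3) hb) hD))
    (E.ite (E.eq (E.FbWB (E.snd hB) (E.snd hD) (E.snd hq) (E.snd hT) (E.snd hb) E.fst (E.snd hu))
      (E.snd hs))
      (E.prB (fun w => h0 w.2) (E.snd hB) (E.snd hD) (E.snd hq) (E.snd hb) (E.snd hp) (E.snd hR) (E.snd ht) E.fst)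
      (E.const 0))

/-- number of digits -/
def lenB (B D q b : ℕ) : ℕ := (Min.min B (3 ^ D) + 1) * mB B D b * q

theorem E.lenB {B D q b : α → ℕ} (hB : E B) (hD : E D) (hq : E q) (hb : E b) :
    E fun v => PSM.lenB (B v) (D v) (q v) (b v) :=
  E.mul (E.mul (E.inc (E.powB hB (E.const 3) hD)) (E.mB hB hD hb)) hq

/-- `addF` -/
def addFB (B D q T b p y t R : ℕ) : ℕ :=
  enC B p (lenB B D q b) fun i => if i / (mB B D b * q) = t then
    (dg p i R + (p - y ^ (p - 1 - Min.min B ((3 * b) ^ D)) % p) *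
      FhB B D q T b p R t (i / q % mB B D b) (i % q)) % p else dg p i R

theorem E.addFB {B D q T b p y t R : α → ℕ} (h0 : ∀ v, 0 < p v) (hB : E B) (hD : E D) (hq : E q) (hT : E T) (hb : E b)
    (hp : E p) (hy : E y) (ht : E t) (hR : E R) :
    E fun v => PSM.addFB (B v) (D v) (q v) (T v) (b v) (p v) (y v) (t v) (R v) := by
  have hm : E fun w : ℕ × α => PSM.mB (B w.2) (D w.2) (b w.2) := E.snd (E.mB hB hD hb)
  refine E.enC (r := fun i v => if i / (PSM.mB (B v) (D v) (b v) * q v) = t v then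
    (PSM.dg (p v) i (R v) + (p v - y v ^ (p v - 1 - Min.min (B v) ((3 * b v) ^ D v)) % p v) *
      PSM.FhB (B v) (D v) (q v) (T v) (b v) (p v) (R v) (t v) (i / q v % PSM.mB (B v) (D v) (b v))
        (i % q v)) % p v else PSM.dg (p v) i (R v)) hB hp (E.lenB hB hD hq hb) ?_
  refine E.ite (E.eq (E.div E.fst (E.mul hm (E.snd hq))) (E.snd ht)) (E.mod (E.add
    (E.dg (E.snd hp) E.fst (E.snd hR)) (E.mul (E.snd (f := fun v => p v - y v ^ (p v - 1 -
      Min.min (B v) ((3 * b v) ^ D v)) % p v) ?_) ?_)) (E.snd hp)) (E.dg (E.snd hp) E.fst (E.snd hR))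
  · exact E.sub hp (E.powM h0 hp hy (E.sub (E.sub hp (E.const 1))
      (E.powB hB (E.mul (E.const 3) hb) hD)))
  · exact E.FhB (fun w => h0 w.2) (E.snd hB) (E.snd hD) (E.snd hq) (E.snd hT) (E.snd hb) (E.snd hp) (E.snd hR)
      (E.snd ht) (E.mod (E.div E.fst (E.snd hq)) hm) (E.mod E.fst (E.snd hq))

/-- `addV` -/
def addVB (B D q b p t : ℕ) (v : ℕ → ℕ) (R : ℕ) : ℕ :=
  enC B p (lenB B D q b) fun i => if i / (mB B D b * q) = t then
    (dg p i R + (if v (i / q % mB B D b) = i % q then 1 else 0)) % p else dg p i R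

theorem E.addVB {B D q b p t R : α → ℕ} {V : ℕ → α → ℕ} (hB : E B) (hD : E D) (hq : E q) (hb : E b)
    (hp : E p) (ht : E t) (hV : E fun w : ℕ × α => V w.1 w.2) (hR : E R) :
    E fun v => PSM.addVB (B v) (D v) (q v) (b v) (p v) (t v) (fun u => V u v) (R v) := by
  have hm : E fun w : ℕ × α => PSM.mB (B w.2) (D w.2) (b w.2) := E.snd (E.mB hB hD hb)
  refine E.enC (r := fun i v => if i / (PSM.mB (B v) (D v) (b v) * q v) = t v then
    (PSM.dg (p v) i (R v) + (if V (i / q v % PSM.mB (B v) (D v) (b v)) v = i % q v then 1 else 0)) %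
      p v else PSM.dg (p v) i (R v)) hB hp (E.lenB hB hD hq hb) ?_
  refine E.ite (E.eq (E.div E.fst (E.mul hm (E.snd hq))) (E.snd ht)) (E.mod (E.add
    (E.dg (E.snd hp) E.fst (E.snd hR)) (E.eq ?_ (E.mod E.fst (E.snd hq)))) (E.snd hp))
    (E.dg (E.snd hp) E.fst (E.snd hR))
  exact E.bind (α := ℕ × α) (g := fun w => w.1 / q w.2 % PSM.mB (B w.2) (D w.2) (b w.2))
    (F := fun u w => V u w.2) (E.mod (E.div E.fst (E.snd hq)) hm) (E.skip hV)

/-! ### the loop -/

/-- number of phases -/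
def WB (B D p : ℕ) : ℕ := p * (Min.min B (3 ^ D) + 1)

theorem E.WB {B D p : α → ℕ} (hB : E B) (hD : E D) (hp : E p) : E fun v => PSM.WB (B v) (D v) (p v) :=
  E.mul hp (E.inc (E.powB hB (E.const 3) hD))

theorem E.phs {f W h l n : α → ℕ} (hf : E f) (hW : E W) (hh : E h) (hl : E l) (hn : E n) :
    E fun v => PSM.phs (f v) (W v) (h v) (l v) (n v) :=
  E.mod (E.dg hW (E.sub (E.sub hh (E.const 1)) hl) hn) (E.inc hf)

theorem E.yph {f W h l n : α → ℕ} (hf : E f) (hW : E W) (hh : E h) (hl : E l) (hn : E n) :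
    E fun v => PSM.yph (f v) (W v) (h v) (l v) (n v) :=
  E.div (E.dg hW (E.sub (E.sub hh (E.const 1)) hl) hn) (E.inc hf)

theorem lsN_le_h (f W h n : ℕ) : PSM.lsN f W h n ≤ h := by
  unfold PSM.lsN
  calc _ ≤ ∑ l ∈ range h, 1 := sum_le_sum fun l _ => prod_le_one (fun _ _ => Nat.zero_le _) fun l' _ => by
        split_ifs <;> omega
    _ = h := by simp

theorem E.lsN {f W h n : α → ℕ} (hf : E f) (hW : E W) (hh : E h) (hn : E n) :
    E fun v => PSM.lsN (f v) (W v) (h v) (n v) := by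
  refine E.ext (E.sumB (B := h) (y := h) (F := fun l v => Min.min 1 (∏ l' ∈ range (l + 1),
    if PSM.phs (f v) (W v) (h v) l' (n v) = 0 then 0 else 1)) hh hh ?_) fun v => ?_
  · refine E.prodB (α := ℕ × α) (B := fun _ => 1) (y := fun w => w.1 + 1) (F := fun l' w =>
      if PSM.phs (f w.2) (W w.2) (h w.2) l' (n w.2) = 0 then 0 else 1) (E.const 1) (E.inc E.fst) ?_
    exact E.ite (E.eq (E.phs (E.snd (E.snd hf)) (E.snd (E.snd hW)) (E.snd (E.snd hh)) E.fst
      (E.snd (E.snd hn))) (E.const 0)) (E.const 0) (E.const 1)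
  · have e : ∀ l ∈ range (h v), Min.min 1 (∏ l' ∈ range (l + 1),
        if PSM.phs (f v) (W v) (h v) l' (n v) = 0 then 0 else 1) = ∏ l' ∈ range (l + 1),
        if PSM.phs (f v) (W v) (h v) l' (n v) = 0 then 0 else 1 := by
      intro l _
      refine min_eq_right (prod_le_one (fun _ _ => Nat.zero_le _) fun l' _ => ?_)
      split_ifs <;> omega
    rw [sum_congr rfl e]
    exact min_eq_right (lsN_le_h _ _ _ _)

/-- the target -/
def tgB (B f W h n t l : ℕ) : ℕ := itB B (fun l t => rg t (phs f W h l n - 1)) t l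

theorem E.tgB {B f W h n t l : α → ℕ} (hB : E B) (hf : E f) (hW : E W) (hh : E h) (hn : E n) (ht : E t)
    (hl : E l) : E fun v => PSM.tgB (B v) (f v) (W v) (h v) (n v) (t v) (l v) :=
  E.itB (F := fun l t v => PSM.rg t (PSM.phs (f v) (W v) (h v) l (n v) - 1)) hB hl ht
    (E.rg (E.snd E.fst) (E.sub (E.phs (E.snd (E.snd hf)) (E.snd (E.snd hW)) (E.snd (E.snd hh)) E.fst
      (E.snd (E.snd hn))) (E.const 1)))

/-- sums of the offsets -/
def jB (B f W h n i : ℕ) : ℕ := Min.min B (∑ l ∈ range h, dg 3 i (phs f W h l n - 1))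

theorem E.jB {B f W h n i : α → ℕ} (hB : E B) (hf : E f) (hW : E W) (hh : E h) (hn : E n) (hi : E i) :
    E fun v => PSM.jB (B v) (f v) (W v) (h v) (n v) (i v) :=
  E.sumB (F := fun l v => PSM.dg 3 (i v) (PSM.phs (f v) (W v) (h v) l (n v) - 1)) hB hh
    (E.dg (E.const 3) (E.snd hi) (E.sub (E.phs (E.snd hf) (E.snd hW) (E.snd hh) E.fst (E.snd hn))
      (E.const 1)))

/-- start state of the cell `u` of the leaf -/
def lfB (B D b h n τ : ℕ) (st : ℕ → ℕ) (f W u : ℕ) : ℕ :=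
  if (∀ i < D, i ≠ 0 → b * jB B f W h τ i + dg b i u = b * h) ∧ b * h ≤ b * jB B f W h τ 0 + dg b 0 u ∧
    b * jB B f W h τ 0 + dg b 0 u - b * h < n then st (b * jB B f W h τ 0 + dg b 0 u - b * h) else 0

theorem E.lfB {B D b h n τ f W u : α → ℕ} {st : ℕ → α → ℕ} (hB : E B) (hD : E D) (hb : E b) (hh : E h)
    (hn : E n) (hτ : E τ) (hst : E fun w : ℕ × α => st w.1 w.2) (hf : E f) (hW : E W) (hu : E u) :
    E fun v => PSM.lfB (B v) (D v) (b v) (h v) (n v) (τ v) (fun i => st i v) (f v) (W v) (u v) := by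
  have h0 : E fun v => b v * PSM.jB (B v) (f v) (W v) (h v) (τ v) 0 + PSM.dg (b v) 0 (u v) :=
    E.add (E.mul hb (E.jB hB hf hW hh hτ (E.const 0))) (E.dg hb (E.const 0) hu)
  refine E.ite (E.and (E.all (y := D) (c := fun i v => i ≠ 0 → b v * PSM.jB (B v) (f v) (W v) (h v) (τ v) i +
    PSM.dg (b v) i (u v) = b v * h v) hD (E.imp (E.not (E.eq E.fst (E.const 0))) (E.eq (E.add
      (E.mul (E.snd hb) (E.jB (E.snd hB) (E.snd hf) (E.snd hW) (E.snd hh) (E.snd hτ) E.fst))
      (E.dg (E.snd hb) E.fst (E.snd hu))) (E.snd (E.mul hb hh))))) (E.and (E.le (E.mul hb hh) h0)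
      (E.lt (E.sub h0 (E.mul hb hh)) hn))) (E.bind (F := fun i v => st i v) (E.sub h0 (E.mul hb hh)) hst)
      (E.const 0)

/-- the level of the step -/
def leB (B D h p τ : ℕ) : ℕ := lsN (Min.min B (3 ^ D)) (WB B D p) h τ

theorem E.leB {B D h p τ : α → ℕ} (hB : E B) (hD : E D) (hh : E h) (hp : E p) (hτ : E τ) :
    E fun v => PSM.leB (B v) (D v) (h v) (p v) (τ v) :=
  E.lsN (E.powB hB (E.const 3) hD) (E.WB hB hD hp) hh hτ

/-- the target of the step -/
def taB (B D h p τ : ℕ) : ℕ := tgB B (Min.min B (3 ^ D)) (WB B D p) h τ 0 (leB B D h p τ)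

theorem E.taB {B D h p τ : α → ℕ} (hB : E B) (hD : E D) (hh : E h) (hp : E p) (hτ : E τ) :
    E fun v => PSM.taB (B v) (D v) (h v) (p v) (τ v) :=
  E.tgB hB (E.powB hB (E.const 3) hD) (E.WB hB hD hp) hh hτ (E.const 0) (E.leB hB hD hh hp hτ)

/-- one step of the loop -/
def stpB (B D q T b h p n : ℕ) (st : ℕ → ℕ) (τ R : ℕ) : ℕ :=
  if leB B D h p τ = h then
    addVB B D q b p (taB B D h p τ) (fun u => lfB B D b h n τ st (Min.min B (3 ^ D)) (WB B D p) u) R
  else if τ % Min.min B ((WB B D p) ^ (h - 1 - leB B D h p τ)) = 0 then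
    addFB B D q T b p (yph (Min.min B (3 ^ D)) (WB B D p) h (leB B D h p τ) τ) (taB B D h p τ) R
  else R

theorem E.stpB {B D q T b h p n τ R : α → ℕ} {st : ℕ → α → ℕ} (h0 : ∀ v, 0 < p v) (hB : E B) (hD : E D) (hq : E q)
    (hT : E T) (hb : E b) (hh : E h) (hp : E p) (hn : E n) (hst : E fun w : ℕ × α => st w.1 w.2)
    (hτ : E τ) (hR : E R) :
    E fun v => PSM.stpB (B v) (D v) (q v) (T v) (b v) (h v) (p v) (n v) (fun i => st i v) (τ v) (R v) := by
  have h3 : E fun v => Min.min (B v) (3 ^ D v) := E.powB hB (E.const 3) hD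
  have hl := E.leB hB hD hh hp hτ
  refine E.ite (E.eq hl hh) ?_ (E.ite (E.eq (E.mod hτ (E.powB hB (E.WB hB hD hp)
    (E.sub (E.sub hh (E.const 1)) hl))) (E.const 0)) ?_ hR)
  · exact E.addVB (V := fun u v => PSM.lfB (B v) (D v) (b v) (h v) (n v) (τ v) (fun i => st i v)
      (Min.min (B v) (3 ^ D v)) (PSM.WB (B v) (D v) (p v)) u) hB hD hq hb hp (E.taB hB hD hh hp hτ)
      (E.lfB (α := ℕ × α) (st := fun i w => st i w.2) (E.snd hB) (E.snd hD) (E.snd hb) (E.snd hh)
        (E.snd hn) (E.snd hτ) (E.skip hst) (E.snd h3) (E.snd (E.WB hB hD hp)) E.fst) hR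
  · exact E.addFB h0 hB hD hq hT hb hp (E.yph h3 (E.WB hB hD hp) hh hl hτ) (E.taB hB hD hh hp hτ) hR

/-- **the simulation, cut at `B`** -/
def simB (B D q T b h p n : ℕ) (st : ℕ → ℕ) : ℕ :=
  Min.min 1 (∑ s ∈ range q, if s % 3 = 1 then
    dg p s (itB B (fun τ R => stpB B D q T b h p n st τ R) 0 (Min.min B ((WB B D p) ^ h))) else 0)

/-- a function of the first variable and the context, below two more variables -/
theorem E.skip2 {V : ℕ → α → ℕ} (hV : E fun w : ℕ × α => V w.1 w.2) :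
    E fun w : ℕ × ℕ × ℕ × α => V w.1 w.2.2.2 :=
  E.skip (α := ℕ × α) (V := fun i w => V i w.2) (E.skip hV)

/-- **the simulation is computed in linear space** -/
theorem E.simB {B D q T b h p n : α → ℕ} {st : ℕ → α → ℕ} (h0 : ∀ v, 0 < p v) (hB : E B) (hD : E D) (hq : E q)
    (hT : E T) (hb : E b) (hh : E h) (hp : E p) (hn : E n) (hst : E fun w : ℕ × α => st w.1 w.2) :
    E fun v => PSM.simB (B v) (D v) (q v) (T v) (b v) (h v) (p v) (n v) fun i => st i v := by
  refine E.bind (g := fun v => PSM.itB (B v) (fun τ R => PSM.stpB (B v) (D v) (q v) (T v) (b v) (h v)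
    (p v) (n v) (fun i => st i v) τ R) 0 (Min.min (B v) ((PSM.WB (B v) (D v) (p v)) ^ h v)))
    (F := fun R v => Min.min 1 (∑ s ∈ range (q v), if s % 3 = 1 then PSM.dg (p v) s R else 0)) ?_ ?_
  · refine E.itB (F := fun τ R v => PSM.stpB (B v) (D v) (q v) (T v) (b v) (h v) (p v) (n v)
      (fun i => st i v) τ R) hB (E.powB hB (E.WB hB hD hp) hh) (E.const 0) ?_
    exact E.stpB (α := ℕ × ℕ × α) (st := fun i w => st i w.2.2) (fun w => h0 w.2.2) (E.snd (E.snd hB)) (E.snd (E.snd hD))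
      (E.snd (E.snd hq)) (E.snd (E.snd hT)) (E.snd (E.snd hb)) (E.snd (E.snd hh)) (E.snd (E.snd hp))
      (E.snd (E.snd hn)) (E.skip2 hst) E.fst (E.snd E.fst)
  · exact E.sumB (α := ℕ × α) (B := fun _ => 1) (y := fun w => q w.2) (F := fun s w => if s % 3 = 1 then
      PSM.dg (p w.2) s w.1 else 0) (E.const 1) (E.snd hq) (E.ite (E.eq (E.mod E.fst (E.const 3))
      (E.const 1)) (E.dg (E.snd (E.snd hp)) E.fst (E.snd E.fst)) (E.const 0))

end Pool.Agent.PSM
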