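import Pool.Agent.PSM.Dig

/-!
# The recursion is one loop (helper27, row C)

**`flat`**: `(p (f + 1)) ^ h` steps `stp` are the recursion `Pr` of height `h`.
-/

set_option autoImplicit false

open Finset

namespace Pool.Agent.PSM

theorem itr_id {α : Type} {F : ℕ → α → α} {n : ℕ} (h : ∀ i < n, ∀ s, F i s = s) (s : α) : itr F s n = s := by
  induction n with
  | zero => rfl
  | succ n ih => rw [itr_succ, ih fun i hi => h i (by omega), h n (by omega)]

section digits

variable {f W h : ℕ} {N D : ℕ}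

/-- phase of the top level -/
theorem phs_top (hN : N < W ^ h) (hD : D < W) : phs f W (h + 1) 0 (N + D * W ^ h) = D % (f + 1) := by
  rw [phs, show h + 1 - 1 - 0 = h by omega, dg_add_mul_eq hN hD]

theorem yph_top (hN : N < W ^ h) (hD : D < W) : yph f W (h + 1) 0 (N + D * W ^ h) = D / (f + 1) := by
  rw [yph, show h + 1 - 1 - 0 = h by omega, dg_add_mul_eq hN hD]

/-- phases of the lower levels -/
theorem phs_low (hN : N < W ^ h) {l : ℕ} (hl : l < h) :
    phs f W (h + 1) (l + 1) (N + D * W ^ h) = phs f W h l N := by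
  rw [phs, phs, show h + 1 - 1 - (l + 1) = h - 1 - l by omega, dg_add_mul_lt hN (by omega)]

theorem yph_low (hN : N < W ^ h) {l : ℕ} (hl : l < h) :
    yph f W (h + 1) (l + 1) (N + D * W ^ h) = yph f W h l N := by
  rw [yph, yph, show h + 1 - 1 - (l + 1) = h - 1 - l by omega, dg_add_mul_lt hN (by omega)]

/-- the stopping level -/
theorem lsN_succ (hN : N < W ^ h) (hD : D < W) :
    lsN f W (h + 1) (N + D * W ^ h) = if D % (f + 1) = 0 then 0 else lsN f W h N + 1 := by
  unfold lsN
  have key : ∀ l, l < h → ∏ l' ∈ range (l + 1 + 1), (if phs f W (h + 1) l' (N + D * W ^ h) = 0 then 0 else 1)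
      = (∏ l' ∈ range (l + 1), if phs f W h l' N = 0 then 0 else 1) * if D % (f + 1) = 0 then 0 else 1 := by
    intro l hl
    rw [prod_range_succ', phs_top hN hD]
    congr 1
    refine prod_congr rfl fun l' hl' => ?_
    rw [phs_low hN (by have := mem_range.1 hl'; omega)]
  rw [sum_range_succ', prod_range_one, phs_top hN hD,
    sum_congr rfl fun l hl => key l (mem_range.1 hl), ← sum_mul]
  split_ifs <;> simp

theorem lsN_le (f W h n : ℕ) : lsN f W h n ≤ h := by
  unfold lsN
  calc ∑ l ∈ range h, ∏ l' ∈ range (l + 1), (if phs f W h l' n = 0 then 0 else 1)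
      ≤ ∑ _l ∈ range h, 1 := sum_le_sum fun l _ => prod_le_one' fun l' _ => by split_ifs <;> omega
    _ = h := by simp

theorem tgN_succ (hN : N < W ^ h) (hD : D < W) (t : ℕ) {l : ℕ} (hl : l ≤ h) :
    tgN f W (h + 1) (N + D * W ^ h) t (l + 1) = tgN f W h N (rg t (D % (f + 1) - 1)) l := by
  unfold tgN
  rw [itr_succ', phs_top hN hD]
  refine itr_congr _ _ fun i hi s => ?_
  rw [phs_low hN (by omega)]

theorem ndN_succ {ι : Type} (nd : ι → ℕ → ι) (hN : N < W ^ h) (hD : D < W) (j : ι) {l : ℕ} (hl : l ≤ h) :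
    ndN nd f W (h + 1) (N + D * W ^ h) j (l + 1) = ndN nd f W h N (nd j (D % (f + 1) - 1)) l := by
  unfold ndN
  rw [itr_succ', phs_top hN hD]
  refine itr_congr _ _ fun i hi s => ?_
  rw [phs_low hN (by omega)]

end digits

variable (p : ℕ) (A : TE) {ι : Type} (nd : ι → ℕ → ι) (lf : ι → ℕ → ℕ)

/-- a step in the phase `0` of the top level -/
theorem stp_zero (h : ℕ) (j : ι) (t : ℕ) {N D : ℕ} (hN : N < (p * (A.f + 1)) ^ h) (hD : D < p * (A.f + 1))
    (h0 : D % (A.f + 1) = 0) (r : St p) :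
    stp p A nd lf (h + 1) j t (N + D * (p * (A.f + 1)) ^ h) r
      = if N = 0 then addF p A (D / (A.f + 1)) t r else r := by
  have hl : lsN A.f (p * (A.f + 1)) (h + 1) (N + D * (p * (A.f + 1)) ^ h) = 0 := by
    rw [lsN_succ hN hD, if_pos h0]
  unfold stp
  simp only [hl]
  rw [if_neg (by omega), show h + 1 - 1 - 0 = h by omega, Nat.add_mul_mod_self_right, Nat.mod_eq_of_lt hN,
    yph_top hN hD]
  rfl

/-- a step in the phase `e + 1` of the top level is a step of the lower levels -/
theorem stp_succ (h : ℕ) (j : ι) (t : ℕ) {N D : ℕ} (hN : N < (p * (A.f + 1)) ^ h) (hD : D < p * (A.f + 1))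
    (h0 : D % (A.f + 1) ≠ 0) (r : St p) :
    stp p A nd lf (h + 1) j t (N + D * (p * (A.f + 1)) ^ h) r
      = stp p A nd lf h (nd j (D % (A.f + 1) - 1)) (rg t (D % (A.f + 1) - 1)) N r := by
  have hl : lsN A.f (p * (A.f + 1)) (h + 1) (N + D * (p * (A.f + 1)) ^ h)
      = lsN A.f (p * (A.f + 1)) h N + 1 := by
    rw [lsN_succ hN hD, if_neg h0]
  have hle := lsN_le A.f (p * (A.f + 1)) h N
  unfold stp
  simp only [hl]
  rcases Nat.lt_or_ge (lsN A.f (p * (A.f + 1)) h N) h with hlt | hge
  · have hne1 : lsN A.f (p * (A.f + 1)) h N + 1 ≠ h + 1 := by omega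
    have hne2 : lsN A.f (p * (A.f + 1)) h N ≠ h := by omega
    rw [if_neg hne1, if_neg hne2, tgN_succ hN hD t hle, yph_low hN hlt,
      show h + 1 - 1 - (lsN A.f (p * (A.f + 1)) h N + 1) = h - 1 - lsN A.f (p * (A.f + 1)) h N by omega]
    have hmod : (N + D * (p * (A.f + 1)) ^ h) % (p * (A.f + 1)) ^ (h - 1 - lsN A.f (p * (A.f + 1)) h N)
        = N % (p * (A.f + 1)) ^ (h - 1 - lsN A.f (p * (A.f + 1)) h N) := by
      obtain ⟨c, hc⟩ := pow_dvd_pow (p * (A.f + 1))
        (show h - 1 - lsN A.f (p * (A.f + 1)) h N ≤ h by omega)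
      rw [hc, ← mul_assoc, mul_comm D, mul_assoc, Nat.add_mul_mod_self_left]
    rw [hmod]
  · have he : lsN A.f (p * (A.f + 1)) h N = h := by omega
    have he1 : lsN A.f (p * (A.f + 1)) h N + 1 = h + 1 := by omega
    rw [if_pos he1, if_pos he, tgN_succ hN hD t hle, ndN_succ nd hN hD j hle]

/-- **the recursion is one loop** -/
theorem flat (hp : 0 < p) (h : ℕ) (j : ι) (t : ℕ) (r : St p) :
    itr (stp p A nd lf h j t) r ((p * (A.f + 1)) ^ h) = Pr p A nd lf h j t r := by
  induction h generalizing j t r with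
  | zero =>
    rw [pow_zero]
    change stp p A nd lf 0 j t 0 r = addV p A t (lf j) r
    unfold stp
    have : lsN A.f (p * (A.f + 1)) 0 0 = 0 := rfl
    simp only [this]
    rfl
  | succ h ih =>
    have hW : 0 < p * (A.f + 1) := Nat.mul_pos hp (by omega)
    have hM : 0 < (p * (A.f + 1)) ^ h := Nat.pow_pos hW
    rw [pow_succ', itr_mul, itr_mul]
    change _ = itr (fun y r => itr (fun e r => Pr p A nd lf h (nd j e) (rg t e) r) (addF p A y t r) A.f) r p
    refine itr_congr _ _ fun y hy r => ?_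
    rw [itr_succ']
    have hD : ∀ e, e < A.f + 1 → y * (A.f + 1) + e < p * (A.f + 1) := by
      intro e he
      calc y * (A.f + 1) + e < (y + 1) * (A.f + 1) := by rw [add_mul, one_mul]; omega
        _ ≤ p * (A.f + 1) := Nat.mul_le_mul_right _ hy
    have hmod : ∀ e, e < A.f + 1 → (y * (A.f + 1) + e) % (A.f + 1) = e := by
      intro e he
      rw [Nat.mul_add_mod_self_right, Nat.mod_eq_of_lt he]
    -- the polynomial
    have h0 : itr (fun i => stp p A nd lf (h + 1) j t ((y * (A.f + 1) + 0) * (p * (A.f + 1)) ^ h + i)) r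
        ((p * (A.f + 1)) ^ h) = addF p A y t r := by
      obtain ⟨M, hM'⟩ : ∃ M, (p * (A.f + 1)) ^ h = M + 1 := ⟨(p * (A.f + 1)) ^ h - 1, by omega⟩
      have hst : ∀ i < (p * (A.f + 1)) ^ h, ∀ s,
          stp p A nd lf (h + 1) j t ((y * (A.f + 1) + 0) * (p * (A.f + 1)) ^ h + i) s
            = if i = 0 then addF p A y t s else s := by
        intro i hi s
        rw [add_comm _ i, stp_zero p A nd lf h j t hi (hD 0 (by omega)) (hmod 0 (by omega)), add_zero,
          Nat.mul_div_cancel _ (by omega : 0 < A.f + 1)]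
      rw [itr_congr _ _ hst, hM', itr_succ', if_pos rfl]
      exact itr_id (fun i _ s => if_neg (by omega)) _
    rw [h0]
    -- the children
    refine itr_congr _ _ fun e he s => ?_
    rw [← ih]
    refine itr_congr _ _ fun i hi s => ?_
    rw [add_comm _ i, stp_succ p A nd lf h j t hi (hD (e + 1) (by omega)) (by rw [hmod _ (by omega)]; omega),
      hmod _ (by omega), Nat.add_sub_cancel]

end Pool.Agent.PSM
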