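import Pool.Agent.PSM.Nest
import Pool.Agent.PSM.Dig

/-!
# Games with `n` rounds on numbers (helper27)

* `game n S`: `∃ u₀ ∀ v₀ ∃ u₁ ∀ v₁ .. S u v`;
* `gmV g n P`: its value, computed with one number: the leaf of the game tree which is looked at;
* **`game_eq`**: they agree; **`nest_game_eq`**: with `k` quantifiers on words in front.
-/

set_option autoImplicit false

open Finset

namespace Pool.Agent.PSM

section tree

variable (g : ℕ) (P : ℕ → ℕ)

/-- the value of the node `M` with `h` rounds below it -/
def gval : ℕ → ℕ → ℕ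
  | 0, M => P M
  | h + 1, M => if ∃ a < g, ∀ b < g, gval h (M * (g * g) + (a * g + b)) = 1 then 1 else 0

/-- the node `M`, `r` rounds above it, has been evaluated to `v`; the next leaf (`H` leaves below `M`) -/
def gup (v : ℕ) : (r : ℕ) → (M : ℕ) → (H : ℕ) → ℕ
  | 0, _, H => H + v
  | r + 1, M, H =>
    if v = 1 then (if M % g + 1 < g then (M + 1) * H else gup v r (M / (g * g)) (H * (g * g)))
    else (if M / g % g + 1 < g then (M / g + 1) * g * H else gup v r (M / (g * g)) (H * (g * g)))

/-- the next leaf; from `(g * g) ^ n` on: stop -/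
def gst (n m : ℕ) : ℕ := if (g * g) ^ n ≤ m then m else gup g (P m) n m 1

variable {g P}

theorem gval_le (hP : ∀ m, P m ≤ 1) (h M : ℕ) : gval g P h M ≤ 1 := by
  cases h with
  | zero => exact hP M
  | succ h =>
    rw [gval]
    split_ifs <;> omega

theorem gval_succ_one {h M : ℕ} : gval g P (h + 1) M = 1 ↔ ∃ a < g, ∀ b < g, gval g P h (M * (g * g) + (a * g + b)) = 1 := by
  rw [gval]
  split_ifs with h1
  · exact ⟨fun _ => h1, fun _ => rfl⟩
  · exact ⟨fun h2 => absurd h2 (by norm_num), fun h2 => absurd h2 h1⟩

private theorem nd_div {M a b : ℕ} (ha : a < g) (hb : b < g) : (M * (g * g) + (a * g + b)) / (g * g) = M := by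
  have h1 : a * g + b < g * g := by
    calc a * g + b < a * g + g := by omega
      _ = (a + 1) * g := by ring
      _ ≤ g * g := Nat.mul_le_mul_right _ ha
  rw [mul_comm M, Nat.mul_add_div (by omega), Nat.div_eq_of_lt h1, add_zero]

private theorem nd_mod {M a b : ℕ} (hb : b < g) : (M * (g * g) + (a * g + b)) % g = b := by
  have : M * (g * g) + (a * g + b) = b + g * (M * g + a) := by ring
  rw [this, Nat.add_mul_mod_self_left, Nat.mod_eq_of_lt hb]

private theorem nd_div_g {M a b : ℕ} (hb : b < g) : (M * (g * g) + (a * g + b)) / g = M * g + a := by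
  have : M * (g * g) + (a * g + b) = b + g * (M * g + a) := by ring
  rw [this, Nat.add_mul_div_left _ _ (by omega), Nat.div_eq_of_lt hb, zero_add]

private theorem nd_div_mod {M a b : ℕ} (ha : a < g) (hb : b < g) : (M * (g * g) + (a * g + b)) / g % g = a := by
  rw [nd_div_g hb, Nat.mul_add_mod_self_right, Nat.mod_eq_of_lt ha]

/-- **the walk through a subtree** -/
theorem walk (hP : ∀ m, P m ≤ 1) (n : ℕ) : ∀ (h r M : ℕ), h + r = n → M < (g * g) ^ r →
    ∃ s ≤ (g * g) ^ h, (gst g P n)^[s] (M * (g * g) ^ h) = gup g (gval g P h M) r M ((g * g) ^ h) := by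
  intro h
  induction h with
  | zero =>
    intro r M hr hM
    obtain rfl : r = n := by omega
    refine ⟨1, by simp, ?_⟩
    rw [Function.iterate_one, pow_zero, mul_one, gst, if_neg (by omega), gval]
  | succ h ih =>
    intro r M hr hM
    rcases Nat.eq_zero_or_pos g with hg | hg
    · -- no letters
      subst hg
      rcases Nat.eq_zero_or_pos r with rfl | hr0
      · have hM0 : M = 0 := by simpa using hM
        subst hM0
        refine ⟨0, Nat.zero_le _, ?_⟩
        rw [Function.iterate_zero, id, gup]
        have h1 : gval 0 P (h + 1) 0 = 0 := by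
          rw [gval, if_neg]
          rintro ⟨a, ha, -⟩
          omega
        rw [h1]
        simp
      · rw [mul_zero, zero_pow (by omega)] at hM
        omega
    have hG : 0 < g * g := Nat.mul_pos hg hg
    -- the nodes below
    have hlt : ∀ a < g, ∀ b < g, M * (g * g) + (a * g + b) < (g * g) ^ (r + 1) := by
      intro a ha b hb
      calc M * (g * g) + (a * g + b) < M * (g * g) + g * g := by
            have : a * g + b < g * g := by
              calc a * g + b < a * g + g := by omega
                _ = (a + 1) * g := by ring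
                _ ≤ g * g := Nat.mul_le_mul_right _ ha
            omega
        _ = (M + 1) * (g * g) := by ring
        _ ≤ (g * g) ^ r * (g * g) := Nat.mul_le_mul_right _ hM
        _ = (g * g) ^ (r + 1) := (pow_succ _ _).symm
    -- all `b` for one `a`
    have hA : ∀ a < g, ∀ c b, b + c = g → 0 < c → ∃ s ≤ c * (g * g) ^ h,
        (gst g P n)^[s] ((M * (g * g) + (a * g + b)) * (g * g) ^ h) =
          if ∀ b' < g, b ≤ b' → gval g P h (M * (g * g) + (a * g + b')) = 1 then
            gup g 1 r M ((g * g) ^ (h + 1))
          else if a + 1 < g then (M * (g * g) + ((a + 1) * g + 0)) * (g * g) ^ h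
          else gup g 0 r M ((g * g) ^ (h + 1)) := by
      intro a ha c
      induction c with
      | zero => intro b _ h0; omega
      | succ c ihc =>
        intro b hbc _
        have hb : b < g := by omega
        obtain ⟨s, hs, he⟩ := ih (r + 1) (M * (g * g) + (a * g + b)) (by omega) (hlt a ha b hb)
        have hv := gval_le (g := g) hP h (M * (g * g) + (a * g + b))
        rcases Nat.lt_or_ge (gval g P h (M * (g * g) + (a * g + b))) 1 with hv0 | hv1
        · -- value `0`
          have hv0' : gval g P h (M * (g * g) + (a * g + b)) = 0 := by omega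
          refine ⟨s, hs.trans (by rw [add_mul, one_mul]; omega), ?_⟩
          rw [he, hv0', if_neg (fun h' => by have := h' b hb le_rfl; omega), gup, if_neg (by norm_num),
            nd_div_mod ha hb, nd_div_g hb, nd_div ha hb, ← pow_succ]
          split_ifs with h1
          · ring
          · rfl
        · have hv1' : gval g P h (M * (g * g) + (a * g + b)) = 1 := by omega
          rw [hv1', gup, if_pos rfl, nd_mod hb, nd_div ha hb, ← pow_succ] at he
          rcases Nat.eq_zero_or_pos c with rfl | hc
          · -- the last `b`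
            refine ⟨s, hs.trans (by simp), ?_⟩
            rw [if_neg (by omega)] at he
            rw [he, if_pos]
            intro b' hb' hle
            obtain rfl : b' = b := by omega
            exact hv1'
          · obtain ⟨s', hs', he'⟩ := ihc (b + 1) (by omega) hc
            refine ⟨s' + s, ?_, ?_⟩
            · rw [add_mul, one_mul]
              omega
            · rw [Function.iterate_add_apply, he, if_pos (by omega),
                show M * (g * g) + (a * g + b) + 1 = M * (g * g) + (a * g + (b + 1)) by ring, he']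
              have hiff : (∀ b' < g, b + 1 ≤ b' → gval g P h (M * (g * g) + (a * g + b')) = 1) ↔
                  ∀ b' < g, b ≤ b' → gval g P h (M * (g * g) + (a * g + b')) = 1 := by
                constructor
                · intro h' b' hb' hle
                  rcases Nat.lt_or_ge b b' with h2 | h2
                  · exact h' b' hb' h2
                  · obtain rfl : b' = b := by omega
                    exact hv1'
                · intro h' b' hb' hle
                  exact h' b' hb' (by omega)
              simp only [hiff]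
    -- all `a`
    have hB : ∀ c a, a + c = g → 0 < c → ∃ s ≤ c * (g * (g * g) ^ h),
        (gst g P n)^[s] ((M * (g * g) + (a * g + 0)) * (g * g) ^ h) =
          gup g (if ∃ a' < g, a ≤ a' ∧ ∀ b < g, gval g P h (M * (g * g) + (a' * g + b)) = 1 then 1 else 0) r M
            ((g * g) ^ (h + 1)) := by
      intro c
      induction c with
      | zero => intro a _ h0; omega
      | succ c ihc =>
        intro a hac _
        have ha : a < g := by omega
        obtain ⟨s, hs, he⟩ := hA a ha g 0 (by omega) hg
        by_cases hall : ∀ b' < g, 0 ≤ b' → gval g P h (M * (g * g) + (a * g + b')) = 1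
        · rw [if_pos hall] at he
          refine ⟨s, hs.trans (Nat.le_mul_of_pos_left _ (by omega)), ?_⟩
          rw [he, if_pos ⟨a, ha, le_rfl, fun b hb => hall b hb (Nat.zero_le _)⟩]
        · rw [if_neg hall] at he
          rcases Nat.eq_zero_or_pos c with rfl | hc
          · rw [if_neg (by omega)] at he
            refine ⟨s, hs.trans (by simp), ?_⟩
            rw [he, if_neg]
            rintro ⟨a', ha', hle, h'⟩
            obtain rfl : a' = a := by omega
            exact hall fun b hb _ => h' b hb
          · rw [if_pos (by omega)] at he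
            obtain ⟨s', hs', he'⟩ := ihc (a + 1) (by omega) hc
            refine ⟨s' + s, ?_, ?_⟩
            · calc s' + s ≤ c * (g * (g * g) ^ h) + g * (g * g) ^ h := add_le_add hs' hs
                _ = (c + 1) * (g * (g * g) ^ h) := by ring
            · rw [Function.iterate_add_apply, he, he']
              have hiff : (∃ a' < g, a + 1 ≤ a' ∧ ∀ b < g, gval g P h (M * (g * g) + (a' * g + b)) = 1) ↔
                  ∃ a' < g, a ≤ a' ∧ ∀ b < g, gval g P h (M * (g * g) + (a' * g + b)) = 1 := by
                constructor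
                · rintro ⟨a', ha', hle, h'⟩
                  exact ⟨a', ha', by omega, h'⟩
                · rintro ⟨a', ha', hle, h'⟩
                  rcases Nat.lt_or_ge a a' with h2 | h2
                  · exact ⟨a', ha', h2, h'⟩
                  · obtain rfl : a' = a := by omega
                    exact absurd (fun b hb _ => h' b hb) hall
              simp only [hiff]
    obtain ⟨s, hs, he⟩ := hB g 0 (by omega) hg
    refine ⟨s, hs.trans_eq (by rw [pow_succ]; ring), ?_⟩
    have h0 : (M * (g * g) + (0 * g + 0)) * (g * g) ^ h = M * (g * g) ^ (h + 1) := by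
      rw [pow_succ]
      ring
    rw [h0] at he
    rw [he, gval]
    simp only [Nat.zero_le, true_and]

end tree

/-- **the value of the game**, one number as memory -/
def gmV (g n : ℕ) (P : ℕ → ℕ) : ℕ := itr (fun _ m => gst g P n m) 0 ((g * g) ^ n) - (g * g) ^ n

theorem itr_const {α : Type} (F : α → α) (r : α) (n : ℕ) : itr (fun _ => F) r n = F^[n] r := by
  induction n with
  | zero => rfl
  | succ n ih => rw [itr_succ, ih, Function.iterate_succ_apply']

variable {g n k : ℕ} {P : ℕ → ℕ}

theorem itr_gst (hP : ∀ m, P m ≤ 1) :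
    itr (fun _ m => gst g P n m) 0 ((g * g) ^ n) = (g * g) ^ n + gval g P n 0 := by
  obtain ⟨s, hs, he⟩ := walk (g := g) hP n n 0 0 (by omega) (by simp)
  rw [zero_mul, gup] at he
  have hfix : ∀ j : ℕ, (gst g P n)^[j] ((g * g) ^ n + gval g P n 0) = (g * g) ^ n + gval g P n 0 := by
    intro j
    induction j with
    | zero => rfl
    | succ j ih => rw [Function.iterate_succ_apply', ih, gst, if_pos (by omega)]
  have hsplit : ∀ N, s ≤ N → itr (fun _ m => gst g P n m) 0 N = (g * g) ^ n + gval g P n 0 := by
    intro N hN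
    obtain ⟨j, rfl⟩ := Nat.exists_eq_add_of_le hN
    rw [itr_const, add_comm s j]
    change (gst g P n)^[j + s] 0 = _
    rw [Function.iterate_add_apply, he, hfix]
  exact hsplit _ hs

theorem gmV_eq_gval (hP : ∀ m, P m ≤ 1) : gmV g n P = gval g P n 0 := by
  rw [gmV, itr_gst hP, Nat.add_sub_cancel_left]

theorem gmV_le (hP : ∀ m, P m ≤ 1) : gmV g n P ≤ 1 := by
  rw [gmV_eq_gval hP]
  exact gval_le hP _ _

/-- the leaf of the choices `u`, `v` below the node `M` -/
def lfI : (n : ℕ) → (M : ℕ) → (Fin n → Fin g) → (Fin n → Fin g) → ℕ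
  | 0, M, _, _ => M
  | n + 1, M, u, v => lfI n (M * (g * g) + ((u 0 : ℕ) * g + v 0)) (fun i => u i.succ) fun i => v i.succ

theorem game_gval {S : (Fin n → Fin g) → (Fin n → Fin g) → Prop} (M : ℕ)
    (h : ∀ u v, P (lfI n M u v) = 1 ↔ S u v) : game n S ↔ gval g P n M = 1 := by
  induction n generalizing M with
  | zero => exact (h _ _).symm
  | succ n ih =>
    rw [gval_succ_one, game]
    have key : ∀ a b : Fin g, (game n fun u v => S (Fin.cons a u) (Fin.cons b v)) ↔
        gval g P n (M * (g * g) + ((a : ℕ) * g + b)) = 1 := by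
      intro a b
      refine ih _ fun u v => ?_
      have := h (Fin.cons a u) (Fin.cons b v)
      rw [← this]
      rfl
    constructor
    · rintro ⟨a, ha⟩
      exact ⟨a, a.2, fun b hb => (key a ⟨b, hb⟩).1 (ha ⟨b, hb⟩)⟩
    · rintro ⟨a, ha, h'⟩
      exact ⟨⟨a, ha⟩, fun b => (key ⟨a, ha⟩ b).2 (h' b b.2)⟩

/-- **the game on numbers** -/
theorem game_eq {S : (Fin n → Fin g) → (Fin n → Fin g) → Prop} (hP : ∀ m, P m ≤ 1)
    (h : ∀ u v, P (lfI n 0 u v) = 1 ↔ S u v) : game n S ↔ gmV g n P = 1 := by
  rw [gmV_eq_gval hP]
  exact game_gval 0 h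

theorem lfI_div (M : ℕ) (u v : Fin n → Fin g) : lfI n M u v / (g * g) ^ n = M := by
  induction n generalizing M with
  | zero => rw [pow_zero, Nat.div_one, lfI]
  | succ n ih =>
    rw [lfI, pow_succ, ← Nat.div_div_eq_div_mul, ih, nd_div (u 0).2 (v 0).2]

/-- the digits of a leaf: the choices of `exists` -/
theorem dg_lfI_one (M : ℕ) (u v : Fin n → Fin g) (i : Fin n) :
    dg g (2 * (n - 1 - i) + 1) (lfI n M u v) = u i := by
  induction n generalizing M with
  | zero => exact i.elim0
  | succ n ih =>
    refine Fin.cases ?_ (fun i => ?_) i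
    · rw [lfI, Fin.val_zero, show 2 * (n + 1 - 1 - 0) + 1 = 1 + 2 * n by omega, dg_add, pow_mul,
        show g ^ 2 = g * g by ring, lfI_div, dg, pow_one, nd_div_mod (u 0).2 (v 0).2]
    · rw [lfI, Fin.val_succ, show n + 1 - 1 - ((i : ℕ) + 1) = n - 1 - i by omega]
      exact ih _ _ _ i

/-- the digits of a leaf: the choices of `for all` -/
theorem dg_lfI_zero (M : ℕ) (u v : Fin n → Fin g) (i : Fin n) :
    dg g (2 * (n - 1 - i)) (lfI n M u v) = v i := by
  induction n generalizing M with
  | zero => exact i.elim0
  | succ n ih =>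
    refine Fin.cases ?_ (fun i => ?_) i
    · rw [lfI, Fin.val_zero, show 2 * (n + 1 - 1 - 0) = 0 + 2 * n by omega, dg_add, pow_mul,
        show g ^ 2 = g * g by ring, lfI_div, dg_zero, nd_mod (v 0).2]
    · rw [lfI, Fin.val_succ, show n + 1 - 1 - ((i : ℕ) + 1) = n - 1 - i by omega]
      exact ih _ _ _ i

/-- the letters of the leaf `m` on the tracks `k`, `k + 1` -/
def spr (g k n m : ℕ) : ℕ :=
  2 * g ^ k * en (2 * g ^ (k + 2)) n fun i => dg g (2 * (n - 1 - i) + 1) m + g * dg g (2 * (n - 1 - i)) m

theorem spr_lfI (k : ℕ) (u v : Fin n → Fin g) : spr g k n (lfI n 0 u v) =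
    2 * g ^ k * (∑ t : Fin n, (u t : ℕ) * (2 * g ^ (k + 2)) ^ (t : ℕ)) +
      2 * g ^ (k + 1) * (∑ t : Fin n, (v t : ℕ) * (2 * g ^ (k + 2)) ^ (t : ℕ)) := by
  unfold spr
  rw [en_eq_sum _ _ (fun t : Fin n => (u t : ℕ) + g * v t) fun i => by rw [dg_lfI_one, dg_lfI_zero]]
  simp only [add_mul, sum_add_distrib, mul_add]
  congr 1
  rw [pow_succ g k, mul_sum, mul_sum]
  exact sum_congr rfl fun t _ => by ring

theorem adl_snoc (x : Fin n → Bool) (y : Fin k → Fin n → Fin g) (u v : Fin n → Fin g) :
    lwd x (Fin.snoc (Fin.snoc y u) v : Fin (k + 2) → Fin n → Fin g) =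
      xwd g (k + 2) x + adl (k + 2) 0 y + spr g k n (lfI n 0 u v) := by
  rw [lwd_eq, spr_lfI, adl, adl, Fin.sum_univ_castSucc, Fin.sum_univ_castSucc]
  simp only [Fin.snoc_last, Fin.snoc_castSucc, Fin.val_last, Fin.val_castSucc, zero_add]
  ring

/-- **`k` quantifiers on words, then a game with `n` rounds, on numbers** -/
theorem nest_game_eq {c : ℕ → ℕ} (R : Fin k → Quant) (x : Fin n → Bool)
    {S : (Fin k → Fin n → Fin g) → (Fin n → Fin g) → (Fin n → Fin g) → Prop}
    (hc : ∀ i : Fin k, c i = qc (R i)) (hP1 : ∀ z, P z ≤ 1)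
    (hP : ∀ y u v, P (lwd x (Fin.snoc (Fin.snoc y u) v : Fin (k + 2) → Fin n → Fin g)) = 1 ↔ S y u v) :
    nest k R (fun y => game n fun u v => S y u v) ↔
      nestZ c (g ^ n) g (k + 2) n (fun z => gmV g n fun m => P (z + spr g k n m)) k 0 (xwd g (k + 2) x) = 1 := by
  refine nestZ_iff c (k + 2) _ k 0 _ R _ (fun i => ?_) fun y => ?_
  · rw [zero_add]
    exact hc i
  · refine (game_eq (fun m => hP1 _) fun u v => ?_).symm
    rw [← adl_snoc]
    exact hP y u v

end Pool.Agent.PSM
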