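import Pool.Agent.PSM.Nest
import Pool.Agent.PSM.ELib2

/-!
# Linear space against cellular automata: the quantifiers in linear space (helper55)

* `E.mx`, `E.mxPow`, `E.powS`; **`E.enS`**, `E.enDg`: numbers with given digits; `E.qv`, `E.upd`; **`E_nest`**.
-/

set_option autoImplicit false

open Finset

namespace Pool.Agent.PSM

variable {α β : Type} [Ctx α] [Ctx β]

/-! ### bounds -/

theorem Bd.snd {f : α → ℕ} (hf : Bd f) : Bd fun v : ℕ × α => f v.2 := by
  obtain ⟨C, hC⟩ := hf
  refine ⟨C, fun v => (hC v.2).trans ?_⟩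
  refine Nat.pow_le_pow_left ?_ _
  have : mx v = max v.1 (mx v.2) := mx_cons v.1 v.2
  rw [this]
  omega

theorem Bd.powC {f : α → ℕ} (hf : Bd f) (C : ℕ) : Bd fun a => f a ^ C := by
  induction C with
  | zero => exact (Bd.const 1).mono fun a => by rw [pow_zero]
  | succ C ih => exact (ih.mul hf).mono fun a => by rw [pow_succ]

/-- powers of a fixed number -/
theorem Bd.constPow {n N : α → ℕ} (hN : Bd N) (hb : ∀ a, 2 ^ n a ≤ N a) (C : ℕ) : Bd fun a => C ^ n a := by
  refine (hN.powC C).mono fun a => ?_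
  calc C ^ n a ≤ (2 ^ C) ^ n a := Nat.pow_le_pow_left (Nat.lt_two_pow_self (n := C)).le _
    _ = (2 ^ n a) ^ C := by rw [← pow_mul, ← pow_mul, mul_comm]
    _ ≤ N a ^ C := Nat.pow_le_pow_left (hb a) _

/-- the largest number of the context -/
theorem E.mx : E fun a : α => PSM.mx a := by
  have key : ∀ m ≤ Ctx.len α, E fun a : α => (range m).sup (Ctx.get a) := by
    intro m
    induction m with
    | zero =>
      intro _
      exact (E.const 0).ext fun a => by simp
    | succ m ih =>
      intro hm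
      refine (E.max (E.get (i := m) (by omega)) (ih (by omega))).ext fun a => ?_
      rw [range_add_one, sup_insert]
  exact key _ le_rfl

theorem E.mxPow (C : ℕ) : E fun a : α => (PSM.mx a + 2) ^ C := by
  induction C with
  | zero => exact (E.const 1).ext fun a => (pow_zero _).symm
  | succ C ih => exact (E.mul ih (E.add E.mx (E.const 2))).ext fun a => (pow_succ _ _).symm

/-- a power which is small -/
theorem E.powS {f g : α → ℕ} (hf : E f) (hg : E g) (hb : Bd fun a => f a ^ g a) : E fun a => f a ^ g a := by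
  obtain ⟨C, hC⟩ := hb
  exact (E.powB (E.mxPow C) hf hg).ext fun a => min_eq_right (hC a)

private lemma zero_pow_le_one' : ∀ i : ℕ, (0 : ℕ) ^ i ≤ 1
  | 0 => le_rfl
  | i + 1 => by simp

/-- numbers with given digits: the power of the base is small -/
theorem E.enS {a len : α → ℕ} {r : ℕ → α → ℕ} (ha : E a) (hlen : E len)
    (hr : E fun w : ℕ × α => r w.1 w.2) (hb : Bd fun v => a v ^ len v) :
    E fun v => en (a v) (len v) fun i => r i v := by
  obtain ⟨C, hC⟩ := hb
  refine (E.enB (E.mxPow C) ha hlen hr).ext fun v => ?_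
  unfold en
  refine sum_congr rfl fun i hi => ?_
  rw [min_eq_right]
  rcases Nat.eq_zero_or_pos (a v) with h0 | h0
  · rw [h0]
    exact (zero_pow_le_one' i).trans (Nat.one_le_pow _ _ (by omega))
  · exact (Nat.pow_le_pow_right h0 (mem_range.1 hi).le).trans (hC v)

/-- the digits of a number in another base -/
theorem E.enDg {a b len m : α → ℕ} (ha : E a) (hb : E b) (hlen : E len) (hm : E m)
    (hp : Bd fun v => a v ^ len v) : E fun v => en (a v) (len v) fun i => PSM.dg (b v) i (m v) :=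
  E.enS (r := fun i v => PSM.dg (b v) i (m v)) ha hlen (E.dg (E.snd hb) E.fst (E.snd hm)) hp

/-! ### the quantifiers -/

theorem E.qv {c G cnt : α → ℕ} (hc : E c) (hG : E G) (hcnt : E cnt) :
    E fun a => PSM.qv (c a) (G a) (cnt a) := by
  unfold PSM.qv
  refine E.ite (E.eq hc (E.const 0)) (E.le (E.const 1) hcnt) ?_
  exact E.ite (E.eq hc (E.const 1)) (E.eq hcnt hG) (E.lt hG (E.mul (E.const 2) hcnt))

theorem E.upd {g k j : ℕ} {n z y : α → ℕ} (hn : E n) (hz : E z) (hy : E y)
    (hp : Bd fun a => (2 * g ^ k) ^ n a) : E fun a => PSM.upd g k (n a) j (z a) (y a) := by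
  unfold PSM.upd
  exact E.add hz (E.mul (E.const _) (E.enDg (E.const _) (E.const g) hn hy hp))

/-- the quantifiers from any place on -/
theorem E_nestB (g k : ℕ) : ∀ (r j : ℕ) {α : Type} [Ctx α] {c : ℕ → α → ℕ} {n z : α → ℕ} {P : ℕ → α → ℕ}
    (_ : ∀ j, E (c j)) (_ : E n) (_ : E z) (_ : E fun w : ℕ × α => P w.1 w.2)
    (_ : Bd fun a => g ^ n a) (_ : Bd fun a => (2 * g ^ k) ^ n a),
    E fun a => nestZ (fun j => c j a) (g ^ n a) g k (n a) (fun z => P z a) r j (z a)
  | 0, j, α, _, c, n, z, P, hc, hn, hz, hP, hg, hk => E.bind hz hP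
  | r + 1, j, α, _, c, n, z, P, hc, hn, hz, hP, hg, hk => by
    have hG : E fun a => g ^ n a := E.powS (E.const g) hn hg
    have h1 := E_nestB g k r (j + 1) (α := ℕ × α) (c := fun j v => c j v.2) (n := fun v => n v.2)
      (z := fun v => PSM.upd g k (n v.2) j (z v.2) v.1) (P := fun z v => P z v.2)
      (fun j => E.snd (hc j)) (E.snd hn) (E.upd (E.snd hn) (E.snd hz) E.fst (Bd.snd hk)) (E.mid hP) (Bd.snd hg)
      (Bd.snd hk)
    have h2 := E.eq h1 (E.const 1)
    have h3 := E.count hG (c := fun y a => nestZ (fun j => c j a) (g ^ n a) g k (n a) (fun z => P z a) r (j + 1)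
      (PSM.upd g k (n a) j (z a) y) = 1) h2
    exact E.qv (hc j) hG h3

/-- **the quantifiers in linear space** -/
theorem E_nest (k g : ℕ) {c : ℕ → α → ℕ} {n N z : α → ℕ} {P : ℕ → α → ℕ} (hc : ∀ j, E (c j))
    (hn : E n) (hN : E N) (hb : ∀ a, 2 ^ n a ≤ N a) (hz : E z) (hP : E fun w : ℕ × α => P w.1 w.2) :
    E fun a => nestZ (fun j => c j a) (g ^ n a) g k (n a) (fun z => P z a) k 0 (z a) :=
  E_nestB g k k 0 hc hn hz hP (Bd.constPow hN.bd hb g) (Bd.constPow hN.bd hb (2 * g ^ k))

end Pool.Agent.PSM
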