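import Pool.Agent.PSM.Game
import Pool.Agent.PSM.NestE

/-!
# The value of a game in linear space (helper27)

* `gup_le`: the walk stays below `(g * g) ^ n + 1`; `gst_eq`: the next leaf in closed form;
* **`E.gmV`**.
-/

set_option autoImplicit false

open Finset

namespace Pool.Agent.PSM

variable {g : ℕ} {P : ℕ → ℕ}

theorem gup_le (v : ℕ) : ∀ (r M H : ℕ), M < (g * g) ^ r → gup g v r M H ≤ H * (g * g) ^ r + v := by
  intro r
  induction r with
  | zero =>
    intro M H _
    rw [gup, pow_zero, mul_one]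
  | succ r ih =>
    intro M H hM
    have hG : 0 < g * g := by
      rcases Nat.eq_zero_or_pos (g * g) with h | h
      · rw [h, pow_succ, mul_zero] at hM
        omega
      · exact h
    have hg : 0 < g := Nat.pos_of_mul_pos_right hG
    have hup : gup g v r (M / (g * g)) (H * (g * g)) ≤ H * (g * g) ^ (r + 1) + v := by
      refine (ih _ _ ?_).trans (le_of_eq (by rw [pow_succ]; ring))
      rw [Nat.div_lt_iff_lt_mul hG, ← pow_succ]
      exact hM
    rw [gup]
    split_ifs with h1 h2 h3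
    · calc (M + 1) * H ≤ (g * g) ^ (r + 1) * H := Nat.mul_le_mul_right _ hM
        _ = H * (g * g) ^ (r + 1) := mul_comm _ _
        _ ≤ _ := Nat.le_add_right _ _
    · exact hup
    · have h4 : M / g + 1 ≤ g * (g * g) ^ r := by
        rw [Nat.succ_le_iff, Nat.div_lt_iff_lt_mul hg]
        calc M < (g * g) ^ (r + 1) := hM
          _ = g * (g * g) ^ r * g := by rw [pow_succ]; ring
      calc (M / g + 1) * g * H ≤ g * (g * g) ^ r * g * H :=
            Nat.mul_le_mul_right _ (Nat.mul_le_mul_right _ h4)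
        _ = H * (g * g) ^ (r + 1) := by rw [pow_succ]; ring
        _ ≤ _ := Nat.le_add_right _ _
    · exact hup

theorem gst_le (hP : ∀ m, P m ≤ 1) {n m : ℕ} (h : m ≤ (g * g) ^ n + 1) : gst g P n m ≤ (g * g) ^ n + 1 := by
  rw [gst]
  split_ifs with h1
  · exact h
  · refine (gup_le _ _ _ _ (by omega)).trans ?_
    have := hP m
    omega

theorem itr_gst_le (hP : ∀ m, P m ≤ 1) (n i : ℕ) : itr (fun _ m => gst g P n m) 0 i ≤ (g * g) ^ n + 1 := by
  induction i with
  | zero => exact Nat.zero_le _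
  | succ i ih => exact gst_le hP ih

/-! ### closed form -/

/-- the round `s` (from below) is over -/
def gdn (g v s M : ℕ) : Prop := g ≤ dg g (2 * s + if v = 1 then 0 else 1) M + 1

instance (g v s M : ℕ) : Decidable (gdn g v s M) := by
  unfold gdn
  infer_instance

/-- the number of rounds which are over -/
def gct (g v r M : ℕ) : ℕ := ((range r).filter fun t => ∀ s < t + 1, gdn g v s M).card

theorem gdn_succ (v s M : ℕ) : gdn g v (s + 1) M ↔ gdn g v s (M / (g * g)) := by
  unfold gdn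
  rw [show 2 * (s + 1) + (if v = 1 then 0 else 1) = 2 * s + (if v = 1 then 0 else 1) + 2 by ring, dg_add,
    show g ^ 2 = g * g by ring]

theorem gct_succ (v r M : ℕ) : gct g v (r + 1) M = if gdn g v 0 M then gct g v r (M / (g * g)) + 1 else 0 := by
  unfold gct
  rw [card_filter, card_filter, sum_range_succ']
  have h0 : (∀ s < 0 + 1, gdn g v s M) ↔ gdn g v 0 M :=
    ⟨fun h => h 0 (by omega), fun h s hs => by
      obtain rfl : s = 0 := by omega
      exact h⟩
  have h1 : ∀ t, (∀ s < t + 1 + 1, gdn g v s M) ↔ gdn g v 0 M ∧ ∀ s < t + 1, gdn g v s (M / (g * g)) := by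
    intro t
    constructor
    · intro h
      exact ⟨h 0 (by omega), fun s hs => (gdn_succ v s M).1 (h (s + 1) (by omega))⟩
    · rintro ⟨h, h'⟩ s hs
      rcases s with _ | s
      · exact h
      · exact (gdn_succ v s M).2 (h' s (by omega))
  simp only [h1, h0]
  by_cases hd : gdn g v 0 M
  · simp [hd]
  · simp [hd]

theorem gct_le (v r M : ℕ) : gct g v r M ≤ r := by
  unfold gct
  exact (card_filter_le _ _).trans_eq (card_range r)

/-- **the next leaf** -/
theorem gup_eq (v : ℕ) : ∀ (r M H : ℕ), gup g v r M H =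
    if gct g v r M = r then H * g ^ (2 * r) + v
    else (M / g ^ (2 * gct g v r M + if v = 1 then 0 else 1) + 1) *
      (g ^ (2 * gct g v r M + if v = 1 then 0 else 1) * H) := by
  intro r
  induction r with
  | zero =>
    intro M H
    rw [gup, if_pos (Nat.le_zero.1 (gct_le v 0 M)), mul_zero, pow_zero, mul_one]
  | succ r ih =>
    intro M H
    rw [gct_succ]
    have e1 : gdn g v 0 M ↔ g ≤ dg g (if v = 1 then 0 else 1) M + 1 := by
      unfold gdn
      rw [mul_zero, zero_add]
    by_cases hd : gdn g v 0 M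
    · have hrec : gup g v (r + 1) M H = gup g v r (M / (g * g)) (H * (g * g)) := by
        rw [e1] at hd
        rw [gup]
        by_cases hv : v = 1
        · rw [if_pos hv] at hd ⊢
          rw [dg_zero] at hd
          rw [if_neg (by omega)]
        · rw [if_neg hv] at hd ⊢
          rw [dg, pow_one] at hd
          rw [if_neg (by omega)]
      rw [hrec, ih, if_pos hd]
      by_cases hr : gct g v r (M / (g * g)) = r
      · rw [if_pos hr, if_pos (show gct g v r (M / (g * g)) + 1 = r + 1 by omega), show 2 * (r + 1) = 2 * r + 2 by ring, pow_add]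
        ring
      · rw [if_neg hr, if_neg (show ¬ (gct g v r (M / (g * g)) + 1 = r + 1) by omega)]
        have e2 : 2 * (gct g v r (M / (g * g)) + 1) + (if v = 1 then 0 else 1) =
            2 + (2 * gct g v r (M / (g * g)) + if v = 1 then 0 else 1) := by ring
        rw [e2, pow_add g 2, show g ^ 2 = g * g by ring, Nat.div_div_eq_div_mul]
        generalize g ^ (2 * gct g v r (M / (g * g)) + if v = 1 then 0 else 1) = X
        generalize M / (g * g * X) = Y
        ring
    · rw [if_neg hd, if_neg (by omega), mul_zero, zero_add]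
      rw [e1] at hd
      rw [gup]
      by_cases hv : v = 1
      · rw [if_pos hv] at hd ⊢
        rw [dg_zero] at hd
        rw [if_pos (by omega), if_pos hv, pow_zero, Nat.div_one, one_mul]
      · rw [if_neg hv] at hd ⊢
        rw [dg, pow_one] at hd
        rw [if_pos (by omega), if_neg hv, pow_one]
        ring

theorem gst_eq (n m : ℕ) : gst g P n m = if (g * g) ^ n ≤ m then m else
    if gct g (P m) n m = n then g ^ (2 * n) + P m
    else (m / g ^ (2 * gct g (P m) n m + if P m = 1 then 0 else 1) + 1) *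
      g ^ (2 * gct g (P m) n m + if P m = 1 then 0 else 1) := by
  rw [gst, gup_eq]
  simp only [one_mul, mul_one]

/-! ### linear space -/

variable {α : Type} [Ctx α]

/-- **the value of a game is computed in linear space** -/
theorem E.gmV (g : ℕ) {n N : α → ℕ} {P : ℕ → α → ℕ} (hn : E n) (hN : E N) (hb : ∀ a, 2 ^ n a ≤ N a)
    (hP : E fun w : ℕ × α => P w.1 w.2) (hP1 : ∀ m a, P m a ≤ 1) :
    E fun a => PSM.gmV g (n a) fun m => P m a := by
  -- contexts: step, leaf, rest
  have hB2 : E fun a => (g * g) ^ n a := E.powS (E.const _) hn (Bd.constPow hN.bd hb _)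
  have hP' : E fun w : ℕ × ℕ × α => P w.2.1 w.2.2 :=
    E.comp (β := ℕ × ℕ × α) (α := ℕ × α) (G := fun w => (w.2.1, w.2.2)) (fun i hi => by
      rcases i with _ | i
      · exact (E.snd E.fst).ext fun _ => rfl
      · exact (E.get (α := ℕ × ℕ × α) (i := i + 2) (Nat.succ_lt_succ hi)).ext fun _ => rfl) hP
  have hm : E fun w : ℕ × ℕ × α => w.2.1 := E.snd E.fst
  have hn' : E fun w : ℕ × ℕ × α => n w.2.2 := E.snd (E.snd hn)
  have hδ : E fun w : ℕ × ℕ × α => if P w.2.1 w.2.2 = 1 then 0 else 1 :=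
    E.ite (E.eq hP' (E.const 1)) (E.const 0) (E.const 1)
  have hdn : E fun w : ℕ × ℕ × ℕ × ℕ × α =>
      if gdn g (P w.2.2.2.1 w.2.2.2.2) w.1 w.2.2.2.1 then 1 else 0 := by
    unfold gdn
    exact E.le (E.const g) (E.inc (E.dg (E.const g)
      (E.add (E.mul (E.const 2) E.fst) (E.snd (E.snd hδ))) (E.snd (E.snd hm))))
  have hct : E fun w : ℕ × ℕ × α => gct g (P w.2.1 w.2.2) (n w.2.2) w.2.1 :=
    E.count (y := fun w : ℕ × ℕ × α => n w.2.2)
      (c := fun t w => ∀ s < t + 1, gdn g (P w.2.1 w.2.2) s w.2.1) hn'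
      (E.all (α := ℕ × ℕ × ℕ × α) (y := fun w => w.1 + 1)
        (c := fun s w => gdn g (P w.2.2.1 w.2.2.2) s w.2.2.1) (E.inc E.fst) hdn)
  have hbd : Bd fun w : ℕ × ℕ × α => (g + 1) * ((g + 1) ^ 2) ^ n w.2.2 :=
    (Bd.const (g + 1)).mul (Bd.snd (Bd.snd (Bd.constPow hN.bd hb _)))
  have hexp : E fun w : ℕ × ℕ × α => 2 * gct g (P w.2.1 w.2.2) (n w.2.2) w.2.1 +
      if P w.2.1 w.2.2 = 1 then 0 else 1 := E.add (E.mul (E.const 2) hct) hδ
  have hpw : E fun w : ℕ × ℕ × α => g ^ (2 * gct g (P w.2.1 w.2.2) (n w.2.2) w.2.1 +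
      if P w.2.1 w.2.2 = 1 then 0 else 1) := by
    refine E.powS (E.const g) hexp (hbd.mono fun w => ?_)
    have h1 := gct_le (g := g) (P w.2.1 w.2.2) (n w.2.2) w.2.1
    calc g ^ (2 * gct g (P w.2.1 w.2.2) (n w.2.2) w.2.1 + if P w.2.1 w.2.2 = 1 then 0 else 1)
        ≤ (g + 1) ^ (2 * gct g (P w.2.1 w.2.2) (n w.2.2) w.2.1 + if P w.2.1 w.2.2 = 1 then 0 else 1) :=
          Nat.pow_le_pow_left (by omega) _
      _ ≤ (g + 1) ^ (1 + 2 * n w.2.2) := Nat.pow_le_pow_right (by omega) (by split_ifs <;> omega)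
      _ = (g + 1) * ((g + 1) ^ 2) ^ n w.2.2 := by rw [pow_add, pow_one, pow_mul]
  have hB2' : E fun w : ℕ × ℕ × α => g ^ (2 * n w.2.2) :=
    (E.snd (E.snd hB2)).ext fun w => by rw [pow_mul, show g ^ 2 = g * g by ring]
  have hF : E fun w : ℕ × ℕ × α => gst g (fun m => P m w.2.2) (n w.2.2) w.2.1 := by
    refine E.ext (E.ite (E.le (E.snd (E.snd hB2)) hm) hm (E.ite (E.eq hct hn') (E.add hB2' hP')
      (E.mul (E.inc (E.div hm hpw)) hpw))) fun w => ?_
    rw [gst_eq]
  exact E.sub (E.itr (F := fun _ m a => gst g (fun m => P m a) (n a) m) (E.inc hB2) hB2 (E.const 0) hF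
    fun a i _ => itr_gst_le (fun m => hP1 m a) (n a) i) hB2

theorem E_gmV (g : ℕ) {n N : α → ℕ} {P : ℕ → α → ℕ} (hn : E n) (hN : E N) (hb : ∀ a, 2 ^ n a ≤ N a)
    (hP : E fun w : ℕ × α => P w.1 w.2) (hP1 : ∀ m a, P m a ≤ 1) :
    E fun a => gmV g (n a) fun m => P m a := E.gmV g hn hN hb hP hP1

/-- the letters of a leaf -/
theorem E.spr (g k : ℕ) {n N m : α → ℕ} (hn : E n) (hN : E N) (hb : ∀ a, 2 ^ n a ≤ N a) (hm : E m) :
    E fun a => PSM.spr g k (n a) (m a) := by
  unfold PSM.spr
  refine E.mul (E.const _) (E.enS (E.const _) hn ?_ (Bd.constPow hN.bd hb _))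
  have h1 : E fun w : ℕ × α => 2 * (n w.2 - 1 - w.1) :=
    E.mul (E.const 2) (E.sub (E.sub (E.snd hn) (E.const 1)) E.fst)
  exact E.add (E.dg (E.const g) (E.inc h1) (E.snd hm)) (E.mul (E.const g) (E.dg (E.const g) h1 (E.snd hm)))

end Pool.Agent.PSM
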