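import Pool.Agent.PSM.LDef

/-!
# Linear space on cellular automata: the automaton

* `lca code H r c a`: the automaton which executes a program on digits; `lca_run`, `lca_empty`.
-/

set_option autoImplicit false

open Finset

namespace Pool.Agent.PSM

namespace LC

/-- the action of the head: new state, direction (`0` stay, `1` left, `2` right) -/
def act (code : ℕ → Ins) (H c : ℕ) (f la x : Bool) (l j : ℕ) (bk : Bool) : (ℕ × ℕ × Bool) × ℕ :=
  if bk = true then (if f = true then ((l, j, false), 0) else ((l, j, true), 1))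
  else if l = H then ((l, j, false), 0)
  else if x = (code l).β then (((code l).l1, 0, true), 0)
  else if la = false then ((l, j, false), 2)
  else if j + 1 < c then ((l, j + 1, true), 0)
  else (((code l).l0, 0, true), 0)

/-- a head -/
def mkh (H c : ℕ) (s : ℕ × ℕ × Bool) : Option (Fin (H + 1) × Fin c × Bool) :=
  if h : s.1 < H + 1 ∧ s.2.1 < c then some (⟨s.1, h.1⟩, ⟨s.2.1, h.2⟩, s.2.2) else none

/-- a digit of a cell -/
def dgt {r c : ℕ} (d : Fin r → Fin c → Bool) (i j : ℕ) : Bool :=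
  if h : i < r ∧ j < c then d ⟨i, h.1⟩ ⟨j, h.2⟩ else false

/-- the head which leaves a cell in the direction `dir` -/
def go (code : ℕ → Ins) (H r c : ℕ) (dir : ℕ) : LQ H r c → Option (Fin (H + 1) × Fin c × Bool)
  | some (Sum.inr (f, la, d, some (l, j, bk))) =>
    if (act code H c f la (dgt d (code l).i j) l j bk).2 = dir then
      mkh H c (act code H c f la (dgt d (code l).i j) l j bk).1 else none
  | _ => none

/-- the new digits of a cell -/
def nd (code : ℕ → Ins) (H r c : ℕ) (d : Fin r → Fin c → Bool) :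
    Option (Fin (H + 1) × Fin c × Bool) → Fin r → Fin c → Bool
  | none => d
  | some (l, j, bk) => fun i j' =>
    if (bk = false ∧ (l : ℕ) ≠ H) ∧ (i : ℕ) = (code l).i ∧ (j' : ℕ) = j then xor (d i j') (code l).w else d i j'

/-- the rule: left neighbour, the cell, right neighbour -/
def rul (code : ℕ → Ins) (H r c : ℕ) (p q : LQ H r c) : LQ H r c → LQ H r c
  | none => none
  | some (Sum.inl b) => some (Sum.inr (p.isNone, q.isNone,
      fun i j => decide ((i : ℕ) = 0) && ((decide ((j : ℕ) = 0) && b) || (decide ((j : ℕ) = 1) && p.isNone)),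
      if p.isNone = true then mkh H c (0, 0, false) else none))
  | some (Sum.inr (f, la, d, hd)) => some (Sum.inr (f, la, nd code H r c d hd,
      (go code H r c 0 (some (Sum.inr (f, la, d, hd)))).or ((go code H r c 2 p).or (go code H r c 1 q))))

/-- the output -/
def ou (H r c : ℕ) (a : Bool) : LQ H r c → Option Bool
  | none => some a
  | some (Sum.inl _) => none
  | some (Sum.inr (f, _, d, some (l, _, bk))) =>
    if f = true ∧ (l : ℕ) = H ∧ bk = false then some (dgt d 0 0) else none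
  | some (Sum.inr (_, _, _, none)) => none

end LC

open LC

/-- the automaton -/
def lca (code : ℕ → Ins) (H r c : ℕ) (a : Bool) : CA 1 Bool (LQ H r c) where
  blank := none
  inp := fun b => some (Sum.inl b)
  rule := fun nb => rul code H r c (nb fun _ => 0) (nb fun _ => 2) (nb fun _ => 1)
  out := ou H r c a

namespace LC

variable {code : ℕ → Ins} {H r c n : ℕ}

/-- admissible states of the head -/
def Vd (H c n : ℕ) (s : (ℕ × ℕ × Bool) × ℕ × (ℕ → ℕ → Bool)) : Prop :=
  s.1.1 ≤ H ∧ s.1.2.1 < c ∧ s.2.1 < n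

/-- the action in a state -/
def ac (code : ℕ → Ins) (H c n : ℕ) (s : (ℕ × ℕ × Bool) × ℕ × (ℕ → ℕ → Bool)) : (ℕ × ℕ × Bool) × ℕ :=
  act code H c (decide (s.2.1 = 0)) (decide (s.2.1 + 1 = n)) (s.2.2 (code s.1.1).i (s.1.2.1 * n + s.2.1))
    s.1.1 s.1.2.1 s.1.2.2

theorem hst_eq (hc : 0 < c) (hcode : ∀ l, (code l).l1 ≤ H ∧ (code l).l0 ≤ H ∧ (code l).i < r)
    {s : (ℕ × ℕ × Bool) × ℕ × (ℕ → ℕ → Bool)} (hs : Vd H c n s) :
    (hst code H c n s).1 = (ac code H c n s).1 ∧
    (hst code H c n s).2.1 = (if (ac code H c n s).2 = 0 then s.2.1 else if (ac code H c n s).2 = 1 then s.2.1 - 1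
      else s.2.1 + 1) ∧
    (hst code H c n s).2.2 = (fun i q => if (s.1.2.2 = false ∧ s.1.1 ≠ H) ∧ i = (code s.1.1).i ∧
      q = s.1.2.1 * n + s.2.1 then xor (s.2.2 i q) (code s.1.1).w else s.2.2 i q) ∧
    ((ac code H c n s).2 = 1 → 0 < s.2.1) ∧ ((ac code H c n s).2 = 2 → s.2.1 + 1 < n) ∧ (ac code H c n s).2 ≤ 2 ∧
    (ac code H c n s).1.1 ≤ H ∧ (ac code H c n s).1.2.1 < c := by
  obtain ⟨⟨l, j, bk⟩, z, b⟩ := s
  obtain ⟨h1, h2, h3⟩ := hs
  simp only at h1 h2 h3
  unfold ac act hst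
  cases bk with
  | true =>
    by_cases hz : z = 0
    · subst hz; simp [h1, h2]
    · simp [hz, h1, h2]; omega
  | false =>
    by_cases hl : l = H
    · subst hl; simp [h2]
    · by_cases hβ : b (code l).i (j * n + z) = (code l).β
      · simp [hl, hβ, (hcode l).1, hc]
      · by_cases hz : z + 1 < n
        · have hz' : z + 1 ≠ n := by omega
          simp [hl, hβ, hz, hz', h1, h2]
        · have hz' : z + 1 = n := by omega
          by_cases hj : j + 1 < c
          · simp [hl, hβ, hz', hj, h1]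
          · simp [hl, hβ, hz', hj, (hcode l).2.1, hc]

theorem vd_hst (hc : 0 < c) (hcode : ∀ l, (code l).l1 ≤ H ∧ (code l).l0 ≤ H ∧ (code l).i < r)
    {s : (ℕ × ℕ × Bool) × ℕ × (ℕ → ℕ → Bool)} (hs : Vd H c n s) : Vd H c n (hst code H c n s) := by
  obtain ⟨e1, e2, -, h1, h2, h3, h4, h5⟩ := hst_eq hc hcode hs
  obtain ⟨g1, g2, g3⟩ := hs
  refine ⟨by rw [e1]; exact h4, by rw [e1]; exact h5, ?_⟩
  rw [e2]
  split_ifs with k1 k2
  · exact g3
  · omega
  · exact h2 (by omega)

/-- the state of a cell -/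
def cst (H r c n : ℕ) (s : (ℕ × ℕ × Bool) × ℕ × (ℕ → ℕ → Bool)) (u : ℕ) : LQ H r c :=
  some (Sum.inr (decide (u = 0), decide (u + 1 = n), fun i j => s.2.2 i (j * n + u),
    if s.2.1 = u then mkh H c s.1 else none))

/-- the configuration -/
def cfg (H r c n : ℕ) (s : (ℕ × ℕ × Bool) × ℕ × (ℕ → ℕ → Bool)) : (Fin 1 → ℤ) → LQ H r c :=
  fun z => if 0 ≤ z 0 ∧ z 0 < n then cst H r c n s (z 0).toNat else none

theorem go_cst (hcode : ∀ l, (code l).l1 ≤ H ∧ (code l).l0 ≤ H ∧ (code l).i < r)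
    {s : (ℕ × ℕ × Bool) × ℕ × (ℕ → ℕ → Bool)} (hs : Vd H c n s) (dir u : ℕ) :
    go code H r c dir (cst H r c n s u) =
      if s.2.1 = u ∧ (ac code H c n s).2 = dir then mkh H c (ac code H c n s).1 else none := by
  obtain ⟨g1, g2, g3⟩ := hs
  unfold cst
  by_cases hu : s.2.1 = u
  · subst hu
    have hm : mkh H c s.1 = some (⟨s.1.1, by omega⟩, ⟨s.1.2.1, g2⟩, s.1.2.2) := by
      unfold mkh
      rw [dif_pos ⟨by omega, g2⟩]
    rw [if_pos rfl, hm]
    show (if (act code H c (decide (s.2.1 = 0)) (decide (s.2.1 + 1 = n))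
      (dgt (fun (i : Fin r) (j : Fin c) => s.2.2 i (j * n + s.2.1)) (code s.1.1).i s.1.2.1) s.1.1 s.1.2.1 s.1.2.2).2 = dir
      then mkh H c (act code H c (decide (s.2.1 = 0)) (decide (s.2.1 + 1 = n))
      (dgt (fun (i : Fin r) (j : Fin c) => s.2.2 i (j * n + s.2.1)) (code s.1.1).i s.1.2.1) s.1.1 s.1.2.1 s.1.2.2).1
      else none) = _
    have hd : dgt (fun (i : Fin r) (j : Fin c) => s.2.2 i (j * n + s.2.1)) (code s.1.1).i s.1.2.1 =
        s.2.2 (code s.1.1).i (s.1.2.1 * n + s.2.1) := by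
      unfold dgt
      rw [dif_pos ⟨(hcode _).2.2, g2⟩]
    rw [hd]
    unfold ac
    simp
  · rw [if_neg hu, if_neg (fun h => hu h.1)]
    rfl

theorem or3 {α : Type} (o : Option α) (p q w : Prop) [Decidable p] [Decidable q] [Decidable w] :
    (if p then o else none).or ((if q then o else none).or (if w then o else none)) =
      if p ∨ q ∨ w then o else none := by
  by_cases hp : p <;> by_cases hq : q <;> by_cases hw : w <;> simp [hp, hq, hw]

theorem digs (hn : 0 < n) {j j' z u : ℕ} (hz : z < n) (hu : u < n) :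
    j' * n + u = j * n + z ↔ j' = j ∧ u = z := by
  constructor
  · intro h
    have h1 : (j' * n + u) % n = (j * n + z) % n := by rw [h]
    rw [Nat.mul_add_mod', Nat.mul_add_mod', Nat.mod_eq_of_lt hu, Nat.mod_eq_of_lt hz] at h1
    subst h1
    exact ⟨Nat.eq_of_mul_eq_mul_right hn (by omega), rfl⟩
  · rintro ⟨rfl, rfl⟩
    rfl

theorem cfg_in {s : (ℕ × ℕ × Bool) × ℕ × (ℕ → ℕ → Bool)} {z : Fin 1 → ℤ} {u : ℕ} (hz : z 0 = u) (hu : u < n) :
    cfg H r c n s z = cst H r c n s u := by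
  unfold cfg
  rw [if_pos (by omega), hz, Int.toNat_natCast]

theorem cfg_out {s : (ℕ × ℕ × Bool) × ℕ × (ℕ → ℕ → Bool)} {z : Fin 1 → ℤ} (hz : ¬ (0 ≤ z 0 ∧ z 0 < n)) :
    cfg H r c n s z = none := if_neg hz

theorem go_none (dir : ℕ) : go code H r c dir none = none := rfl

/-- one step of the cells is one step of the head -/
theorem step_cfg (hc : 0 < c) (hn : 0 < n) (hcode : ∀ l, (code l).l1 ≤ H ∧ (code l).l0 ≤ H ∧ (code l).i < r)
    (a : Bool) {s : (ℕ × ℕ × Bool) × ℕ × (ℕ → ℕ → Bool)} (hs : Vd H c n s) :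
    (lca code H r c a).step (cfg H r c n s) = cfg H r c n (hst code H c n s) := by
  funext z
  have hcen : (fun i => z i + (((1 : Fin 3) : ℕ) : ℤ) - 1) = z := by
    funext i
    simp
  show rul code H r c (cfg H r c n s fun i => z i + (((0 : Fin 3) : ℕ) : ℤ) - 1)
    (cfg H r c n s fun i => z i + (((2 : Fin 3) : ℕ) : ℤ) - 1)
    (cfg H r c n s fun i => z i + (((1 : Fin 3) : ℕ) : ℤ) - 1) = _
  rw [hcen]
  by_cases hz : 0 ≤ z 0 ∧ z 0 < n
  swap
  · rw [cfg_out hz, cfg_out hz]
    rfl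
  obtain ⟨u, hu⟩ : ∃ u : ℕ, z 0 = u := ⟨(z 0).toNat, by omega⟩
  have hun : u < n := by omega
  have f0 : (((0 : Fin 3) : ℕ) : ℤ) = 0 := rfl
  have f2 : (((2 : Fin 3) : ℕ) : ℤ) = 2 := rfl
  have hL : go code H r c 2 (cfg H r c n s fun i => z i + (((0 : Fin 3) : ℕ) : ℤ) - 1) =
      if 0 < u ∧ s.2.1 + 1 = u ∧ (ac code H c n s).2 = 2 then mkh H c (ac code H c n s).1 else none := by
    by_cases h0 : 0 < u
    · rw [cfg_in (u := u - 1) (by
          show z 0 + (((0 : Fin 3) : ℕ) : ℤ) - 1 = ((u - 1 : ℕ) : ℤ)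
          rw [f0, hu]
          omega) (by omega),
        go_cst hcode hs]
      have : (s.2.1 = u - 1 ∧ (ac code H c n s).2 = 2) ↔ (0 < u ∧ s.2.1 + 1 = u ∧ (ac code H c n s).2 = 2) := by
        constructor
        · rintro ⟨h1, h2⟩; exact ⟨h0, by omega, h2⟩
        · rintro ⟨_, h1, h2⟩; exact ⟨by omega, h2⟩
      exact if_congr this rfl rfl
    · rw [cfg_out (by
          show ¬ (0 ≤ z 0 + (((0 : Fin 3) : ℕ) : ℤ) - 1 ∧ z 0 + (((0 : Fin 3) : ℕ) : ℤ) - 1 < n)
          rw [f0, hu]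
          omega), if_neg (fun h => h0 h.1)]
      rfl
  have hR : go code H r c 1 (cfg H r c n s fun i => z i + (((2 : Fin 3) : ℕ) : ℤ) - 1) =
      if u + 1 < n ∧ s.2.1 = u + 1 ∧ (ac code H c n s).2 = 1 then mkh H c (ac code H c n s).1 else none := by
    by_cases h0 : u + 1 < n
    · rw [cfg_in (u := u + 1) (by
          show z 0 + (((2 : Fin 3) : ℕ) : ℤ) - 1 = ((u + 1 : ℕ) : ℤ)
          rw [f2, hu]
          omega) h0, go_cst hcode hs]
      have : (s.2.1 = u + 1 ∧ (ac code H c n s).2 = 1) ↔ (u + 1 < n ∧ s.2.1 = u + 1 ∧ (ac code H c n s).2 = 1) := by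
        constructor
        · rintro ⟨h1, h2⟩; exact ⟨h0, h1, h2⟩
        · rintro ⟨_, h1, h2⟩; exact ⟨h1, h2⟩
      exact if_congr this rfl rfl
    · rw [cfg_out (by
          show ¬ (0 ≤ z 0 + (((2 : Fin 3) : ℕ) : ℤ) - 1 ∧ z 0 + (((2 : Fin 3) : ℕ) : ℤ) - 1 < n)
          rw [f2, hu]
          omega), if_neg (fun h => h0 h.1)]
      rfl
  have hO := go_cst hcode hs 0 u
  obtain ⟨e1, e2, e3, h1, h2, h3, h4, h5⟩ := hst_eq hc hcode hs
  rw [cfg_in hu hun, cfg_in hu hun]
  show some (Sum.inr (decide (u = 0), decide (u + 1 = n),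
      nd code H r c (fun i j => s.2.2 i (j * n + u)) (if s.2.1 = u then mkh H c s.1 else none),
      (go code H r c 0 (cst H r c n s u)).or ((go code H r c 2 _).or (go code H r c 1 _)))) = _
  rw [hO, hL, hR, or3]
  unfold cst
  refine congrArg some (congrArg Sum.inr (Prod.ext rfl (Prod.ext rfl (Prod.ext ?_ ?_))))
  · -- digits
    funext i j
    show nd code H r c (fun i j => s.2.2 i (j * n + u)) (if s.2.1 = u then mkh H c s.1 else none) i j =
      (hst code H c n s).2.2 i (j * n + u)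
    rw [e3]
    obtain ⟨g1, g2, g3⟩ := hs
    by_cases hs0 : s.2.1 = u
    · have hm : mkh H c s.1 = some (⟨s.1.1, by omega⟩, ⟨s.1.2.1, g2⟩, s.1.2.2) := by
        unfold mkh
        rw [dif_pos ⟨by omega, g2⟩]
      rw [if_pos hs0, hm]
      show (if (s.1.2.2 = false ∧ s.1.1 ≠ H) ∧ (i : ℕ) = (code s.1.1).i ∧ (j : ℕ) = s.1.2.1 then
        xor (s.2.2 i (j * n + u)) (code s.1.1).w else s.2.2 i (j * n + u)) = _
      have : ((j : ℕ) * n + u = s.1.2.1 * n + s.2.1) ↔ (j : ℕ) = s.1.2.1 := by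
        rw [hs0, digs hn hun hun]
        exact ⟨fun h => h.1, fun h => ⟨h, rfl⟩⟩
      simp only [this]
    · rw [if_neg hs0]
      have : ¬ ((j : ℕ) * n + u = s.1.2.1 * n + s.2.1) := by
        rw [digs hn g3 hun]
        exact fun h => hs0 h.2.symm
      show s.2.2 i (j * n + u) = (if (s.1.2.2 = false ∧ s.1.1 ≠ H) ∧ (i : ℕ) = (code s.1.1).i ∧
        (j : ℕ) * n + u = s.1.2.1 * n + s.2.1 then xor (s.2.2 i (j * n + u)) (code s.1.1).w
        else s.2.2 i (j * n + u))
      rw [if_neg (fun h => this h.2.2)]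
  · -- head
    show _ = (if (hst code H c n s).2.1 = u then mkh H c (hst code H c n s).1 else none)
    rw [e1, e2]
    have : ((s.2.1 = u ∧ (ac code H c n s).2 = 0) ∨ (0 < u ∧ s.2.1 + 1 = u ∧ (ac code H c n s).2 = 2) ∨
        (u + 1 < n ∧ s.2.1 = u + 1 ∧ (ac code H c n s).2 = 1)) ↔
        (if (ac code H c n s).2 = 0 then s.2.1 else if (ac code H c n s).2 = 1 then s.2.1 - 1 else s.2.1 + 1) = u := by
      have g3 := hs.2.2
      by_cases k0 : (ac code H c n s).2 = 0
      · rw [if_pos k0]; omega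
      · rw [if_neg k0]
        by_cases k1 : (ac code H c n s).2 = 1
        · rw [if_pos k1]; have := h1 k1; omega
        · rw [if_neg k1]; omega
    simp only [this]

theorem iter_cfg (hc : 0 < c) (hn : 0 < n) (hcode : ∀ l, (code l).l1 ≤ H ∧ (code l).l0 ≤ H ∧ (code l).i < r)
    (a : Bool) {s : (ℕ × ℕ × Bool) × ℕ × (ℕ → ℕ → Bool)} (hs : Vd H c n s) (t : ℕ) :
    (lca code H r c a).step^[t] (cfg H r c n s) = cfg H r c n ((hst code H c n)^[t] s) ∧
      Vd H c n ((hst code H c n)^[t] s) := by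
  induction t with
  | zero => exact ⟨rfl, hs⟩
  | succ t ih =>
    rw [Function.iterate_succ_apply', Function.iterate_succ_apply', ih.1]
    exact ⟨step_cfg hc hn hcode a ih.2, vd_hst hc hcode ih.2⟩

theorem blank_stays (a : Bool) (x : (Fin 1 → ℤ) → LQ H r c) (z : Fin 1 → ℤ) (hz : x z = none) (t : ℕ) :
    (lca code H r c a).step^[t] x z = none := by
  induction t with
  | zero => exact hz
  | succ t ih =>
    rw [Function.iterate_succ_apply']
    have hcen : (fun i => z i + (((1 : Fin 3) : ℕ) : ℤ) - 1) = z := by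
      funext i
      simp
    show rul code H r c _ _ ((lca code H r c a).step^[t] x fun i => z i + (((1 : Fin 3) : ℕ) : ℤ) - 1) = none
    rw [hcen, ih]
    rfl

theorem start_out (a : Bool) (x : Fin n → Bool) {z : Fin 1 → ℤ} (hz : ¬ (0 ≤ z 0 ∧ z 0 < n)) :
    (lca code H r c a).start x z = none := by
  unfold CA.start
  rw [dif_neg]
  · rfl
  · rintro ⟨-, h1, h2⟩
    exact hz ⟨h1, by omega⟩

theorem start_in (a : Bool) (x : Fin n → Bool) {z : Fin 1 → ℤ} {u : ℕ} (hz : z 0 = u) (hu : u < n) :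
    (lca code H r c a).start x z = some (Sum.inl (x ⟨u, hu⟩)) := by
  unfold CA.start
  have h : (∀ i : Fin 1, i ≠ 0 → z i = 0) ∧ 0 ≤ z 0 ∧ (z 0).toNat < n :=
    ⟨fun i hi => absurd (Subsingleton.elim i 0) hi, by omega, by omega⟩
  rw [dif_pos h]
  exact congrArg (fun q : Fin n => (some (Sum.inl (x q)) : LQ H r c))
    (Fin.ext (by show (z 0).toNat = u; rw [hz, Int.toNat_natCast]))

/-- the first step -/
theorem step_start (hn : 0 < n) (a : Bool) (x : Fin n → Bool) :
    (lca code H r c a).step ((lca code H r c a).start x) = cfg H r c n ((0, 0, false), 0, b0 x) := by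
  funext z
  have hcen : (fun i => z i + (((1 : Fin 3) : ℕ) : ℤ) - 1) = z := by
    funext i
    simp
  show rul code H r c ((lca code H r c a).start x fun i => z i + (((0 : Fin 3) : ℕ) : ℤ) - 1)
    ((lca code H r c a).start x fun i => z i + (((2 : Fin 3) : ℕ) : ℤ) - 1)
    ((lca code H r c a).start x fun i => z i + (((1 : Fin 3) : ℕ) : ℤ) - 1) = _
  rw [hcen]
  by_cases hz : 0 ≤ z 0 ∧ z 0 < n
  swap
  · rw [cfg_out hz, start_out a x hz]
    rfl
  obtain ⟨u, hu⟩ : ∃ u : ℕ, z 0 = u := ⟨(z 0).toNat, by omega⟩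
  have hun : u < n := by omega
  have f0 : (((0 : Fin 3) : ℕ) : ℤ) = 0 := rfl
  have f2 : (((2 : Fin 3) : ℕ) : ℤ) = 2 := rfl
  have hL : ((lca code H r c a).start x fun i => z i + (((0 : Fin 3) : ℕ) : ℤ) - 1).isNone = decide (u = 0) := by
    by_cases h0 : 0 < u
    · rw [start_in a x (u := u - 1) (by
          show z 0 + (((0 : Fin 3) : ℕ) : ℤ) - 1 = ((u - 1 : ℕ) : ℤ)
          rw [f0, hu]
          omega) (by omega)]
      simp
      omega
    · rw [start_out a x (by
          show ¬ (0 ≤ z 0 + (((0 : Fin 3) : ℕ) : ℤ) - 1 ∧ z 0 + (((0 : Fin 3) : ℕ) : ℤ) - 1 < n)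
          rw [f0, hu]
          omega)]
      simp
      omega
  have hR : ((lca code H r c a).start x fun i => z i + (((2 : Fin 3) : ℕ) : ℤ) - 1).isNone =
      decide (u + 1 = n) := by
    by_cases h0 : u + 1 < n
    · rw [start_in a x (u := u + 1) (by
          show z 0 + (((2 : Fin 3) : ℕ) : ℤ) - 1 = ((u + 1 : ℕ) : ℤ)
          rw [f2, hu]
          omega) h0]
      simp
      omega
    · rw [start_out a x (by
          show ¬ (0 ≤ z 0 + (((2 : Fin 3) : ℕ) : ℤ) - 1 ∧ z 0 + (((2 : Fin 3) : ℕ) : ℤ) - 1 < n)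
          rw [f2, hu]
          omega)]
      simp
      omega
  rw [cfg_in hu hun, start_in a x hu hun]
  show some (Sum.inr (_, _, _, _)) = _
  rw [hL, hR]
  unfold cst
  refine congrArg some (congrArg Sum.inr (Prod.ext rfl (Prod.ext rfl (Prod.ext ?_ ?_))))
  · funext i j
    show (decide ((i : ℕ) = 0) && ((decide ((j : ℕ) = 0) && x ⟨u, hun⟩) || (decide ((j : ℕ) = 1) && decide (u = 0)))) =
      b0 x i (j * n + u)
    unfold b0
    by_cases hi : (i : ℕ) = 0
    · rw [if_pos hi, decide_eq_true hi, Bool.true_and]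
      by_cases hj : (j : ℕ) = 0
      · have h1 : (j : ℕ) * n + u = u := by rw [hj]; ring
        have h2 : (j : ℕ) * n + u < n := by omega
        rw [dif_pos h2]
        simp [hj]
      · have h2 : ¬ ((j : ℕ) * n + u < n) := by
          have : n ≤ (j : ℕ) * n := Nat.le_mul_of_pos_left n (by omega)
          omega
        rw [dif_neg h2, decide_eq_false hj, Bool.false_and, Bool.false_or]
        have h3 : ((j : ℕ) * n + u = n) ↔ ((j : ℕ) = 1 ∧ u = 0) := by
          have := digs (j := 1) (j' := j) (z := 0) (u := u) hn hn hun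
          rw [one_mul, add_zero] at this
          exact this
        rw [← Bool.decide_and]
        exact decide_eq_decide.2 h3.symm
    · rw [if_neg hi, decide_eq_false hi, Bool.false_and]
  · show (if decide (u = 0) = true then mkh H c (0, 0, false) else none) =
      (if 0 = u then mkh H c (0, 0, false) else none)
    by_cases h0 : u = 0
    · subst h0
      simp
    · have h0' : ¬ (0 = u) := fun h => h0 h.symm
      simp [h0, h0']

end LC

theorem lca_run {code : ℕ → Ins} {H r c n : ℕ} (hr : 0 < r) (hc : 2 ≤ c) (hn : 0 < n)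
    (hcode : ∀ l, (code l).l1 ≤ H ∧ (code l).l0 ≤ H ∧ (code l).i < r) (a : Bool) (x : Fin n → Bool) :
    (∀ (t : ℕ) (z : Fin 1 → ℤ), ¬ (0 ≤ z 0 ∧ z 0 < n) →
      (lca code H r c a).step^[t] ((lca code H r c a).start x) z = (lca code H r c a).blank) ∧
    (lca code H r c a).out ((lca code H r c a).origin x 0) = none ∧
    ∀ t, (lca code H r c a).out ((lca code H r c a).origin x (t + 1)) =
      (let s := (hst code H c n)^[t] ((0, 0, false), 0, b0 x)
        if s.1.1 = H ∧ s.1.2.2 = false ∧ s.2.1 = 0 then some (s.2.2 0 0) else none) := by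
  refine ⟨fun t z hz => blank_stays a _ z (start_out a x hz) t, ?_, fun t => ?_⟩
  · show (lca code H r c a).out ((lca code H r c a).start x 0) = none
    rw [start_in a x (z := 0) (u := 0) rfl hn]
    rfl
  · have hv : Vd H c n ((0, 0, false), 0, b0 x) := ⟨Nat.zero_le _, by show 0 < c; omega, hn⟩
    obtain ⟨h1, h2⟩ := iter_cfg (by omega) hn hcode a hv t
    show (lca code H r c a).out ((lca code H r c a).step^[t + 1] ((lca code H r c a).start x) 0) = _
    rw [Function.iterate_succ_apply, step_start hn, h1]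
    rw [cfg_in (z := 0) (u := 0) rfl hn]
    show _ = (if ((hst code H c n)^[t] ((0, 0, false), 0, b0 x)).1.1 = H ∧
      ((hst code H c n)^[t] ((0, 0, false), 0, b0 x)).1.2.2 = false ∧
      ((hst code H c n)^[t] ((0, 0, false), 0, b0 x)).2.1 = 0 then
      some (((hst code H c n)^[t] ((0, 0, false), 0, b0 x)).2.2 0 0) else none)
    generalize (hst code H c n)^[t] ((0, 0, false), 0, b0 x) = s at h2
    obtain ⟨g1, g2, g3⟩ := h2
    by_cases hs : s.2.1 = 0
    · have hm : mkh H c s.1 = some (⟨s.1.1, by omega⟩, ⟨s.1.2.1, g2⟩, s.1.2.2) := by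
        unfold mkh
        rw [dif_pos ⟨by omega, g2⟩]
      unfold cst
      rw [if_pos hs, hm]
      show (if decide (0 = 0) = true ∧ s.1.1 = H ∧ s.1.2.2 = false then
        some (dgt (fun (i : Fin r) (j : Fin c) => s.2.2 i (j * n + 0)) 0 0) else none) = _
      have hd : dgt (fun (i : Fin r) (j : Fin c) => s.2.2 i (j * n + 0)) 0 0 = s.2.2 0 0 := by
        unfold dgt
        rw [dif_pos ⟨hr, by omega⟩]
        simp
      rw [hd]
      simp [hs]
    · unfold cst
      rw [if_neg hs, if_neg (fun h => hs h.2.2)]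
      rfl

theorem lca_empty {code : ℕ → Ins} {H r c : ℕ} (a : Bool) (x : Fin 0 → Bool) :
    (∀ (t : ℕ) (z : Fin 1 → ℤ), (lca code H r c a).step^[t] ((lca code H r c a).start x) z = (lca code H r c a).blank) ∧
    (lca code H r c a).out (lca code H r c a).blank = some a :=
  ⟨fun t z => blank_stays a _ z (start_out a x (by omega)) t, rfl⟩

end Pool.Agent.PSM
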