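import Pool.Agent.PSM.LDef

/-!
# Linear space on cellular automata: the head (helper69)

**`hst_run`**: the head executes the program.
-/

set_option autoImplicit false

open Finset

namespace Pool.Agent.PSM

section

variable {code : ℕ → Ins} {H c n : ℕ}

private theorem hst_back (l j z : ℕ) (b : ℕ → ℕ → Bool) :
    (hst code H c n)^[z + 1] ((l, j, true), z, b) = ((l, j, false), 0, b) := by
  induction z with
  | zero =>
    rw [Function.iterate_one]
    show (if (0 : ℕ) = 0 then ((l, j, false), 0, b) else ((l, j, true), 0 - 1, b)) = _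
    exact if_pos rfl
  | succ z ih =>
    rw [Function.iterate_succ_apply]
    have e : hst code H c n ((l, j, true), z + 1, b) = ((l, j, true), z, b) := by
      show (if z + 1 = 0 then ((l, j, false), z + 1, b) else ((l, j, true), z + 1 - 1, b)) = _
      exact if_neg (Nat.succ_ne_zero z)
    rw [e]
    exact ih

private theorem flp_zero (w : Bool) (i : ℕ) (b : ℕ → ℕ → Bool) : flp w i 0 b = b := by
  funext j p
  unfold flp
  rw [if_neg (by omega)]

private theorem flp_at (w : Bool) (i q : ℕ) (b : ℕ → ℕ → Bool) : flp w i q b i q = b i q := by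
  unfold flp
  rw [if_neg (by omega)]

private theorem flp_succ (w : Bool) (i q : ℕ) (b : ℕ → ℕ → Bool) :
    (fun i' q' => if i' = i ∧ q' = q then xor (flp w i q b i' q') w else flp w i q b i' q') = flp w i (q + 1) b := by
  funext j p
  unfold flp
  by_cases hj : j = i
  · rcases lt_trichotomy p q with h | h | h
    · rw [if_neg (by omega), if_pos ⟨hj, h⟩, if_pos ⟨hj, by omega⟩]
    · rw [if_pos ⟨hj, h⟩, if_neg (by omega), if_pos ⟨hj, by omega⟩]
    · rw [if_neg (by omega), if_neg (by omega), if_neg (by omega)]
  · rw [if_neg (fun h => hj h.1), if_neg (fun h => hj h.1), if_neg (fun h => hj h.1)]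

/-- reached from one another -/
private def Rch (code : ℕ → Ins) (H c n : ℕ) (s t : (ℕ × ℕ × Bool) × ℕ × (ℕ → ℕ → Bool)) : Prop :=
  ∃ k, (hst code H c n)^[k] s = t

private theorem Rch.trans {s t u : (ℕ × ℕ × Bool) × ℕ × (ℕ → ℕ → Bool)} (h : Rch code H c n s t)
    (h' : Rch code H c n t u) : Rch code H c n s u := by
  obtain ⟨k, hk⟩ := h
  obtain ⟨k', hk'⟩ := h'
  refine ⟨k' + k, ?_⟩
  rw [Function.iterate_add_apply, hk, hk']

private theorem Rch.one {s t : (ℕ × ℕ × Bool) × ℕ × (ℕ → ℕ → Bool)} (h : hst code H c n s = t) :
    Rch code H c n s t := ⟨1, h⟩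

private theorem Rch.back (l j z : ℕ) (b : ℕ → ℕ → Bool) :
    Rch code H c n ((l, j, true), z, b) ((l, j, false), 0, b) := ⟨z + 1, hst_back l j z b⟩

/-- the digit is found -/
private theorem found {l j z : ℕ} (hl : l ≠ H) {b : ℕ → ℕ → Bool} (hb : b (code l).i (j * n + z) = (code l).β) :
    Rch code H c n ((l, j, false), z, flp (code l).w (code l).i (j * n + z) b)
      (((code l).l1, 0, false), 0, flp (code l).w (code l).i (j * n + z + 1) b) := by
  refine Rch.trans (Rch.one (t := (((code l).l1, 0, true), z, flp (code l).w (code l).i (j * n + z + 1) b)) ?_)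
    (Rch.back _ _ _ _)
  change (if l = H then _ else if _ then _ else _) = _
  rw [if_neg hl, if_pos (by rw [flp_at, hb]), flp_succ]

/-- the digit is not found -/
private theorem next {l j z : ℕ} (hl : l ≠ H) {b : ℕ → ℕ → Bool} (hb : b (code l).i (j * n + z) ≠ (code l).β)
    :
    Rch code H c n ((l, j, false), z, flp (code l).w (code l).i (j * n + z) b)
      (if z + 1 < n then ((l, j, false), z + 1, flp (code l).w (code l).i (j * n + z + 1) b)
      else if j + 1 < c then ((l, j + 1, false), 0, flp (code l).w (code l).i (j * n + z + 1) b)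
      else (((code l).l0, 0, false), 0, flp (code l).w (code l).i (j * n + z + 1) b)) := by
  have e : hst code H c n ((l, j, false), z, flp (code l).w (code l).i (j * n + z) b) =
      (if z + 1 < n then ((l, j, false), z + 1, flp (code l).w (code l).i (j * n + z + 1) b)
      else if j + 1 < c then ((l, j + 1, true), z, flp (code l).w (code l).i (j * n + z + 1) b)
      else (((code l).l0, 0, true), z, flp (code l).w (code l).i (j * n + z + 1) b)) := by
    change (if l = H then _ else if _ then _ else _) = _
    rw [if_neg hl, if_neg (by rw [flp_at]; exact hb), flp_succ]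
  split_ifs with h1 h2
  · rw [if_pos h1] at e
    exact Rch.one e
  · rw [if_neg h1, if_pos h2] at e
    exact (Rch.one e).trans (Rch.back _ _ _ _)
  · rw [if_neg h1, if_neg h2] at e
    exact (Rch.one e).trans (Rch.back _ _ _ _)

/-- the scan -/
private theorem scan (hn : 0 < n) {l : ℕ} (hl : l ≠ H) {b : ℕ → ℕ → Bool} (q : ℕ) (hq : q < c * n)
    (hb : ∀ p < q, b (code l).i p ≠ (code l).β) :
    Rch code H c n ((l, 0, false), 0, b) ((l, q / n, false), q % n, flp (code l).w (code l).i q b) := by
  induction q with
  | zero =>
    rw [Nat.zero_div, Nat.zero_mod, flp_zero]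
    exact ⟨0, rfl⟩
  | succ q ih =>
    refine (ih (by omega) fun p hp => hb p (by omega)).trans ?_
    have e : q / n * n + q % n = q := by rw [mul_comm, Nat.div_add_mod]
    have hj : q / n < c := (Nat.div_lt_iff_lt_mul hn).2 (by omega)
    have hz : q % n < n := Nat.mod_lt _ hn
    have h1 := next (code := code) (c := c) hl (b := b) (j := q / n) (z := q % n) (by rw [e]; exact hb q (by omega))
    rw [e] at h1
    by_cases h2 : q % n + 1 < n
    · rw [if_pos h2] at h1
      have h3 : (q + 1) / n = q / n := by
        rw [← e, add_assoc, mul_comm, Nat.mul_add_div hn, Nat.div_eq_of_lt h2, Nat.mul_add_div hn,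
          Nat.div_eq_of_lt hz]
      have h4 : (q + 1) % n = q % n + 1 := by
        rw [← e, add_assoc, mul_comm, Nat.mul_add_mod, Nat.mod_eq_of_lt h2, Nat.mul_add_mod, Nat.mod_mod]
      rw [h3, h4]
      exact h1
    · rw [if_neg h2] at h1
      have h5 : q % n + 1 = n := by omega
      have h6 : q + 1 = (q / n + 1) * n := by
        calc q + 1 = q / n * n + (q % n + 1) := by omega
          _ = (q / n + 1) * n := by
              rw [h5]
              ring
      have h7 : q / n + 1 < c := by
        rw [h6] at hq
        exact Nat.lt_of_mul_lt_mul_right hq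
      rw [if_pos h7] at h1
      have h3 : (q + 1) / n = q / n + 1 := by
        rw [h6]
        exact Nat.mul_div_cancel _ hn
      have h4 : (q + 1) % n = 0 := by
        rw [h6]
        exact Nat.mul_mod_left _ _
      rw [h3, h4]
      exact h1

/-- one instruction -/
private theorem instr (hc : 0 < c) (hn : 0 < n) (l : ℕ) (b : ℕ → ℕ → Bool) :
    Rch code H c n ((l, 0, false), 0, b)
      (((stepL code H (c * n) (l, b)).1, 0, false), 0, (stepL code H (c * n) (l, b)).2) := by
  by_cases hl : l = H
  · have e : stepL code H (c * n) (l, b) = (l, b) := if_pos hl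
    rw [e]
    exact ⟨0, rfl⟩
  · have e : stepL code H (c * n) (l, b) = (code l).exec (c * n) b := if_neg hl
    rw [e]
    unfold Ins.exec
    split_ifs with h
    · have h1 := Nat.find_spec h
      have h2 : ∀ p < Nat.find h, b (code l).i p ≠ (code l).β := fun p hp h3 =>
        Nat.find_min h hp ⟨hp.trans h1.1, h3⟩
      refine (scan hn hl (Nat.find h) h1.1 h2).trans ?_
      have e : Nat.find h / n * n + Nat.find h % n = Nat.find h := by rw [mul_comm, Nat.div_add_mod]
      have h3 := found (code := code) (c := c) (n := n) hl (b := b) (j := Nat.find h / n) (z := Nat.find h % n)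
        (by rw [e]; exact h1.2)
      rw [e] at h3
      exact h3
    · have h2 : ∀ p < c * n, b (code l).i p ≠ (code l).β := fun p hp h3 => h ⟨p, hp, h3⟩
      have hN : 0 < c * n := Nat.mul_pos hc hn
      obtain ⟨q, hq⟩ : ∃ q, c * n = q + 1 := ⟨c * n - 1, by omega⟩
      have h4 := scan (c := c) hn hl q (by omega) fun p hp => h2 p (by omega)
      refine h4.trans ?_
      have e : q / n * n + q % n = q := by rw [mul_comm, Nat.div_add_mod]
      have hz : q % n < n := Nat.mod_lt _ hn
      have h1 := next (code := code) (c := c) (n := n) hl (b := b) (j := q / n) (z := q % n)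
        (by rw [e]; exact h2 q (by omega))
      rw [e] at h1
      have h5 : (q / n + 1) * n ≥ c * n := by
        have : (q / n + 1) * n = q / n * n + n := by ring
        omega
      have h6 : c ≤ q / n + 1 := Nat.le_of_mul_le_mul_right h5 hn
      have h7 : ¬ q % n + 1 < n := by
        intro h8
        have h9 : q / n < c := (Nat.div_lt_iff_lt_mul hn).2 (by omega)
        have h10 : q / n + 1 = c := by omega
        have : (q / n + 1) * n = q / n * n + n := by ring
        rw [h10] at this
        omega
      rw [if_neg h7, if_neg (not_lt.2 h6)] at h1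
      rw [hq]
      exact h1

end

/-- **the head executes the program** -/
theorem hst_run {code : ℕ → Ins} {H c n : ℕ} (hc : 0 < c) (hn : 0 < n) {k l l' : ℕ} {b b' : ℕ → ℕ → Bool}
    (h : (stepL code H (c * n))^[k] (l, b) = (l', b')) :
    ∃ k', (hst code H c n)^[k'] ((l, 0, false), 0, b) = ((l', 0, false), 0, b') := by
  change Rch code H c n _ _
  induction k generalizing l b with
  | zero =>
    cases h
    exact ⟨0, rfl⟩
  | succ k ih =>
    rw [Function.iterate_succ_apply] at h
    exact (instr hc hn l b).trans (ih h)

end Pool.Agent.PSM
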