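import Pool.Agent.PSM.LDef

/-!
# Linear space on cellular automata: numbers in binary digits (helper29)

* `bv_lt`, `bv_b0`, `bv_b0'`, `bv_zero_digit`: the number with the digits `b`;
* `exec_inc`, `exec_dec`, `exec_tst`: the three instructions used: add one, subtract one, test.
-/

set_option autoImplicit false

open Finset

namespace Pool.Agent.PSM

theorem bv_lt (N : ℕ) (b : ℕ → Bool) : bv N b < 2 ^ N := by
  induction N with
  | zero => simp [bv]
  | succ N ih =>
    have h1 : (b N).toNat < 2 := Bool.toNat_lt (b N)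
    have h2 : bv (N + 1) b = bv N b + (b N).toNat * 2 ^ N := sum_range_succ _ _
    have h3 : (b N).toNat * 2 ^ N ≤ 1 * 2 ^ N := Nat.mul_le_mul_right _ (by omega)
    rw [h2, pow_succ]
    omega

theorem bv_succ' (N : ℕ) (b : ℕ → Bool) : bv (N + 1) b = 2 * bv N (fun p => b (p + 1)) + (b 0).toNat := by
  unfold bv
  rw [sum_range_succ', mul_sum, pow_zero, mul_one]
  congr 1
  refine sum_congr rfl fun p _ => ?_
  rw [pow_succ]
  ring

theorem bv_zero' {N : ℕ} {b : ℕ → Bool} (h : ∀ p < N, b p = false) : bv N b = 0 := by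
  unfold bv
  refine sum_eq_zero fun p hp => ?_
  rw [h p (mem_range.1 hp)]
  simp

theorem bv_ne_zero {N p : ℕ} {b : ℕ → Bool} (hp : p < N) (h : b p = true) : bv N b ≠ 0 := by
  have h1 : (b p).toNat * 2 ^ p ≤ bv N b :=
    single_le_sum (f := fun p => (b p).toNat * 2 ^ p) (fun _ _ => Nat.zero_le _) (mem_range.2 hp)
  rw [h] at h1
  have h2 : 0 < 2 ^ p := by positivity
  simp at h1
  omega

private theorem bv_all {N : ℕ} {b : ℕ → Bool} (h : ∀ p < N, b p = true) : bv N b + 1 = 2 ^ N := by
  induction N with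
  | zero => simp [bv]
  | succ N ih =>
    have h2 : bv (N + 1) b = bv N b + (b N).toNat * 2 ^ N := sum_range_succ _ _
    have h3 := ih fun p hp => h p (by omega)
    rw [h2, h N (by omega), pow_succ]
    simp
    omega

theorem bv_b0 {n N : ℕ} (x : Fin n → Bool) (h : n < N) : bv N (b0 x 0) = num (List.ofFn x) := by
  induction n generalizing N with
  | zero =>
    obtain ⟨M, rfl⟩ : ∃ M, N = M + 1 := ⟨N - 1, by omega⟩
    rw [bv_succ', bv_zero' (fun p _ => by simp [b0])]
    simp [b0, num]
  | succ n ih =>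
    obtain ⟨M, rfl⟩ : ∃ M, N = M + 1 := ⟨N - 1, by omega⟩
    have h1 := ih (N := M) (fun i => x i.succ) (by omega)
    rw [bv_succ', List.ofFn_succ]
    show _ = 2 * num _ + (x 0).toNat
    rw [← h1]
    have h2 : (fun p => b0 x 0 (p + 1)) = b0 (fun i => x i.succ) 0 := by
      funext p
      unfold b0
      by_cases hp : p < n
      · rw [if_pos rfl, if_pos rfl, dif_pos (by omega : p + 1 < n + 1), dif_pos hp]
        rfl
      · rw [if_pos rfl, if_pos rfl, dif_neg (by omega : ¬ p + 1 < n + 1), dif_neg hp]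
        simp
    have h3 : b0 x 0 0 = x 0 := by
      unfold b0
      rw [if_pos rfl, dif_pos (by omega : 0 < n + 1)]
      rfl
    rw [h2, h3]

theorem bv_b0' {n N i : ℕ} (x : Fin n → Bool) (h : i ≠ 0) : bv N (b0 x i) = 0 :=
  bv_zero' fun p _ => by
    unfold b0
    rw [if_neg h]

theorem bv_zero_digit {N : ℕ} (b : ℕ → Bool) (h : 0 < N) : b 0 = decide (bv N b % 2 = 1) := by
  obtain ⟨M, rfl⟩ : ∃ M, N = M + 1 := ⟨N - 1, by omega⟩
  rw [bv_succ']
  cases hb : b 0
  · simp
  · simp [Nat.add_mod]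

/-! ### the flips -/

private theorem bv_up (m : ℕ) : ∀ (N : ℕ) (b : ℕ → Bool), m < N → (∀ p < m, b p = true) → b m = false →
    bv N (fun p => if p < m + 1 then xor (b p) true else b p) = bv N b + 1 := by
  induction m with
  | zero =>
    intro N b hN _ hm
    obtain ⟨M, rfl⟩ : ∃ M, N = M + 1 := ⟨N - 1, by omega⟩
    rw [bv_succ', bv_succ', hm]
    simp [hm]
  | succ m ih =>
    intro N b hN hb hm
    obtain ⟨M, rfl⟩ : ∃ M, N = M + 1 := ⟨N - 1, by omega⟩
    have h1 := ih M (fun p => b (p + 1)) (by omega) (fun p hp => hb (p + 1) (by omega)) hm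
    have h2 : (fun p => (fun p => if p < m + 1 + 1 then xor (b p) true else b p) (p + 1)) =
        fun p => if p < m + 1 then xor (b (p + 1)) true else b (p + 1) := by
      funext p
      simp only [Nat.add_lt_add_iff_right]
    rw [bv_succ', bv_succ', h2, h1, hb 0 (by omega)]
    simp [hb 0 (by omega)]
    ring

private theorem bv_down (m : ℕ) : ∀ (N : ℕ) (b : ℕ → Bool), m < N → (∀ p < m, b p = false) → b m = true →
    bv N (fun p => if p < m + 1 then xor (b p) true else b p) + 1 = bv N b := by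
  induction m with
  | zero =>
    intro N b hN _ hm
    obtain ⟨M, rfl⟩ : ∃ M, N = M + 1 := ⟨N - 1, by omega⟩
    rw [bv_succ', bv_succ', hm]
    simp [hm]
  | succ m ih =>
    intro N b hN hb hm
    obtain ⟨M, rfl⟩ : ∃ M, N = M + 1 := ⟨N - 1, by omega⟩
    have h1 := ih M (fun p => b (p + 1)) (by omega) (fun p hp => hb (p + 1) (by omega)) hm
    have h2 : (fun p => (fun p => if p < m + 1 + 1 then xor (b p) true else b p) (p + 1)) =
        fun p => if p < m + 1 then xor (b (p + 1)) true else b (p + 1) := by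
      funext p
      simp only [Nat.add_lt_add_iff_right]
    rw [bv_succ', bv_succ', h2, ← h1, hb 0 (by omega)]
    simp [hb 0 (by omega)]
    ring

private theorem flp_same (w : Bool) (i m : ℕ) (b : ℕ → ℕ → Bool) :
    flp w i m b i = fun p => if p < m then xor (b i p) w else b i p := by
  funext p
  simp [flp]

private theorem flp_other {w : Bool} {i m j : ℕ} {b : ℕ → ℕ → Bool} (h : j ≠ i) : flp w i m b j = b j := by
  funext p
  simp [flp, h]

private theorem flp_false (i m : ℕ) (b : ℕ → ℕ → Bool) : flp false i m b = b := by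
  funext j p
  simp [flp]

/-! ### the three instructions -/

open Classical in
theorem exec_inc {I : Ins} {N : ℕ} {b : ℕ → ℕ → Bool} (hI : I.β = false) (hw : I.w = true)
    (h : bv N (b I.i) + 1 < 2 ^ N) : (I.exec N b).1 = I.l1 ∧ bv N ((I.exec N b).2 I.i) = bv N (b I.i) + 1 ∧
      ∀ j, j ≠ I.i → (I.exec N b).2 j = b j := by
  have h1 : ∃ p, p < N ∧ b I.i p = I.β := by
    by_contra c
    push Not at c
    have h2 := bv_all (N := N) (b := b I.i) fun p hp => by
      have := c p hp
      rw [hI] at this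
      simpa using this
    omega
  have h2 : I.exec N b = (I.l1, flp I.w I.i (Nat.find h1 + 1) b) := dif_pos h1
  rw [h2]
  refine ⟨rfl, ?_, fun j hj => flp_other hj⟩
  show bv N (flp I.w I.i (Nat.find h1 + 1) b I.i) = _
  rw [flp_same, hw]
  refine bv_up _ N (b I.i) (Nat.find_spec h1).1 (fun p hp => ?_) ((Nat.find_spec h1).2.trans hI)
  have h3 := Nat.find_min h1 hp
  have h4 : p < N := hp.trans (Nat.find_spec h1).1
  by_contra c
  exact h3 ⟨h4, by rw [hI]; simpa using c⟩

open Classical in
theorem exec_dec {I : Ins} {N : ℕ} {b : ℕ → ℕ → Bool} (hI : I.β = true) (hw : I.w = true)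
    (h : bv N (b I.i) ≠ 0) : (I.exec N b).1 = I.l1 ∧ bv N ((I.exec N b).2 I.i) = bv N (b I.i) - 1 ∧
      ∀ j, j ≠ I.i → (I.exec N b).2 j = b j := by
  have h1 : ∃ p, p < N ∧ b I.i p = I.β := by
    by_contra c
    push Not at c
    exact h (bv_zero' fun p hp => by
      have := c p hp
      rw [hI] at this
      simpa using this)
  have h2 : I.exec N b = (I.l1, flp I.w I.i (Nat.find h1 + 1) b) := dif_pos h1
  rw [h2]
  refine ⟨rfl, ?_, fun j hj => flp_other hj⟩
  show bv N (flp I.w I.i (Nat.find h1 + 1) b I.i) = _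
  rw [flp_same, hw]
  refine (Nat.sub_eq_of_eq_add (bv_down (Nat.find h1) N (b I.i) (Nat.find_spec h1).1 (fun p hp => ?_)
    ((Nat.find_spec h1).2.trans hI)).symm).symm
  have h3 := Nat.find_min h1 hp
  have h4 : p < N := hp.trans (Nat.find_spec h1).1
  by_contra c
  exact h3 ⟨h4, by rw [hI]; simpa using c⟩

open Classical in
theorem exec_tst {I : Ins} {N : ℕ} {b : ℕ → ℕ → Bool} (hI : I.β = true) (hw : I.w = false) :
    I.exec N b = (if bv N (b I.i) = 0 then I.l0 else I.l1, b) := by
  by_cases h1 : ∃ p, p < N ∧ b I.i p = I.β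
  · have h2 : I.exec N b = (I.l1, flp I.w I.i (Nat.find h1 + 1) b) := dif_pos h1
    obtain ⟨p, hp, hp'⟩ := h1
    rw [h2, hw, flp_false, if_neg (bv_ne_zero hp (hp'.trans hI))]
  · have h2 : I.exec N b = (I.l0, flp I.w I.i N b) := dif_neg h1
    have h3 : bv N (b I.i) = 0 := bv_zero' fun p hp => by
      by_contra c
      exact h1 ⟨p, hp, by rw [hI]; simpa using c⟩
    rw [h2, hw, flp_false, if_pos h3]

end Pool.Agent.PSM
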