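import Pool.Agent.PSM.LFlat
import Pool.Agent.PSM.LNum
import Pool.Agent.PSM.LHead
import Pool.Agent.PSM.LCell

/-!
# Linear space on cellular automata (helper9, row L5)

**`linSpaceCA_of`**: a language in linear space is recognized by a one-dimensional cellular automaton which uses only
the cells of the input.
-/

set_option autoImplicit false

open Finset

namespace Pool.Agent.PSM

private theorem num_lt (x : List Bool) : num x < 2 ^ (x.length + 1) := by
  induction x with
  | nil => simp [num]
  | cons a l ih =>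
    have h1 : a.toNat ≤ 1 := Bool.toNat_le a
    rw [List.length_cons, pow_succ]
    simp only [num]
    omega

private theorem hst_fix {code : ℕ → Ins} {H c n : ℕ} {s : (ℕ × ℕ × Bool) × ℕ × (ℕ → ℕ → Bool)}
    (h1 : s.1.1 = H) (h2 : s.1.2.2 = false) : hst code H c n s = s := by
  obtain ⟨⟨l, j, w⟩, z, b⟩ := s
  simp only at h1 h2
  subst h1 h2
  simp [hst]

/-- **linear space on cellular automata** -/
theorem linSpaceCA_of {L : Set (List Bool)} (h : LinSpace L) : LinSpaceCA L := by
  classical
  obtain ⟨p, c0, hp⟩ := h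
  obtain ⟨code, H, r, ⟨hr, hcode⟩, hrun⟩ := flatten p
  obtain ⟨c, hc⟩ : ∃ c, c = 3 * c0 + 2 := ⟨_, rfl⟩
  refine ⟨LQ H r c, inferInstance, lca code H r c (decide ([] ∈ L)), fun n x => ?_⟩
  rcases Nat.eq_zero_or_pos n with hn | hn
  · subst hn
    obtain ⟨h1, h2⟩ := lca_empty (code := code) (H := H) (r := r) (c := c) (decide ([] ∈ L)) x
    refine ⟨fun t z _ => h1 t z, 0, decide ([] ∈ L), ⟨0, le_rfl, ?_, fun s hs => absurd hs (Nat.not_lt_zero _)⟩, ?_⟩
    · have h3 := h1 0 0
      show (lca code H r c (decide ([] ∈ L))).out ((lca code H r c (decide ([] ∈ L))).step^[0]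
        ((lca code H r c (decide ([] ∈ L))).start x) 0) = _
      rw [h3, h2]
    · rw [List.ofFn_zero]
      simp
  · obtain ⟨t, ht, hL1, hL0⟩ := hp (List.ofFn x)
    obtain ⟨k1, k2, k3⟩ := lca_run (code := code) (H := H) (r := r) (c := c) (n := n) hr (by omega) hn hcode
      (decide ([] ∈ L)) x
    have hnum : num (List.ofFn x) < 2 ^ (n + 1) := by
      have := num_lt (List.ofFn x)
      rwa [List.length_ofFn] at this
    have hN : n < c * n := by
      rw [hc]
      nlinarith
    have hN1 : n + 1 ≤ c * n := hN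
    have hB : (num (List.ofFn x) + 2) ^ c0 < 2 ^ (c * n) := by
      have e1 : num (List.ofFn x) + 2 ≤ 2 ^ (3 * n) := by
        have e2 : 2 ^ (n + 1) + 2 ≤ 2 ^ (n + 2) := by
          have : 2 ^ (n + 2) = 2 ^ (n + 1) + 2 ^ (n + 1) := by rw [pow_succ 2 (n + 1)]; ring
          have h4 : 2 ^ 1 ≤ 2 ^ (n + 1) := Nat.pow_le_pow_right (by norm_num) (by omega)
          omega
        have e3 : 2 ^ (n + 2) ≤ 2 ^ (3 * n) := Nat.pow_le_pow_right (by norm_num) (by omega)
        omega
      calc (num (List.ofFn x) + 2) ^ c0 ≤ (2 ^ (3 * n)) ^ c0 := Nat.pow_le_pow_left e1 _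
        _ = 2 ^ (3 * c0 * n) := by rw [← pow_mul]; congr 1; ring
        _ < 2 ^ (c * n) := by
          refine Nat.pow_lt_pow_right (by norm_num) ?_
          rw [hc]
          nlinarith
    obtain ⟨k, b', hk, hb'⟩ := hrun (c * n) _ _ _ ht hB (fun i => by
        split_ifs
        · exact hnum.trans_le (Nat.pow_le_pow_right (by norm_num) hN1)
        · positivity) (b0 x) (fun i _ => by
        split_ifs with hi
        · rw [hi]
          exact bv_b0 x hN
        · exact bv_b0' x hi)
    obtain ⟨k', hk'⟩ := hst_run (by omega : 0 < c) hn hk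
    obtain ⟨S, hS⟩ : ∃ S : ℕ → (ℕ × ℕ × Bool) × ℕ × (ℕ → ℕ → Bool),
        ∀ t, S t = (hst code H c n)^[t] ((0, 0, false), 0, b0 x) := ⟨_, fun _ => rfl⟩
    have hS1 : ∀ t, S (t + 1) = hst code H c n (S t) := fun t => by
      rw [hS, hS]
      exact Function.iterate_succ_apply' _ _ _
    have hk2 : S k' = ((H, 0, false), 0, b') := (hS k').trans hk'
    have hex : ∃ t, (S t).1.1 = H ∧ (S t).1.2.2 = false ∧ (S t).2.1 = 0 := ⟨k', by simp only [hk2, and_self]⟩
    obtain ⟨h1, h2, h3⟩ := Nat.find_spec hex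
    have hle : Nat.find hex ≤ k' := Nat.find_min' hex (by simp only [hk2, and_self])
    have hfix : ∀ u, S (Nat.find hex + u) = S (Nat.find hex) := by
      intro u
      induction u with
      | zero => rfl
      | succ u ih => rw [← add_assoc, hS1, ih, hst_fix h1 h2]
    have hSk : S (Nat.find hex) = ((H, 0, false), 0, b') := by
      rw [← hfix (k' - Nat.find hex), Nat.add_sub_cancel' hle]
      exact hk2
    have hN0 : 0 < c * n := (Nat.zero_le _).trans_lt hN
    refine ⟨k1, Nat.find hex + 1, b' 0 0, ⟨Nat.find hex + 1, le_rfl, ?_, ?_⟩, ?_⟩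
    · rw [k3]
      simp only [← hS, hSk, and_self, if_true]
    · intro s hs
      rcases Nat.eq_zero_or_pos s with h0 | h0
      · rw [h0]
        exact k2
      · obtain ⟨u, rfl⟩ : ∃ u, s = u + 1 := ⟨s - 1, by omega⟩
        rw [k3]
        have hu := Nat.find_min hex (m := u) (by omega)
        simp only [← hS]
        rw [if_neg hu]
    · rw [bv_zero_digit (b' 0) hN0, hb' 0 hr, decide_eq_true_eq]
      constructor
      · intro h5
        by_contra h6
        rw [hL0 h6] at h5
        omega
      · intro h5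
        rw [hL1 h5]

end Pool.Agent.PSM
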