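import Pool.Agent.PSM.Defs

/-!
# Linear space on cellular automata: definitions

* `bv N b`: the number with the binary digits `b`; `Ins`, `Ins.exec`, `stepL`: programs for registers of `N` digits;
* `hst`: one step of the head which executes such a program on `n` cells with `c` tracks (digit `p` is in the cell
  `p % n`, on the track `p / n`);
* `b0 x`: the digits at the start; `LQ`, `lca`: the cellular automaton.
-/

set_option autoImplicit false

open Finset

namespace Pool.Agent.PSM

/-! ### programs on digits -/

/-- the number with the binary digits `b 0, .., b (N - 1)` -/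
def bv (N : ℕ) (b : ℕ → Bool) : ℕ := ∑ p ∈ range N, (b p).toNat * 2 ^ p

/-- an instruction: scan the digits of the register `i` up to the first digit `β`, flip what is scanned if `w`, go to
`l1`; if there is no digit `β`, go to `l0` -/
structure Ins where
  i : ℕ
  β : Bool
  w : Bool
  l1 : ℕ
  l0 : ℕ

/-- the first `m` digits of the register `i` are flipped if `w` -/
def flp (w : Bool) (i m : ℕ) (b : ℕ → ℕ → Bool) : ℕ → ℕ → Bool :=
  fun j p => if j = i ∧ p < m then xor (b j p) w else b j p

open Classical in
/-- the instruction `I` on registers with `N` digits -/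
noncomputable def Ins.exec (I : Ins) (N : ℕ) (b : ℕ → ℕ → Bool) : ℕ × (ℕ → ℕ → Bool) :=
  if h : ∃ p, p < N ∧ b I.i p = I.β then (I.l1, flp I.w I.i (Nat.find h + 1) b) else (I.l0, flp I.w I.i N b)

open Classical in
/-- one step of the program, `H` is the last label -/
noncomputable def stepL (code : ℕ → Ins) (H N : ℕ) (s : ℕ × (ℕ → ℕ → Bool)) : ℕ × (ℕ → ℕ → Bool) :=
  if s.1 = H then s else (code s.1).exec N s.2

/-! ### the head -/

/-- one step of the head: (label, track, on the way back), cell, digits -/
def hst (code : ℕ → Ins) (H c n : ℕ) : (ℕ × ℕ × Bool) × ℕ × (ℕ → ℕ → Bool) → (ℕ × ℕ × Bool) × ℕ × (ℕ → ℕ → Bool)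
  | ((l, j, true), z, b) => if z = 0 then ((l, j, false), z, b) else ((l, j, true), z - 1, b)
  | ((l, j, false), z, b) =>
    if l = H then ((l, j, false), z, b)
    else if b (code l).i (j * n + z) = (code l).β then
      (((code l).l1, 0, true), z, fun i q => if i = (code l).i ∧ q = j * n + z then xor (b i q) (code l).w else b i q)
    else if z + 1 < n then
      ((l, j, false), z + 1, fun i q => if i = (code l).i ∧ q = j * n + z then xor (b i q) (code l).w else b i q)
    else if j + 1 < c then
      ((l, j + 1, true), z, fun i q => if i = (code l).i ∧ q = j * n + z then xor (b i q) (code l).w else b i q)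
    else (((code l).l0, 0, true), z,
      fun i q => if i = (code l).i ∧ q = j * n + z then xor (b i q) (code l).w else b i q)

/-- the digits at the start: the register `0` is the number of the word -/
def b0 {n : ℕ} (x : Fin n → Bool) : ℕ → ℕ → Bool :=
  fun i p => if i = 0 then (if h : p < n then x ⟨p, h⟩ else decide (p = n)) else false

/-! ### the cellular automaton -/

/-- states of the cells: outside; input letters; (first cell, last cell, digits (register, track), head) -/
abbrev LQ (H r c : ℕ) : Type :=
  Option (Bool ⊕ (Bool × Bool × (Fin r → Fin c → Bool) × Option (Fin (H + 1) × Fin c × Bool)))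

end Pool.Agent.PSM
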