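import Pool.Agent.PSM.LNum

/-!
# Programs as flat programs on digits

* `Prg.size`, `Prg.regs`, `Prg.comp p a`: the instructions of the program `p`, placed at the label `a`; the exit is
  the label `a + size p`;
* `run_comp`: the flat program does what `p` does;
* **`flatten`**.
-/

set_option autoImplicit false
set_option linter.unusedVariables false

namespace Pool.Agent.PSM

/-- the number of instructions -/
def Prg.size : Prg → ℕ
  | Prg.inc _ => 1
  | Prg.dec _ => 2
  | Prg.seq p q => p.size + q.size
  | Prg.loop _ p => p.size + 2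

/-- a bound for the registers -/
def Prg.regs : Prg → ℕ
  | Prg.inc i => i + 1
  | Prg.dec i => i + 1
  | Prg.seq p q => max p.regs q.regs
  | Prg.loop i p => max (i + 1) p.regs

/-- the instructions, placed at the label `a` -/
def Prg.comp : Prg → ℕ → ℕ → Ins
  | Prg.inc i, a => fun _ => ⟨i, false, true, a + 1, a + 1⟩
  | Prg.dec i, a => fun l => if l = a then ⟨i, true, false, a + 1, a + 2⟩ else ⟨i, true, true, a + 2, a + 2⟩
  | Prg.seq p q, a => fun l => if l < a + p.size then p.comp a l else q.comp (a + p.size) l
  | Prg.loop i p, a => fun l => if l = a then ⟨i, true, false, a + 1, a + p.size + 2⟩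
      else if l < a + 1 + p.size then p.comp (a + 1) l else ⟨i, true, false, a, a⟩

theorem Prg.comp_bd (p : Prg) : ∀ a l, (p.comp a l).i < p.regs ∧
    (a ≤ l → l < a + p.size → (p.comp a l).l1 ≤ a + p.size ∧ (p.comp a l).l0 ≤ a + p.size) := by
  induction p with
  | inc i =>
    intro a l
    simp only [Prg.comp, Prg.regs, Prg.size]
    exact ⟨by omega, fun _ _ => ⟨by omega, by omega⟩⟩
  | dec i =>
    intro a l
    simp only [Prg.comp, Prg.regs, Prg.size]
    split_ifs
    · exact ⟨Nat.lt_succ_self i, fun _ _ => ⟨by dsimp only; omega, by dsimp only; omega⟩⟩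
    · exact ⟨Nat.lt_succ_self i, fun _ _ => ⟨by dsimp only; omega, by dsimp only; omega⟩⟩
  | seq p q hp hq =>
    intro a l
    simp only [Prg.comp, Prg.regs, Prg.size]
    split_ifs with h
    · obtain ⟨h1, h2⟩ := hp a l
      refine ⟨lt_of_lt_of_le h1 (le_max_left _ _), fun h3 h4 => ?_⟩
      have h5 := h2 h3 h
      omega
    · obtain ⟨h1, h2⟩ := hq (a + p.size) l
      refine ⟨lt_of_lt_of_le h1 (le_max_right _ _), fun h3 h4 => ?_⟩
      have h5 := h2 (by omega) (by omega)
      omega
  | loop i p hp =>
    intro a l
    simp only [Prg.comp, Prg.regs, Prg.size]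
    split_ifs with h h'
    · exact ⟨lt_of_lt_of_le (Nat.lt_succ_self i) (le_max_left _ _),
        fun _ _ => ⟨by dsimp only; omega, by dsimp only; omega⟩⟩
    · obtain ⟨h1, h2⟩ := hp (a + 1) l
      refine ⟨lt_of_lt_of_le h1 (le_max_right _ _), fun h3 h4 => ?_⟩
      have h5 := h2 (by omega) (by omega)
      omega
    · exact ⟨lt_of_lt_of_le (Nat.lt_succ_self i) (le_max_left _ _),
        fun _ _ => ⟨by dsimp only; omega, by dsimp only; omega⟩⟩

theorem stepL_ne {code : ℕ → Ins} {H N l : ℕ} (h : l ≠ H) (b : ℕ → ℕ → Bool) :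
    stepL code H N (l, b) = (code l).exec N b := by
  unfold stepL
  rw [if_neg h]

/-- **the flat program of `p` does what `p` does** -/
theorem run_comp {N B : ℕ} (hB : B < 2 ^ N) {p : Prg} {s t : ℕ → ℕ} (hr : Run B p s t) :
    ∀ (code : ℕ → Ins) (H a r : ℕ), (∀ l, a ≤ l → l < a + p.size → code l = p.comp a l) → a + p.size ≤ H →
      p.regs ≤ r → (∀ i, s i < 2 ^ N) → ∀ b : ℕ → ℕ → Bool, (∀ i < r, bv N (b i) = s i) →
        (∀ i, t i < 2 ^ N) ∧ ∃ (k : ℕ) (b' : ℕ → ℕ → Bool),
          (stepL code H N)^[k] (a, b) = (a + p.size, b') ∧ ∀ i < r, bv N (b' i) = t i := by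
  induction hr with
  | inc i s h =>
    intro code H a r hc hH hR hs b hb
    refine ⟨fun j => ?_, 1, ((code a).exec N b).2, ?_, ?_⟩
    · by_cases hj : j = i
      · rw [hj, Function.update_self]
        omega
      · rw [Function.update_of_ne hj]
        exact hs j
    · have h1 : code a = ⟨i, false, true, a + 1, a + 1⟩ := hc a le_rfl (Nat.lt_succ_self a)
      have hi : i < r := hR
      have h2 := exec_inc (I := code a) (N := N) (b := b) (by rw [h1]) (by rw [h1]) (by
        rw [h1]
        show bv N (b i) + 1 < 2 ^ N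
        rw [hb i hi]
        omega)
      rw [Function.iterate_one, stepL_ne (by simp only [Prg.size] at hH; omega)]
      refine Prod.ext ?_ rfl
      rw [h2.1, h1]
      rfl
    · have h1 : code a = ⟨i, false, true, a + 1, a + 1⟩ := hc a le_rfl (Nat.lt_succ_self a)
      have hi : i < r := hR
      obtain ⟨-, h3, h4⟩ := exec_inc (I := code a) (N := N) (b := b) (by rw [h1]) (by rw [h1]) (by
        rw [h1]
        show bv N (b i) + 1 < 2 ^ N
        rw [hb i hi]
        omega)
      have e : (code a).i = i := by rw [h1]
      rw [e] at h3 h4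
      intro j hj
      by_cases hji : j = i
      · rw [hji, Function.update_self, h3, hb i hi]
      · rw [Function.update_of_ne hji, h4 j hji, hb j hj]
  | dec i s =>
    intro code H a r hc hH hR hs b hb
    have h1 : code a = ⟨i, true, false, a + 1, a + 2⟩ := by
      rw [hc a le_rfl (by simp only [Prg.size]; omega)]
      simp only [Prg.comp, if_true]
    have h2 : code (a + 1) = ⟨i, true, true, a + 2, a + 2⟩ := by
      rw [hc (a + 1) (by omega) (by simp only [Prg.size]; omega)]
      simp only [Prg.comp]
      rw [if_neg (by omega)]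
    have hi : i < r := hR
    simp only [Prg.size] at hH
    have e1 : (code a).exec N b = (if bv N (b i) = 0 then a + 2 else a + 1, b) := by
      have h3 := exec_tst (I := code a) (N := N) (b := b) (by rw [h1]) (by rw [h1])
      rw [h3, h1]
    refine ⟨fun j => ?_, ?_⟩
    · by_cases hj : j = i
      · rw [hj, Function.update_self]
        have := hs i
        omega
      · rw [Function.update_of_ne hj]
        exact hs j
    · by_cases h0 : bv N (b i) = 0
      · refine ⟨1, b, ?_, fun j hj => ?_⟩
        · rw [Function.iterate_one, stepL_ne (by omega), e1, if_pos h0]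
          rfl
        · by_cases hji : j = i
          · rw [hji, Function.update_self, h0, ← hb i hi, h0]
          · rw [Function.update_of_ne hji, hb j hj]
      · obtain ⟨h3, h4, h5⟩ := exec_dec (I := code (a + 1)) (N := N) (b := b) (by rw [h2]) (by rw [h2])
          (by rw [h2]; exact h0)
        have e : (code (a + 1)).i = i := by rw [h2]
        rw [e] at h4 h5
        refine ⟨2, ((code (a + 1)).exec N b).2, ?_, fun j hj => ?_⟩
        · have e2 : stepL code H N (a, b) = (a + 1, b) := by
            rw [stepL_ne (by omega), e1, if_neg h0]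
          show (stepL code H N)^[1] (stepL code H N (a, b)) = _
          rw [Function.iterate_one, e2, stepL_ne (by omega)]
          refine Prod.ext ?_ rfl
          rw [h3, h2]
          rfl
        · by_cases hji : j = i
          · rw [hji, Function.update_self, h4, hb i hi]
          · rw [Function.update_of_ne hji, h5 j hji, hb j hj]
  | @seq p q s t u h h' ih ih' =>
    intro code H a r hc hH hR hs b hb
    simp only [Prg.size] at hH
    simp only [Prg.regs] at hR
    obtain ⟨h1, k, b', h2, h3⟩ := ih code H a r (fun l hl hl' => by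
      rw [hc l hl (by simp only [Prg.size]; omega)]
      simp only [Prg.comp]
      rw [if_pos hl']) (by omega) ((le_max_left _ _).trans hR) hs b hb
    obtain ⟨h4, k', b'', h5, h6⟩ := ih' code H (a + p.size) r (fun l hl hl' => by
      rw [hc l (by omega) (by simp only [Prg.size]; omega)]
      simp only [Prg.comp]
      rw [if_neg (by omega)]) (by omega) ((le_max_right _ _).trans hR) h1 b' h3
    refine ⟨h4, k' + k, b'', ?_, h6⟩
    rw [Function.iterate_add_apply, h2, h5]
    simp only [Prg.size, Nat.add_assoc]
  | @stop i p s h =>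
    intro code H a r hc hH hR hs b hb
    simp only [Prg.regs] at hR
    have hi : i < r := lt_of_lt_of_le (Nat.lt_succ_self i) ((le_max_left _ _).trans hR)
    have h1 : code a = ⟨i, true, false, a + 1, a + p.size + 2⟩ := by
      rw [hc a le_rfl (by simp only [Prg.size]; omega)]
      simp only [Prg.comp, if_true]
    simp only [Prg.size] at hH
    refine ⟨hs, 1, b, ?_, hb⟩
    rw [Function.iterate_one, stepL_ne (by omega),
      exec_tst (I := code a) (N := N) (b := b) (by rw [h1]) (by rw [h1]), h1]
    show (if bv N (b i) = 0 then a + p.size + 2 else a + 1, b) = _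
    rw [if_pos (by rw [hb i hi, h])]
    rfl
  | @step i p s t u h h' h'' ih ih' =>
    intro code H a r hc hH hR hs b hb
    have hR' := hR
    simp only [Prg.regs] at hR
    have hi : i < r := lt_of_lt_of_le (Nat.lt_succ_self i) ((le_max_left _ _).trans hR)
    have h1 : code a = ⟨i, true, false, a + 1, a + p.size + 2⟩ := by
      rw [hc a le_rfl (by simp only [Prg.size]; omega)]
      simp only [Prg.comp, if_true]
    have h2 : code (a + 1 + p.size) = ⟨i, true, false, a, a⟩ := by
      rw [hc (a + 1 + p.size) (by omega) (by simp only [Prg.size]; omega)]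
      simp only [Prg.comp]
      rw [if_neg (by omega), if_neg (by omega)]
    have hH' := hH
    simp only [Prg.size] at hH
    obtain ⟨h3, k, b', h4, h5⟩ := ih code H (a + 1) r (fun l hl hl' => by
      rw [hc l (by omega) (by simp only [Prg.size]; omega)]
      simp only [Prg.comp]
      rw [if_neg (by omega), if_pos hl']) (by omega) ((le_max_right _ _).trans hR) hs b hb
    obtain ⟨h6, k', b'', h7, h8⟩ := ih' code H a r hc hH' hR' h3 b' h5
    refine ⟨h6, k' + (1 + (k + 1)), b'', ?_, h8⟩
    have e1 : stepL code H N (a, b) = (a + 1, b) := by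
      rw [stepL_ne (by omega), exec_tst (I := code a) (N := N) (b := b) (by rw [h1]) (by rw [h1]), h1]
      show (if bv N (b i) = 0 then a + p.size + 2 else a + 1, b) = _
      rw [if_neg (by rw [hb i hi]; exact h)]
    have e2 : stepL code H N (a + 1 + p.size, b') = (a, b') := by
      rw [stepL_ne (by omega), exec_tst (I := code (a + 1 + p.size)) (N := N) (b := b') (by rw [h2]) (by rw [h2]), h2]
      show (if bv N (b' i) = 0 then a else a, b') = _
      rw [ite_self]
    rw [Function.iterate_add_apply, Function.iterate_add_apply, Function.iterate_add_apply, Function.iterate_one,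
      e1, h4, e2, h7]

/-- **every program is a flat program** -/
theorem flatten (p : Prg) : ∃ (code : ℕ → Ins) (H r : ℕ),
    (0 < r ∧ ∀ l, (code l).l1 ≤ H ∧ (code l).l0 ≤ H ∧ (code l).i < r) ∧
    ∀ (N B : ℕ) (s t : ℕ → ℕ), Run B p s t → B < 2 ^ N → (∀ i, s i < 2 ^ N) →
      ∀ b : ℕ → ℕ → Bool, (∀ i < r, bv N (b i) = s i) →
        ∃ (k : ℕ) (b' : ℕ → ℕ → Bool), (stepL code H N)^[k] (0, b) = (H, b') ∧ ∀ i < r, bv N (b' i) = t i := by
  refine ⟨fun l => if l < p.size then p.comp 0 l else ⟨0, true, false, 0, 0⟩, p.size, max 1 p.regs,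
    ⟨lt_of_lt_of_le Nat.one_pos (le_max_left _ _), fun l => ?_⟩, fun N B s t h hB hs b hb => ?_⟩
  · dsimp only
    split_ifs with h
    · obtain ⟨h1, h2⟩ := p.comp_bd 0 l
      have h3 := h2 (Nat.zero_le l) (by omega)
      exact ⟨by omega, by omega, lt_of_lt_of_le h1 (le_max_right _ _)⟩
    · exact ⟨Nat.zero_le _, Nat.zero_le _, lt_of_lt_of_le Nat.one_pos (le_max_left _ _)⟩
  · obtain ⟨-, k, b', h1, h2⟩ := run_comp hB h (fun l => if l < p.size then p.comp 0 l else ⟨0, true, false, 0, 0⟩)
      p.size 0 (max 1 p.regs) (fun l _ hl => if_pos (by omega)) (by omega) (le_max_right _ _) hs b hb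
    rw [Nat.zero_add] at h1
    exact ⟨k, b', h1, h2⟩

end Pool.Agent.PSM
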