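import Mathlib

set_option autoImplicit false

open Finset

namespace Pool.Agent.PSM

/-- inner product modulo 2 of the first `n` binary digits -/
def par (a x n : ℕ) : ℕ := (∑ i ∈ range n, (a / 2 ^ i % 2) * (x / 2 ^ i % 2)) % 2

theorem par_lt (a x n : ℕ) : par a x n < 2 := Nat.mod_lt _ (by norm_num)

namespace Wa

/-- the sign of the inner product -/
def chi (a x n : ℕ) : ℤ := (-1) ^ (∑ i ∈ range n, (a / 2 ^ i % 2) * (x / 2 ^ i % 2))

theorem chi_par (a x n : ℕ) : chi a x n = (-1) ^ par a x n := by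
  unfold chi par
  rw [← neg_one_pow_eq_pow_mod_two]

theorem dig_add {n i x : ℕ} (hi : i < n) (e : ℕ) : (x + 2 ^ n * e) / 2 ^ i % 2 = x / 2 ^ i % 2 := by
  obtain ⟨d, rfl⟩ : ∃ d, n = i + 1 + d := ⟨n - (i + 1), by omega⟩
  have h : x + 2 ^ (i + 1 + d) * e = x + 2 ^ i * (2 * (2 ^ d * e)) := by ring
  rw [h, Nat.add_mul_div_left _ _ (by positivity), Nat.add_mul_mod_self_left]

theorem dig_top {n x : ℕ} (hx : x < 2 ^ n) {e : ℕ} (he : e < 2) : (x + 2 ^ n * e) / 2 ^ n % 2 = e := by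
  rw [Nat.add_mul_div_left _ _ (by positivity), Nat.div_eq_of_lt hx, zero_add, Nat.mod_eq_of_lt he]

theorem chi_succ {n a x : ℕ} (ha : a < 2 ^ n) (hx : x < 2 ^ n) {d e : ℕ} (hd : d < 2) (he : e < 2) :
    chi (a + 2 ^ n * d) (x + 2 ^ n * e) (n + 1) = chi a x n * (-1) ^ (d * e) := by
  unfold chi
  rw [sum_range_succ, pow_add, dig_top ha hd, dig_top hx he]
  congr 2
  refine sum_congr rfl fun i hi => ?_
  rw [dig_add (mem_range.1 hi), dig_add (mem_range.1 hi)]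

theorem sum_two (n : ℕ) (F : ℕ → ℤ) :
    ∑ x ∈ range (2 ^ (n + 1)), F x = ∑ x ∈ range (2 ^ n), (F (x + 2 ^ n * 0) + F (x + 2 ^ n * 1)) := by
  rw [pow_succ, mul_two, sum_range_add, ← sum_add_distrib]
  refine sum_congr rfl fun x _ => ?_
  rw [mul_zero, add_zero, mul_one, add_comm x]

theorem parseval (n : ℕ) (f : ℕ → ℤ) :
    ∑ a ∈ range (2 ^ n), (∑ x ∈ range (2 ^ n), f x * chi a x n) ^ 2 = 2 ^ n * ∑ x ∈ range (2 ^ n), f x ^ 2 := by
  induction n generalizing f with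
  | zero => simp [chi]
  | succ n ih =>
    have key : ∀ a < 2 ^ n, ∀ d < 2, (∑ x ∈ range (2 ^ (n + 1)), f x * chi (a + 2 ^ n * d) x (n + 1)) =
        ∑ x ∈ range (2 ^ n), (f (x + 2 ^ n * 0) + (-1) ^ d * f (x + 2 ^ n * 1)) * chi a x n := by
      intro a ha d hd
      rw [sum_two]
      refine sum_congr rfl fun x hx => ?_
      rw [chi_succ ha (mem_range.1 hx) hd (by norm_num), chi_succ ha (mem_range.1 hx) hd (by norm_num)]
      rw [show d * 0 = 0 from mul_zero d, show d * 1 = d from mul_one d, pow_zero]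
      ring
    rw [sum_two]
    have h1 : ∀ a ∈ range (2 ^ n),
        ((∑ x ∈ range (2 ^ (n + 1)), f x * chi (a + 2 ^ n * 0) x (n + 1)) ^ 2 +
          (∑ x ∈ range (2 ^ (n + 1)), f x * chi (a + 2 ^ n * 1) x (n + 1)) ^ 2) =
        (∑ x ∈ range (2 ^ n), (f (x + 2 ^ n * 0) + (-1) ^ 0 * f (x + 2 ^ n * 1)) * chi a x n) ^ 2 +
        (∑ x ∈ range (2 ^ n), (f (x + 2 ^ n * 0) + (-1) ^ 1 * f (x + 2 ^ n * 1)) * chi a x n) ^ 2 := by
      intro a ha
      rw [key a (mem_range.1 ha) 0 (by norm_num), key a (mem_range.1 ha) 1 (by norm_num)]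
    rw [sum_congr rfl h1, sum_add_distrib, ih, ih, sum_two, ← mul_add, ← sum_add_distrib, pow_succ (2 : ℤ) n, mul_assoc]
    congr 1
    rw [mul_sum]
    refine sum_congr rfl fun x _ => ?_
    ring

theorem agree {n : ℕ} (m : ℕ → ℕ) (hm : ∀ x < 2 ^ n, m x ≤ 1) (a : ℕ) :
    2 * (((range (2 ^ n)).filter fun x => m x = par a x n).card : ℤ) - 2 ^ n =
      ∑ x ∈ range (2 ^ n), (-1) ^ m x * chi a x n := by
  have h : ∀ x ∈ range (2 ^ n), ((-1 : ℤ) ^ m x * chi a x n) = 2 * (if m x = par a x n then 1 else 0) - 1 := by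
    intro x hx
    have h1 := hm x (mem_range.1 hx)
    have h2 := par_lt a x n
    rw [chi_par]
    generalize m x = u at *
    generalize par a x n = w at *
    interval_cases u <;> interval_cases w <;> simp
  rw [sum_congr rfl h, sum_sub_distrib, ← mul_sum, sum_boole]
  simp

end Wa

theorem walsh {n : ℕ} {m : ℕ → ℕ} (hm : ∀ x < 2 ^ n, m x ≤ 1) :
    ∑ a ∈ range (2 ^ n), (2 * (((range (2 ^ n)).filter fun x => m x = par a x n).card : ℤ) - 2 ^ n) ^ 2 =
      2 ^ (2 * n) := by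
  have h : ∀ a ∈ range (2 ^ n), (2 * (((range (2 ^ n)).filter fun x => m x = par a x n).card : ℤ) - 2 ^ n) ^ 2 =
      (∑ x ∈ range (2 ^ n), (-1) ^ m x * Wa.chi a x n) ^ 2 := fun a _ => by rw [Wa.agree m hm a]
  rw [sum_congr rfl h, Wa.parseval]
  have h1 : ∀ x ∈ range (2 ^ n), ((-1 : ℤ) ^ m x) ^ 2 = 1 := fun x _ => by
    rw [← pow_mul, mul_comm, pow_mul]; norm_num
  rw [sum_congr rfl h1]
  simp only [sum_const, card_range, mul_one, nsmul_eq_mul, Nat.cast_pow, Nat.cast_ofNat]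
  ring

/-- few `a` are correlated with one function -/
theorem bad_lt {n : ℕ} {m : ℕ → ℕ} (hm : ∀ x < 2 ^ n, m x ≤ 1) :
    ((range (2 ^ n)).filter fun a => 2 ^ n + 2 ^ (n - n / 8) <
      2 * ((range (2 ^ n)).filter fun x => m x = par a x n).card).card < 2 ^ (2 * (n / 8)) := by
  set S := (range (2 ^ n)).filter fun a => 2 ^ n + 2 ^ (n - n / 8) <
      2 * ((range (2 ^ n)).filter fun x => m x = par a x n).card with hS
  by_contra hc
  push Not at hc
  have hw := walsh hm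
  have h1 : ∑ a ∈ S, ((2 : ℤ) ^ (2 * (n - n / 8)) + 1) ≤
      ∑ a ∈ range (2 ^ n), (2 * (((range (2 ^ n)).filter fun x => m x = par a x n).card : ℤ) - 2 ^ n) ^ 2 := by
    refine le_trans (sum_le_sum fun a ha => ?_)
      (sum_le_sum_of_subset_of_nonneg (filter_subset _ _) fun a _ _ => sq_nonneg _)
    have h2 := (mem_filter.1 ha).2
    have h3 : (2 : ℤ) ^ (n - n / 8) + 1 ≤
        2 * (((range (2 ^ n)).filter fun x => m x = par a x n).card : ℤ) - 2 ^ n := by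
      have : ((2 ^ n + 2 ^ (n - n / 8) + 1 : ℕ) : ℤ) ≤
          ((2 * ((range (2 ^ n)).filter fun x => m x = par a x n).card : ℕ) : ℤ) := by exact_mod_cast h2
      push_cast at this
      linarith
    have h4 : (0 : ℤ) ≤ 2 ^ (n - n / 8) := by positivity
    have h5 : (2 : ℤ) ^ (2 * (n - n / 8)) = (2 ^ (n - n / 8)) ^ 2 := by rw [← pow_mul, mul_comm]
    rw [h5]
    nlinarith
  rw [hw, sum_const, nsmul_eq_mul] at h1
  have h6 : (2 : ℤ) ^ (2 * (n / 8)) ≤ (S.card : ℤ) := by exact_mod_cast hc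
  have h7 : (2 : ℤ) ^ (2 * (n / 8)) * 2 ^ (2 * (n - n / 8)) = 2 ^ (2 * n) := by
    rw [← pow_add]
    congr 1
    omega
  have h8 : (0 : ℤ) < 2 ^ (2 * (n / 8)) := by positivity
  have h9 : (0 : ℤ) < 2 ^ (2 * (n - n / 8)) := by positivity
  nlinarith

theorem exists_good {n : ℕ} (_hn : 1 ≤ n) (m : ℕ → ℕ → ℕ) (hm : ∀ e x, m e x ≤ 1) :
    ∃ a < 2 ^ n, ∀ e < 2 ^ (n / 8),
      2 * ((range (2 ^ n)).filter fun x => m e x = par a x n).card ≤ 2 ^ n + 2 ^ (n - n / 8) := by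
  by_contra hc
  push Not at hc
  have h1 : range (2 ^ n) ⊆ (range (2 ^ (n / 8))).biUnion fun e =>
      (range (2 ^ n)).filter fun a => 2 ^ n + 2 ^ (n - n / 8) <
        2 * ((range (2 ^ n)).filter fun x => m e x = par a x n).card := by
    intro a ha
    obtain ⟨e, he, h⟩ := hc a (mem_range.1 ha)
    exact mem_biUnion.2 ⟨e, mem_range.2 he, mem_filter.2 ⟨ha, h⟩⟩
  have h2 := (card_le_card h1).trans card_biUnion_le
  have h3 : ∑ e ∈ range (2 ^ (n / 8)), ((range (2 ^ n)).filter fun a => 2 ^ n + 2 ^ (n - n / 8) <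
        2 * ((range (2 ^ n)).filter fun x => m e x = par a x n).card).card <
      ∑ _e ∈ range (2 ^ (n / 8)), 2 ^ (2 * (n / 8)) :=
    sum_lt_sum_of_nonempty (nonempty_range_iff.2 (by positivity)) fun e _ => bad_lt fun x _ => hm e x
  rw [sum_const, card_range, smul_eq_mul, ← pow_add] at h3
  rw [card_range] at h2
  have h4 : 2 ^ (n / 8 + 2 * (n / 8)) ≤ 2 ^ n := Nat.pow_le_pow_right (by norm_num) (by omega)
  omega

end Pool.Agent.PSM
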