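import Pool.Agent.PSM.ELib2
import Pool.Agent.PSM.Dig
import Pool.Agent.PSM.Walsh

/-!
# Linear space against cellular automata: the language (helper69)

* `Good m n a`: every one of the functions `m e`, `e < 2 ^ (n / 8)`, agrees with `x ↦ <a, x>` on at most
  `(1 / 2) (2 ^ n + 2 ^ (n - n / 8))` numbers; `an m n`: the least such `a`;
* `fL m c X = <an, X>`, `n = log2 X`: **`E_fL`**, `fL_le`, **`count_fL`**.
-/

set_option autoImplicit false

open Finset

namespace Pool.Agent.PSM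

/-- `a` is hard for all `m e`, `e < 2 ^ (n / 8)` -/
def Good (m : ℕ → ℕ → ℕ) (n a : ℕ) : Prop :=
  ∀ e < 2 ^ (n / 8), 2 * ((range (2 ^ n)).filter fun x => m e x = par a x n).card ≤ 2 ^ n + 2 ^ (n - n / 8)

instance (m : ℕ → ℕ → ℕ) (n a : ℕ) : Decidable (Good m n a) := by
  unfold Good
  infer_instance

/-- the least hard `a` -/
def an (m : ℕ → ℕ → ℕ) (n : ℕ) : ℕ := ((range (2 ^ n)).filter fun a => ∀ j < a + 1, ¬ Good m n j).card

theorem an_good {n : ℕ} (hn : 1 ≤ n) {m : ℕ → ℕ → ℕ} (hm : ∀ e x, m e x ≤ 1) : Good m n (an m n) := by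
  obtain ⟨a, ha, h⟩ := exists_good hn m hm
  have hex : ∃ a, Good m n a := ⟨a, h⟩
  have h1 : an m n = Nat.find hex := card_find ((Nat.find_min' hex h).trans_lt ha) (Nat.find_spec hex)
    fun j hj => Nat.find_min hex hj
  rw [h1]
  exact Nat.find_spec hex

/-- the language, as a function of the number of the word -/
def fL (m : ℕ → ℕ → ℕ → ℕ → ℕ) (c X : ℕ) : ℕ :=
  par (an (fun e x => m ((2 ^ Nat.log 2 X) ^ c) e (Nat.log 2 X) x) (Nat.log 2 X)) X (Nat.log 2 X)

theorem fL_le (m : ℕ → ℕ → ℕ → ℕ → ℕ) (c X : ℕ) : fL m c X ≤ 1 :=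
  Nat.lt_succ_iff.1 (Nat.mod_lt _ (by norm_num))

/-! ### computable in linear space -/

section

variable {α : Type} [Ctx α]

theorem E.par {a x n : α → ℕ} (ha : E a) (hx : E x) (hn : E n) : E fun v => PSM.par (a v) (x v) (n v) :=
  E.mod (E.sum (F := fun i v => (a v / 2 ^ i % 2) * (x v / 2 ^ i % 2)) hn
    (E.mul (E.dg (E.const 2) E.fst (E.snd ha)) (E.dg (E.const 2) E.fst (E.snd hx)))) (E.const 2)

private theorem log_eq (X : ℕ) : Nat.log 2 X = ((range X).filter fun i => min (X + 1) (2 ^ (i + 1)) ≤ X).card := by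
  have e : ((range X).filter fun i => min (X + 1) (2 ^ (i + 1)) ≤ X) = range (Nat.log 2 X) := by
    ext i
    simp only [mem_filter, mem_range]
    have h1 : min (X + 1) (2 ^ (i + 1)) ≤ X ↔ 2 ^ (i + 1) ≤ X := by
      rw [min_le_iff]
      omega
    rw [h1]
    rcases Nat.eq_zero_or_pos X with rfl | hX
    · simp
    · rw [← Nat.le_log_iff_pow_le (by norm_num) (by omega)]
      constructor
      · intro h
        exact h.2
      · intro h
        have := Nat.log_lt_self 2 (x := X) (by omega)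
        exact ⟨by omega, h⟩
  rw [e, card_range]

theorem E.log2 {f : α → ℕ} (hf : E f) : E fun v => Nat.log 2 (f v) :=
  (E.count (y := f) (c := fun i v => Min.min (f v + 1) (2 ^ (i + 1)) ≤ f v) hf
    (E.le (E.powB (E.inc (E.snd hf)) (E.const 2) (E.inc E.fst)) (E.snd hf))).ext fun v => (log_eq (f v)).symm

/-- powers of `2` up to the argument -/
private theorem pow_two {f g : α → ℕ} (hf : E f) (hg : E g) (h : ∀ v, g v ≤ Nat.log 2 (f v)) :
    E fun v => 2 ^ g v :=
  (E.powB (E.inc hf) (E.const 2) hg).ext fun v => by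
    refine min_eq_right ?_
    rcases Nat.eq_zero_or_pos (f v) with h0 | h0
    · have h1 := h v
      rw [h0, Nat.log_zero_right] at h1
      rw [Nat.le_zero.1 h1, h0]
      norm_num
    · exact ((Nat.pow_le_pow_right (by norm_num) (h v)).trans (Nat.pow_log_le_self 2 (by omega))).trans (Nat.le_succ _)

variable {m : ℕ → ℕ → ℕ → ℕ → ℕ}

theorem E.good (hE : ∀ {α : Type} [Ctx α] {B e n x : α → ℕ}, E B → E e → E n → E x →
    E fun v => m (B v) (e v) (n v) (x v)) {B n a : α → ℕ} (hB : E B) (hn : E n) (ha : E a)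
    (h1 : E fun v => 2 ^ n v) (h8 : E fun v => 2 ^ (n v / 8)) (hd : E fun v => 2 ^ (n v - n v / 8)) :
    E fun v => if Good (fun e x => m (B v) e (n v) x) (n v) (a v) then 1 else 0 := by
  refine E.cond (E.all (y := fun v => 2 ^ (n v / 8)) (c := fun e v => 2 * ((range (2 ^ n v)).filter fun x =>
    m (B v) e (n v) x = PSM.par (a v) x (n v)).card ≤ 2 ^ n v + 2 ^ (n v - n v / 8)) h8 ?_) fun v => Iff.rfl
  refine E.le (E.mul (E.const 2) ?_) (E.add (E.snd h1) (E.snd hd))
  exact E.count (α := ℕ × α) (y := fun w => 2 ^ n w.2)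
    (c := fun x w => m (B w.2) w.1 (n w.2) x = PSM.par (a w.2) x (n w.2)) (E.snd h1)
    (E.eq (hE (E.snd (E.snd hB)) (E.snd E.fst) (E.snd (E.snd hn)) E.fst)
      (E.par (E.snd (E.snd ha)) E.fst (E.snd (E.snd hn))))

/-- **the language is computed in linear space** -/
theorem E_fL (hE : ∀ {α : Type} [Ctx α] {B e n x : α → ℕ}, E B → E e → E n → E x →
    E fun v => m (B v) (e v) (n v) (x v)) (c : ℕ) : E fun a : ℕ × Unit => fL m c a.1 := by
  have hn : E fun a : ℕ × Unit => Nat.log 2 a.1 := E.log2 E.fst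
  have h1 : E fun a : ℕ × Unit => 2 ^ Nat.log 2 a.1 := pow_two E.fst hn fun _ => le_rfl
  have h8 : E fun a : ℕ × Unit => 2 ^ (Nat.log 2 a.1 / 8) :=
    pow_two E.fst (E.div hn (E.const 8)) fun _ => Nat.div_le_self _ _
  have hd : E fun a : ℕ × Unit => 2 ^ (Nat.log 2 a.1 - Nat.log 2 a.1 / 8) :=
    pow_two E.fst (E.sub hn (E.div hn (E.const 8))) fun _ => Nat.sub_le _ _
  have hB : E fun a : ℕ × Unit => (2 ^ Nat.log 2 a.1) ^ c := by
    induction c with
    | zero => exact (E.const 1).ext fun _ => (pow_zero _).symm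
    | succ c ih => exact (E.mul ih h1).ext fun _ => (pow_succ _ _).symm
  refine E.par ?_ E.fst hn
  refine E.find (y := fun v : ℕ × Unit => 2 ^ Nat.log 2 v.1)
    (c := fun a v => Good (fun e x => m ((2 ^ Nat.log 2 v.1) ^ c) e (Nat.log 2 v.1) x) (Nat.log 2 v.1) a) h1 ?_
  exact E.good (α := ℕ × ℕ × Unit) (B := fun w => (2 ^ Nat.log 2 w.2.1) ^ c) (n := fun w => Nat.log 2 w.2.1)
    (a := fun w => w.1) hE (E.snd hB) (E.snd hn) E.fst (E.snd h1) (E.snd h8) (E.snd hd)

end

/-! ### counting -/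

theorem num_ofFn {n : ℕ} (x : Fin n → Bool) :
    num (List.ofFn x) = toN (fun i => (⟨(x i).toNat, (x i).toNat_lt⟩ : Fin 2)) + 2 ^ n := by
  induction n with
  | zero =>
    rw [toN_fin_zero, List.ofFn_zero]
    rfl
  | succ n ih =>
    rw [List.ofFn_succ, toN_cons, num, ih]
    simp only []
    rw [pow_succ]
    ring

theorem toN_bool_lt {n : ℕ} (x : Fin n → Bool) :
    toN (fun i => (⟨(x i).toNat, (x i).toNat_lt⟩ : Fin 2)) < 2 ^ n := toN_lt _

private theorem par_add (a x n : ℕ) : par a (x + 2 ^ n) n = par a x n := by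
  unfold par
  congr 1
  refine sum_congr rfl fun i hi => ?_
  congr 1
  have hi := mem_range.1 hi
  rw [← Nat.add_sub_cancel' hi.le, pow_add, Nat.add_mul_div_left _ _ (by positivity)]
  have e : 2 ^ (n - i) = 2 * 2 ^ (n - i - 1) := by
    rw [← pow_succ']
    congr 1
    omega
  rw [e, Nat.add_mul_mod_self_left]

theorem log_add {n x : ℕ} (hx : x < 2 ^ n) : Nat.log 2 (x + 2 ^ n) = n := by
  refine (Nat.log_eq_iff (Or.inr ⟨by norm_num, by positivity⟩)).2 ⟨by omega, ?_⟩
  rw [pow_succ]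
  omega

/-- a word as a function with values in `Fin 2` -/
private def w2 {n : ℕ} (x : Fin n → Bool) : Fin n → Fin 2 := fun i => ⟨(x i).toNat, (x i).toNat_lt⟩

private theorem w2_inj {n : ℕ} {x y : Fin n → Bool} (h : w2 x = w2 y) : x = y := by
  funext i
  have h2 : (x i).toNat = (y i).toNat := congrArg Fin.val (congrFun h i)
  cases hx : x i <;> cases hy : y i <;> rw [hx, hy] at h2 <;> first | rfl | simp at h2

private theorem w2_surj {n : ℕ} (f : Fin n → Fin 2) : w2 (fun i => decide ((f i : ℕ) = 1)) = f := by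
  funext i
  apply Fin.ext
  change (decide ((f i : ℕ) = 1)).toNat = f i
  have h := (f i).2
  rcases Nat.lt_or_ge (f i : ℕ) 1 with h1 | h1
  · have h2 : (f i : ℕ) = 0 := by omega
    rw [h2]
    rfl
  · have h2 : (f i : ℕ) = 1 := by omega
    rw [h2]
    rfl

/-- **every machine of length `n / 8` is right on about half of the words** -/
theorem count_fL {m : ℕ → ℕ → ℕ → ℕ → ℕ} (hm : ∀ B e n x, m B e n x ≤ 1)
    (hp : ∀ B e n x, m B e n (x + 2 ^ n) = m B e n x) {c n e : ℕ} (hn : 1 ≤ n) (he : e < 2 ^ (n / 8)) :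
    2 * (univ.filter fun x : Fin n → Bool => m ((2 ^ n) ^ c) e n (num (List.ofFn x)) =
      fL m c (num (List.ofFn x))).card ≤ 2 ^ n + 2 ^ (n - n / 8) := by
  have h1 : 2 * ((range (2 ^ n)).filter fun x => m ((2 ^ n) ^ c) e n x =
      par (an (fun e x => m ((2 ^ n) ^ c) e n x) n) x n).card ≤ 2 ^ n + 2 ^ (n - n / 8) :=
    an_good hn (m := fun e x => m ((2 ^ n) ^ c) e n x) (fun e x => hm _ _ _ _) e he
  rw [card_range_pow] at h1
  refine le_trans (Nat.mul_le_mul_left 2 (le_of_eq ?_)) h1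
  have key : ∀ x : Fin n → Bool, m ((2 ^ n) ^ c) e n (num (List.ofFn x)) = fL m c (num (List.ofFn x)) ↔
      m ((2 ^ n) ^ c) e n (toN (w2 x)) = par (an (fun e x => m ((2 ^ n) ^ c) e n x) n) (toN (w2 x)) n := by
    intro x
    rw [num_ofFn, hp]
    unfold fL
    rw [log_add (toN_bool_lt x), par_add]
    rfl
  refine card_bij (fun x _ => w2 x) ?_ (fun x _ y _ h => w2_inj h) ?_
  · intro x hx
    rw [mem_filter] at hx ⊢
    exact ⟨mem_univ _, (key x).1 hx.2⟩
  · intro f hf
    rw [mem_filter] at hf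
    refine ⟨fun i => decide ((f i : ℕ) = 1), mem_filter.2 ⟨mem_univ _, (key _).2 ?_⟩, w2_surj f⟩
    rw [w2_surj]
    exact hf.2

end Pool.Agent.PSM
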