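import Pool.Agent.PSM.Defs

/-!
# Linear space against cellular automata: the separation in the words of the theory (helper69)

* `MainSt k g`: the statement of the main theorem;
* `Rec M T L`: the automaton `M` gives the right answer on every word `x` of length `n` within `T n` steps;
* **`sep`**: one language in linear space which no cellular automaton of any dimension `D` recognizes in time
  `≤ (n / (c log n)) ^ (1 + 1 / D)`; **`sep_lin`**: in linear time.
-/

set_option autoImplicit false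

namespace Pool.Agent.PSM

open Classical in
/-- the statement of the main theorem -/
def MainSt (k g : ℕ) : Prop :=
  ∃ L : Set (List Bool), LinSpace L ∧ ∀ d : ℕ, ∃ C : ℕ, ∀ (n : ℕ) (Q : Type) [Fintype Q]
    (M : CA (d + 1) (Bool × (Fin k → Fin g)) Q) (R : Fin k → Quant) (T : ℕ),
    C * Fintype.card Q ^ (3 ^ (d + 1) + 1) ≤ n →
    T ^ (d + 1) * (C * Fintype.card Q * Nat.log 2 n) ^ (d + 2) ≤ n ^ (d + 2) →
    2 * (Finset.univ.filter fun x : Fin n → Bool => Decides M R T x (List.ofFn x ∈ L)).card ≤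
      2 ^ n + 2 ^ (n - n / 8)

/-- `M` recognizes `L` in time `T` -/
def Rec {d : ℕ} {Q : Type} (M : CA (d + 1) Bool Q) (T : ℕ → ℕ) (L : Set (List Bool)) : Prop :=
  ∀ (n : ℕ) (x : Fin n → Bool), ∃ b : Bool, M.Result (T n) x b ∧ (b = true ↔ List.ofFn x ∈ L)

variable {d : ℕ} {Q : Type}

/-- the automaton on the letters with no quantified parts -/
def CA.ext0 (M : CA (d + 1) Bool Q) : CA (d + 1) (Bool × (Fin 0 → Fin 0)) Q where
  blank := M.blank
  inp a := M.inp a.1
  rule := M.rule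
  out := M.out

theorem CA.origin_ext0 (M : CA (d + 1) Bool Q) {n : ℕ} (x : Fin n → Bool) (y : Fin 0 → Fin n → Fin 0) (t : ℕ) :
    M.ext0.origin (fun i => (x i, fun j => y j i)) t = M.origin x t := rfl

theorem CA.result_ext0 (M : CA (d + 1) Bool Q) {n : ℕ} (x : Fin n → Bool) (y : Fin 0 → Fin n → Fin 0) (T : ℕ)
    (b : Bool) : M.ext0.Result T (fun i => (x i, fun j => y j i)) b ↔ M.Result T x b := Iff.rfl

theorem CA.Result.unique {Γ : Type} {M : CA (d + 1) Γ Q} {T n : ℕ} {w : Fin n → Γ} {b b' : Bool}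
    (h : M.Result T w b) (h' : M.Result T w b') : b = b' := by
  obtain ⟨t, -, h1, h2⟩ := h
  obtain ⟨t', -, h3, h4⟩ := h'
  rcases lt_trichotomy t t' with h5 | rfl | h5
  · rw [h4 t h5] at h1
    cases h1
  · rw [h1] at h3
    exact Option.some.inj h3
  · rw [h2 t' h5] at h3
    cases h3

/-- a recognizer decides -/
theorem Rec.decides {M : CA (d + 1) Bool Q} {T : ℕ → ℕ} {L : Set (List Bool)} (h : Rec M T L) {n : ℕ}
    (x : Fin n → Bool) (R : Fin 0 → Quant) : Decides M.ext0 R (T n) x (List.ofFn x ∈ L) := by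
  obtain ⟨b, hb, hL⟩ := h n x
  refine ⟨fun y => ⟨b, hb⟩, ?_⟩
  rw [← hL]
  constructor
  · intro h1
    exact (CA.Result.unique (M := M) h1 hb).symm ▸ rfl
  · intro h1
    change M.Result (T n) x true
    rw [← h1]
    exact hb

open Classical in
/-- **a language in linear space which no cellular automaton of any dimension recognizes in time
`(n / (c log n)) ^ (1 + 1 / D)`** -/
theorem sep (h : MainSt 0 0) : ∃ L : Set (List Bool), LinSpace L ∧ ∀ (d : ℕ) (Q : Type) [Fintype Q]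
    (M : CA (d + 1) Bool Q) (T : ℕ → ℕ),
    (∀ c : ℕ, ∃ n ≥ c, T n ^ (d + 1) * (c * Nat.log 2 n) ^ (d + 2) ≤ n ^ (d + 2)) → ¬ Rec M T L := by
  obtain ⟨L, hL, H⟩ := h
  refine ⟨L, hL, fun d Q _ M T hT hR => ?_⟩
  obtain ⟨C, hC⟩ := H d
  obtain ⟨n, hn, hTn⟩ := hT (C * Fintype.card Q ^ (3 ^ (d + 1) + 1) + C * Fintype.card Q + 8)
  have h1 := hC n Q M.ext0 Fin.elim0 (T n) (by omega) (le_trans (Nat.mul_le_mul_left _ (Nat.pow_le_pow_left
    (Nat.mul_le_mul_right _ (by omega)) _)) hTn)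
  have h2 : (Finset.univ.filter fun x : Fin n → Bool => Decides M.ext0 Fin.elim0 (T n) x (List.ofFn x ∈ L)) =
      Finset.univ := by
    rw [Finset.filter_eq_self]
    exact fun x _ => hR.decides x _
  rw [h2, Finset.card_univ, Fintype.card_fun, Fintype.card_bool, Fintype.card_fin] at h1
  have h3 : 2 ^ (n - n / 8) < 2 ^ n := Nat.pow_lt_pow_right (by norm_num) (by omega)
  omega

private theorem pow_log (m e c : ℕ) : ∃ n ≥ c, m * (c * Nat.log 2 n) ^ e ≤ n := by
  have h1 := (isLittleO_pow_const_const_pow_of_one_lt (R := ℝ) e (by norm_num : (1 : ℝ) < 2)).bound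
    (show (0 : ℝ) < 1 / (m * c ^ e + 1) by positivity)
  obtain ⟨k, hk⟩ := (h1.and (Filter.eventually_ge_atTop c)).exists
  obtain ⟨h2, h3⟩ := hk
  refine ⟨2 ^ k, h3.trans Nat.lt_two_pow_self.le, ?_⟩
  rw [Nat.log_pow (by norm_num), mul_pow, ← mul_assoc]
  rw [Real.norm_of_nonneg (by positivity), Real.norm_of_nonneg (by positivity), one_div_mul_eq_div,
    le_div_iff₀ (by positivity)] at h2
  have h4 : (m : ℝ) * c ^ e * k ^ e ≤ 2 ^ k := by
    have h5 : (0 : ℝ) ≤ (k : ℝ) ^ e := by positivity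
    nlinarith
  exact_mod_cast h4

/-- **no cellular automaton of any dimension recognizes it in linear time** -/
theorem sep_lin (h : MainSt 0 0) : ∃ L : Set (List Bool), LinSpace L ∧ ∀ (d : ℕ) (Q : Type) [Fintype Q]
    (M : CA (d + 1) Bool Q) (c : ℕ), ¬ Rec M (fun n => c * (n + 1)) L := by
  obtain ⟨L, hL, H⟩ := sep h
  refine ⟨L, hL, fun d Q _ M c => H d Q M _ fun c' => ?_⟩
  obtain ⟨n, hn, h1⟩ := pow_log ((2 * c) ^ (d + 1)) (d + 2) (c' + 1)
  refine ⟨n, by omega, ?_⟩
  calc (c * (n + 1)) ^ (d + 1) * (c' * Nat.log 2 n) ^ (d + 2) ≤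
      (2 * c * n) ^ (d + 1) * ((c' + 1) * Nat.log 2 n) ^ (d + 2) := by
        refine Nat.mul_le_mul (Nat.pow_le_pow_left ?_ _) (Nat.pow_le_pow_left (Nat.mul_le_mul_right _ (by omega)) _)
        rw [mul_comm 2 c, mul_assoc]
        exact Nat.mul_le_mul_left _ (by omega)
    _ = n ^ (d + 1) * ((2 * c) ^ (d + 1) * ((c' + 1) * Nat.log 2 n) ^ (d + 2)) := by
        rw [mul_pow (2 * c) n]
        ring
    _ ≤ n ^ (d + 1) * n := Nat.mul_le_mul_left _ h1
    _ = n ^ (d + 2) := by ring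

end Pool.Agent.PSM
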