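import Pool.Agent.PSM.SimNA
import Pool.Agent.PSM.Alg
import Pool.Agent.PSM.Flat

/-!
# Linear space against cellular automata: the simulation on numbers (helper9, row G1)

**`simN_eq`**: `simN` is the output of the automaton at the time `b h`.
-/

set_option autoImplicit false

namespace Pool.Agent.PSM

/-- **the simulation** -/
theorem simN_eq {d q T b h p n : ℕ} {st : ℕ → ℕ} (hp : p.Prime) (hN : (3 * b) ^ (d + 1) + 1 < p) (hb : 0 < b)
    (hq : 0 < q) (hst : ∀ i, st i < q) :
    simN (d + 1) q T b h p n st =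
      if evZ q T (stZ n st) (b * h) (0 : Fin (d + 1) → ℤ) % 3 = 1 then 1 else 0 := by
  refine simN_of hp hb hq hst ?_
  rw [flat _ _ _ _ hp.pos]
  exact alg hp (ok_teW hb hq) hN (fun j u => stZ_lt hst _) h 0 (Nat.zero_le _) 0

end Pool.Agent.PSM
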