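import Pool.Agent.PSM.MainA
import Pool.Agent.PSM.SimN
import Pool.Agent.PSM.MainB
import Pool.Agent.PSM.Sep

/-!
# Linear space against cellular automata: the main theorem

* **`main`**: `MainSt k g`.
-/

set_option autoImplicit false

open Finset

namespace Pool.Agent.PSM

/-! ### sizes of the header -/

theorem log_le (v : ℕ) : Nat.log 2 v ≤ v := Nat.log_le_self 2 v

theorem sc_le (k g : ℕ) {C : ℕ} (hC : 1 ≤ C) : sc k g C ≤ 3 * (2 + 2 * g ^ k) * C := by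
  unfold sc
  nlinarith [Nat.zero_le (g ^ k), Nat.mul_le_mul_left (1 + 2 * g ^ k) hC]

/-- the header of an automaton with `q` states is short -/
theorem hdr_len {d k q E c : ℕ} (hE : E < q ^ q ^ 3 ^ (d + 1)) (hq : 2 ≤ q) (hc : c < 3 ^ k) :
    2 * ((Nat.log 2 d + 1) + (Nat.log 2 q + 1) + (Nat.log 2 c + 1) + (Nat.log 2 E + 1)) + 5 ≤
      (2 * d + 6 * k + 20) * q ^ (3 ^ (d + 1) + 1) := by
  have h1 : Nat.log 2 d ≤ d := log_le d
  have h2 : Nat.log 2 q ≤ q := log_le q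
  have h3 : Nat.log 2 c ≤ 2 * k := by
    refine Nat.lt_succ_iff.1 (Nat.log_lt_of_lt_pow' (by omega) ?_)
    calc c < 3 ^ k := hc
      _ ≤ 4 ^ k := Nat.pow_le_pow_left (by omega) k
      _ = 2 ^ (2 * k) := by rw [show (4 : ℕ) = 2 ^ 2 from rfl, ← pow_mul]
      _ ≤ 2 ^ (2 * k).succ := Nat.pow_le_pow_right (by omega) (by omega)
  have h4 : Nat.log 2 E ≤ q * q ^ 3 ^ (d + 1) := by
    refine Nat.lt_succ_iff.1 (Nat.log_lt_of_lt_pow' (by omega) ?_)
    calc E < q ^ q ^ 3 ^ (d + 1) := hE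
      _ ≤ (2 ^ q) ^ q ^ 3 ^ (d + 1) := Nat.pow_le_pow_left Nat.lt_two_pow_self.le _
      _ = 2 ^ (q * q ^ 3 ^ (d + 1)) := by rw [pow_mul]
      _ ≤ _ := Nat.pow_le_pow_right (by omega) (by omega)
  have h5 : q * q ^ 3 ^ (d + 1) = q ^ (3 ^ (d + 1) + 1) := (pow_succ' q _).symm
  have h6 : q ≤ q ^ (3 ^ (d + 1) + 1) := Nat.le_self_pow (by omega) q
  rw [h5] at h4
  nlinarith [Nat.zero_le d, Nat.zero_le k, Nat.mul_le_mul_left (2 * d + 4 * k + 18) (le_trans (by omega : 1 ≤ q) h6)]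

/-! ### the main theorem -/

open Classical in
/-- **the main theorem** -/
theorem main (k g : ℕ) : MainSt k g := by
  have hEm : ∀ {α : Type} [Ctx α] {B e n x : α → ℕ}, E B → E e → E n → E x →
      E fun v => meB k g (B v) (e v) (n v) (x v) := fun hB he hn hx => E.meB hB he hn hx k g
  refine ⟨{x | fL (meB k g) 1 (num x) = 1}, linSpace_of (f := fun a => fL (meB k g) 1 a.1) (E_fL hEm 1)
    fun _ => fL_le _ _ _, fun d => ?_⟩
  obtain ⟨C, hC1, hC⟩ := size (d + 1) (3 * (2 + 2 * g ^ k)) (by omega)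
  obtain ⟨A, hA⟩ : ∃ A, A = 8 * (2 * d + 6 * k + 20) * (3 * (2 + 2 * g ^ k)) ^ (3 ^ (d + 1) + 1) := ⟨_, rfl⟩
  refine ⟨C + A, fun n Q _ M R T hn hT => ?_⟩
  have hQ : 1 ≤ Fintype.card Q := Fintype.card_pos_iff.2 ⟨M.blank⟩
  obtain ⟨q, hq⟩ : ∃ q, q = sc k g (Fintype.card Q) := ⟨_, rfl⟩
  have hqc : q ≤ 3 * (2 + 2 * g ^ k) * Fintype.card Q := hq ▸ sc_le k g hQ
  have hq2 : 2 ≤ q := by
    rw [hq]
    unfold sc
    omega
  have hnC : C * Fintype.card Q ^ (3 ^ (d + 1) + 1) ≤ n := le_trans (Nat.mul_le_mul_right _ (by omega)) hn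
  have hnA : A * Fintype.card Q ^ (3 ^ (d + 1) + 1) ≤ n := le_trans (Nat.mul_le_mul_right _ (by omega)) hn
  obtain ⟨hBig, hb1, hh1, hn2, -, hTb⟩ := hC n (Fintype.card Q) q hQ hq2 hqc hnC
  have hT1 : T < bS n q (d + 1) * hS n (d + 1) := by
    refine hTb T (le_trans ?_ hT)
    exact Nat.mul_le_mul_left _ (Nat.pow_le_pow_left (Nat.mul_le_mul_right _ (Nat.mul_le_mul_right _ (by omega))) _)
  obtain ⟨E0, hE0, hcode⟩ := code M
  rw [← hq] at hE0 hcode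
  obtain ⟨u, hu, hv⟩ := header ![d, q, en 3 k (fun i => if h : i < k then qc (R ⟨i, h⟩) else 0), E0]
  have hqc3 : ∀ i < k, (if h : i < k then qc (R ⟨i, h⟩) else 0) < 3 := by
    intro i hi
    rw [dif_pos hi]
    cases R ⟨i, hi⟩ <;> decide
  obtain ⟨v0, v1, v2, v3, -⟩ := hv []
  rw [List.append_nil] at v0 v1 v2 v3
  have hlen : u.length + 1 ≤ n / 8 := by
    have h1 := hdr_len (d := d) (k := k) hE0 hq2 (en_lt hqc3)
    have h2 : u.length + 1 ≤ 2 * ((Nat.log 2 d + 1) + (Nat.log 2 q + 1) +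
        (Nat.log 2 (en 3 k (fun i => if h : i < k then qc (R ⟨i, h⟩) else 0)) + 1) + (Nat.log 2 E0 + 1)) + 5 := by
      rw [Fin.sum_univ_four] at hu
      simp only [Matrix.cons_val] at hu
      omega
    have h3 : q ^ (3 ^ (d + 1) + 1) ≤ (3 * (2 + 2 * g ^ k)) ^ (3 ^ (d + 1) + 1) *
        Fintype.card Q ^ (3 ^ (d + 1) + 1) := by
      rw [← mul_pow]
      exact Nat.pow_le_pow_left hqc _
    rw [Nat.le_div_iff_mul_le (by omega)]
    calc (u.length + 1) * 8 ≤ ((2 * d + 6 * k + 20) * q ^ (3 ^ (d + 1) + 1)) * 8 :=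
          Nat.mul_le_mul_right _ (h2.trans h1)
      _ ≤ ((2 * d + 6 * k + 20) * ((3 * (2 + 2 * g ^ k)) ^ (3 ^ (d + 1) + 1) *
          Fintype.card Q ^ (3 ^ (d + 1) + 1))) * 8 :=
          Nat.mul_le_mul_right _ (Nat.mul_le_mul_left _ h3)
      _ = A * Fintype.card Q ^ (3 ^ (d + 1) + 1) := by rw [hA]; ring
      _ ≤ n := hnA
  have he : num u < 2 ^ (n / 8) := (num_lt u).trans_le (Nat.pow_le_pow_right (by omega) hlen)
  refine le_trans (Nat.mul_le_mul_left 2 (card_le_card ?_))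
    (count_fL (m := meB k g) (c := 1) (fun _ _ _ _ => meB_le _ _ _ _ _ _) (fun _ _ _ _ => meB_add _ _ _ _ _ _) (n := n) (e := num u) (by omega) he)
  intro x hx
  rw [mem_filter] at hx ⊢
  refine ⟨mem_univ _, ?_⟩
  obtain ⟨hres, hnest⟩ := hx.2
  have hp := pS_prime (bS n q (d + 1)) (d + 1)
  have hkey : meB k g ((2 ^ n) ^ 1) (num u) n (num (List.ofFn x)) = 1 ↔
      nest k R (fun y : Fin k → Fin n → Fin g => M.Result T (fun i => (x i, fun j => y j i)) true) := by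
    refine meB_word (D := d + 1) (q := q) (T := E0) (R := R) x (num_dgFn x) (by rw [v0]; rfl) (by rw [v1]; rfl)
      (fun i => ?_) (by rw [v3]; rfl) rfl rfl rfl hb1 hh1 (by omega) (by rw [pow_one]) (by rw [pow_one]; exact hBig)
      fun y => ?_
    · rw [v2]
      show dg 3 i (en 3 k _) = _
      rw [dg_en hqc3 i.2, dif_pos i.2]
    · rw [simN_eq hp (lt_pS _ _) hb1 (by omega) fun i => hq ▸ stw_lt _ _ i,
        ← hcode n _ T (bS n q (d + 1) * hS n (d + 1)) hT1 (hres y)]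
      split_ifs <;> simp_all
  have h1 : fL (meB k g) 1 (num (List.ofFn x)) = 1 ↔ meB k g ((2 ^ n) ^ 1) (num u) n (num (List.ofFn x)) = 1 :=
    (hkey.trans hnest).symm
  have h2 : meB k g ((2 ^ n) ^ 1) (num u) n (num (List.ofFn x)) ≤ 1 := meB_le _ _ _ _ _ _
  have h3 : fL (meB k g) 1 (num (List.ofFn x)) ≤ 1 := fL_le _ _ _
  omega

end Pool.Agent.PSM
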