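import Pool.Agent.PSM.Num
import Pool.Agent.PSM.ELib2

/-!
# Words as numbers, fields of a number

* `num_append`, `le_num`, `num_lt`, `log_num`, `num_dg`: the number of a word;
* `tro`, `fv`, `fr`: number of trailing ones, first field, the rest; **`fv_enc`, `fr_enc`**; **`header`**;
* **`count_prefix`**: the words with a given beginning; **`E.fv`, `E.fr`**: membership.
-/

set_option autoImplicit false

open Finset

namespace Pool.Agent.PSM

/-! ### the number of a word -/

theorem num_cons (b : Bool) (l : List Bool) : num (b :: l) = 2 * num l + b.toNat := rfl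

theorem le_num (x : List Bool) : 2 ^ x.length ≤ num x := by
  induction x with
  | nil => simp [num]
  | cons b l ih =>
    rw [List.length_cons, pow_succ, num_cons]
    omega

theorem num_lt (x : List Bool) : num x < 2 ^ (x.length + 1) := by
  induction x with
  | nil => simp [num]
  | cons b l ih =>
    rw [List.length_cons, pow_succ, num_cons]
    have hb : b.toNat ≤ 1 := Bool.toNat_le b
    omega

theorem num_pos (x : List Bool) : 0 < num x := lt_of_lt_of_le (by positivity) (le_num x)

theorem log_num (x : List Bool) : Nat.log 2 (num x) = x.length :=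
  Nat.log_eq_of_pow_le_of_lt_pow (le_num x) (num_lt x)

/-- the letters are the digits -/
theorem num_dg (x : List Bool) (i : ℕ) (h : i < x.length) : num x / 2 ^ i % 2 = (x[i]).toNat := by
  induction x generalizing i with
  | nil => simp at h
  | cons b l ih =>
    have hb : b.toNat ≤ 1 := Bool.toNat_le b
    cases i with
    | zero =>
      rw [pow_zero, Nat.div_one, List.getElem_cons_zero, num_cons]
      omega
    | succ i =>
      have h1 : num (b :: l) / 2 ^ (i + 1) = num l / 2 ^ i := by
        rw [pow_succ', ← Nat.div_div_eq_div_mul]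
        have : num (b :: l) / 2 = num l := by
          rw [num_cons]
          omega
        rw [this]
      rw [h1, List.getElem_cons_succ]
      exact ih i (by simpa using h)

/-- the number of a word on the cells -/
theorem num_dgFn {n : ℕ} (x : Fin n → Bool) (i : Fin n) :
    num (List.ofFn x) / 2 ^ (i : ℕ) % 2 = (x i).toNat := by
  rw [num_dg _ _ (by rw [List.length_ofFn]; exact i.2), List.getElem_ofFn]

theorem log_num_ofFn {n : ℕ} (x : Fin n → Bool) : Nat.log 2 (num (List.ofFn x)) = n := by
  rw [log_num, List.length_ofFn]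

/-- the value of a word without the last digit -/
def vlw : List Bool → ℕ
  | [] => 0
  | b :: l => 2 * vlw l + b.toNat

theorem vlw_cons (b : Bool) (l : List Bool) : vlw (b :: l) = 2 * vlw l + b.toNat := rfl

theorem vlw_lt (u : List Bool) : vlw u < 2 ^ u.length := by
  induction u with
  | nil => simp [vlw]
  | cons b l ih =>
    rw [List.length_cons, pow_succ, vlw_cons]
    have hb : b.toNat ≤ 1 := Bool.toNat_le b
    omega

theorem num_append (u w : List Bool) : num (u ++ w) = vlw u + 2 ^ u.length * num w := by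
  induction u with
  | nil => simp [vlw]
  | cons b l ih =>
    rw [List.cons_append, List.length_cons, num_cons, vlw_cons, ih, pow_succ]
    ring

theorem vlw_append (u w : List Bool) : vlw (u ++ w) = vlw u + 2 ^ u.length * vlw w := by
  induction u with
  | nil => simp [vlw]
  | cons b l ih =>
    rw [List.cons_append, List.length_cons, vlw_cons, vlw_cons, ih, pow_succ]
    ring

/-! ### fields -/

/-- number of trailing ones -/
def tro (X : ℕ) : ℕ := ∑ i ∈ range X, ∏ j ∈ range (i + 1), X / 2 ^ j % 2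

/-- the first field -/
def fv (X : ℕ) : ℕ := X / 2 ^ (tro X + 1) % 2 ^ tro X

/-- the rest -/
def fr (X : ℕ) : ℕ := X / 2 ^ (2 * tro X + 1)

theorem prod_dg_le (X i : ℕ) : ∏ j ∈ range i, X / 2 ^ j % 2 ≤ 1 := by
  refine Finset.prod_le_one (fun _ _ => Nat.zero_le _) fun j _ => ?_
  have := Nat.mod_lt (X / 2 ^ j) (show 0 < 2 by norm_num)
  omega

theorem tro_le (X : ℕ) : tro X ≤ X := by
  unfold tro
  calc _ ≤ ∑ i ∈ range X, 1 := Finset.sum_le_sum fun i _ => prod_dg_le X (i + 1)
    _ = X := by simp

theorem tro_eq {X L : ℕ} (h : ∀ j < L, X / 2 ^ j % 2 = 1) (h0 : X / 2 ^ L % 2 = 0) (hL : L ≤ X) :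
    tro X = L := by
  unfold tro
  have h1 : ∀ i, ∏ j ∈ range (i + 1), X / 2 ^ j % 2 = if i < L then 1 else 0 := by
    intro i
    split_ifs with hi
    · exact Finset.prod_eq_one fun j hj => h j (by rw [Finset.mem_range] at hj; omega)
    · exact Finset.prod_eq_zero (Finset.mem_range.2 (show L < i + 1 by omega)) h0
  rw [Finset.sum_congr rfl fun i _ => h1 i, Finset.sum_ite, Finset.sum_const_zero, add_zero,
    Finset.sum_const, smul_eq_mul, mul_one]
  have h2 : (range X).filter (fun i => i < L) = range L := by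
    ext i
    simp only [Finset.mem_filter, Finset.mem_range]
    omega
  rw [h2, Finset.card_range]

/-- the first digits are ones -/
theorem pow_tro_le (X : ℕ) : 2 ^ tro X ≤ X + 1 := by
  by_cases hX : ∃ j, X / 2 ^ j % 2 = 0 ∧ ∀ i < j, X / 2 ^ i % 2 = 1
  · obtain ⟨L, h0, h⟩ := hX
    have h2 : ∀ j ≤ L, X % 2 ^ j = 2 ^ j - 1 := by
      intro j hj
      induction j with
      | zero => simp [Nat.mod_one]
      | succ j ih =>
        have e1 := Nat.mod_pow_succ (b := 2) (k := j) (x := X)
        rw [e1, ih (by omega), h j (by omega), pow_succ]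
        have := Nat.one_le_two_pow (n := j)
        omega
    have h3 : 2 ^ L ≤ X + 1 := by
      have := h2 L le_rfl
      have := Nat.mod_le X (2 ^ L)
      omega
    have h4 : L ≤ X := by
      have := Nat.lt_two_pow_self (n := L)
      omega
    rw [tro_eq h h0 h4]
    exact h3
  · exfalso
    apply hX
    have hex : ∃ j, X / 2 ^ j % 2 = 0 := ⟨X, by
      rw [Nat.div_eq_of_lt Nat.lt_two_pow_self]⟩
    classical
    refine ⟨Nat.find hex, Nat.find_spec hex, fun i hi => ?_⟩
    have := Nat.find_min hex hi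
    have := Nat.mod_lt (X / 2 ^ i) (show 0 < 2 by norm_num)
    omega

theorem fv_lt (X : ℕ) : fv X < 2 ^ tro X := Nat.mod_lt _ (by positivity)

theorem fv_le (X : ℕ) : fv X ≤ X := by
  have := fv_lt X
  have := pow_tro_le X
  omega

theorem fr_le (X : ℕ) : fr X ≤ X := Nat.div_le_self _ _

/-- `L` digits of `v` -/
def bts : ℕ → ℕ → List Bool
  | 0, _ => []
  | L + 1, v => decide (v % 2 = 1) :: bts L (v / 2)

theorem bts_length (L v : ℕ) : (bts L v).length = L := by
  induction L generalizing v with
  | zero => rfl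
  | succ L ih => simp [bts, ih]

theorem vlw_bts (L v : ℕ) (h : v < 2 ^ L) : vlw (bts L v) = v := by
  induction L generalizing v with
  | zero =>
    have : v = 0 := by simpa using h
    subst this
    rfl
  | succ L ih =>
    rw [pow_succ] at h
    unfold bts
    rw [vlw_cons, ih (v / 2) (by omega)]
    have h1 : (decide (v % 2 = 1)).toNat = v % 2 := by
      rcases Nat.mod_two_eq_zero_or_one v with h0 | h0 <;> simp [h0]
    rw [h1]
    omega

theorem vlw_ones (L : ℕ) : vlw (List.replicate L true) = 2 ^ L - 1 := by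
  induction L with
  | zero => rfl
  | succ L ih =>
    rw [List.replicate_succ, vlw_cons, ih, pow_succ]
    have := Nat.one_le_two_pow (n := L)
    simp only [Bool.toNat_true]
    omega

/-- a field with the value `v` -/
def enc (v : ℕ) : List Bool :=
  List.replicate (Nat.log 2 v + 1) true ++ false :: bts (Nat.log 2 v + 1) v

theorem enc_length (v : ℕ) : (enc v).length = 2 * (Nat.log 2 v + 1) + 1 := by
  unfold enc
  rw [List.length_append, List.length_replicate, List.length_cons, bts_length]
  ring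

theorem num_enc (v : ℕ) (w : List Bool) : num (enc v ++ w) =
    2 ^ (Nat.log 2 v + 1) - 1 + 2 ^ (Nat.log 2 v + 2) * v + 2 ^ (2 * (Nat.log 2 v + 1) + 1) * num w := by
  have hv : v < 2 ^ (Nat.log 2 v + 1) := Nat.lt_pow_succ_log_self (by norm_num) v
  rw [num_append, enc_length]
  unfold enc
  rw [vlw_append, vlw_ones, List.length_replicate]
  have h1 : vlw (false :: bts (Nat.log 2 v + 1) v) = 2 * v := by
    show 2 * vlw (bts (Nat.log 2 v + 1) v) + false.toNat = 2 * v
    rw [vlw_bts _ _ hv]
    simp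
  rw [h1, show Nat.log 2 v + 2 = (Nat.log 2 v + 1) + 1 by ring, pow_succ 2 (Nat.log 2 v + 1)]
  ring

/-- trailing ones of a number `2 ^ L - 1 + 2 ^ (L + 1) Y` -/
theorem tro_form (L Y : ℕ) : tro (2 ^ L - 1 + 2 ^ (L + 1) * Y) = L := by
  have h1 := Nat.one_le_two_pow (n := L)
  refine tro_eq (fun j hj => ?_) ?_ ?_
  · obtain ⟨k, rfl⟩ := Nat.exists_eq_add_of_lt hj
    have e : 2 ^ (j + k + 1) - 1 + 2 ^ (j + k + 1 + 1) * Y =
        (2 ^ j - 1) + 2 ^ j * (2 * (2 ^ k - 1 + 2 ^ (k + 1) * Y) + 1) := by
      have a1 := Nat.one_le_two_pow (n := j)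
      have a2 := Nat.one_le_two_pow (n := k)
      have a3 := Nat.one_le_two_pow (n := j + k + 1)
      zify [a1, a2, a3]
      ring
    have h2 := Nat.one_le_two_pow (n := j)
    rw [e, Nat.add_mul_div_left _ _ (by positivity), Nat.div_eq_of_lt (by omega)]
    omega
  · have e : 2 ^ L - 1 + 2 ^ (L + 1) * Y = (2 ^ L - 1) + 2 ^ L * (2 * Y) := by
      rw [pow_succ]
      ring
    rw [e, Nat.add_mul_div_left _ _ (by positivity), Nat.div_eq_of_lt (by omega)]
    omega
  · have := Nat.lt_two_pow_self (n := L)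
    have : L ≤ 2 ^ L - 1 := by omega
    exact this.trans (Nat.le_add_right _ _)

theorem tro_enc (v : ℕ) (w : List Bool) : tro (num (enc v ++ w)) = Nat.log 2 v + 1 := by
  rw [num_enc]
  have e : 2 ^ (Nat.log 2 v + 1) - 1 + 2 ^ (Nat.log 2 v + 2) * v +
      2 ^ (2 * (Nat.log 2 v + 1) + 1) * num w = 2 ^ (Nat.log 2 v + 1) - 1 +
      2 ^ (Nat.log 2 v + 1 + 1) * (v + 2 ^ (Nat.log 2 v + 1) * num w) := by
    have : 2 * (Nat.log 2 v + 1) + 1 = (Nat.log 2 v + 1 + 1) + (Nat.log 2 v + 1) := by ring
    rw [this, pow_add 2 (Nat.log 2 v + 1 + 1)]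
    ring
  rw [e, tro_form]

/-- **the first field** -/
theorem fv_enc (v : ℕ) (w : List Bool) : fv (num (enc v ++ w)) = v := by
  have hv : v < 2 ^ (Nat.log 2 v + 1) := Nat.lt_pow_succ_log_self (by norm_num) v
  unfold fv
  rw [tro_enc, num_enc]
  obtain ⟨L, hL⟩ : ∃ L, L = Nat.log 2 v + 1 := ⟨_, rfl⟩
  rw [show Nat.log 2 v + 2 = (Nat.log 2 v + 1) + 1 by ring, ← hL]
  rw [← hL] at hv
  have e : 2 ^ L - 1 + 2 ^ (L + 1) * v + 2 ^ (2 * L + 1) * num w =
      (2 ^ L - 1) + 2 ^ (L + 1) * (v + 2 ^ L * num w) := by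
    rw [show 2 * L + 1 = (L + 1) + L by ring, pow_add 2 (L + 1)]
    ring
  have h1 : 2 ^ L - 1 < 2 ^ (L + 1) := by
    have := Nat.one_le_two_pow (n := L)
    rw [pow_succ]
    omega
  rw [e, Nat.add_mul_div_left _ _ (by positivity), Nat.div_eq_of_lt h1, zero_add,
    Nat.add_mul_mod_self_left, Nat.mod_eq_of_lt hv]

/-- **the rest** -/
theorem fr_enc (v : ℕ) (w : List Bool) : fr (num (enc v ++ w)) = num w := by
  have hv : v < 2 ^ (Nat.log 2 v + 1) := Nat.lt_pow_succ_log_self (by norm_num) v
  unfold fr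
  rw [tro_enc, num_enc]
  obtain ⟨L, hL⟩ : ∃ L, L = Nat.log 2 v + 1 := ⟨_, rfl⟩
  rw [show Nat.log 2 v + 2 = (Nat.log 2 v + 1) + 1 by ring, ← hL]
  rw [← hL] at hv
  have h1 : 2 ^ L - 1 + 2 ^ (L + 1) * v < 2 ^ (2 * L + 1) := by
    have a1 := Nat.one_le_two_pow (n := L)
    have a2 : 2 ^ (L + 1) * v ≤ 2 ^ (L + 1) * (2 ^ L - 1) := Nat.mul_le_mul_left _ (by omega)
    have a3 : 2 ^ (L + 1) * (2 ^ L - 1) + 2 ^ (L + 1) = 2 ^ (2 * L + 1) := by
      zify [a1]
      ring
    have a4 : 2 ^ (L + 1) = 2 * 2 ^ L := by ring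
    omega
  rw [Nat.add_mul_div_left _ _ (by positivity), Nat.div_eq_of_lt h1, zero_add]

/-- fields one after the other -/
def encs : List ℕ → List Bool
  | [] => []
  | v :: l => enc v ++ encs l

theorem encs_length (l : List ℕ) :
    (encs l).length = 2 * (l.map fun v => Nat.log 2 v + 1).sum + l.length := by
  induction l with
  | nil => rfl
  | cons v l ih =>
    unfold encs
    rw [List.length_append, enc_length, ih, List.map_cons, List.sum_cons, List.length_cons]
    ring

/-- **the header of four fields** -/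
theorem header (v : Fin 4 → ℕ) : ∃ u : List Bool,
    u.length ≤ 2 * (∑ i, (Nat.log 2 (v i) + 1)) + 4 ∧ ∀ w : List Bool,
      fv (num (u ++ w)) = v 0 ∧ fv (fr (num (u ++ w))) = v 1 ∧ fv (fr (fr (num (u ++ w)))) = v 2 ∧
      fv (fr (fr (fr (num (u ++ w))))) = v 3 ∧ fr (fr (fr (fr (num (u ++ w))))) = num w := by
  refine ⟨encs [v 0, v 1, v 2, v 3], ?_, fun w => ?_⟩
  · rw [encs_length, Fin.sum_univ_four]
    simp only [List.map_cons, List.map_nil, List.sum_cons, List.sum_nil, List.length_cons,
      List.length_nil]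
    omega
  · simp only [encs, List.append_assoc, List.nil_append, fv_enc, fr_enc, and_self]

/-! ### membership -/

section

variable {α : Type} [Ctx α]

theorem E.tro {X : α → ℕ} (h : E X) : E fun a => PSM.tro (X a) := by
  have h1 : E fun w : ℕ × ℕ × α => PSM.dg 2 w.1 (X w.2.2) := E.dg (E.const 2) E.fst (E.snd (E.snd h))
  have h2 : E fun w : ℕ × α => Min.min 1 (∏ j ∈ range (w.1 + 1), PSM.dg 2 j (X w.2)) :=
    E.prodB (F := fun j (w : ℕ × α) => PSM.dg 2 j (X w.2)) (E.const 1) (E.inc E.fst) h1
  have h3 : E fun a => Min.min (X a) (∑ i ∈ range (X a), Min.min 1 (∏ j ∈ range (i + 1), PSM.dg 2 j (X a))) :=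
    E.sumB (F := fun i a => Min.min 1 (∏ j ∈ range (i + 1), PSM.dg 2 j (X a))) h h h2
  refine h3.ext fun a => ?_
  have h4 : (∑ i ∈ range (X a), Min.min 1 (∏ j ∈ range (i + 1), PSM.dg 2 j (X a))) = PSM.tro (X a) :=
    Finset.sum_congr rfl fun i _ => min_eq_right (prod_dg_le (X a) (i + 1))
  rw [h4]
  exact min_eq_right (tro_le _)

/-- **the first field** -/
theorem E.fv {X : α → ℕ} (h : E X) : E fun a => PSM.fv (X a) := by
  have h1 : E fun a => X a / 2 ^ (PSM.tro (X a) + 1) := E.divPow (E.const 2) (E.inc (E.tro h)) h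
  have h2 : E fun a => Min.min (X a + 1) (2 ^ PSM.tro (X a)) := E.powB (E.inc h) (E.const 2) (E.tro h)
  refine (E.mod h1 h2).ext fun a => ?_
  rw [min_eq_right (pow_tro_le (X a))]
  rfl

/-- **the rest** -/
theorem E.fr {X : α → ℕ} (h : E X) : E fun a => PSM.fr (X a) :=
  (E.divPow (E.const 2) (E.inc (E.mul (E.const 2) (E.tro h))) h).ext fun _ => rfl

end

/-! ### counting -/

/-- **words with a given beginning** -/
theorem count_prefix {n : ℕ} (u : List Bool) (h : u.length ≤ n) :
    2 ^ (n - u.length) ≤ (univ.filter fun x : Fin n → Bool => u <+: List.ofFn x).card := by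
  classical
  have h1 : (univ : Finset (Fin (n - u.length) → Bool)).card = 2 ^ (n - u.length) := by
    rw [Finset.card_univ, Fintype.card_fun, Fintype.card_bool, Fintype.card_fin]
  rw [← h1]
  refine Finset.card_le_card_of_injOn
    (fun y : Fin (n - u.length) → Bool => fun i : Fin n =>
      if hi : (i : ℕ) < u.length then u[(i : ℕ)] else y ⟨i - u.length, by omega⟩) ?_ ?_
  · intro y _
    simp only [Finset.coe_filter, Finset.mem_univ, true_and, Set.mem_ofPred_eq]
    rw [List.prefix_iff_eq_take]
    apply List.ext_getElem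
    · rw [List.length_take, List.length_ofFn]
      omega
    · intro i h2 h3
      rw [List.getElem_take, List.getElem_ofFn]
      simp only
      rw [dif_pos h2]
  · intro y _ y' _ hy
    funext i
    have h2 := congrFun hy ⟨u.length + i, by omega⟩
    have h3 : ¬ (u.length + (i : ℕ) < u.length) := by omega
    simp only [h3, dif_neg, not_false_eq_true] at h2
    have e : (⟨u.length + (i : ℕ) - u.length, by omega⟩ : Fin (n - u.length)) = i := by
      apply Fin.ext
      simp
    rw [e] at h2
    exact h2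

end Pool.Agent.PSM
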