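import Pool.Agent.PSM.Size
import Pool.Agent.PSM.ELib2

/-!
# The sizes of the simulation are computed in linear space

* `E_log2`, `E_prime` (test), `E_KD` (cut at `B`), **`E_bS`**, **`E_hS`**, **`E_pS`** (right if `pS ≤ B`).
-/

set_option autoImplicit false

open Finset

namespace Pool.Agent.PSM

variable {α : Type} [Ctx α]

/-! ### cut factors -/

theorem cut_mul_le (N x y : ℕ) : Min.min (N + 1) x * y ≤ N ↔ x * y ≤ N := by
  rcases le_total x (N + 1) with h | h
  · rw [min_eq_right h]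
  · rw [min_eq_left h]
    rcases Nat.eq_zero_or_pos y with hy | hy
    · rw [hy, mul_zero, mul_zero]
    · constructor
      · intro h1
        have := Nat.le_mul_of_pos_right (N + 1) hy
        omega
      · intro h1
        have := Nat.le_mul_of_pos_right x hy
        omega

theorem cut_succ_mul_le (N x y : ℕ) : (Min.min (N + 1) x + 1) * y ≤ N ↔ (x + 1) * y ≤ N := by
  rcases le_total x (N + 1) with h | h
  · rw [min_eq_right h]
  · rw [min_eq_left h]
    rcases Nat.eq_zero_or_pos y with hy | hy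
    · rw [hy, mul_zero, mul_zero]
    · constructor
      · intro h1
        have := Nat.le_mul_of_pos_right (N + 1 + 1) hy
        omega
      · intro h1
        have := Nat.le_mul_of_pos_right (x + 1) hy
        omega

/-! ### logarithm, primes -/

theorem card_log2 (n : ℕ) : ((range n).filter fun i => 2 ^ (i + 1) ≤ n).card = Nat.log 2 n := by
  have e : ((range n).filter fun i => 2 ^ (i + 1) ≤ n) = range (Nat.log 2 n) := by
    ext i
    rw [mem_filter, mem_range, mem_range]
    rcases Nat.eq_zero_or_pos n with h | h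
    · subst h
      simp
    · have h1 : i < 2 ^ (i + 1) := (Nat.lt_succ_self i).trans Nat.lt_two_pow_self
      constructor
      · intro h2
        exact Nat.le_log_of_pow_le (by norm_num) h2.2
      · intro h2
        have h3 : 2 ^ (i + 1) ≤ n := (Nat.pow_le_pow_right (by norm_num) h2).trans (Nat.pow_log_le_self 2 (by omega))
        exact ⟨h1.trans_le h3, h3⟩
  rw [e, card_range]

theorem E_log2 {f : α → ℕ} (hf : E f) : E fun a => Nat.log 2 (f a) := by
  refine (E.count (c := fun i a => 2 ^ (i + 1) ≤ f a) hf ?_).ext fun a => card_log2 (f a)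
  refine E.cond (c := fun w : ℕ × α => Min.min (f w.2 + 1) (2 ^ (w.1 + 1)) ≤ f w.2)
    (E.le (E.powB (E.inc (E.snd hf)) (E.const 2) (E.inc E.fst)) (E.snd hf)) fun w => ?_
  have := cut_mul_le (f w.2) (2 ^ (w.1 + 1)) 1
  rwa [mul_one, mul_one] at this

theorem E_prime {f : α → ℕ} (hf : E f) : E fun a => if (f a).Prime then 1 else 0 := by
  refine E.cond (c := fun a => 2 ≤ f a ∧ ∀ m < f a, 2 ≤ m → ¬ f a % m = 0)
    (E.and (E.le (E.const 2) hf) (E.all (c := fun m a => 2 ≤ m → ¬ f a % m = 0) hf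
      (E.imp (E.le (E.const 2) E.fst) (E.not (E.eq (E.mod (E.snd hf) E.fst) (E.const 0)))))) fun a => ?_
  rw [Nat.prime_def_lt']
  refine and_congr_right fun _ => ⟨fun h m h2 hm hd => h m hm h2 (Nat.mod_eq_zero_of_dvd hd),
    fun h m hm h2 hd => h m h2 hm (Nat.dvd_of_mod_eq_zero hd)⟩

/-! ### the sizes -/

variable {B n q b D : α → ℕ}

theorem E_KD (hB : E B) (hD : E D) : E fun a => Min.min (B a) (KD (D a)) := by
  refine (E.min hB (E.mul (E.inc (E.powB hB (E.const 3) hD)) (E.add (E.mul (E.const 2) hD) (E.const 5)))).ext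
    fun a => ?_
  unfold KD
  rcases le_total (3 ^ D a) (B a) with h | h
  · rw [min_eq_right h]
  · rw [min_eq_left h]
    have h1 : ∀ x y : ℕ, B a ≤ x → B a ≤ (x + 1) * (y + 5) := by
      intro x y hx
      calc B a ≤ x + 1 := by omega
        _ ≤ (x + 1) * (y + 5) := Nat.le_mul_of_pos_right _ (by omega)
    rw [min_eq_left (h1 _ _ le_rfl), min_eq_left (h1 _ _ h)]

theorem E_bS (hn : E n) (hq : E q) (hD : E D) : E fun a => bS (n a) (q a) (D a) := by
  refine E.count (c := fun i a => (i + 1) ^ D a * (KD (D a) * q a * Nat.log 2 (n a)) ≤ n a) hn ?_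
  refine E.cond (c := fun w : ℕ × α => Min.min (n w.2 + 1) ((w.1 + 1) ^ D w.2) *
      ((Min.min (n w.2 + 1) (3 ^ D w.2) + 1) * ((2 * D w.2 + 5) * q w.2 * Nat.log 2 (n w.2))) ≤ n w.2) ?_ fun w => ?_
  · have hn1 : E fun w : ℕ × α => n w.2 + 1 := E.inc (E.snd hn)
    refine E.le (E.mul (E.powB hn1 (E.inc E.fst) (E.snd hD)) (E.mul (E.inc (E.powB hn1 (E.const 3) (E.snd hD))) ?_))
      (E.snd hn)
    exact E.mul (E.mul (E.add (E.mul (E.const 2) (E.snd hD)) (E.const 5)) (E.snd hq)) (E.snd (E_log2 hn))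
  · rw [cut_mul_le]
    rw [show (w.1 + 1) ^ D w.2 * ((Min.min (n w.2 + 1) (3 ^ D w.2) + 1) * ((2 * D w.2 + 5) * q w.2 *
        Nat.log 2 (n w.2))) = (Min.min (n w.2 + 1) (3 ^ D w.2) + 1) * ((w.1 + 1) ^ D w.2 * ((2 * D w.2 + 5) * q w.2 *
        Nat.log 2 (n w.2))) by ring, cut_succ_mul_le]
    unfold KD
    rw [show (3 ^ D w.2 + 1) * ((w.1 + 1) ^ D w.2 * ((2 * D w.2 + 5) * q w.2 * Nat.log 2 (n w.2))) =
      (w.1 + 1) ^ D w.2 * ((3 ^ D w.2 + 1) * (2 * D w.2 + 5) * q w.2 * Nat.log 2 (n w.2)) by ring]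

theorem E_hS (hn : E n) (hD : E D) : E fun a => hS (n a) (D a) :=
  E.div hn (E.mul (E.add (E.mul (E.const 4) hD) (E.const 6)) (E_log2 hn))

/-- the prime, right as long as it is at most `B` -/
theorem E_pS (hB : E B) (hb : E b) (hD : E D) :
    ∃ F : α → ℕ, E F ∧ ∀ a, pS (b a) (D a) ≤ B a → F a = pS (b a) (D a) := by
  have hx : E fun a => Min.min (B a) ((3 * b a) ^ D a) := E.powB hB (E.mul (E.const 3) hb) hD
  refine ⟨fun a => Min.min (B a) ((3 * b a) ^ D a) + 2 + ((range (Min.min (B a) ((3 * b a) ^ D a) + 1)).filter fun i =>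
    ∀ j < i + 1, ¬ (Min.min (B a) ((3 * b a) ^ D a) + 2 + j).Prime).card, ?_, ?_⟩
  · refine E.add (E.add hx (E.const 2)) (E.find
      (c := fun j a => (Min.min (B a) ((3 * b a) ^ D a) + 2 + j).Prime) (E.inc hx) ?_)
    exact E_prime (E.add (E.add (E.snd hx) (E.const 2)) E.fst)
  · intro a ha
    have h1 : (3 * b a) ^ D a ≤ B a := by
      have := lt_pS (b a) (D a)
      omega
    show Min.min (B a) ((3 * b a) ^ D a) + 2 + ((range (Min.min (B a) ((3 * b a) ^ D a) + 1)).filter fun i =>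
      ∀ j < i + 1, ¬ (Min.min (B a) ((3 * b a) ^ D a) + 2 + j).Prime).card = pS (b a) (D a)
    rw [min_eq_right h1]
    unfold pS
    congr 2
    refine filter_congr fun i _ => ?_
    simp only [Nat.lt_succ_iff]

end Pool.Agent.PSM
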