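import Pool.Agent.PSM.EEq
import Pool.Agent.PSM.SizeE
import Pool.Agent.PSM.NestE
import Pool.Agent.PSM.Parse

/-!
# Linear space against cellular automata: the automaton with the number `e` on the word with the number `x` (helper3)

* `E.powA`, `E.cpowA`, `E.enA`: powers and numbers with digits in a fixed base;
* `stA`: the start states of a number of letters;
* **`meB k g B e n x`**: the value of the quantifiers in front of the automaton with the number `e` on the word `x` of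
  length `n`, all sizes cut at `B`; `E.meB`, `meB_le`, **`meB_eq`**, **`meB_word`**.
-/

set_option autoImplicit false

open Finset

namespace Pool.Agent.PSM

/-! ### membership -/

section E

variable {α : Type} [Ctx α]

/-- a fixed power -/
theorem E.powA {f : α → ℕ} (hf : E f) (c : ℕ) : E fun a => f a ^ c := by
  induction c with
  | zero => exact (E.const 1).ext fun a => by rw [pow_zero]
  | succ c ih => exact (ih.mul hf).ext fun a => by rw [pow_succ]

theorem le_powA {N n : ℕ} (h : 2 ^ n ≤ N) (C : ℕ) : C ^ n ≤ N ^ C := by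
  calc C ^ n ≤ (2 ^ C) ^ n := Nat.pow_le_pow_left (Nat.lt_two_pow_self).le n
    _ = (2 ^ n) ^ C := by rw [← pow_mul, ← pow_mul, mul_comm]
    _ ≤ N ^ C := Nat.pow_le_pow_left h C

/-- powers of a fixed number -/
theorem E.cpowA {n N : α → ℕ} (hn : E n) (hN : E N) (hb : ∀ a, 2 ^ n a ≤ N a) (C : ℕ) : E fun a => C ^ n a :=
  (E.powB (hN.powA C) (E.const C) hn).ext fun a => min_eq_right (le_powA (hb a) C)

/-- numbers with bounded digits in a fixed base -/
theorem E.enA {n N R : α → ℕ} {r : ℕ → α → ℕ} (hn : E n) (hN : E N) (hb : ∀ a, 2 ^ n a ≤ N a) (hR : E R)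
    (hr : E fun w : ℕ × α => r w.1 w.2) (hrR : ∀ a, ∀ i < n a, r i a ≤ R a) (C : ℕ) :
    E fun a => en C (n a) fun i => r i a := by
  have h1 : E fun w : ℕ × α => r w.1 w.2 * Min.min (N w.2 ^ C) (C ^ w.1) :=
    hr.mul (E.powB (E.snd (hN.powA C)) (E.const C) E.fst)
  have h2 := E.sumB (B := fun a => N a * (R a * N a ^ C)) (y := n)
    (F := fun i a => r i a * Min.min (N a ^ C) (C ^ i)) (hN.mul (hR.mul (hN.powA C))) hn h1
  refine h2.ext fun a => ?_
  have h3 : ∀ i < n a, C ^ i ≤ N a ^ C := fun i hi =>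
    le_powA ((Nat.pow_le_pow_right (by norm_num) hi.le).trans (hb a)) C
  have h4 : ∑ i ∈ range (n a), r i a * Min.min (N a ^ C) (C ^ i) = en C (n a) fun i => r i a := by
    unfold en
    refine Finset.sum_congr rfl fun i hi => ?_
    rw [min_eq_right (h3 i (Finset.mem_range.1 hi))]
  rw [h4]
  refine min_eq_right ?_
  unfold en
  calc ∑ i ∈ range (n a), r i a * C ^ i ≤ ∑ _i ∈ range (n a), R a * N a ^ C :=
        Finset.sum_le_sum fun i hi => Nat.mul_le_mul (hrR a i (Finset.mem_range.1 hi))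
          (h3 i (Finset.mem_range.1 hi))
    _ = n a * (R a * N a ^ C) := by rw [Finset.sum_const, Finset.card_range, smul_eq_mul]
    _ ≤ N a * (R a * N a ^ C) := Nat.mul_le_mul_right _ ((Nat.lt_two_pow_self).le.trans (hb a))

end E

/-! ### the start states of a number of letters -/

/-- the start states of the number `z` -/
def stA (k g n z : ℕ) (i : ℕ) : ℕ := if i < n then 3 * (1 + Min.min (2 * g ^ k) (dg (2 * g ^ k) i z)) else 0

lemma stA_lt {k g q : ℕ} (h : 3 * (1 + 2 * g ^ k) < q) (n z i : ℕ) : stA k g n z i < q := by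
  have h1 := min_le_left (2 * g ^ k) (dg (2 * g ^ k) i z)
  unfold stA
  split_ifs <;> omega

lemma stA_lwd {k g n : ℕ} (x : Fin n → Bool) (y : Fin k → Fin n → Fin g) :
    stA k g n (lwd x y) = stw fun i => (x i, fun j => y j i) := by
  funext i
  unfold stA stw
  by_cases h : i < n
  · rw [if_pos h, dif_pos h, dg_lwd x y ⟨i, h⟩, min_eq_right (ltr_lt _ _).le]
  · rw [if_neg h, dif_neg h]

/-! ### the automaton of a number -/

/-- dimension -/
def dimX (e : ℕ) : ℕ := fv e + 1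

/-- number of states -/
def qX (e : ℕ) : ℕ := fv (fr e)

/-- the quantifiers -/
def cX (j e : ℕ) : ℕ := dg 3 j (fv (fr (fr e)))

/-- the table -/
def tbX (e : ℕ) : ℕ := fv (fr (fr (fr e)))

lemma qv_leA (c G m : ℕ) : qv c G m ≤ 1 := by
  unfold qv
  split_ifs <;> simp

lemma nestZ_leA (c : ℕ → ℕ) (G g k n : ℕ) {P : ℕ → ℕ} (hP : ∀ z, P z ≤ 1) (r j z : ℕ) :
    nestZ c G g k n P r j z ≤ 1 := by
  cases r with
  | zero => exact hP z
  | succ r => exact qv_leA _ _ _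

/-- the value of the simulation on the word `x` -/
def meZ (k g e n x : ℕ) : ℕ :=
  nestZ (fun j => cX j e) (g ^ n) g k n (fun z => Min.min 1 (simN (dimX e) (qX e) (tbX e) (bS n (qX e) (dimX e))
    (hS n (dimX e)) (pS (bS n (qX e) (dimX e)) (dimX e)) n (stA k g n z))) k 0 (en (2 * g ^ k) n fun i => dg 2 i x)

lemma pow_log_leA (B : ℕ) : 2 ^ Nat.log 2 B ≤ B + 1 := by
  rcases Nat.eq_zero_or_pos B with h | h
  · subst h
    simp
  · exact (Nat.pow_log_le_self 2 h.ne').trans (Nat.le_succ _)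

lemma dg_two_addA {i n : ℕ} (h : i < n) (x : ℕ) : dg 2 i (x + 2 ^ n) = dg 2 i x := by
  obtain ⟨c, rfl⟩ : ∃ c, n = i + 1 + c := ⟨n - (i + 1), by omega⟩
  have h1 : x + 2 ^ (i + 1 + c) = x + 2 ^ i * (2 * 2 ^ c) := by ring
  unfold dg
  rw [h1, Nat.add_mul_div_left _ _ (by positivity), Nat.add_mul_mod_self_left]

theorem exists_meB (k g : ℕ) : ∃ me : ℕ → ℕ → ℕ → ℕ → ℕ,
    (E fun v : ℕ × ℕ × ℕ × ℕ × Unit => me v.1 v.2.1 v.2.2.1 v.2.2.2.1) ∧ (∀ B e n x, me B e n x ≤ 1) ∧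
    (∀ B e n x, me B e n (x + 2 ^ n) = me B e n x) ∧
    ∀ B e n x, 1 ≤ bS n (qX e) (dimX e) → 1 ≤ hS n (dimX e) → 1 ≤ qX e → 2 ^ n ≤ B →
      Big B (dimX e) (qX e) (bS n (qX e) (dimX e)) (hS n (dimX e)) (pS (bS n (qX e) (dimX e)) (dimX e)) n →
      me B e n x = meZ k g e n x := by
  classical
  -- context `a = (B, e, n, ())`
  have eB : E fun a : ℕ × ℕ × ℕ × Unit => a.1 := E.fst
  have ee : E fun a : ℕ × ℕ × ℕ × Unit => a.2.1 := E.snd E.fst
  have e3 : E fun a : ℕ × ℕ × ℕ × Unit => a.2.2.1 := E.snd (E.snd E.fst)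
  have en : E fun a : ℕ × ℕ × ℕ × Unit => Min.min a.2.2.1 (Nat.log 2 a.1) := e3.min (E_log2 eB)
  have eN : E fun a : ℕ × ℕ × ℕ × Unit => a.1 + 1 := eB.inc
  have hb2 : ∀ a : ℕ × ℕ × ℕ × Unit, 2 ^ Min.min a.2.2.1 (Nat.log 2 a.1) ≤ a.1 + 1 := fun a =>
    (Nat.pow_le_pow_right (by norm_num) (min_le_right _ _)).trans (pow_log_leA a.1)
  have eD : E fun a : ℕ × ℕ × ℕ × Unit => dimX a.2.1 := ee.fv.inc
  have eq : E fun a : ℕ × ℕ × ℕ × Unit => qX a.2.1 := ee.fr.fv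
  have ec : ∀ j, E fun a : ℕ × ℕ × ℕ × Unit => cX j a.2.1 := fun j => E.dg (E.const 3) (E.const j) ee.fr.fr.fv
  have eT : E fun a : ℕ × ℕ × ℕ × Unit => tbX a.2.1 := ee.fr.fr.fr.fv
  have ebS : E fun a : ℕ × ℕ × ℕ × Unit => bS (Min.min a.2.2.1 (Nat.log 2 a.1)) (qX a.2.1) (dimX a.2.1) :=
    E_bS en eq eD
  have ehS : E fun a : ℕ × ℕ × ℕ × Unit => hS (Min.min a.2.2.1 (Nat.log 2 a.1)) (dimX a.2.1) := E_hS en eD
  obtain ⟨pF, epF, hpF⟩ := E_pS eB ebS eD
  -- the simulation over the context `(z, a)`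
  obtain ⟨F, eF, hF1, hF⟩ := E_sim (B := fun w : ℕ × ℕ × ℕ × ℕ × Unit => w.2.1) (D := fun w => dimX w.2.2.1)
    (q := fun w => qX w.2.2.1) (T := fun w => tbX w.2.2.1)
    (b := fun w => bS (Min.min w.2.2.2.1 (Nat.log 2 w.2.1)) (qX w.2.2.1) (dimX w.2.2.1))
    (h := fun w => hS (Min.min w.2.2.2.1 (Nat.log 2 w.2.1)) (dimX w.2.2.1)) (p := fun w => pF w.2)
    (n := fun w => Min.min w.2.2.2.1 (Nat.log 2 w.2.1))
    (st := fun i w => stA k g (Min.min w.2.2.2.1 (Nat.log 2 w.2.1)) w.1 i)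
    (E.snd eB) (E.snd eD) (E.snd eq) (E.snd eT) (E.snd ebS) (E.snd ehS) (E.snd epF) (E.snd en) (by
      have e1 : E fun v : ℕ × ℕ × ℕ × ℕ × ℕ × Unit =>
          if v.1 < Min.min v.2.2.2.2.1 (Nat.log 2 v.2.2.1) then 1 else 0 := E.lt E.fst (E.snd (E.snd en))
      have e2 : E fun v : ℕ × ℕ × ℕ × ℕ × ℕ × Unit =>
          3 * (1 + Min.min (2 * g ^ k) (dg (2 * g ^ k) v.1 v.2.1)) :=
        (E.const 3).mul ((E.const 1).add ((E.const (2 * g ^ k)).min
          (E.dg (E.const (2 * g ^ k)) E.fst (E.snd E.fst))))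
      exact E.ite e1 e2 (E.const 0))
  -- context `v = (B, e, n, x, ())`
  have hG : ∀ i < Ctx.len (ℕ × ℕ × ℕ × Unit),
      E fun v : ℕ × ℕ × ℕ × ℕ × Unit => Ctx.get ((v.1, v.2.1, v.2.2.1, ()) : ℕ × ℕ × ℕ × Unit) i := by
    intro i hi
    rcases i with _ | _ | _ | i
    · exact E.fst
    · exact E.snd E.fst
    · exact E.snd (E.snd E.fst)
    · exact absurd hi (by show ¬ i + 1 + 1 + 1 < 3; omega)
  have lift : ∀ {f : ℕ × ℕ × ℕ × Unit → ℕ}, E f →
      E fun v : ℕ × ℕ × ℕ × ℕ × Unit => f (v.1, v.2.1, v.2.2.1, ()) := fun hf => E.comp hG hf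
  have hG' : ∀ i < Ctx.len (ℕ × ℕ × ℕ × ℕ × Unit),
      E fun v : ℕ × ℕ × ℕ × ℕ × ℕ × Unit =>
        Ctx.get ((v.1, v.2.1, v.2.2.1, v.2.2.2.1, ()) : ℕ × ℕ × ℕ × ℕ × Unit) i := by
    intro i hi
    rcases i with _ | _ | _ | _ | i
    · exact E.fst
    · exact E.snd E.fst
    · exact E.snd (E.snd E.fst)
    · exact E.snd (E.snd (E.snd E.fst))
    · exact absurd hi (by show ¬ i + 1 + 1 + 1 + 1 < 4; omega)
  have eF' : E fun v : ℕ × ℕ × ℕ × ℕ × ℕ × Unit => F (v.1, v.2.1, v.2.2.1, v.2.2.2.1, ()) := E.comp hG' eF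
  have ex : E fun v : ℕ × ℕ × ℕ × ℕ × Unit =>
      PSM.en (2 * g ^ k) (Min.min v.2.2.1 (Nat.log 2 v.1)) fun i => dg 2 i v.2.2.2.1 :=
    E.enA (N := fun v : ℕ × ℕ × ℕ × ℕ × Unit => v.1 + 1) (R := fun _ => 1) (lift en) (lift eN)
      (fun v => hb2 (v.1, v.2.1, v.2.2.1, ())) (E.const 1) (r := fun i v => dg 2 i v.2.2.2.1)
      (E.dg (E.const 2) E.fst (E.snd (E.snd (E.snd (E.snd E.fst)))))
      (fun a i _ => Nat.le_of_lt_succ (dg_lt (by norm_num) i _)) _
  have eNest : E fun v : ℕ × ℕ × ℕ × ℕ × Unit => nestZ (fun j => cX j v.2.1)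
      (g ^ Min.min v.2.2.1 (Nat.log 2 v.1)) g k (Min.min v.2.2.1 (Nat.log 2 v.1))
      (fun z => F (z, v.1, v.2.1, v.2.2.1, ())) k 0
      (PSM.en (2 * g ^ k) (Min.min v.2.2.1 (Nat.log 2 v.1)) fun i => dg 2 i v.2.2.2.1) :=
    E_nest k g (c := fun j v => cX j v.2.1) (N := fun v : ℕ × ℕ × ℕ × ℕ × Unit => v.1 + 1)
      (P := fun z v => F (z, v.1, v.2.1, v.2.2.1, ())) (fun j => lift (ec j)) (lift en) (lift eN)
      (fun v => hb2 (v.1, v.2.1, v.2.2.1, ())) ex eF'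
  refine ⟨fun B e n x => nestZ (fun j => cX j e) (g ^ Min.min n (Nat.log 2 B)) g k (Min.min n (Nat.log 2 B))
    (fun z => F (z, B, e, n, ())) k 0 (PSM.en (2 * g ^ k) (Min.min n (Nat.log 2 B)) fun i => dg 2 i x),
    eNest, fun B e n x => nestZ_leA _ _ _ _ _ (fun z => hF1 _) _ _ _, ?_, ?_⟩
  · intro B e n x
    have h1 : (PSM.en (2 * g ^ k) (Min.min n (Nat.log 2 B)) fun i => dg 2 i (x + 2 ^ n)) =
        PSM.en (2 * g ^ k) (Min.min n (Nat.log 2 B)) fun i => dg 2 i x :=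
      en_congr fun i hi => dg_two_addA (lt_of_lt_of_le hi (min_le_left _ _)) x
    simp only [h1]
  intro B e n x hb hh hq hnB hBig
  have hB0 : B ≠ 0 := (lt_of_lt_of_le (by positivity) hnB).ne'
  have hn : Min.min n (Nat.log 2 B) = n := min_eq_left (Nat.le_log_of_pow_le (by norm_num) hnB)
  have hp2 : 2 ≤ pS (bS n (qX e) (dimX e)) (dimX e) := (pS_prime _ _).two_le
  have hpB : pS (bS n (qX e) (dimX e)) (dimX e) ≤ B := by
    refine le_trans (Nat.le_self_pow ?_ _) hBig.pw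
    have : 0 < (3 ^ dimX e + 1) * bS n (qX e) (dimX e) ^ dimX e * qX e := by positivity
    omega
  have h3B : 3 ^ dimX e + 1 ≤ B := by
    refine le_trans ?_ hBig.hw
    calc 3 ^ dimX e + 1 ≤ pS (bS n (qX e) (dimX e)) (dimX e) * (3 ^ dimX e + 1) :=
          Nat.le_mul_of_pos_left _ (by omega)
      _ ≤ _ := Nat.le_self_pow (by omega) _
  have hpF' : pF (B, e, n, ()) = pS (bS n (qX e) (dimX e)) (dimX e) := by
    rw [hpF (B, e, n, ())]
    · show pS (bS (Min.min n (Nat.log 2 B)) (qX e) (dimX e)) (dimX e) = _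
      rw [hn]
    · show pS (bS (Min.min n (Nat.log 2 B)) (qX e) (dimX e)) (dimX e) ≤ B
      rw [hn]
      exact hpB
  have hFz : ∀ z, F (z, B, e, n, ()) = Min.min 1 (simN (dimX e) (qX e) (tbX e) (bS n (qX e) (dimX e))
      (hS n (dimX e)) (pS (bS n (qX e) (dimX e)) (dimX e)) n (stA k g n z)) := by
    intro z
    have h1 := hF (z, B, e, n, ())
    simp only [hn, hpF'] at h1
    exact h1 (by omega) (by omega) hp2 h3B hBig
  simp only [hn, hFz]
  rfl

/-- **the automaton with the number `e` on the word `x` of length `n`, sizes cut at `B`** -/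
noncomputable def meB (k g : ℕ) : ℕ → ℕ → ℕ → ℕ → ℕ := Classical.choose (exists_meB k g)

theorem meB_le (k g B e n x : ℕ) : meB k g B e n x ≤ 1 := (Classical.choose_spec (exists_meB k g)).2.1 B e n x

theorem meB_eq {k g B e n x : ℕ} (hb : 1 ≤ bS n (qX e) (dimX e)) (hh : 1 ≤ hS n (dimX e)) (hq : 1 ≤ qX e)
    (hnB : 2 ^ n ≤ B)
    (hB : Big B (dimX e) (qX e) (bS n (qX e) (dimX e)) (hS n (dimX e)) (pS (bS n (qX e) (dimX e)) (dimX e)) n) :
    meB k g B e n x = meZ k g e n x :=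
  (Classical.choose_spec (exists_meB k g)).2.2.2 B e n x hb hh hq hnB hB

/-- only the lowest `n` digits of `x` are read -/
theorem meB_add (k g B e n x : ℕ) : meB k g B e n (x + 2 ^ n) = meB k g B e n x :=
  (Classical.choose_spec (exists_meB k g)).2.2.1 B e n x

theorem E.meB {α : Type} [Ctx α] {B e n x : α → ℕ} (hB : E B) (he : E e) (hn : E n) (hx : E x) (k g : ℕ) :
    E fun v => PSM.meB k g (B v) (e v) (n v) (x v) := by
  have h := (Classical.choose_spec (exists_meB k g)).1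
  refine E.comp (G := fun v : α => ((B v, e v, n v, x v, ()) : ℕ × ℕ × ℕ × ℕ × Unit)) ?_ h
  intro i hi
  rcases i with _ | _ | _ | _ | i
  · exact hB
  · exact he
  · exact hn
  · exact hx
  · exact absurd hi (by show ¬ i + 1 + 1 + 1 + 1 < 4; omega)

/-- **`meB` gives the value of the quantifiers** if the simulation gives the value of the automaton -/
theorem meB_word {k g B e n X : ℕ} (x : Fin n → Bool) (hX : ∀ i : Fin n, dg 2 i X = (x i).toNat)
    {D q T b h p : ℕ} {R : Fin k → Quant} (hD : fv e + 1 = D) (hq : fv (fr e) = q)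
    (hR : ∀ i : Fin k, dg 3 i (fv (fr (fr e))) = qc (R i)) (hT : fv (fr (fr (fr e))) = T)
    (hb : b = bS n q D) (hh : h = hS n D) (hp : p = pS b D) (hb1 : 1 ≤ b) (hh1 : 1 ≤ h) (hq1 : 1 ≤ q)
    (hnB : 2 ^ n ≤ B) (hB : Big B D q b h p n) {S : (Fin k → Fin n → Fin g) → Prop}
    (hS : ∀ y, Min.min 1 (simN D q T b h p n (stw fun i => (x i, fun j => y j i))) = 1 ↔ S y) :
    meB k g B e n X = 1 ↔ nest k R S := by
  have hD' : dimX e = D := hD
  have hq' : qX e = q := hq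
  have hT' : tbX e = T := hT
  have hx : (en (2 * g ^ k) n fun i => dg 2 i X) = xwd g k x := by
    unfold xwd
    refine en_congr fun i hi => ?_
    rw [dif_pos hi]
    exact hX ⟨i, hi⟩
  rw [meB_eq (by rw [hD', hq', ← hb]; exact hb1) (by rw [hD', ← hh]; exact hh1) (by rw [hq']; exact hq1) hnB
    (by rw [hD', hq', ← hb, ← hh, ← hp]; exact hB)]
  unfold meZ
  rw [hx, hD', hq', hT', ← hb, ← hh, ← hp]
  refine (nest_eq R x (fun i => hR i) fun y => ?_).symm
  rw [stA_lwd]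
  exact hS y

end Pool.Agent.PSM
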