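import Pool.Agent.PSM.MainA
import Pool.Agent.PSM.GameE

/-!
# Linear space against cellular automata: quantifiers, then a game (helper3)

* **`meG k g B e n x`**: the value of `k` quantifiers on words and a game with `n` rounds in front of the automaton with
  the number `e` on the word `x` of length `n`, all sizes cut at `B`; `E.meG`, `meG_le`, `meG_add`, **`meG_word`**.
-/

set_option autoImplicit false

open Finset

namespace Pool.Agent.PSM

/-- the value on the word `x` -/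
def meGZ (k g e n x : ℕ) : ℕ :=
  nestZ (fun j => cX j e) (g ^ n) g (k + 2) n (fun z => gmV g n fun m => Min.min 1 (simN (dimX e) (qX e) (tbX e)
    (bS n (qX e) (dimX e)) (hS n (dimX e)) (pS (bS n (qX e) (dimX e)) (dimX e)) n
    (stA (k + 2) g n (z + spr g k n m)))) k 0 (en (2 * g ^ (k + 2)) n fun i => dg 2 i x)

theorem exists_meG (k g : ℕ) : ∃ me : ℕ → ℕ → ℕ → ℕ → ℕ,
    (E fun v : ℕ × ℕ × ℕ × ℕ × Unit => me v.1 v.2.1 v.2.2.1 v.2.2.2.1) ∧ (∀ B e n x, me B e n x ≤ 1) ∧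
    (∀ B e n x, me B e n (x + 2 ^ n) = me B e n x) ∧
    ∀ B e n x, 1 ≤ bS n (qX e) (dimX e) → 1 ≤ hS n (dimX e) → 1 ≤ qX e → 2 ^ n ≤ B →
      Big B (dimX e) (qX e) (bS n (qX e) (dimX e)) (hS n (dimX e)) (pS (bS n (qX e) (dimX e)) (dimX e)) n →
      me B e n x = meGZ k g e n x := by
  classical
  -- context `a = (B, e, n, ())`
  have eB : E fun a : ℕ × ℕ × ℕ × Unit => a.1 := E.fst
  have ee : E fun a : ℕ × ℕ × ℕ × Unit => a.2.1 := E.snd E.fst
  have e3 : E fun a : ℕ × ℕ × ℕ × Unit => a.2.2.1 := E.snd (E.snd E.fst)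
  have en : E fun a : ℕ × ℕ × ℕ × Unit => Min.min a.2.2.1 (Nat.log 2 a.1) := e3.min (E_log2 eB)
  have eN : E fun a : ℕ × ℕ × ℕ × Unit => a.1 + 1 := eB.inc
  have hb2 : ∀ a : ℕ × ℕ × ℕ × Unit, 2 ^ Min.min a.2.2.1 (Nat.log 2 a.1) ≤ a.1 + 1 := fun a =>
    (Nat.pow_le_pow_right (by norm_num) (min_le_right _ _)).trans (pow_log_leA a.1)
  have eD : E fun a : ℕ × ℕ × ℕ × Unit => dimX a.2.1 := ee.fv.inc
  have eq : E fun a : ℕ × ℕ × ℕ × Unit => qX a.2.1 := ee.fr.fv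
  have ec : ∀ j, E fun a : ℕ × ℕ × ℕ × Unit => cX j a.2.1 := fun j => E.dg (E.const 3) (E.const j) ee.fr.fr.fv
  have eT : E fun a : ℕ × ℕ × ℕ × Unit => tbX a.2.1 := ee.fr.fr.fr.fv
  have ebS : E fun a : ℕ × ℕ × ℕ × Unit => bS (Min.min a.2.2.1 (Nat.log 2 a.1)) (qX a.2.1) (dimX a.2.1) :=
    E_bS en eq eD
  have ehS : E fun a : ℕ × ℕ × ℕ × Unit => hS (Min.min a.2.2.1 (Nat.log 2 a.1)) (dimX a.2.1) := E_hS en eD
  obtain ⟨pF, epF, hpF⟩ := E_pS eB ebS eD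
  -- the simulation over the context `(z, a)`
  obtain ⟨F, eF, hF1, hF⟩ := E_sim (B := fun w : ℕ × ℕ × ℕ × ℕ × Unit => w.2.1) (D := fun w => dimX w.2.2.1)
    (q := fun w => qX w.2.2.1) (T := fun w => tbX w.2.2.1)
    (b := fun w => bS (Min.min w.2.2.2.1 (Nat.log 2 w.2.1)) (qX w.2.2.1) (dimX w.2.2.1))
    (h := fun w => hS (Min.min w.2.2.2.1 (Nat.log 2 w.2.1)) (dimX w.2.2.1)) (p := fun w => pF w.2)
    (n := fun w => Min.min w.2.2.2.1 (Nat.log 2 w.2.1))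
    (st := fun i w => stA (k + 2) g (Min.min w.2.2.2.1 (Nat.log 2 w.2.1)) w.1 i)
    (E.snd eB) (E.snd eD) (E.snd eq) (E.snd eT) (E.snd ebS) (E.snd ehS) (E.snd epF) (E.snd en) (by
      have e1 : E fun v : ℕ × ℕ × ℕ × ℕ × ℕ × Unit =>
          if v.1 < Min.min v.2.2.2.2.1 (Nat.log 2 v.2.2.1) then 1 else 0 := E.lt E.fst (E.snd (E.snd en))
      have e2 : E fun v : ℕ × ℕ × ℕ × ℕ × ℕ × Unit =>
          3 * (1 + Min.min (2 * g ^ (k + 2)) (dg (2 * g ^ (k + 2)) v.1 v.2.1)) :=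
        (E.const 3).mul ((E.const 1).add ((E.const (2 * g ^ (k + 2))).min
          (E.dg (E.const (2 * g ^ (k + 2))) E.fst (E.snd E.fst))))
      exact E.ite e1 e2 (E.const 0))
  -- context `v = (B, e, n, x, ())`
  have hG : ∀ i < Ctx.len (ℕ × ℕ × ℕ × Unit),
      E fun v : ℕ × ℕ × ℕ × ℕ × Unit => Ctx.get ((v.1, v.2.1, v.2.2.1, ()) : ℕ × ℕ × ℕ × Unit) i := by
    intro i hi
    rcases i with _ | _ | _ | i
    · exact E.fst
    · exact E.snd E.fst
    · exact E.snd (E.snd E.fst)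
    · exact absurd hi (by show ¬ i + 1 + 1 + 1 < 3; omega)
  have lift : ∀ {f : ℕ × ℕ × ℕ × Unit → ℕ}, E f →
      E fun v : ℕ × ℕ × ℕ × ℕ × Unit => f (v.1, v.2.1, v.2.2.1, ()) := fun hf => E.comp hG hf
  -- the simulation over the context `(m, z, B, e, n, x, ())`, start letters `z + spr m`
  have eS : E fun v : ℕ × ℕ × ℕ × ℕ × ℕ × ℕ × Unit =>
      spr g k (Min.min v.2.2.2.2.1 (Nat.log 2 v.2.2.1)) v.1 :=
    E.spr g k (n := fun v : ℕ × ℕ × ℕ × ℕ × ℕ × ℕ × Unit => Min.min v.2.2.2.2.1 (Nat.log 2 v.2.2.1))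
      (N := fun v => v.2.2.1 + 1) (E.snd (E.snd (lift en))) (E.snd (E.snd (lift eN)))
      (fun v => hb2 (v.2.2.1, v.2.2.2.1, v.2.2.2.2.1, ())) E.fst
  have eP : E fun v : ℕ × ℕ × ℕ × ℕ × ℕ × ℕ × Unit =>
      F (v.2.1 + spr g k (Min.min v.2.2.2.2.1 (Nat.log 2 v.2.2.1)) v.1, v.2.2.1, v.2.2.2.1, v.2.2.2.2.1, ()) := by
    refine E.comp (G := fun v : ℕ × ℕ × ℕ × ℕ × ℕ × ℕ × Unit =>
      ((v.2.1 + spr g k (Min.min v.2.2.2.2.1 (Nat.log 2 v.2.2.1)) v.1, v.2.2.1, v.2.2.2.1, v.2.2.2.2.1, ()) :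
        ℕ × ℕ × ℕ × ℕ × Unit)) ?_ eF
    intro i hi
    rcases i with _ | _ | _ | _ | i
    · exact (E.snd E.fst).add eS
    · exact E.snd (E.snd E.fst)
    · exact E.snd (E.snd (E.snd E.fst))
    · exact E.snd (E.snd (E.snd (E.snd E.fst)))
    · exact absurd hi (by show ¬ i + 1 + 1 + 1 + 1 < 4; omega)
  have eg : E fun w : ℕ × ℕ × ℕ × ℕ × ℕ × Unit =>
      gmV g (Min.min w.2.2.2.1 (Nat.log 2 w.2.1)) fun m =>
        F (w.1 + spr g k (Min.min w.2.2.2.1 (Nat.log 2 w.2.1)) m, w.2.1, w.2.2.1, w.2.2.2.1, ()) :=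
    E_gmV g (n := fun w : ℕ × ℕ × ℕ × ℕ × ℕ × Unit => Min.min w.2.2.2.1 (Nat.log 2 w.2.1))
      (N := fun w => w.2.1 + 1) (P := fun m w =>
        F (w.1 + spr g k (Min.min w.2.2.2.1 (Nat.log 2 w.2.1)) m, w.2.1, w.2.2.1, w.2.2.2.1, ()))
      (E.snd (lift en)) (E.snd (lift eN)) (fun w => hb2 (w.2.1, w.2.2.1, w.2.2.2.1, ())) eP fun m w => hF1 _
  have ex : E fun v : ℕ × ℕ × ℕ × ℕ × Unit =>
      PSM.en (2 * g ^ (k + 2)) (Min.min v.2.2.1 (Nat.log 2 v.1)) fun i => dg 2 i v.2.2.2.1 :=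
    E.enA (N := fun v : ℕ × ℕ × ℕ × ℕ × Unit => v.1 + 1) (R := fun _ => 1) (lift en) (lift eN)
      (fun v => hb2 (v.1, v.2.1, v.2.2.1, ())) (E.const 1) (r := fun i v => dg 2 i v.2.2.2.1)
      (E.dg (E.const 2) E.fst (E.snd (E.snd (E.snd (E.snd E.fst)))))
      (fun a i _ => Nat.le_of_lt_succ (dg_lt (by norm_num) i _)) _
  have eNest : E fun v : ℕ × ℕ × ℕ × ℕ × Unit => nestZ (fun j => cX j v.2.1)
      (g ^ Min.min v.2.2.1 (Nat.log 2 v.1)) g (k + 2) (Min.min v.2.2.1 (Nat.log 2 v.1))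
      (fun z => gmV g (Min.min v.2.2.1 (Nat.log 2 v.1)) fun m =>
        F (z + spr g k (Min.min v.2.2.1 (Nat.log 2 v.1)) m, v.1, v.2.1, v.2.2.1, ())) k 0
      (PSM.en (2 * g ^ (k + 2)) (Min.min v.2.2.1 (Nat.log 2 v.1)) fun i => dg 2 i v.2.2.2.1) :=
    E_nestB g (k + 2) k 0 (c := fun j v => cX j v.2.1)
      (n := fun v : ℕ × ℕ × ℕ × ℕ × Unit => Min.min v.2.2.1 (Nat.log 2 v.1))
      (P := fun z v => gmV g (Min.min v.2.2.1 (Nat.log 2 v.1)) fun m =>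
        F (z + spr g k (Min.min v.2.2.1 (Nat.log 2 v.1)) m, v.1, v.2.1, v.2.2.1, ()))
      (fun j => lift (ec j)) (lift en) ex eg
      (Bd.constPow (N := fun v : ℕ × ℕ × ℕ × ℕ × Unit => v.1 + 1) (lift eN).bd
        (fun v => hb2 (v.1, v.2.1, v.2.2.1, ())) g)
      (Bd.constPow (N := fun v : ℕ × ℕ × ℕ × ℕ × Unit => v.1 + 1) (lift eN).bd
        (fun v => hb2 (v.1, v.2.1, v.2.2.1, ())) (2 * g ^ (k + 2)))
  refine ⟨fun B e n x => nestZ (fun j => cX j e) (g ^ Min.min n (Nat.log 2 B)) g (k + 2) (Min.min n (Nat.log 2 B))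
    (fun z => gmV g (Min.min n (Nat.log 2 B)) fun m => F (z + spr g k (Min.min n (Nat.log 2 B)) m, B, e, n, ()))
    k 0 (PSM.en (2 * g ^ (k + 2)) (Min.min n (Nat.log 2 B)) fun i => dg 2 i x),
    eNest, fun B e n x => nestZ_leA _ _ _ _ _ (fun z => gmV_le fun m => hF1 _) _ _ _, ?_, ?_⟩
  · intro B e n x
    have h1 : (PSM.en (2 * g ^ (k + 2)) (Min.min n (Nat.log 2 B)) fun i => dg 2 i (x + 2 ^ n)) =
        PSM.en (2 * g ^ (k + 2)) (Min.min n (Nat.log 2 B)) fun i => dg 2 i x :=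
      en_congr fun i hi => dg_two_addA (lt_of_lt_of_le hi (min_le_left _ _)) x
    simp only [h1]
  intro B e n x hb hh hq hnB hBig
  have hB0 : B ≠ 0 := (lt_of_lt_of_le (by positivity) hnB).ne'
  have hn : Min.min n (Nat.log 2 B) = n := min_eq_left (Nat.le_log_of_pow_le (by norm_num) hnB)
  have hp2 : 2 ≤ pS (bS n (qX e) (dimX e)) (dimX e) := (pS_prime _ _).two_le
  have hpB : pS (bS n (qX e) (dimX e)) (dimX e) ≤ B := by
    refine le_trans (Nat.le_self_pow ?_ _) hBig.pw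
    have : 0 < (3 ^ dimX e + 1) * bS n (qX e) (dimX e) ^ dimX e * qX e := by positivity
    omega
  have h3B : 3 ^ dimX e + 1 ≤ B := by
    refine le_trans ?_ hBig.hw
    calc 3 ^ dimX e + 1 ≤ pS (bS n (qX e) (dimX e)) (dimX e) * (3 ^ dimX e + 1) :=
          Nat.le_mul_of_pos_left _ (by omega)
      _ ≤ _ := Nat.le_self_pow (by omega) _
  have hpF' : pF (B, e, n, ()) = pS (bS n (qX e) (dimX e)) (dimX e) := by
    rw [hpF (B, e, n, ())]
    · show pS (bS (Min.min n (Nat.log 2 B)) (qX e) (dimX e)) (dimX e) = _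
      rw [hn]
    · show pS (bS (Min.min n (Nat.log 2 B)) (qX e) (dimX e)) (dimX e) ≤ B
      rw [hn]
      exact hpB
  have hFz : ∀ z, F (z, B, e, n, ()) = Min.min 1 (simN (dimX e) (qX e) (tbX e) (bS n (qX e) (dimX e))
      (hS n (dimX e)) (pS (bS n (qX e) (dimX e)) (dimX e)) n (stA (k + 2) g n z)) := by
    intro z
    have h1 := hF (z, B, e, n, ())
    simp only [hn, hpF'] at h1
    exact h1 (by omega) (by omega) hp2 h3B hBig
  simp only [hn, hFz]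
  rfl

/-- **`k` quantifiers on words and a game with `n` rounds in front of the automaton with the number `e`, on the word
`x` of length `n`, sizes cut at `B`** -/
noncomputable def meG (k g : ℕ) : ℕ → ℕ → ℕ → ℕ → ℕ := Classical.choose (exists_meG k g)

theorem meG_le (k g B e n x : ℕ) : meG k g B e n x ≤ 1 := (Classical.choose_spec (exists_meG k g)).2.1 B e n x

/-- only the lowest `n` digits of `x` are read -/
theorem meG_add (k g B e n x : ℕ) : meG k g B e n (x + 2 ^ n) = meG k g B e n x :=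
  (Classical.choose_spec (exists_meG k g)).2.2.1 B e n x

theorem meG_eq {k g B e n x : ℕ} (hb : 1 ≤ bS n (qX e) (dimX e)) (hh : 1 ≤ hS n (dimX e)) (hq : 1 ≤ qX e)
    (hnB : 2 ^ n ≤ B)
    (hB : Big B (dimX e) (qX e) (bS n (qX e) (dimX e)) (hS n (dimX e)) (pS (bS n (qX e) (dimX e)) (dimX e)) n) :
    meG k g B e n x = meGZ k g e n x :=
  (Classical.choose_spec (exists_meG k g)).2.2.2 B e n x hb hh hq hnB hB

theorem E.meG {α : Type} [Ctx α] {B e n x : α → ℕ} (hB : E B) (he : E e) (hn : E n) (hx : E x) (k g : ℕ) :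
    E fun v => PSM.meG k g (B v) (e v) (n v) (x v) := by
  have h := (Classical.choose_spec (exists_meG k g)).1
  refine E.comp (G := fun v : α => ((B v, e v, n v, x v, ()) : ℕ × ℕ × ℕ × ℕ × Unit)) ?_ h
  intro i hi
  rcases i with _ | _ | _ | _ | i
  · exact hB
  · exact he
  · exact hn
  · exact hx
  · exact absurd hi (by show ¬ i + 1 + 1 + 1 + 1 < 4; omega)

/-- **`meG` gives the value of the quantifiers and the game** if the simulation gives the value of the automaton -/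
theorem meG_word {k g B e n X : ℕ} (x : Fin n → Bool) (hX : ∀ i : Fin n, dg 2 i X = (x i).toNat)
    {D q T b h p : ℕ} {R : Fin k → Quant} (hD : fv e + 1 = D) (hq : fv (fr e) = q)
    (hR : ∀ i : Fin k, dg 3 i (fv (fr (fr e))) = qc (R i)) (hT : fv (fr (fr (fr e))) = T)
    (hb : b = bS n q D) (hh : h = hS n D) (hp : p = pS b D) (hb1 : 1 ≤ b) (hh1 : 1 ≤ h) (hq1 : 1 ≤ q)
    (hnB : 2 ^ n ≤ B) (hB : Big B D q b h p n)
    {S : (Fin k → Fin n → Fin g) → (Fin n → Fin g) → (Fin n → Fin g) → Prop}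
    (hS : ∀ y u v, Min.min 1 (simN D q T b h p n (stw fun i => (x i, fun j =>
      (Fin.snoc (Fin.snoc y u) v : Fin (k + 2) → Fin n → Fin g) j i))) = 1 ↔ S y u v) :
    meG k g B e n X = 1 ↔ nest k R fun y => game n fun u v => S y u v := by
  have hD' : dimX e = D := hD
  have hq' : qX e = q := hq
  have hT' : tbX e = T := hT
  have hx : (en (2 * g ^ (k + 2)) n fun i => dg 2 i X) = xwd g (k + 2) x := by
    unfold xwd
    refine en_congr fun i hi => ?_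
    rw [dif_pos hi]
    exact hX ⟨i, hi⟩
  rw [meG_eq (by rw [hD', hq', ← hb]; exact hb1) (by rw [hD', ← hh]; exact hh1) (by rw [hq']; exact hq1) hnB
    (by rw [hD', hq', ← hb, ← hh, ← hp]; exact hB)]
  unfold meGZ
  rw [hx, hD', hq', hT', ← hb, ← hh, ← hp]
  refine (nest_game_eq R x (P := fun z => Min.min 1 (simN D q T b h p n (stA (k + 2) g n z)))
    (fun i => hR i) (fun z => min_le_left _ _) fun y u v => ?_).symm
  rw [stA_lwd]
  exact hS y u v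

end Pool.Agent.PSM
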