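import Pool.Agent.PSM.Main
import Pool.Agent.PSM.MainG

/-!
# Linear space against cellular automata: the main theorem with games

* **`mainT`**: one language in linear space on which cellular automata of all dimensions with quantifiers and games in
  front fail.
-/

set_option autoImplicit false

open Finset

namespace Pool.Agent.PSM

variable {d k g n : ℕ} {Q : Type}

/-- the automaton on letters with `k + 2` tracks -/
def CA.tr (M : CA (d + 1) (Bool × (Fin k → Fin g) × Fin g × Fin g) Q) :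
    CA (d + 1) (Bool × (Fin (k + 2) → Fin g)) Q where
  blank := M.blank
  inp a := M.inp (a.1, (fun j => a.2 j.castSucc.castSucc), a.2 (Fin.last k).castSucc, a.2 (Fin.last (k + 1)))
  rule := M.rule
  out := M.out

theorem CA.result_tr (M : CA (d + 1) (Bool × (Fin k → Fin g) × Fin g × Fin g) Q) (T : ℕ) (x : Fin n → Bool)
    (y : Fin k → Fin n → Fin g) (u v : Fin n → Fin g) (b : Bool) :
    M.tr.Result T (fun i => (x i, fun j => (Fin.snoc (Fin.snoc y u) v : Fin (k + 2) → Fin n → Fin g) j i)) b ↔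
      M.Result T (fun i => (x i, (fun j => y j i), u i, v i)) b := by
  have h : M.tr.start (fun i => (x i, fun j => (Fin.snoc (Fin.snoc y u) v : Fin (k + 2) → Fin n → Fin g) j i)) =
      M.start (fun i => (x i, (fun j => y j i), u i, v i)) := by
    funext z
    unfold CA.start CA.tr
    simp only [Fin.snoc_castSucc, Fin.snoc_last]
  unfold CA.Result CA.origin
  rw [h]
  rfl

/-- the automaton as a number, without a condition on the time -/
theorem code2 {d : ℕ} {Q : Type} [Fintype Q] (M : CA (d + 1) (Bool × (Fin k → Fin g)) Q) :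
    ∃ E : ℕ, E < sc k g (Fintype.card Q) ^ (sc k g (Fintype.card Q) ^ (3 ^ (d + 1))) ∧
      ∀ (n : ℕ) (w : Fin n → Bool × (Fin k → Fin g)) (T : ℕ),
        evZ (sc k g (Fintype.card Q)) E (stZ (d := d) n (stw w)) (T + 1) 0 % 3 = 1 ↔ M.Result T w true := by
  refine ⟨tbc M, tbc_lt M, fun n w T => ?_⟩
  show cfc M w (T + 1) 0 % 3 = 1 ↔ _
  rcases flag_iff M w (T + 1) 0 with ⟨h1, h2⟩ | ⟨s, hs, b, h1, h2, h3⟩
  · rw [h1]
    constructor
    · intro h
      omega
    · rintro ⟨s, hs, o, -⟩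
      have o' : M.out (stt M w s 0) = some true := o
      rw [h2 s (by omega)] at o'
      exact absurd o' (by simp)
  · rw [h3]
    constructor
    · intro h
      cases b with
      | false => exact absurd h (by decide)
      | true => exact ⟨s, by omega, h1, h2⟩
    · rintro ⟨s', hs', o', n'⟩
      have o'' : M.out (stt M w s' 0) = some true := o'
      have n'' : ∀ s < s', M.out (stt M w s 0) = none := n'
      have hss : s' = s := by
        rcases lt_trichotomy s' s with h | h | h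
        · rw [h2 s' h] at o''
          exact absurd o'' (by simp)
        · exact h
        · rw [n'' s h] at h1
          exact absurd h1 (by simp)
      subst hss
      rw [h1] at o''
      have hb := Option.some.inj o''
      subst hb
      rfl

open Classical in
/-- **the main theorem with games** -/
theorem mainT (k g : ℕ) : ∃ L : Set (List Bool), LinSpace L ∧ ∀ d : ℕ, ∃ C : ℕ, ∀ (n : ℕ) (Q : Type) [Fintype Q]
    (M : CA (d + 1) (Bool × (Fin k → Fin g) × Fin g × Fin g) Q) (R : Fin k → Quant) (T : ℕ),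
    C * Fintype.card Q ^ (3 ^ (d + 1) + 1) ≤ n →
    T ^ (d + 1) * (C * Fintype.card Q * Nat.log 2 n) ^ (d + 2) ≤ n ^ (d + 2) →
    2 * (univ.filter fun x : Fin n → Bool => Solves M R T x (List.ofFn x ∈ L)).card ≤ 2 ^ n + 2 ^ (n - n / 8) := by
  have hEm : ∀ {α : Type} [Ctx α] {B e n x : α → ℕ}, E B → E e → E n → E x →
      E fun v => meG k g (B v) (e v) (n v) (x v) := fun hB he hn hx => E.meG hB he hn hx k g
  refine ⟨{x | fL (meG k g) 1 (num x) = 1}, linSpace_of (f := fun a => fL (meG k g) 1 a.1) (E_fL hEm 1)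
    fun _ => fL_le _ _ _, fun d => ?_⟩
  obtain ⟨C, hC1, hC⟩ := size (d + 1) (3 * (2 + 2 * g ^ (k + 2))) (by omega)
  obtain ⟨A, hA⟩ : ∃ A, A = 8 * (2 * d + 6 * k + 20) * (3 * (2 + 2 * g ^ (k + 2))) ^ (3 ^ (d + 1) + 1) := ⟨_, rfl⟩
  refine ⟨C + A, fun n Q _ M R T hn hT => ?_⟩
  have hQ : 1 ≤ Fintype.card Q := Fintype.card_pos_iff.2 ⟨M.blank⟩
  obtain ⟨q, hq⟩ : ∃ q, q = sc (k + 2) g (Fintype.card Q) := ⟨_, rfl⟩
  have hqc : q ≤ 3 * (2 + 2 * g ^ (k + 2)) * Fintype.card Q := hq ▸ sc_le (k + 2) g hQ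
  have hq2 : 2 ≤ q := by
    rw [hq]
    unfold sc
    omega
  have hnC : C * Fintype.card Q ^ (3 ^ (d + 1) + 1) ≤ n := le_trans (Nat.mul_le_mul_right _ (by omega)) hn
  have hnA : A * Fintype.card Q ^ (3 ^ (d + 1) + 1) ≤ n := le_trans (Nat.mul_le_mul_right _ (by omega)) hn
  obtain ⟨hBig, hb1, hh1, hn2, -, hTb⟩ := hC n (Fintype.card Q) q hQ hq2 hqc hnC
  have hT1 : T < bS n q (d + 1) * hS n (d + 1) := by
    refine hTb T (le_trans ?_ hT)
    exact Nat.mul_le_mul_left _ (Nat.pow_le_pow_left (Nat.mul_le_mul_right _ (Nat.mul_le_mul_right _ (by omega))) _)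
  obtain ⟨E0, hE0, hcode⟩ := code2 M.tr
  rw [← hq] at hE0 hcode
  obtain ⟨u, hu, hv⟩ := header ![d, q, en 3 k (fun i => if h : i < k then qc (R ⟨i, h⟩) else 0), E0]
  have hqc3 : ∀ i < k, (if h : i < k then qc (R ⟨i, h⟩) else 0) < 3 := by
    intro i hi
    rw [dif_pos hi]
    cases R ⟨i, hi⟩ <;> decide
  obtain ⟨v0, v1, v2, v3, -⟩ := hv []
  rw [List.append_nil] at v0 v1 v2 v3
  have hlen : u.length + 1 ≤ n / 8 := by
    have h1 := hdr_len (d := d) (k := k) hE0 hq2 (en_lt hqc3)
    have h2 : u.length + 1 ≤ 2 * ((Nat.log 2 d + 1) + (Nat.log 2 q + 1) +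
        (Nat.log 2 (en 3 k (fun i => if h : i < k then qc (R ⟨i, h⟩) else 0)) + 1) + (Nat.log 2 E0 + 1)) + 5 := by
      rw [Fin.sum_univ_four] at hu
      simp only [Matrix.cons_val] at hu
      omega
    have h3 : q ^ (3 ^ (d + 1) + 1) ≤ (3 * (2 + 2 * g ^ (k + 2))) ^ (3 ^ (d + 1) + 1) *
        Fintype.card Q ^ (3 ^ (d + 1) + 1) := by
      rw [← mul_pow]
      exact Nat.pow_le_pow_left hqc _
    rw [Nat.le_div_iff_mul_le (by omega)]
    calc (u.length + 1) * 8 ≤ ((2 * d + 6 * k + 20) * q ^ (3 ^ (d + 1) + 1)) * 8 :=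
          Nat.mul_le_mul_right _ (h2.trans h1)
      _ ≤ ((2 * d + 6 * k + 20) * ((3 * (2 + 2 * g ^ (k + 2))) ^ (3 ^ (d + 1) + 1) *
          Fintype.card Q ^ (3 ^ (d + 1) + 1))) * 8 :=
          Nat.mul_le_mul_right _ (Nat.mul_le_mul_left _ h3)
      _ = A * Fintype.card Q ^ (3 ^ (d + 1) + 1) := by rw [hA]; ring
      _ ≤ n := hnA
  have he : num u < 2 ^ (n / 8) := (num_lt u).trans_le (Nat.pow_le_pow_right (by omega) hlen)
  refine le_trans (Nat.mul_le_mul_left 2 (card_le_card ?_))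
    (count_fL (m := meG k g) (c := 1) (fun _ _ _ _ => meG_le _ _ _ _ _ _) (fun _ _ _ _ => meG_add _ _ _ _ _ _)
      (n := n) (e := num u) (by omega) he)
  intro x hx
  rw [mem_filter] at hx ⊢
  refine ⟨mem_univ _, ?_⟩
  obtain ⟨hres, hnest⟩ := hx.2
  have hp := pS_prime (bS n q (d + 1)) (d + 1)
  have hkey : meG k g ((2 ^ n) ^ 1) (num u) n (num (List.ofFn x)) = 1 ↔
      nest k R (fun y : Fin k → Fin n → Fin g => game n fun u v =>
        M.Result T (fun i => (x i, (fun j => y j i), u i, v i)) true) := by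
    refine meG_word (D := d + 1) (q := q) (T := E0) (R := R) x (num_dgFn x) (by rw [v0]; rfl) (by rw [v1]; rfl)
      (fun i => ?_) (by rw [v3]; rfl) rfl rfl rfl hb1 hh1 (by omega) (by rw [pow_one]) (by rw [pow_one]; exact hBig)
      fun y u v => ?_
    · rw [v2]
      show dg 3 i (en 3 k _) = _
      rw [dg_en hqc3 i.2, dif_pos i.2]
    · obtain ⟨T', hT'⟩ : ∃ T', bS n q (d + 1) * hS n (d + 1) = T' + 1 := ⟨bS n q (d + 1) * hS n (d + 1) - 1, by omega⟩
      have hTT : M.Result T' (fun i => (x i, (fun j => y j i), u i, v i)) true ↔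
          M.Result T (fun i => (x i, (fun j => y j i), u i, v i)) true := by
        constructor
        · intro h
          rcases hres y u v with h' | h'
          · exact h'
          · exact absurd h (h' T')
        · rintro ⟨t, ht, h⟩
          exact ⟨t, by omega, h⟩
      rw [simN_eq hp (lt_pS _ _) hb1 (by omega) fun i => hq ▸ stw_lt _ _ i, ← hTT, ← CA.result_tr,
        ← hcode n _ T', hT']
      split_ifs <;> simp_all
  have h1 : fL (meG k g) 1 (num (List.ofFn x)) = 1 ↔ meG k g ((2 ^ n) ^ 1) (num u) n (num (List.ofFn x)) = 1 :=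
    (hkey.trans hnest).symm
  have h2 : meG k g ((2 ^ n) ^ 1) (num u) n (num (List.ofFn x)) ≤ 1 := meG_le _ _ _ _ _ _
  have h3 : fL (meG k g) 1 (num (List.ofFn x)) ≤ 1 := fL_le _ _ _
  omega

end Pool.Agent.PSM
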