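import Pool.Agent.PSM.Code

/-!
# Linear space against cellular automata: the quantifiers on numbers (helper3)

* `qc`: the number of a quantifier; `qv`: its value from the count; `upd`: add the letters of `y_j`;
* `nestZ`: the quantifiers by counting over the numbers below `g ^ n`;
* **`nest_eq`**: `nest` and `nestZ` agree.
-/

set_option autoImplicit false

open Finset

namespace Pool.Agent.PSM

/-- the number of a quantifier -/
def qc : Quant → ℕ
  | Quant.ex => 0
  | Quant.all => 1
  | Quant.most => 2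

/-- the value of the quantifier with the number `c` if `cnt` of `G` objects have the property -/
def qv (c G cnt : ℕ) : ℕ :=
  if c = 0 then (if 1 ≤ cnt then 1 else 0) else if c = 1 then (if cnt = G then 1 else 0)
  else (if G < 2 * cnt then 1 else 0)

/-- add the letters of the word with the number `y` at the place `j` -/
def upd (g k n j z y : ℕ) : ℕ := z + 2 * g ^ j * en (2 * g ^ k) n (fun i => dg g i y)

/-- `r` quantifiers (numbers `c j`, `c (j + 1)`, ..) in front of `P`, over the numbers below `G` -/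
def nestZ (c : ℕ → ℕ) (G g k n : ℕ) (P : ℕ → ℕ) : (r : ℕ) → (j : ℕ) → ℕ → ℕ
  | 0, _, z => P z
  | r + 1, j, z =>
    qv (c j) G (#{y ∈ range G | nestZ c G g k n P r (j + 1) (upd g k n j z y) = 1})

variable {k g n : ℕ}

/-- the number of the letters of `(x, y)` -/
def lwd (x : Fin n → Bool) (y : Fin k → Fin n → Fin g) : ℕ :=
  en (2 * g ^ k) n fun i => if h : i < n then ltr (x ⟨i, h⟩) (fun j => y j ⟨i, h⟩) else 0

/-- the number of the word `x` in base `2 g ^ k` -/
def xwd (g k : ℕ) (x : Fin n → Bool) : ℕ :=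
  en (2 * g ^ k) n fun i => if h : i < n then (x ⟨i, h⟩).toNat else 0

lemma en_eq_sum (a : ℕ) (r : ℕ → ℕ) (s : Fin n → ℕ) (h : ∀ i : Fin n, r i = s i) :
    en a n r = ∑ i : Fin n, s i * a ^ (i : ℕ) := by
  unfold en
  rw [Finset.sum_range]
  exact Finset.sum_congr rfl fun i _ => by rw [h]

open Classical in
lemma holds_iff {α : Type} [Fintype α] (q : Quant) (P : α → Prop) :
    q.Holds P ↔ qv (qc q) (Fintype.card α) (Finset.univ.filter P).card = 1 := by
  cases q with
  | ex =>
    simp only [Quant.Holds, qc, qv, if_true]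
    constructor
    · rintro ⟨a, ha⟩
      have : 0 < (Finset.univ.filter P).card := Finset.card_pos.2 ⟨a, by simpa using ha⟩
      rw [if_pos (by omega)]
    · intro h
      split_ifs at h with h1
      obtain ⟨a, ha⟩ := Finset.card_pos.1 (Nat.lt_of_succ_le h1)
      exact ⟨a, (Finset.mem_filter.1 ha).2⟩
  | all =>
    simp only [Quant.Holds, qc, qv, one_ne_zero, if_false, if_true]
    constructor
    · intro h
      rw [Finset.filter_true_of_mem fun a _ => h a, Finset.card_univ, if_pos rfl]
    · intro h a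
      split_ifs at h with h1
      rw [← Finset.card_univ] at h1
      have h2 := Finset.eq_of_subset_of_card_le (Finset.filter_subset P Finset.univ) h1.ge
      have h3 : a ∈ Finset.univ.filter P := by
        rw [h2]
        exact Finset.mem_univ a
      exact (Finset.mem_filter.1 h3).2
  | most =>
    simp only [Quant.Holds, qc, qv, OfNat.ofNat_ne_zero, OfNat.ofNat_ne_one, if_false]
    by_cases h : Fintype.card α < 2 * (Finset.univ.filter P).card <;> simp [h]

/-- the count over functions is the count over numbers -/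
lemma card_num (S : (Fin n → Fin g) → Prop) (T : ℕ → Prop) [DecidablePred S] [DecidablePred T]
    (h : ∀ a : Fin n → Fin g, S a ↔ T (finFunctionFinEquiv a : ℕ)) :
    (Finset.univ.filter S).card = #{y ∈ range (g ^ n) | T y} := by
  refine Finset.card_bij (fun a _ => (finFunctionFinEquiv a : ℕ)) ?_ ?_ ?_
  · intro a ha
    rw [Finset.mem_filter, Finset.mem_range]
    exact ⟨(finFunctionFinEquiv a).2, (h a).1 (Finset.mem_filter.1 ha).2⟩
  · intro a _ b _ hab
    exact finFunctionFinEquiv.injective (Fin.ext hab)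
  · intro y hy
    rw [Finset.mem_filter, Finset.mem_range] at hy
    refine ⟨finFunctionFinEquiv.symm ⟨y, hy.1⟩, ?_, ?_⟩
    · rw [Finset.mem_filter]
      refine ⟨Finset.mem_univ _, (h _).2 ?_⟩
      rw [Equiv.apply_symm_apply]
      exact hy.2
    · rw [Equiv.apply_symm_apply]

lemma dg_fun (a : Fin n → Fin g) (i : Fin n) : dg g i (finFunctionFinEquiv a : ℕ) = a i := by
  have h := congrArg Fin.val (congrFun (finFunctionFinEquiv.symm_apply_apply a) i)
  rw [← h]
  rfl

/-- the sum of the letters of `y` from the place `j` on -/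
def adl (K j : ℕ) {r : ℕ} (y : Fin r → Fin n → Fin g) : ℕ :=
  ∑ i : Fin r, 2 * g ^ (j + (i : ℕ)) * (∑ t : Fin n, (y i t : ℕ) * (2 * g ^ K) ^ (t : ℕ))

lemma upd_eq (K j z : ℕ) (a : Fin n → Fin g) :
    upd g K n j z (finFunctionFinEquiv a : ℕ) =
      z + 2 * g ^ j * (∑ t : Fin n, (a t : ℕ) * (2 * g ^ K) ^ (t : ℕ)) := by
  unfold upd
  rw [en_eq_sum _ _ (fun t => (a t : ℕ)) (fun i => dg_fun a i)]

lemma adl_cons (K j : ℕ) {r : ℕ} (a : Fin n → Fin g) (y : Fin r → Fin n → Fin g) :
    adl K j (Fin.cons a y : Fin (r + 1) → Fin n → Fin g) =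
      2 * g ^ j * (∑ t : Fin n, (a t : ℕ) * (2 * g ^ K) ^ (t : ℕ)) + adl K (j + 1) y := by
  unfold adl
  rw [Fin.sum_univ_succ]
  simp only [Fin.cons_zero, Fin.val_zero, add_zero, Fin.cons_succ, Fin.val_succ]
  congr 1
  refine Finset.sum_congr rfl fun i _ => ?_
  rw [show j + ((i : ℕ) + 1) = j + 1 + i by ring]

lemma nestZ_iff (c : ℕ → ℕ) (K : ℕ) (P : ℕ → ℕ) : ∀ (r j z : ℕ) (R : Fin r → Quant)
    (S : (Fin r → Fin n → Fin g) → Prop), (∀ i : Fin r, c (j + i) = qc (R i)) →
    (∀ y, P (z + adl K j y) = 1 ↔ S y) → (nest r R S ↔ nestZ c (g ^ n) g K n P r j z = 1) := by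
  classical
  intro r
  induction r with
  | zero =>
    intro j z R S _ hP
    have h := hP Fin.elim0
    simp only [adl, Finset.univ_eq_empty, Finset.sum_empty, add_zero] at h
    exact h.symm
  | succ r ih =>
    intro j z R S hc hP
    have h1 : ∀ a : Fin n → Fin g, (nest r (fun i => R i.succ) (fun y => S (Fin.cons a y)) ↔
        nestZ c (g ^ n) g K n P r (j + 1) (upd g K n j z (finFunctionFinEquiv a : ℕ)) = 1) := by
      intro a
      refine ih (j + 1) _ _ _ (fun i => ?_) fun y => ?_
      · have := hc i.succ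
        rw [Fin.val_succ] at this
        rw [← this]
        congr 1
        ring
      · rw [← hP (Fin.cons a y), upd_eq, adl_cons, ← add_assoc]
    have h2 : Fintype.card (Fin n → Fin g) = g ^ n := by
      rw [Fintype.card_fun, Fintype.card_fin, Fintype.card_fin]
    have h3 := hc 0
    rw [Fin.val_zero, add_zero] at h3
    unfold nest nestZ
    rw [holds_iff, h2, h3, card_num _ (fun y => nestZ c (g ^ n) g K n P r (j + 1) (upd g K n j z y) = 1) h1]

lemma lwd_eq (x : Fin n → Bool) (y : Fin k → Fin n → Fin g) : lwd x y = xwd g k x + adl k 0 y := by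
  unfold lwd xwd adl
  rw [en_eq_sum _ _ (fun i : Fin n => ltr (x i) fun j => y j i) (fun i => by simp),
    en_eq_sum _ _ (fun i : Fin n => (x i).toNat) (fun i => by simp)]
  have h1 : ∀ i : Fin k, 2 * g ^ (0 + (i : ℕ)) * (∑ t : Fin n, (y i t : ℕ) * (2 * g ^ k) ^ (t : ℕ)) =
      ∑ t : Fin n, (2 * ((y i t : ℕ) * g ^ (i : ℕ))) * (2 * g ^ k) ^ (t : ℕ) := by
    intro i
    rw [Finset.mul_sum]
    refine Finset.sum_congr rfl fun t _ => ?_
    rw [zero_add]
    ring
  simp only [h1]
  rw [Finset.sum_comm, ← Finset.sum_add_distrib]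
  refine Finset.sum_congr rfl fun t _ => ?_
  unfold ltr
  rw [← Finset.sum_mul, ← Finset.mul_sum, ← add_mul]

/-- **the quantifiers on numbers** -/
theorem nest_eq {c : ℕ → ℕ} {P : ℕ → ℕ} (R : Fin k → Quant) (x : Fin n → Bool)
    {S : (Fin k → Fin n → Fin g) → Prop} (hc : ∀ i : Fin k, c i = qc (R i))
    (hP : ∀ y : Fin k → Fin n → Fin g, P (lwd x y) = 1 ↔ S y) :
    nest k R S ↔ nestZ c (g ^ n) g k n P k 0 (xwd g k x) = 1 := by
  refine nestZ_iff c k P k 0 _ R S (fun i => ?_) fun y => ?_
  · rw [zero_add]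
    exact hc i
  · rw [← lwd_eq]
    exact hP y

/-- the letters are the digits of `lwd` -/
theorem dg_lwd (x : Fin n → Bool) (y : Fin k → Fin n → Fin g) (i : Fin n) :
    dg (2 * g ^ k) i (lwd x y) = ltr (x i) fun j => y j i := by
  have h1 : lwd x y = (finFunctionFinEquiv (fun t : Fin n =>
      (⟨ltr (x t) fun j => y j t, ltr_lt _ _⟩ : Fin (2 * g ^ k))) : ℕ) := by
    unfold lwd
    rw [en_eq_sum _ _ (fun t : Fin n => ltr (x t) fun j => y j t) (fun t => by simp),
      finFunctionFinEquiv_apply]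
  rw [h1, dg_fun]

end Pool.Agent.PSM
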