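import Pool.Agent.PSM.RExp

/-!
# Histories as words over `{0, 1}`: the halves of a block
-/

set_option autoImplicit false

namespace Pool.Agent.PSM

/-- first half of the block `p` -/
def Loc.fb (A : Loc) (w : List Bool) (p : ℕ) : Fin A.ℓ → Bool := fun j => w.getD (2 * A.ℓ * p + j) false

/-- second half of the block `p` -/
def Loc.sb (A : Loc) (w : List Bool) (p : ℕ) : Fin A.ℓ → Bool := fun j => w.getD (2 * A.ℓ * p + A.ℓ + j) false

end Pool.Agent.PSM
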