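import Pool.Agent.PSM.CADefs

/-!
# Regular expressions as input of cellular automata: definitions

* `str r`: the regular expression `r` over `{0, 1}` as a word over the seven symbols `∅, ε, 0, 1, +, ·, *` (numbered
  `0, .., 6`), Polish notation;
* **`Answers M T r`**: the automaton `M` answers correctly, within `T` steps, whether `r` generates all words.
-/

set_option autoImplicit false

namespace Pool.Agent.PSM

/-- a regular expression as a word over the symbols `∅, ε, 0, 1, +, ·, *` (numbered `0, .., 6`), Polish notation -/
def str : RegularExpression Bool → List (Fin 7)
  | .zero => [0]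
  | .epsilon => [1]
  | .char b => [if b then 3 else 2]
  | .plus P Q => 4 :: (str P ++ str Q)
  | .comp P Q => 5 :: (str P ++ str Q)
  | .star P => 6 :: str P

/-- **`M` answers correctly, within `T` steps, whether `r` generates all words**: it accepts `r` within `T` steps or
never, and it accepts exactly if every word over `{0, 1}` matches `r` -/
def Answers {d : ℕ} {Q : Type} (M : CA (d + 1) (Fin 7) Q) (T : ℕ) (r : RegularExpression Bool) : Prop :=
  (M.Result T (str r).get true ∨ ∀ t : ℕ, ¬ M.Result t (str r).get true) ∧
    (M.Result T (str r).get true ↔ ∀ w : List Bool, w ∈ r.matches')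

end Pool.Agent.PSM
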