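import Pool.Agent.PSM.RDefs

/-!
# Histories of bounded automata as regular expressions: definitions

* `Loc`: a bounded one-dimensional automaton with the symbols `{0, 1} ^ ℓ` and the boundary symbol `hash`; `Loc.row`;
  `Loc.H`: all rows, one after the other (period `n + 1`);
* `Loc.R x`: the regular expression for all words over `{0, 1}` which are not an accepting history of the automaton on
  `x`. A history is a sequence of blocks of `2 ℓ` letters, the block `p` is `(H p, H (p + n + 1))`.
-/

set_option autoImplicit false

namespace Pool.Agent.PSM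

/-- bounded automata with the symbols `{0, 1} ^ ℓ` -/
structure Loc where
  ℓ : ℕ
  hash : Fin ℓ → Bool
  f : (Fin ℓ → Bool) → (Fin ℓ → Bool) → (Fin ℓ → Bool) → (Fin ℓ → Bool)
  i0 : Bool → (Fin ℓ → Bool)
  acc : (Fin ℓ → Bool) → Bool
  hℓ : 0 < ℓ
  hf : ∀ a c, f a hash c = hash
  ha : acc hash = false

/-- the symbol at the place `z` (place `0`: boundary, place `i + 1`: cell `i`, places above `n`: boundary), time `t` -/
def Loc.row (A : Loc) {n : ℕ} (x : Fin n → Bool) : ℕ → ℕ → (Fin A.ℓ → Bool)
  | 0, z => if h : 1 ≤ z ∧ z - 1 < n then A.i0 (x ⟨z - 1, h.2⟩) else A.hash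
  | t + 1, z => A.f (A.row x t (z - 1)) (A.row x t z) (A.row x t (z + 1))

/-- all rows, one after the other -/
def Loc.H (A : Loc) {n : ℕ} (x : Fin n → Bool) (p : ℕ) : Fin A.ℓ → Bool := A.row x (p / (n + 1)) (p % (n + 1))

/-! ### pieces of expressions -/

/-- one letter -/
def sg : RegularExpression Bool := .plus (.char false) (.char true)

/-- all words -/
def al : RegularExpression Bool := .star sg

/-- `k` letters, then `r` -/
def anyN : ℕ → RegularExpression Bool → RegularExpression Bool
  | 0, r => r
  | k + 1, r => .comp sg (anyN k r)

/-- at most `k` letters, then `r` -/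
def optN : ℕ → RegularExpression Bool → RegularExpression Bool
  | 0, r => r
  | k + 1, r => .comp (.plus .epsilon sg) (optN k r)

/-- `k + 1` letters -/
def blkE : ℕ → RegularExpression Bool
  | 0 => sg
  | k + 1 => .comp sg (blkE k)

/-- `n` times `B`, then `r` -/
def repN (B : RegularExpression Bool) : ℕ → RegularExpression Bool → RegularExpression Bool
  | 0, r => r
  | n + 1, r => .comp B (repN B n r)

/-- the word `l`, then `r` -/
def wdN : List Bool → RegularExpression Bool → RegularExpression Bool
  | [], r => r
  | b :: l, r => .comp (.char b) (wdN l r)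

/-- all words which are empty, or begin with the wrong letter, or with `β` and then `r` -/
def bitN (β : Bool) (r : RegularExpression Bool) : RegularExpression Bool :=
  .plus (.plus .epsilon (.comp (.char (!β)) al)) (.comp (.char β) r)

/-- the same for the letters of `l` -/
def bitsN : List Bool → RegularExpression Bool → RegularExpression Bool
  | [], r => r
  | b :: l, r => bitN b (bitsN l r)

/-- all words with less than `k` letters, or `k` letters and then `r` -/
def freesN : ℕ → RegularExpression Bool → RegularExpression Bool
  | 0, r => r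
  | k + 1, r => .plus .epsilon (.comp sg (freesN k r))

/-- the sum of a list -/
def sumE : List (RegularExpression Bool) → RegularExpression Bool
  | [] => .zero
  | r :: l => .plus r (sumE l)

/-! ### the expression -/

namespace Loc

variable (A : Loc)

/-- a block of `2 ℓ` letters -/
def B2 : RegularExpression Bool := blkE (2 * A.ℓ - 1)

/-- the blocks of the letters of `x` -/
def blksN : List Bool → RegularExpression Bool → RegularExpression Bool
  | [], r => r
  | b :: l, r => bitsN (List.ofFn (A.i0 b)) (freesN A.ℓ (blksN l r))

/-- the beginning is not the word `x` -/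
def initE {n : ℕ} (x : Fin n → Bool) : RegularExpression Bool :=
  bitsN (List.ofFn A.hash) (bitsN (List.ofFn A.hash) (A.blksN (List.ofFn x) .zero))

/-- the second half of a block is not the first half of the block `n + 1` places later -/
def copyE (n : ℕ) : RegularExpression Bool :=
  .comp (.star A.B2) (anyN A.ℓ (optN (A.ℓ - 1) (.plus
    (.comp (.char false) (repN A.B2 n (anyN (A.ℓ - 1) (.comp (.char true) al))))
    (.comp (.char true) (repN A.B2 n (anyN (A.ℓ - 1) (.comp (.char false) al)))))))

/-- the list of the wrong windows: `(a, b, c, d)` with `d ≠ f a b c` -/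
noncomputable def wrong : List ((Fin A.ℓ → Bool) × (Fin A.ℓ → Bool) × (Fin A.ℓ → Bool) × (Fin A.ℓ → Bool)) :=
  (Finset.univ.filter fun w : (Fin A.ℓ → Bool) × (Fin A.ℓ → Bool) × (Fin A.ℓ → Bool) × (Fin A.ℓ → Bool) =>
    w.2.2.2 ≠ A.f w.1 w.2.1 w.2.2.1).toList

/-- three blocks `(a, _), (b, d), (c, _)` with `d ≠ f a b c` -/
noncomputable def locE : RegularExpression Bool :=
  .comp (.star A.B2) (sumE (A.wrong.map fun w => wdN (List.ofFn w.1) (anyN A.ℓ (wdN (List.ofFn w.2.1)
    (wdN (List.ofFn w.2.2.2) (wdN (List.ofFn w.2.2.1) al))))))

/-- the first half of every block is not accepting -/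
noncomputable def noaccE : RegularExpression Bool :=
  .star (sumE (((Finset.univ.filter fun a : Fin A.ℓ → Bool => A.acc a = false).toList).map fun a =>
    wdN (List.ofFn a) (blkE (A.ℓ - 1))))

/-- the number of letters is not a multiple of `2 ℓ` -/
def badE : RegularExpression Bool := .comp (.star A.B2) (.comp sg (optN (2 * A.ℓ - 2) .epsilon))

/-- **all words which are not an accepting history on `x`** -/
noncomputable def R {n : ℕ} (x : Fin n → Bool) : RegularExpression Bool :=
  .plus (A.initE x) (.plus (A.copyE n) (.plus A.locE (.plus A.noaccE A.badE)))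

end Loc

end Pool.Agent.PSM
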