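import Pool.Agent.PSM.Parse

/-!
# Fields of a number by their index
-/

set_option autoImplicit false

namespace Pool.Agent.PSM

/-- the field `i` of the number `e` -/
def fld (i e : ℕ) : ℕ := fv (fr^[i] e)

theorem fld_zero (e : ℕ) : fld 0 e = fv e := rfl

theorem fld_succ (i e : ℕ) : fld (i + 1) e = fld i (fr e) := rfl

theorem fld_le (i e : ℕ) : fld i e ≤ e := by
  induction i generalizing e with
  | zero => exact fv_le e
  | succ i ih => exact (ih (fr e)).trans (fr_le e)

theorem E.fld {α : Type} [Ctx α] {e : α → ℕ} (i : ℕ) (h : E e) : E fun a => PSM.fld i (e a) := by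
  induction i generalizing e with
  | zero => exact E.fv h
  | succ i ih => exact ih (E.fr h)

/-- the fields of a list of fields followed by any word -/
theorem fld_encs (v : List ℕ) (w : List Bool) (i : ℕ) (h : i < v.length) : fld i (num (encs v ++ w)) = v[i] := by
  induction v generalizing i with
  | nil => simp at h
  | cons a l ih =>
    have e : encs (a :: l) ++ w = enc a ++ (encs l ++ w) := by
      show (enc a ++ encs l) ++ w = _
      rw [List.append_assoc]
    cases i with
    | zero =>
      rw [fld_zero, e, fv_enc]
      rfl
    | succ i =>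
      rw [fld_succ, e, fr_enc, List.getElem_cons_succ]
      exact ih i (by simpa using h)

/-- **the header of a list of fields** -/
theorem headerL (v : List ℕ) : ∃ u : List Bool, u.length ≤ 2 * (v.map fun a => Nat.log 2 a + 1).sum + v.length ∧
    ∀ (i : ℕ) (h : i < v.length), fld i (num u) = v[i] := by
  refine ⟨encs v, (encs_length v).le, fun i h => ?_⟩
  have := fld_encs v [] i h
  rwa [List.append_nil] at this

/-- the header followed by any word -/
theorem headerLw (v : List ℕ) : ∃ u : List Bool, u.length ≤ 2 * (v.map fun a => Nat.log 2 a + 1).sum + v.length ∧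
    ∀ (w : List Bool) (i : ℕ) (h : i < v.length), fld i (num (u ++ w)) = v[i] :=
  ⟨encs v, (encs_length v).le, fun w i h => fld_encs v w i h⟩

end Pool.Agent.PSM
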