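import Pool.Agent.PSM.RSem
import Pool.Agent.PSM.RBlk

/-!
# No accepting block, no wrong window

* `not_noacc`: the words which `Loc.noaccE` does not generate: some block is accepting;
* `not_loc`: the words which `Loc.locE` does not generate: every window obeys the rule of the automaton.
-/

set_option autoImplicit false

namespace Pool.Agent.PSM

private theorem getD_dropB (w : List Bool) (s i : ℕ) : (w.drop s).getD i false = w.getD (s + i) false := by
  rw [List.getD_eq_getElem?_getD, List.getD_eq_getElem?_getD, List.getElem?_drop]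

/-- the word of a function, then `r` -/
private theorem mem_wdF {k : ℕ} {a : Fin k → Bool} {w : List Bool} {r : RegularExpression Bool} :
    w ∈ (wdN (List.ofFn a) r).matches' ↔
      k ≤ w.length ∧ (∀ j : Fin k, w.getD j false = a j) ∧ w.drop k ∈ r.matches' := by
  rw [mem_wdN]
  constructor
  · rintro ⟨v, hv, rfl⟩
    refine ⟨by simp, fun j => ?_, ?_⟩
    · rw [List.getD_append _ _ _ _ (by simp), List.getD_eq_getElem _ _ (by simp)]
      simp
    · rw [List.drop_left' (by simp)]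
      exact hv
  · rintro ⟨h1, h2, h3⟩
    refine ⟨w.drop k, h3, ?_⟩
    have e : w.take k = List.ofFn a := by
      apply List.ext_getElem
      · simp [h1]
      · intro i hi hi'
        have hk : i < k := by simpa using hi'
        rw [List.getElem_take, List.getElem_ofFn, ← h2 ⟨i, hk⟩, List.getD_eq_getElem _ _ (by omega)]
    rw [← e, List.take_append_drop]

/-- a block whose first half is not accepting -/
private theorem mem_noaccB (A : Loc) {u : List Bool} :
    u ∈ (sumE (((Finset.univ.filter fun a : Fin A.ℓ → Bool => A.acc a = false).toList).map fun a =>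
      wdN (List.ofFn a) (blkE (A.ℓ - 1)))).matches' ↔
      u.length = 2 * A.ℓ ∧ A.acc (fun j => u.getD j false) = false := by
  have hl := A.hℓ
  rw [mem_sumE]
  constructor
  · rintro ⟨r, hr, hu⟩
    rw [List.mem_map] at hr
    obtain ⟨a, ha, rfl⟩ := hr
    rw [Finset.mem_toList, Finset.mem_filter] at ha
    rw [mem_wdF, mem_blkE, List.length_drop] at hu
    obtain ⟨h1, h2, h3⟩ := hu
    refine ⟨by omega, ?_⟩
    rw [funext h2]
    exact ha.2
  · rintro ⟨h1, h2⟩
    refine ⟨_, List.mem_map.2 ⟨fun j => u.getD j false, ?_, rfl⟩, ?_⟩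
    · rw [Finset.mem_toList, Finset.mem_filter]
      exact ⟨Finset.mem_univ _, h2⟩
    · rw [mem_wdF, mem_blkE, List.length_drop]
      exact ⟨by omega, fun _ => rfl, by omega⟩

/-- **the words with an accepting block** -/
theorem not_noacc (A : Loc) {w : List Bool} (h : 2 * A.ℓ ∣ w.length) : w ∉ A.noaccE.matches' ↔
    ∃ p < w.length / (2 * A.ℓ), A.acc (A.fb w p) = true := by
  have hl := A.hℓ
  rw [Loc.noaccE, mem_starL (c := 2 * A.ℓ) (by omega) (fun u hu => ((mem_noaccB A).1 hu).1)]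
  obtain ⟨m, hm⟩ := h
  have hd : w.length / (2 * A.ℓ) = m := by rw [hm, Nat.mul_div_cancel_left _ (by omega)]
  rw [hd]
  have key : ∀ p < m, ((w.drop (p * (2 * A.ℓ))).take (2 * A.ℓ) ∈ (sumE (((Finset.univ.filter
      fun a : Fin A.ℓ → Bool => A.acc a = false).toList).map fun a =>
      wdN (List.ofFn a) (blkE (A.ℓ - 1)))).matches' ↔ A.acc (A.fb w p) = false) := fun p hp => by
    have h1 : 2 * A.ℓ * (p + 1) ≤ 2 * A.ℓ * m := Nat.mul_le_mul_left _ hp
    rw [Nat.mul_succ] at h1
    have h2 : p * (2 * A.ℓ) = 2 * A.ℓ * p := Nat.mul_comm _ _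
    have e : (fun j : Fin A.ℓ => ((w.drop (p * (2 * A.ℓ))).take (2 * A.ℓ)).getD j false) = A.fb w p := by
      funext j
      have hj := j.2
      rw [Loc.fb, h2, ← getD_dropB, List.getD_eq_getElem?_getD, List.getElem?_take_of_lt (by omega),
        ← List.getD_eq_getElem?_getD]
    rw [mem_noaccB, e]
    refine and_iff_right ?_
    rw [List.length_take, List.length_drop, h2]
    omega
  constructor
  · intro H
    by_contra hne
    push Not at hne
    refine H ⟨⟨m, hm⟩, fun p hp => (key p hp).2 ?_⟩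
    exact Bool.eq_false_iff.2 (hne p hp)
  · rintro ⟨p, hp, h1⟩ ⟨-, h2⟩
    have := (key p hp).1 (h2 p hp)
    rw [h1] at this
    exact absurd this (by decide)

/-- the words of `locE` -/
private theorem mem_locB (A : Loc) {w : List Bool} : w ∈ A.locE.matches' ↔
    ∃ p, 2 * A.ℓ * p + 5 * A.ℓ ≤ w.length ∧
      A.sb w (p + 1) ≠ A.f (A.fb w p) (A.fb w (p + 1)) (A.fb w (p + 2)) := by
  have hl := A.hℓ
  have hB : ∀ w, w ∈ A.B2.matches' ↔ w.length = 2 * A.ℓ := fun w => by
    rw [Loc.B2, mem_blkE]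
    omega
  have key : ∀ p (q : (Fin A.ℓ → Bool) × (Fin A.ℓ → Bool) × (Fin A.ℓ → Bool) × (Fin A.ℓ → Bool)),
      2 * A.ℓ * p ≤ w.length →
      (w.drop (2 * A.ℓ * p) ∈ (wdN (List.ofFn q.1) (anyN A.ℓ (wdN (List.ofFn q.2.1)
        (wdN (List.ofFn q.2.2.2) (wdN (List.ofFn q.2.2.1) al))))).matches' ↔
      2 * A.ℓ * p + 5 * A.ℓ ≤ w.length ∧
        q = (A.fb w p, A.fb w (p + 1), A.fb w (p + 2), A.sb w (p + 1))) := fun p q hp => by
    rw [mem_wdF, mem_anyN, mem_wdF, mem_wdF, mem_wdF]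
    simp only [List.drop_drop, List.length_drop, getD_dropB]
    have e1 : 2 * A.ℓ * (p + 1) = 2 * A.ℓ * p + A.ℓ + A.ℓ := by ring
    have e2 : 2 * A.ℓ * (p + 2) = 2 * A.ℓ * p + A.ℓ + A.ℓ + A.ℓ + A.ℓ := by ring
    constructor
    · rintro ⟨h1, h2, h3, h4, h5, h6, h7, h8, h9, -⟩
      refine ⟨by omega, ?_⟩
      refine Prod.ext (funext fun j => (h2 j).symm) (Prod.ext (funext fun j => ?_)
        (Prod.ext (funext fun j => ?_) (funext fun j => ?_)))
      · change q.2.1 j = w.getD (2 * A.ℓ * (p + 1) + j) false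
        rw [e1, ← h5 j]
      · change q.2.2.1 j = w.getD (2 * A.ℓ * (p + 2) + j) false
        rw [e2, ← h9 j]
      · change q.2.2.2 j = w.getD (2 * A.ℓ * (p + 1) + A.ℓ + j) false
        rw [e1, ← h7 j]
    · rintro ⟨h1, rfl⟩
      refine ⟨by omega, fun j => rfl, by omega, by omega, fun j => ?_, by omega, fun j => ?_, by omega, fun j => ?_,
        mem_al⟩
      · change _ = w.getD (2 * A.ℓ * (p + 1) + j) false
        rw [e1]
      · change _ = w.getD (2 * A.ℓ * (p + 1) + A.ℓ + j) false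
        rw [e1]
      · change _ = w.getD (2 * A.ℓ * (p + 2) + j) false
        rw [e2]
  rw [Loc.locE, mem_comp]
  constructor
  · rintro ⟨u, v, hu, hv, rfl⟩
    rw [mem_starB (by omega) hB] at hu
    obtain ⟨p, hp⟩ := hu
    rw [mem_sumE] at hv
    obtain ⟨r, hr, hv⟩ := hv
    rw [List.mem_map] at hr
    obtain ⟨q, hq, rfl⟩ := hr
    rw [Loc.wrong, Finset.mem_toList, Finset.mem_filter] at hq
    have e3 : v = (u ++ v).drop (2 * A.ℓ * p) := by rw [← hp, List.drop_left]
    rw [e3] at hv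
    obtain ⟨h1, h2⟩ := (key p q (by rw [List.length_append]; omega)).1 hv
    refine ⟨p, h1, ?_⟩
    have h3 := hq.2
    rw [h2] at h3
    exact h3
  · rintro ⟨p, h1, h2⟩
    refine ⟨w.take (2 * A.ℓ * p), w.drop (2 * A.ℓ * p), ?_, ?_, List.take_append_drop _ _⟩
    · rw [mem_starB (by omega) hB, List.length_take, Nat.min_eq_left (by omega)]
      exact ⟨p, rfl⟩
    · rw [mem_sumE]
      refine ⟨_, List.mem_map.2 ⟨(A.fb w p, A.fb w (p + 1), A.fb w (p + 2), A.sb w (p + 1)), ?_, rfl⟩, ?_⟩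
      · rw [Loc.wrong, Finset.mem_toList, Finset.mem_filter]
        exact ⟨Finset.mem_univ _, h2⟩
      · exact (key p _ (by omega)).2 ⟨h1, rfl⟩

/-- **the words in which every window obeys the rule** -/
theorem not_loc (A : Loc) {w : List Bool} (h : 2 * A.ℓ ∣ w.length) : w ∉ A.locE.matches' ↔
    ∀ p, p + 2 < w.length / (2 * A.ℓ) →
      A.sb w (p + 1) = A.f (A.fb w p) (A.fb w (p + 1)) (A.fb w (p + 2)) := by
  have hl := A.hℓ
  rw [mem_locB]
  obtain ⟨m, hm⟩ := h
  have hd : w.length / (2 * A.ℓ) = m := by rw [hm, Nat.mul_div_cancel_left _ (by omega)]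
  rw [hd]
  constructor
  · intro H p hp
    by_contra hne
    refine H ⟨p, ?_, hne⟩
    have h1 : 2 * A.ℓ * (p + 3) ≤ 2 * A.ℓ * m := Nat.mul_le_mul_left _ hp
    have h2 : 2 * A.ℓ * (p + 3) = 2 * A.ℓ * p + 6 * A.ℓ := by ring
    omega
  · rintro H ⟨p, h1, h2⟩
    refine h2 (H p ?_)
    by_contra h4
    have h5 : 2 * A.ℓ * m ≤ 2 * A.ℓ * (p + 2) := Nat.mul_le_mul_left _ (Nat.not_lt.1 h4)
    have h6 : 2 * A.ℓ * (p + 2) = 2 * A.ℓ * p + 4 * A.ℓ := by ring
    omega

end Pool.Agent.PSM
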