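import Pool.Agent.PSM.RSem
import Pool.Agent.PSM.RBlk

/-!
# The second half of a block is the first half of the block `n + 1` places later

`not_copy`: the words which `Loc.copyE n` does not generate.
-/

set_option autoImplicit false

namespace Pool.Agent.PSM

private theorem getD_drop' (w : List Bool) (s i : ℕ) : (w.drop s).getD i false = w.getD (s + i) false := by
  rw [List.getD_eq_getElem?_getD, List.getD_eq_getElem?_getD, List.getElem?_drop]

/-- a letter, then `r` -/
private theorem mem_ch {w : List Bool} {r : RegularExpression Bool} {b : Bool} :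
    w ∈ (RegularExpression.comp (.char b) r).matches' ↔
      1 ≤ w.length ∧ w.getD 0 false = b ∧ w.drop 1 ∈ r.matches' := by
  rw [mem_compl_char]
  constructor
  · rintro ⟨v, hv, rfl⟩
    exact ⟨by simp, by simp, by simpa using hv⟩
  · rintro ⟨h1, h2, h3⟩
    rcases w with _ | ⟨a, w⟩
    · simp at h1
    · refine ⟨w, by simpa using h3, ?_⟩
      simp only [List.getD_cons_zero] at h2
      rw [h2]

/-- the letter `b`, `n` blocks, `k` letters, the letter `c` -/
private theorem mem_tail {w : List Bool} {B : RegularExpression Bool} {m : ℕ} (n k : ℕ)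
    (hB : ∀ w, w ∈ B.matches' ↔ w.length = m) {b c : Bool} :
    w ∈ (RegularExpression.comp (.char b) (repN B n (anyN k (.comp (.char c) al)))).matches' ↔
      1 + n * m + k < w.length ∧ w.getD 0 false = b ∧ w.getD (1 + n * m + k) false = c := by
  rw [mem_ch, mem_repN hB, mem_anyN, mem_ch, List.drop_drop, List.drop_drop, List.length_drop, List.length_drop,
    List.length_drop, getD_drop', Nat.add_zero]
  constructor
  · rintro ⟨h1, h2, h3, h4, h5, h6, -⟩
    exact ⟨by omega, h2, h6⟩
  · rintro ⟨h1, h2, h3⟩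
    exact ⟨by omega, h2, by omega, by omega, by omega, h3, mem_al⟩

/-- the words of `copyE` -/
private theorem mem_copy (A : Loc) {n : ℕ} {w : List Bool} : w ∈ (A.copyE n).matches' ↔
    ∃ p j, j < A.ℓ ∧ 2 * A.ℓ * (p + n + 1) + j < w.length ∧
      w.getD (2 * A.ℓ * p + A.ℓ + j) false ≠ w.getD (2 * A.ℓ * (p + n + 1) + j) false := by
  have hl := A.hℓ
  have hB : ∀ w, w ∈ A.B2.matches' ↔ w.length = 2 * A.ℓ := fun w => by
    rw [Loc.B2, mem_blkE]
    omega
  have e1 : ∀ p j, 2 * A.ℓ * p + (A.ℓ + j) + (1 + n * (2 * A.ℓ) + (A.ℓ - 1)) = 2 * A.ℓ * (p + n + 1) + j := fun p j => by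
    have : 2 * A.ℓ * (p + n + 1) = 2 * A.ℓ * p + n * (2 * A.ℓ) + 2 * A.ℓ := by ring
    omega
  have key : ∀ p j, j < A.ℓ → 2 * A.ℓ * p + (A.ℓ + j) ≤ w.length →
      (w.drop (2 * A.ℓ * p + (A.ℓ + j)) ∈ (RegularExpression.plus
        (.comp (.char false) (repN A.B2 n (anyN (A.ℓ - 1) (.comp (.char true) al))))
        (.comp (.char true) (repN A.B2 n (anyN (A.ℓ - 1) (.comp (.char false) al))))).matches' ↔
      2 * A.ℓ * (p + n + 1) + j < w.length ∧
        w.getD (2 * A.ℓ * p + A.ℓ + j) false ≠ w.getD (2 * A.ℓ * (p + n + 1) + j) false) := fun p j hj hp => by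
    rw [mem_plus, mem_tail n _ hB, mem_tail n _ hB, getD_drop', getD_drop', e1, List.length_drop, Nat.add_zero,
      ← Nat.add_assoc]
    have e2 : 1 + n * (2 * A.ℓ) + (A.ℓ - 1) < w.length - (2 * A.ℓ * p + A.ℓ + j) ↔
        2 * A.ℓ * (p + n + 1) + j < w.length := by
      have := e1 p j
      omega
    rw [e2]
    generalize w.getD (2 * A.ℓ * p + A.ℓ + j) false = x
    generalize w.getD (2 * A.ℓ * (p + n + 1) + j) false = y
    constructor
    · rintro (⟨h1, h2, h3⟩ | ⟨h1, h2, h3⟩)
      · exact ⟨h1, by rw [h2, h3]; decide⟩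
      · exact ⟨h1, by rw [h2, h3]; decide⟩
    · rintro ⟨h1, h2⟩
      cases x
      · left
        refine ⟨h1, rfl, ?_⟩
        cases y
        · exact absurd rfl h2
        · rfl
      · right
        refine ⟨h1, rfl, ?_⟩
        cases y
        · rfl
        · exact absurd rfl h2
  rw [Loc.copyE, mem_comp]
  constructor
  · rintro ⟨u, v, hu, hv, rfl⟩
    rw [mem_starB (by omega) hB] at hu
    obtain ⟨p, hp⟩ := hu
    rw [mem_anyN, mem_optN] at hv
    obtain ⟨h1, j, hj, h2, h3⟩ := hv
    have hj' : j < A.ℓ := by omega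
    have e3 : v = (u ++ v).drop (2 * A.ℓ * p) := by rw [← hp, List.drop_left]
    rw [List.drop_drop] at h3
    have h4 : (u ++ v).drop (2 * A.ℓ * p + (A.ℓ + j)) = v.drop (A.ℓ + j) := by
      rw [← List.drop_drop, ← e3]
    rw [← h4] at h3
    rw [List.length_drop] at h2
    exact ⟨p, j, hj', (key p j hj' (by rw [List.length_append]; omega)).1 h3⟩
  · rintro ⟨p, j, hj, h1, h2⟩
    have e4 := e1 p j
    have hle : 2 * A.ℓ * p + (A.ℓ + j) ≤ w.length := by omega
    refine ⟨w.take (2 * A.ℓ * p), w.drop (2 * A.ℓ * p), ?_, ?_, List.take_append_drop _ _⟩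
    · rw [mem_starB (by omega) hB, List.length_take, Nat.min_eq_left (by omega)]
      exact ⟨p, rfl⟩
    · rw [mem_anyN, mem_optN, List.length_drop]
      refine ⟨by omega, j, by omega, ?_, ?_⟩
      · rw [List.length_drop, List.length_drop]
        omega
      · rw [List.drop_drop, List.drop_drop]
        exact (key p j hj hle).2 ⟨h1, h2⟩

/-- **the words in which the second half of every block is the first half of the block `n + 1` places later** -/
theorem not_copy (A : Loc) {n : ℕ} {w : List Bool} (h : 2 * A.ℓ ∣ w.length) : w ∉ (A.copyE n).matches' ↔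
    ∀ p, p + n + 1 < w.length / (2 * A.ℓ) → A.fb w (p + n + 1) = A.sb w p := by
  have hl := A.hℓ
  rw [mem_copy]
  obtain ⟨m, hm⟩ := h
  have hd : w.length / (2 * A.ℓ) = m := by rw [hm, Nat.mul_div_cancel_left _ (by omega)]
  rw [hd]
  constructor
  · intro H p hp
    funext j
    by_contra hne
    refine H ⟨p, j, j.2, ?_, fun e => hne ?_⟩
    · have h1 : 2 * A.ℓ * (p + n + 1 + 1) ≤ 2 * A.ℓ * m := Nat.mul_le_mul_left _ hp
      rw [Nat.mul_succ] at h1
      have := j.2
      omega
    · exact e.symm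
  · rintro H ⟨p, j, hj, h1, h2⟩
    have h3 : p + n + 1 < m := by
      by_contra h4
      have h5 : 2 * A.ℓ * m ≤ 2 * A.ℓ * (p + n + 1) := Nat.mul_le_mul_left _ (Nat.not_lt.1 h4)
      omega
    have := congrFun (H p h3) ⟨j, hj⟩
    exact h2 this.symm

end Pool.Agent.PSM
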