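import Pool.Agent.PSM.RPartA
import Pool.Agent.PSM.RPartB
import Pool.Agent.PSM.RPartC

/-!
# The words outside of `Loc.R x` are the accepting histories on `x`

`R_univ`: the expression `A.R x` generates all words if and only if the automaton does not accept `x`.
-/

set_option autoImplicit false

namespace Pool.Agent.PSM

section
variable (A : Loc) {n : ℕ} (x : Fin n → Bool)

/-- the boundary symbol stays outside of the cells -/
private theorem row_out69 (t : ℕ) : ∀ z, z = 0 ∨ n < z → A.row x t z = A.hash := by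
  induction t with
  | zero =>
    intro z hz
    rw [Loc.row, dif_neg (by omega)]
  | succ t ih =>
    intro z hz
    rw [Loc.row, ih z hz, A.hf]

private theorem H_eq69 (t : ℕ) {z : ℕ} (hz : z < n + 1) : A.H x (t * (n + 1) + z) = A.row x t z := by
  rw [Loc.H]
  have h1 : (t * (n + 1) + z) / (n + 1) = t := by
    rw [Nat.mul_comm, Nat.mul_add_div (Nat.succ_pos n), Nat.div_eq_of_lt hz, Nat.add_zero]
  have h2 : (t * (n + 1) + z) % (n + 1) = z := by
    rw [Nat.mul_comm, Nat.mul_add_mod, Nat.mod_eq_of_lt hz]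
  rw [h1, h2]

private theorem H_zero69 : A.H x 0 = A.hash := by
  have h := H_eq69 A x 0 (z := 0) (by omega)
  rw [Nat.zero_mul, Nat.add_zero] at h
  rw [h]
  exact row_out69 A x 0 0 (Or.inl rfl)

private theorem H_cell69 (i : Fin n) : A.H x (i + 1) = A.i0 (x i) := by
  have h := H_eq69 A x 0 (z := (i : ℕ) + 1) (by omega)
  rw [Nat.zero_mul, Nat.zero_add] at h
  rw [h, Loc.row, dif_pos (by omega)]
  congr 2

private theorem H_next69 : A.H x (n + 1) = A.hash := by
  have h := H_eq69 A x 1 (z := 0) (by omega)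
  rw [Nat.one_mul, Nat.add_zero] at h
  rw [h]
  exact row_out69 A x 1 0 (Or.inl rfl)

/-- one step -/
private theorem H_step69 (p : ℕ) :
    A.H x (p + 1 + (n + 1)) = A.f (A.H x p) (A.H x (p + 1)) (A.H x (p + 2)) := by
  obtain ⟨t, z, hz, hp⟩ : ∃ t z, z < n + 1 ∧ p + 1 = t * (n + 1) + z :=
    ⟨(p + 1) / (n + 1), (p + 1) % (n + 1), Nat.mod_lt _ (Nat.succ_pos n), by
      rw [Nat.mul_comm]; exact (Nat.div_add_mod _ _).symm⟩
  have e1 : p + 1 + (n + 1) = (t + 1) * (n + 1) + z := by
    rw [hp, Nat.add_mul, Nat.one_mul]; omega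
  rw [e1, H_eq69 A x (t + 1) hz]
  have e2 : A.H x (p + 1) = A.row x t z := by rw [hp, H_eq69 A x t hz]
  rw [e2]
  rcases Nat.eq_zero_or_pos z with h0 | h0
  · subst h0
    rw [row_out69 A x (t + 1) 0 (Or.inl rfl), row_out69 A x t 0 (Or.inl rfl), A.hf]
  · have e3 : A.H x p = A.row x t (z - 1) := by
      have e : p = t * (n + 1) + (z - 1) := by omega
      rw [e, H_eq69 A x t (by omega)]
    have e4 : A.H x (p + 2) = A.row x t (z + 1) := by
      rcases Nat.lt_or_ge (z + 1) (n + 1) with h1 | h1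
      · have e : p + 2 = t * (n + 1) + (z + 1) := by omega
        rw [e, H_eq69 A x t h1]
      · have e : p + 2 = (t + 1) * (n + 1) + 0 := by
          rw [Nat.add_mul, Nat.one_mul]; omega
        rw [e, H_eq69 A x (t + 1) (by omega), row_out69 A x (t + 1) 0 (Or.inl rfl),
          row_out69 A x t (z + 1) (Or.inr (by omega))]
    rw [e3, e4, Loc.row]

/-- the letters of the history -/
private def let69 (i : ℕ) : Bool :=
  if h : i % (2 * A.ℓ) < A.ℓ then A.H x (i / (2 * A.ℓ)) ⟨i % (2 * A.ℓ), h⟩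
  else if h' : i % (2 * A.ℓ) - A.ℓ < A.ℓ then A.H x (i / (2 * A.ℓ) + (n + 1)) ⟨i % (2 * A.ℓ) - A.ℓ, h'⟩
  else false

private theorem let_fst69 (p : ℕ) (j : Fin A.ℓ) : let69 A x (2 * A.ℓ * p + j) = A.H x p j := by
  have hj := j.2
  have hℓ := A.hℓ
  have h1 : (2 * A.ℓ * p + j) / (2 * A.ℓ) = p := by
    rw [Nat.mul_add_div (by omega), Nat.div_eq_of_lt (by omega), Nat.add_zero]
  have h2 : (2 * A.ℓ * p + j) % (2 * A.ℓ) = j := by
    rw [Nat.mul_add_mod, Nat.mod_eq_of_lt (by omega)]
  rw [let69]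
  simp only [h1, h2, hj, dif_pos, Fin.eta]

private theorem let_snd69 (p : ℕ) (j : Fin A.ℓ) :
    let69 A x (2 * A.ℓ * p + A.ℓ + j) = A.H x (p + (n + 1)) j := by
  have hj := j.2
  have hℓ := A.hℓ
  have h1 : (2 * A.ℓ * p + A.ℓ + j) / (2 * A.ℓ) = p := by
    rw [Nat.add_assoc, Nat.mul_add_div (by omega), Nat.div_eq_of_lt (by omega), Nat.add_zero]
  have h2 : (2 * A.ℓ * p + A.ℓ + j) % (2 * A.ℓ) = A.ℓ + j := by
    rw [Nat.add_assoc, Nat.mul_add_mod, Nat.mod_eq_of_lt (by omega)]
  have h3 : ¬ A.ℓ + (j : ℕ) < A.ℓ := by omega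
  have h4 : A.ℓ + (j : ℕ) - A.ℓ = j := by omega
  rw [let69]
  simp only [h1, h2, h3, h4, hj, dif_pos, dif_neg, not_false_eq_true, Fin.eta]

/-- the history with `m` blocks -/
private def hist69 (m : ℕ) : List Bool := (List.range (2 * A.ℓ * m)).map (let69 A x)

private theorem hist_len69 (m : ℕ) : (hist69 A x m).length = 2 * A.ℓ * m := by
  simp [hist69]

private theorem hist_get69 {m i : ℕ} (h : i < 2 * A.ℓ * m) : (hist69 A x m).getD i false = let69 A x i := by
  rw [hist69, List.getD_eq_getElem?_getD, List.getElem?_map, List.getElem?_range h]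
  rfl

private theorem hist_fb69 {m p : ℕ} (h : p < m) : A.fb (hist69 A x m) p = A.H x p := by
  funext j
  have hj := j.2
  have h1 : 2 * A.ℓ * (p + 1) ≤ 2 * A.ℓ * m := Nat.mul_le_mul_left _ h
  rw [Nat.mul_add, Nat.mul_one] at h1
  rw [Loc.fb, hist_get69 A x (by omega), let_fst69]

private theorem hist_sb69 {m p : ℕ} (h : p < m) : A.sb (hist69 A x m) p = A.H x (p + (n + 1)) := by
  funext j
  have hj := j.2
  have h1 : 2 * A.ℓ * (p + 1) ≤ 2 * A.ℓ * m := Nat.mul_le_mul_left _ h
  rw [Nat.mul_add, Nat.mul_one] at h1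
  rw [Loc.sb, hist_get69 A x (by omega), let_snd69]

private theorem not_R69 {w : List Bool} : w ∉ (A.R x).matches' ↔ w ∉ (A.initE x).matches' ∧
    w ∉ (A.copyE n).matches' ∧ w ∉ A.locE.matches' ∧ w ∉ A.noaccE.matches' ∧ w ∉ A.badE.matches' := by
  rw [Loc.R, mem_plus, mem_plus, mem_plus, mem_plus]
  tauto

theorem R_univ (hn : 1 ≤ n) (x : Fin n → Bool) :
    (∀ w : List Bool, w ∈ (A.R x).matches') ↔ ¬ ∃ t z, A.acc (A.row x t z) = true := by
  have hℓ := A.hℓ
  constructor
  · rintro h ⟨t, z, hacc⟩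
    have hz : ¬ (z = 0 ∨ n < z) := by
      intro hz
      rw [row_out69 A x t z hz, A.ha] at hacc
      exact absurd hacc (by simp)
    have hdiv : ∀ m, (hist69 A x m).length / (2 * A.ℓ) = m := by
      intro m
      rw [hist_len69, Nat.mul_div_cancel_left _ (by omega)]
    set m := t * (n + 1) + z + (n + 1) + 1 with hm
    have hd : 2 * A.ℓ ∣ (hist69 A x m).length := by
      rw [hist_len69]
      exact Nat.dvd_mul_right _ _
    have hnot : hist69 A x m ∉ (A.R x).matches' := by
      rw [not_R69]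
      refine ⟨?_, ?_, ?_, ?_, ?_⟩
      · rw [not_init]
        refine ⟨?_, ?_, ?_, ?_⟩
        · rw [hist_len69]
          exact Nat.mul_le_mul_left _ (by omega)
        · rw [hist_fb69 A x (by omega), H_zero69]
        · rw [hist_sb69 A x (by omega), Nat.zero_add, H_next69]
        · intro i
          have hi := i.2
          rw [hist_fb69 A x (by omega), H_cell69]
      · rw [not_copy A hd, hdiv]
        intro p hp
        rw [hist_fb69 A x (by omega), hist_sb69 A x (by omega), Nat.add_assoc]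
      · rw [not_loc A hd, hdiv]
        intro p hp
        rw [hist_fb69 A x (by omega), hist_fb69 A x (by omega), hist_fb69 A x (by omega),
          hist_sb69 A x (by omega), H_step69]
      · rw [not_noacc A hd, hdiv]
        refine ⟨t * (n + 1) + z, by omega, ?_⟩
        rw [hist_fb69 A x (by omega), H_eq69 A x t (by omega)]
        exact hacc
      · rw [not_bad]
        exact hd
    exact hnot (h _)
  · intro h w
    by_contra hw
    rw [not_R69] at hw
    obtain ⟨h1, h2, h3, h4, h5⟩ := hw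
    rw [not_bad] at h5
    rw [not_init] at h1
    rw [not_copy A h5] at h2
    rw [not_loc A h5] at h3
    rw [not_noacc A h5] at h4
    obtain ⟨hlen, hf0, hs0, hx⟩ := h1
    obtain ⟨p, hp, hacc⟩ := h4
    set m := w.length / (2 * A.ℓ) with hm
    have key : ∀ p, p < m → A.fb w p = A.H x p := by
      intro p
      induction p using Nat.strong_induction_on with
      | _ p ih =>
        intro hpm
        rcases Nat.lt_or_ge p (n + 1) with hlt | hge
        · rcases Nat.eq_zero_or_pos p with h0 | h0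
          · rw [h0, hf0, H_zero69]
          · obtain ⟨i, rfl⟩ : ∃ i, p = i + 1 := ⟨p - 1, by omega⟩
            have e1 := hx ⟨i, by omega⟩
            have e2 := H_cell69 A x ⟨i, by omega⟩
            simp only at e1 e2
            rw [e1, e2]
        · obtain ⟨q, rfl⟩ : ∃ q, p = q + n + 1 := ⟨p - (n + 1), by omega⟩
          rw [h2 q hpm]
          rcases Nat.eq_zero_or_pos q with h0 | h0
          · subst h0
            rw [hs0, Nat.zero_add, H_next69]
          · obtain ⟨r, rfl⟩ : ∃ r, q = r + 1 := ⟨q - 1, by omega⟩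
            rw [h3 r (by omega), ih r (by omega) (by omega), ih (r + 1) (by omega) (by omega),
              ih (r + 2) (by omega) (by omega)]
            rw [Nat.add_assoc (r + 1) n 1, H_step69]
    rw [key p hp, Loc.H] at hacc
    exact h ⟨_, _, hacc⟩

end

end Pool.Agent.PSM
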