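import Pool.Agent.PSM.RExp

/-!
# Bounded automata over `{0, 1} ^ ℓ`

* **`loc_of`**: every language which is recognized by a one-dimensional cellular automaton on the input cells is the
  set of the words on which a bounded automaton `A : Loc` accepts at some time at some place.
-/

set_option autoImplicit false

namespace Pool.Agent.PSM

namespace RLoc

variable {Q : Type} [Fintype Q]

/-- the symbols: boundary, or (state, the origin had an output before, the origin accepted one step before) -/
abbrev S (Q : Type) : Type := Option (Q × Bool × Bool)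

open Classical in
/-- the code of a symbol -/
noncomputable def enc (s : S Q) : Fin (Fintype.card (S Q)) → Bool := fun j => decide (Fintype.equivFin (S Q) s = j)

theorem enc_inj : Function.Injective (enc (Q := Q)) := by
  intro a b h
  have h1 : enc a (Fintype.equivFin (S Q) a) = enc b (Fintype.equivFin (S Q) a) := by rw [h]
  unfold enc at h1
  simp only [decide_true] at h1
  have h2 := of_decide_eq_true h1.symm
  exact ((Fintype.equivFin (S Q)).injective h2).symm

/-- the symbol of a code -/
noncomputable def dec : (Fin (Fintype.card (S Q)) → Bool) → S Q := Function.invFun enc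

theorem dec_enc (s : S Q) : dec (enc s) = s := Function.leftInverse_invFun enc_inj s

/-- the state of a symbol -/
def sta (M : CA 1 Bool Q) : S Q → Q
  | none => M.blank
  | some a => a.1

/-- the rule on symbols -/
def g (M : CA 1 Bool Q) (l m r : S Q) : S Q :=
  match m with
  | none => none
  | some a => some (M.rule (fun e => if e 0 = 0 then sta M l else if e 0 = 1 then a.1 else sta M r),
      l.isNone && (a.2.1 || (M.out a.1).isSome), l.isNone && (!a.2.1 && decide (M.out a.1 = some true)))

/-- the accepting symbols -/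
def ac : S Q → Bool
  | none => false
  | some a => a.2.2

/-- the automaton -/
noncomputable def A (M : CA 1 Bool Q) : Loc where
  ℓ := Fintype.card (S Q)
  hash := enc none
  f a b c := enc (g M (dec a) (dec b) (dec c))
  i0 b := enc (some (M.inp b, false, false))
  acc v := ac (dec v)
  hℓ := Fintype.card_pos
  hf a c := by rw [dec_enc]; rfl
  ha := by rw [dec_enc]; rfl

/-- the state of the cell `z` at the time `t` -/
def sg (M : CA 1 Bool Q) {n : ℕ} (x : Fin n → Bool) (t : ℕ) (z : ℤ) : Q := M.step^[t] (M.start x) fun _ => z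

omit [Fintype Q] in
theorem sg_succ (M : CA 1 Bool Q) {n : ℕ} (x : Fin n → Bool) (t : ℕ) (z : ℤ) :
    sg M x (t + 1) z = M.rule fun e => sg M x t (z + (e 0 : ℤ) - 1) := by
  unfold sg
  rw [Function.iterate_succ_apply']
  show M.rule _ = _
  refine congrArg M.rule (funext fun e => ?_)
  refine congrArg (M.step^[t] (M.start x)) (funext fun i => ?_)
  rw [Subsingleton.elim i 0]

/-- an output before the time `t` -/
def D (M : CA 1 Bool Q) {n : ℕ} (x : Fin n → Bool) : ℕ → Bool
  | 0 => false
  | t + 1 => D M x t || (M.out (sg M x t 0)).isSome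

/-- accepted at the time `t - 1` -/
def Ac (M : CA 1 Bool Q) {n : ℕ} (x : Fin n → Bool) : ℕ → Bool
  | 0 => false
  | t + 1 => !D M x t && decide (M.out (sg M x t 0) = some true)

omit [Fintype Q] in
theorem D_iff (M : CA 1 Bool Q) {n : ℕ} (x : Fin n → Bool) (t : ℕ) :
    D M x t = false ↔ ∀ s < t, M.out (sg M x s 0) = none := by
  induction t with
  | zero => exact ⟨fun _ s hs => absurd hs (Nat.not_lt_zero s), fun _ => rfl⟩
  | succ t ih =>
    unfold D
    rw [Bool.or_eq_false_iff, ih, Option.isSome_eq_false_iff, Option.isNone_iff_eq_none]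
    constructor
    · rintro ⟨h1, h2⟩ s hs
      rcases Nat.lt_succ_iff_lt_or_eq.1 hs with h | h
      · exact h1 s h
      · rw [h]
        exact h2
    · intro h
      exact ⟨fun s hs => h s (Nat.lt_succ_of_lt hs), h t (Nat.lt_succ_self t)⟩

omit [Fintype Q] in
theorem Ac_iff (M : CA 1 Bool Q) {n : ℕ} (x : Fin n → Bool) (t : ℕ) :
    Ac M x (t + 1) = true ↔ M.out (sg M x t 0) = some true ∧ ∀ s < t, M.out (sg M x s 0) = none := by
  show (!D M x t && decide (M.out (sg M x t 0) = some true)) = true ↔ _
  rw [Bool.and_eq_true, Bool.not_eq_true', D_iff, decide_eq_true_iff]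
  exact and_comm

/-- the symbols of the automaton -/
theorem row_eq (M : CA 1 Bool Q) {n : ℕ} (hn : 1 ≤ n) (x : Fin n → Bool)
    (hb : ∀ (t : ℕ) (z : Fin 1 → ℤ), ¬ (0 ≤ z 0 ∧ z 0 < n) → M.step^[t] (M.start x) z = M.blank) (t z : ℕ) :
    (A M).row x t z = enc (if 1 ≤ z ∧ z ≤ n then
      some (sg M x t ((z : ℤ) - 1), decide (z = 1) && D M x t, decide (z = 1) && Ac M x t) else none) := by
  induction t generalizing z with
  | zero =>
    show (if h : 1 ≤ z ∧ z - 1 < n then (A M).i0 (x ⟨z - 1, h.2⟩) else (A M).hash) = _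
    by_cases h : 1 ≤ z ∧ z ≤ n
    · have h' : 1 ≤ z ∧ z - 1 < n := ⟨h.1, by omega⟩
      rw [dif_pos h', if_pos h]
      show enc (some (M.inp (x ⟨z - 1, h'.2⟩), false, false)) = _
      have e1 : sg M x 0 ((z : ℤ) - 1) = M.inp (x ⟨z - 1, h'.2⟩) := by
        show M.start x (fun _ => (z : ℤ) - 1) = _
        unfold CA.start
        have h3 : ((z : ℤ) - 1).toNat = z - 1 := by omega
        have h4 : (∀ i : Fin (0 + 1), i ≠ 0 → ((z : ℤ) - 1) = 0) ∧ 0 ≤ (z : ℤ) - 1 ∧ ((z : ℤ) - 1).toNat < n :=
          ⟨fun i hi => absurd (Subsingleton.elim (α := Fin 1) i 0) hi, by omega, by omega⟩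
        rw [dif_pos h4]
        congr 2
        exact Fin.ext h3
      rw [e1]
      show _ = enc (some (_, decide (z = 1) && false, decide (z = 1) && false))
      rw [Bool.and_false]
    · have h' : ¬ (1 ≤ z ∧ z - 1 < n) := fun k => h ⟨k.1, by omega⟩
      rw [dif_neg h', if_neg h]
      rfl
  | succ t ih =>
    show enc (g M (dec ((A M).row x t (z - 1))) (dec ((A M).row x t z)) (dec ((A M).row x t (z + 1)))) = _
    rw [ih, ih, ih, dec_enc, dec_enc, dec_enc]
    by_cases h : 1 ≤ z ∧ z ≤ n
    · rw [if_pos h, if_pos h]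
      -- the states of the neighbours
      have hl : sta M (if 1 ≤ z - 1 ∧ z - 1 ≤ n then some (sg M x t (((z - 1 : ℕ) : ℤ) - 1),
          decide (z - 1 = 1) && D M x t, decide (z - 1 = 1) && Ac M x t) else none) = sg M x t ((z : ℤ) - 1 - 1) := by
        by_cases h1 : z = 1
        · subst h1
          rw [if_neg (by omega)]
          refine (hb t (fun _ => ((1 : ℕ) : ℤ) - 1 - 1) ?_).symm
          rintro ⟨k, -⟩
          simp at k
        · rw [if_pos ⟨by omega, by omega⟩]
          show sg M x t (((z - 1 : ℕ) : ℤ) - 1) = _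
          rw [Nat.cast_sub h.1, Nat.cast_one]
      have hr : sta M (if 1 ≤ z + 1 ∧ z + 1 ≤ n then some (sg M x t (((z + 1 : ℕ) : ℤ) - 1),
          decide (z + 1 = 1) && D M x t, decide (z + 1 = 1) && Ac M x t) else none) = sg M x t (z : ℤ) := by
        by_cases h1 : z = n
        · subst h1
          rw [if_neg (by omega)]
          refine (hb t (fun _ => (z : ℤ)) ?_).symm
          rintro ⟨-, k⟩
          exact lt_irrefl _ k
        · rw [if_pos ⟨by omega, by omega⟩]
          show sg M x t (((z + 1 : ℕ) : ℤ) - 1) = _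
          rw [Nat.cast_add, Nat.cast_one, add_sub_cancel_right]
      have hi : Option.isNone (if 1 ≤ z - 1 ∧ z - 1 ≤ n then some (sg M x t (((z - 1 : ℕ) : ℤ) - 1),
          decide (z - 1 = 1) && D M x t, decide (z - 1 = 1) && Ac M x t) else none) = decide (z = 1) := by
        by_cases h1 : z = 1
        · rw [if_neg (by omega)]
          simp [h1]
        · rw [if_pos ⟨by omega, by omega⟩]
          simp [h1]
      have hrule : (M.rule fun e => if e 0 = 0 then
          sta M (if 1 ≤ z - 1 ∧ z - 1 ≤ n then some (sg M x t (((z - 1 : ℕ) : ℤ) - 1),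
          decide (z - 1 = 1) && D M x t, decide (z - 1 = 1) && Ac M x t) else none) else
          if e 0 = 1 then sg M x t ((z : ℤ) - 1) else
          sta M (if 1 ≤ z + 1 ∧ z + 1 ≤ n then some (sg M x t (((z + 1 : ℕ) : ℤ) - 1),
          decide (z + 1 = 1) && D M x t, decide (z + 1 = 1) && Ac M x t) else none)) =
          sg M x (t + 1) ((z : ℤ) - 1) := by
        rw [sg_succ, hl, hr]
        congr 1
        funext e
        have h3 : e 0 = 0 ∨ e 0 = 1 ∨ e 0 = 2 := by
          have := (e 0).2
          rcases he : (e 0) with ⟨v, hv⟩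
          interval_cases v
          · exact Or.inl rfl
          · exact Or.inr (Or.inl rfl)
          · exact Or.inr (Or.inr rfl)
        rcases h3 with h3 | h3 | h3
        · rw [h3, if_pos rfl]
          refine congrArg (sg M x t) ?_
          show (z : ℤ) - 1 - 1 = (z : ℤ) - 1 + ((0 : ℕ) : ℤ) - 1
          push_cast
          ring
        · rw [h3, if_neg (by decide), if_pos rfl]
          refine congrArg (sg M x t) ?_
          show (z : ℤ) - 1 = (z : ℤ) - 1 + ((1 : ℕ) : ℤ) - 1
          push_cast
          ring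
        · rw [h3, if_neg (by decide), if_neg (by decide)]
          refine congrArg (sg M x t) ?_
          show (z : ℤ) = (z : ℤ) - 1 + ((2 : ℕ) : ℤ) - 1
          push_cast
          ring
      congr 1
      unfold g
      show some (_, _, _) = some (_, _, _)
      rw [hi]
      refine congrArg some (Prod.ext hrule (Prod.ext ?_ ?_))
      · show (decide (z = 1) && ((decide (z = 1) && D M x t) || (M.out (sg M x t ((z : ℤ) - 1))).isSome)) =
          (decide (z = 1) && (D M x t || (M.out (sg M x t 0)).isSome))
        by_cases h1 : z = 1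
        · subst h1
          simp
        · simp [h1]
      · show (decide (z = 1) && (!(decide (z = 1) && D M x t) && decide (M.out (sg M x t ((z : ℤ) - 1)) = some true))) =
          (decide (z = 1) && (!D M x t && decide (M.out (sg M x t 0) = some true)))
        by_cases h1 : z = 1
        · subst h1
          simp
        · simp [h1]
    · rw [if_neg h, if_neg h]
      rfl

end RLoc

/-- **bounded automata over `{0, 1} ^ ℓ` recognize all languages of `LinSpaceCA`** -/
theorem loc_of {L : Set (List Bool)} (h : LinSpaceCA L) : ∃ A : Loc, ∀ n : ℕ, 1 ≤ n → ∀ x : Fin n → Bool,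
    (List.ofFn x ∈ L ↔ ∃ t z, A.acc (A.row x t z) = true) := by
  obtain ⟨Q, iQ, M, hM⟩ := h
  refine ⟨RLoc.A M, fun n hn x => ?_⟩
  obtain ⟨hb, T, b, ⟨t0, -, ho, hf⟩, hL⟩ := hM n x
  have key : (∃ t z, (RLoc.A M).acc ((RLoc.A M).row x t z) = true) ↔
      ∃ t, M.out (RLoc.sg M x t 0) = some true ∧ ∀ s < t, M.out (RLoc.sg M x s 0) = none := by
    constructor
    · rintro ⟨t, z, h⟩
      rw [RLoc.row_eq M hn x hb] at h
      have h' : RLoc.ac (RLoc.dec (RLoc.enc (if 1 ≤ z ∧ z ≤ n then
        some (RLoc.sg M x t ((z : ℤ) - 1), decide (z = 1) && RLoc.D M x t, decide (z = 1) && RLoc.Ac M x t)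
          else none))) = true := h
      rw [RLoc.dec_enc] at h'
      by_cases hz : 1 ≤ z ∧ z ≤ n
      · rw [if_pos hz] at h'
        have h2 : (decide (z = 1) && RLoc.Ac M x t) = true := h'
        rw [Bool.and_eq_true] at h2
        cases t with
        | zero => exact absurd h2.2 (by simp [RLoc.Ac])
        | succ t => exact ⟨t, (RLoc.Ac_iff M x t).1 h2.2⟩
      · rw [if_neg hz] at h'
        exact absurd h' (by simp [RLoc.ac])
    · rintro ⟨t, h⟩
      refine ⟨t + 1, 1, ?_⟩
      rw [RLoc.row_eq M hn x hb, if_pos ⟨le_rfl, hn⟩]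
      show RLoc.ac (RLoc.dec (RLoc.enc _)) = true
      rw [RLoc.dec_enc]
      show (decide (1 = 1) && RLoc.Ac M x (t + 1)) = true
      rw [(RLoc.Ac_iff M x t).2 h]
      rfl
  rw [key, ← hL]
  have ho' : M.out (RLoc.sg M x t0 0) = some b := ho
  have hf' : ∀ s < t0, M.out (RLoc.sg M x s 0) = none := hf
  constructor
  · intro hb'
    rw [hb'] at ho'
    exact ⟨t0, ho', hf'⟩
  · rintro ⟨t, h1, h2⟩
    rcases lt_trichotomy t t0 with k | k | k
    · rw [hf' t k] at h1
      exact absurd h1 (by simp)
    · subst k
      rw [h1] at ho'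
      exact (Option.some.inj ho').symm
    · rw [h2 t0 k] at ho'
      exact absurd ho' (by simp)

end Pool.Agent.PSM
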