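import Pool.Agent.PSM.RFld
import Pool.Agent.PSM.Dig

/-!
# The symbols of the expression as numbers
-/

set_option autoImplicit false

open Finset

namespace Pool.Agent.PSM

/-- `F` up to `a`, then `G` -/
def app (a : ℕ) (F G : ℕ → ℕ) (i : ℕ) : ℕ := if i < a then F i else G (i - a)

/-- the symbol `i`: fields 3, 4: length and number of `u1`; 5, 6, 7: length of `s b`, `s false`, `s true`; 8, 9: `u2`;
10, 11: `g`; 12, 13: `u3`; 14, 15: `u4` -/
def tpl (v : ℕ → ℕ) (n X : ℕ) : ℕ → ℕ :=
  app (v 3) (fun j => dg 7 j (v 4)) (app (n * v 5) (fun j => dg 7 (j % v 5) (if dg 2 (j / v 5) X = 1 then v 7 else v 6))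
    (app (v 8) (fun j => dg 7 j (v 9)) (app (n * v 10) (fun j => dg 7 (j % v 10) (v 11))
      (app (v 12) (fun j => dg 7 j (v 13)) (app (n * v 10) (fun j => dg 7 (j % v 10) (v 11))
        (fun j => dg 7 j (v 15)))))))

/-- the number of symbols -/
def tlen (v : ℕ → ℕ) (n : ℕ) : ℕ := v 3 + (n * v 5 + (v 8 + (n * v 10 + (v 12 + (n * v 10 + v 14)))))

/-- the number of a word -/
def wn (l : List (Fin 7)) : ℕ := en 7 l.length fun i => (l.getD i 0 : ℕ)

private def Rp (l : List (Fin 7)) (F : ℕ → ℕ) : Prop := ∀ (i : ℕ) (h : i < l.length), F i = (l[i] : ℕ)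

private lemma rp_wn (l : List (Fin 7)) : Rp l fun j => dg 7 j (wn l) := by
  intro i h
  have h1 : ∀ i < l.length, (fun i => (l.getD i 0 : ℕ)) i < 7 := fun i _ => (l.getD i 0).isLt
  show dg 7 i (en 7 l.length fun i => (l.getD i 0 : ℕ)) = _
  rw [dg_en h1 h]
  simp [List.getD_eq_getElem?_getD, List.getElem?_eq_getElem h]

private lemma rp_app {l1 l2 : List (Fin 7)} {F G : ℕ → ℕ} {a : ℕ} (ha : a = l1.length) (h1 : Rp l1 F) (h2 : Rp l2 G) :
    Rp (l1 ++ l2) (app a F G) := by
  intro i h
  subst ha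
  unfold app
  by_cases h' : i < l1.length
  · rw [if_pos h', List.getElem_append_left h']
    exact h1 i h'
  · have h3 : l1.length ≤ i := not_lt.1 h'
    rw [if_neg h', List.getElem_append_right h3]
    rw [List.length_append] at h
    exact h2 (i - l1.length) (by omega)

private lemma rp_flat (c : ℕ) : ∀ (n : ℕ) (f : Fin n → List (Fin 7)) (V : ℕ → ℕ), (∀ i, (f i).length = c) →
    (∀ i : Fin n, V i = wn (f i)) → (List.ofFn f).flatten.length = n * c ∧
      Rp (List.ofFn f).flatten fun j => dg 7 (j % c) (V (j / c)) := by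
  intro n
  induction n with
  | zero =>
    intro f V _ _
    rw [List.ofFn_zero]
    exact ⟨by simp, fun i h => absurd h (by simp)⟩
  | succ n ih =>
    intro f V hf hV
    obtain ⟨i1, i2⟩ := ih (fun i => f i.succ) (fun j => V (j + 1)) (fun i => hf i.succ) fun i => by
      have := hV i.succ
      rwa [Fin.val_succ] at this
    have e0 : (List.ofFn f).flatten = f 0 ++ (List.ofFn fun i => f i.succ).flatten := by
      rw [List.ofFn_succ, List.flatten_cons]
    have e1 : (List.ofFn f).flatten.length = (n + 1) * c := by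
      rw [e0, List.length_append, i1, hf 0]
      ring
    refine ⟨e1, ?_⟩
    intro i h
    have h0 : i < (n + 1) * c := e1 ▸ h
    have hc : 0 < c := by
      rcases Nat.eq_zero_or_pos c with h' | h'
      · rw [h', Nat.mul_zero] at h0
        exact absurd h0 (Nat.not_lt_zero _)
      · exact h'
    have key : ∀ (l : List (Fin 7)) (e : l = f 0 ++ (List.ofFn fun i => f i.succ).flatten) (h : i < l.length),
        dg 7 (i % c) (V (i / c)) = (l[i] : ℕ) := by
      intro l e h
      subst e
      by_cases h' : i < (f 0).length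
      · rw [List.getElem_append_left h']
        have h2 : i < c := hf 0 ▸ h'
        rw [Nat.mod_eq_of_lt h2, Nat.div_eq_of_lt h2]
        have h3 := hV 0
        rw [Fin.val_zero] at h3
        rw [h3]
        exact rp_wn (f 0) i h'
      · have h3 : (f 0).length ≤ i := not_lt.1 h'
        rw [List.getElem_append_right h3]
        obtain ⟨k, rfl⟩ : ∃ k, i = c + k := ⟨i - c, by rw [hf 0] at h3; omega⟩
        rw [List.length_append, i1, hf 0] at h
        have h5 : k < (List.ofFn fun i => f i.succ).flatten.length := by rw [i1]; omega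
        have h6 := i2 k h5
        have h7 : c + k - (f 0).length = k := by rw [hf 0]; omega
        rw [Nat.add_mod_left, Nat.add_div_left k hc]
        simp only [h7]
        exact h6
    exact key _ e0 h

/-- **The symbols of a template.** -/
theorem tpl_eq {u1 u2 u3 u4 g : List (Fin 7)} {s : Bool → List (Fin 7)} (hs : (s true).length = (s false).length)
    {v : ℕ → ℕ} (h3 : v 3 = u1.length) (h4 : v 4 = wn u1) (h5 : v 5 = (s false).length) (h6 : v 6 = wn (s false))
    (h7 : v 7 = wn (s true)) (h8 : v 8 = u2.length) (h9 : v 9 = wn u2) (h10 : v 10 = g.length) (h11 : v 11 = wn g)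
    (h12 : v 12 = u3.length) (h13 : v 13 = wn u3) (h14 : v 14 = u4.length) (h15 : v 15 = wn u4)
    {n X : ℕ} (x : Fin n → Bool) (hX : ∀ i : Fin n, dg 2 i X = (x i).toNat) {l : List (Fin 7)}
    (hl : l = u1 ++ ((List.ofFn x).flatMap s ++ (u2 ++ ((List.replicate n g).flatten ++
        (u3 ++ ((List.replicate n g).flatten ++ u4)))))) :
    l.length = tlen v n ∧ ∀ (i : ℕ) (h : i < l.length), tpl v n X i = (l[i] : ℕ) := by
  have e1 : (List.ofFn x).flatMap s = (List.ofFn fun i => s (x i)).flatten := by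
    rw [List.flatMap_def, List.map_ofFn]
    rfl
  have e2 : List.replicate n g = List.ofFn fun _ : Fin n => g := (List.ofFn_const n g).symm
  obtain ⟨a1, a2⟩ := rp_flat (v 5) n (fun i => s (x i)) (fun j => if dg 2 j X = 1 then v 7 else v 6)
    (fun i => by
      rw [h5]
      cases x i
      · rfl
      · exact hs)
    (fun i => by
      show (if dg 2 i X = 1 then v 7 else v 6) = _
      rw [hX i]
      cases x i
      · exact h6
      · exact h7)
  obtain ⟨b1, b2⟩ := rp_flat (v 10) n (fun _ => g) (fun _ => v 11) (fun _ => h10.symm) (fun _ => h11)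
  rw [← e1] at a1 a2
  rw [← e2] at b1 b2
  subst hl
  refine ⟨?_, ?_⟩
  · simp only [List.length_append, a1, b1]
    unfold tlen
    rw [h3, h8, h12, h14]
  · have c1 := rp_wn u1
    have c2 := rp_wn u2
    have c3 := rp_wn u3
    have c4 := rp_wn u4
    rw [← h4] at c1
    rw [← h9] at c2
    rw [← h13] at c3
    rw [← h15] at c4
    exact rp_app h3 c1 (rp_app a1.symm a2 (rp_app h8 c2 (rp_app b1.symm b2 (rp_app h12 c3 (rp_app b1.symm b2 c4)))))

theorem tpl_lt (v : ℕ → ℕ) (n X i : ℕ) : tpl v n X i < 7 := by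
  have h : ∀ i m : ℕ, dg 7 i m < 7 := fun i m => Nat.mod_lt _ (by norm_num)
  unfold tpl app
  dsimp only
  split_ifs <;> exact h _ _

theorem tpl_add (v : ℕ → ℕ) {n : ℕ} (X i : ℕ) : tpl v n (X + 2 ^ n) i = tpl v n X i := by
  unfold tpl app
  dsimp only
  by_cases h1 : i < v 3
  · rw [if_pos h1, if_pos h1]
  · rw [if_neg h1, if_neg h1]
    by_cases h2 : i - v 3 < n * v 5
    · rw [if_pos h2, if_pos h2]
      have h3 : (i - v 3) / v 5 < n := Nat.div_lt_of_lt_mul (by rwa [Nat.mul_comm] at h2)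
      have h4 : dg 2 ((i - v 3) / v 5) (X + 2 ^ n) = dg 2 ((i - v 3) / v 5) X := by
        obtain ⟨c, hc⟩ : ∃ c, n = (i - v 3) / v 5 + 1 + c := ⟨n - ((i - v 3) / v 5 + 1), by omega⟩
        generalize (i - v 3) / v 5 = m at *
        subst hc
        have h1 : X + 2 ^ (m + 1 + c) = X + 2 ^ m * (2 * 2 ^ c) := by ring
        unfold dg
        rw [h1, Nat.add_mul_div_left _ _ (by positivity), Nat.add_mul_mod_self_left]
      rw [h4]
    · rw [if_neg h2, if_neg h2]

section E

variable {α : Type} [Ctx α]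

private lemma E_app {a i : α → ℕ} {F G : α → ℕ → ℕ} (ha : E a) (hi : E i) (hF : E fun w => F w (i w))
    (hG : E fun w => G w (i w - a w)) : E fun w => app (a w) (F w) (G w) (i w) := by
  unfold app
  exact E.ite (E.lt hi ha) hF hG

theorem E.tpl {e n X i : α → ℕ} (he : E e) (hn : E n) (hX : E X) (hi : E i) :
    E fun a => PSM.tpl (fun j => PSM.fld j (e a)) (n a) (X a) (i a) := by
  have f : ∀ k : ℕ, E fun a => PSM.fld k (e a) := fun k => E.fld k he
  have m5 : E fun a => n a * PSM.fld 5 (e a) := E.mul hn (f 5)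
  have m10 : E fun a => n a * PSM.fld 10 (e a) := E.mul hn (f 10)
  have c7 : E fun _ : α => 7 := E.const 7
  have i1 := E.sub hi (f 3)
  have i2 := E.sub i1 m5
  have i3 := E.sub i2 (f 8)
  have i4 := E.sub i3 m10
  have i5 := E.sub i4 (f 12)
  have i6 := E.sub i5 m10
  unfold PSM.tpl
  refine E_app (f 3) hi (E.dg c7 hi (f 4)) (E_app m5 i1 ?_ (E_app (f 8) i2 (E.dg c7 i2 (f 9))
    (E_app m10 i3 (E.dg c7 (E.mod i3 (f 10)) (f 11)) (E_app (f 12) i4 (E.dg c7 i4 (f 13))
      (E_app m10 i5 (E.dg c7 (E.mod i5 (f 10)) (f 11)) (E.dg c7 i6 (f 15)))))))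
  exact E.dg c7 (E.mod i1 (f 5)) (E.ite (E.eq (E.dg (E.const 2) (E.div i1 (f 5)) hX) (E.const 1)) (f 7) (f 6))

theorem E.tlen {e n : α → ℕ} (he : E e) (hn : E n) : E fun a => PSM.tlen (fun j => PSM.fld j (e a)) (n a) := by
  have f : ∀ k : ℕ, E fun a => PSM.fld k (e a) := fun k => E.fld k he
  have m5 : E fun a => n a * PSM.fld 5 (e a) := E.mul hn (f 5)
  have m10 : E fun a => n a * PSM.fld 10 (e a) := E.mul hn (f 10)
  unfold PSM.tlen
  exact E.add (f 3) (E.add m5 (E.add (f 8) (E.add m10 (E.add (f 12) (E.add m10 (f 14))))))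

end E

end Pool.Agent.PSM
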