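import Pool.Agent.PSM.MainA
import Pool.Agent.PSM.RTpl

/-!
# Regular expressions against cellular automata: the automaton with the number `e` on the expression of `x` (helper3)

* `stR`: the start states of the symbols of the expression;
* **`meR B e n X`**: the negated value of the automaton with the number `e` on the expression with the template in the
  fields `3, .., 15` of `e` and with the bits `X`, all sizes cut at `B`; `meR_le`, `meR_add`, `E.meR`, **`meR_eq`**.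
-/

set_option autoImplicit false

open Finset

namespace Pool.Agent.PSM

/-- the start states -/
def stR (e n X : ℕ) (i : ℕ) : ℕ :=
  if i < tlen (fun j => fld j e) n then 3 * (1 + 2 * tpl (fun j => fld j e) n X i) else 0

theorem stR_lt {e n X q : ℕ} (h : 39 < q) (i : ℕ) : stR e n X i < q := by
  have h1 := tpl_lt (fun j => fld j e) n X i
  unfold stR
  split_ifs <;> omega

theorem stR_add (e n X : ℕ) : stR e n (X + 2 ^ n) = stR e n X := by
  funext i
  unfold stR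
  rw [tpl_add]

theorem exists_meR : ∃ me : ℕ → ℕ → ℕ → ℕ → ℕ,
    (E fun v : ℕ × ℕ × ℕ × ℕ × Unit => me v.1 v.2.1 v.2.2.1 v.2.2.2.1) ∧ (∀ B e n X, me B e n X ≤ 1) ∧
    (∀ B e n X, me B e n (X + 2 ^ n) = me B e n X) ∧
    ∀ B e n X D q b h p, fld 0 e + 1 = D → fld 1 e = q → b = bS n q D → h = hS n D → p = pS b D → 1 ≤ b → 1 ≤ h →
      1 ≤ q → 2 ^ n ≤ B → Big B D q b h p (tlen (fun j => fld j e) n) →
      me B e n X = 1 - Min.min 1 (simN D q (fld 2 e) b h p (tlen (fun j => fld j e) n) (stR e n X)) := by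
  -- context `a = (B, e, n, ())`
  have eB : E fun a : ℕ × ℕ × ℕ × Unit => a.1 := E.fst
  have ee : E fun a : ℕ × ℕ × ℕ × Unit => a.2.1 := E.snd E.fst
  have en : E fun a : ℕ × ℕ × ℕ × Unit => a.2.2.1 := E.snd (E.snd E.fst)
  have eD : E fun a : ℕ × ℕ × ℕ × Unit => fld 0 a.2.1 + 1 := (E.fld 0 ee).inc
  have eq : E fun a : ℕ × ℕ × ℕ × Unit => fld 1 a.2.1 := E.fld 1 ee
  have eT : E fun a : ℕ × ℕ × ℕ × Unit => fld 2 a.2.1 := E.fld 2 ee
  have ebS : E fun a : ℕ × ℕ × ℕ × Unit => bS a.2.2.1 (fld 1 a.2.1) (fld 0 a.2.1 + 1) := E_bS en eq eD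
  have ehS : E fun a : ℕ × ℕ × ℕ × Unit => hS a.2.2.1 (fld 0 a.2.1 + 1) := E_hS en eD
  have etl : E fun a : ℕ × ℕ × ℕ × Unit => tlen (fun j => fld j a.2.1) a.2.2.1 := E.tlen ee en
  obtain ⟨pF, epF, hpF⟩ := E_pS eB ebS eD
  -- context `v = (B, e, n, X, ())`
  have hG : ∀ i < Ctx.len (ℕ × ℕ × ℕ × Unit),
      E fun v : ℕ × ℕ × ℕ × ℕ × Unit => Ctx.get ((v.1, v.2.1, v.2.2.1, ()) : ℕ × ℕ × ℕ × Unit) i := by
    intro i hi
    rcases i with _ | _ | _ | i
    · exact E.fst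
    · exact E.snd E.fst
    · exact E.snd (E.snd E.fst)
    · exact absurd hi (by show ¬ i + 1 + 1 + 1 < 3; omega)
  have lift : ∀ {f : ℕ × ℕ × ℕ × Unit → ℕ}, E f →
      E fun v : ℕ × ℕ × ℕ × ℕ × Unit => f (v.1, v.2.1, v.2.2.1, ()) := fun hf => E.comp hG hf
  have est : E fun w : ℕ × ℕ × ℕ × ℕ × ℕ × Unit => stR w.2.2.1 w.2.2.2.1 w.2.2.2.2.1 w.1 := by
    have e1 : E fun w : ℕ × ℕ × ℕ × ℕ × ℕ × Unit =>
        if w.1 < tlen (fun j => fld j w.2.2.1) w.2.2.2.1 then 1 else 0 := E.lt E.fst (E.snd (lift etl))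
    have e2 : E fun w : ℕ × ℕ × ℕ × ℕ × ℕ × Unit =>
        3 * (1 + 2 * tpl (fun j => fld j w.2.2.1) w.2.2.2.1 w.2.2.2.2.1 w.1) :=
      (E.const 3).mul ((E.const 1).add ((E.const 2).mul (E.tpl (E.snd (lift ee)) (E.snd (lift en))
        (E.snd (E.snd (E.snd (E.snd E.fst)))) E.fst)))
    exact E.ite e1 e2 (E.const 0)
  have eS : E fun v : ℕ × ℕ × ℕ × ℕ × Unit => simB v.1 (fld 0 v.2.1 + 1) (fld 1 v.2.1) (fld 2 v.2.1)
      (bS v.2.2.1 (fld 1 v.2.1) (fld 0 v.2.1 + 1)) (hS v.2.2.1 (fld 0 v.2.1 + 1))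
      (Max.max 1 (pF (v.1, v.2.1, v.2.2.1, ()))) (tlen (fun j => fld j v.2.1) v.2.2.1)
      fun i => stR v.2.1 v.2.2.1 v.2.2.2.1 i :=
    E.simB (p := fun v : ℕ × ℕ × ℕ × ℕ × Unit => Max.max 1 (pF (v.1, v.2.1, v.2.2.1, ())))
      (fun _ => lt_of_lt_of_le Nat.one_pos (le_max_left _ _)) (lift eB) (lift eD) (lift eq) (lift eT) (lift ebS)
      (lift ehS) (E.max (E.const 1) (lift epF)) (lift etl)
      (st := fun i v => stR v.2.1 v.2.2.1 v.2.2.2.1 i) est
  refine ⟨fun B e n X => 1 - simB B (fld 0 e + 1) (fld 1 e) (fld 2 e) (bS n (fld 1 e) (fld 0 e + 1))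
    (hS n (fld 0 e + 1)) (Max.max 1 (pF (B, e, n, ()))) (tlen (fun j => fld j e) n) fun i => stR e n X i,
    E.sub (E.const 1) eS, fun B e n X => Nat.sub_le _ _, fun B e n X => by simp only [stR_add], ?_⟩
  intro B e n X D q b h p hD hq hb hh hp hb1 hh1 hq1 hnB hBig
  subst hD hq
  subst hb
  subst hh
  subst hp
  have hp2 : 2 ≤ pS (bS n (fld 1 e) (fld 0 e + 1)) (fld 0 e + 1) := (pS_prime _ _).two_le
  have hpB : pS (bS n (fld 1 e) (fld 0 e + 1)) (fld 0 e + 1) ≤ B := by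
    refine le_trans (Nat.le_self_pow ?_ _) hBig.pw
    have : 0 < (3 ^ (fld 0 e + 1) + 1) * bS n (fld 1 e) (fld 0 e + 1) ^ (fld 0 e + 1) * fld 1 e := by positivity
    omega
  have h3B : 3 ^ (fld 0 e + 1) + 1 ≤ B := by
    refine le_trans ?_ hBig.hw
    calc 3 ^ (fld 0 e + 1) + 1 ≤ pS (bS n (fld 1 e) (fld 0 e + 1)) (fld 0 e + 1) * (3 ^ (fld 0 e + 1) + 1) :=
          Nat.le_mul_of_pos_left _ (by omega)
      _ ≤ _ := Nat.le_self_pow (Nat.one_le_iff_ne_zero.1 hh1) _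
  have hpF' : Max.max 1 (pF (B, e, n, ())) = pS (bS n (fld 1 e) (fld 0 e + 1)) (fld 0 e + 1) := by
    rw [hpF (B, e, n, ()) hpB]
    exact max_eq_right (Nat.le_of_lt hp2)
  show 1 - simB _ _ _ _ _ _ _ _ (stR e n X) = _
  rw [hpF', simB_eq (by omega) (by omega) hp2 h3B hBig]

/-- **the negated value of the automaton with the number `e` on the expression of the bits `X`, sizes cut at `B`** -/
noncomputable def meR : ℕ → ℕ → ℕ → ℕ → ℕ := Classical.choose exists_meR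

theorem meR_le (B e n X : ℕ) : meR B e n X ≤ 1 := (Classical.choose_spec exists_meR).2.1 B e n X

/-- only the lowest `n` bits of `X` are read -/
theorem meR_add (B e n X : ℕ) : meR B e n (X + 2 ^ n) = meR B e n X :=
  (Classical.choose_spec exists_meR).2.2.1 B e n X

theorem meR_eq {B e n X D q b h p : ℕ} (hD : fld 0 e + 1 = D) (hq : fld 1 e = q) (hb : b = bS n q D)
    (hh : h = hS n D) (hp : p = pS b D) (hb1 : 1 ≤ b) (hh1 : 1 ≤ h) (hq1 : 1 ≤ q) (hnB : 2 ^ n ≤ B)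
    (hB : Big B D q b h p (tlen (fun j => fld j e) n)) :
    meR B e n X = 1 - Min.min 1 (simN D q (fld 2 e) b h p (tlen (fun j => fld j e) n) (stR e n X)) :=
  (Classical.choose_spec exists_meR).2.2.2 B e n X D q b h p hD hq hb hh hp hb1 hh1 hq1 hnB hB

theorem E.meR {α : Type} [Ctx α] {B e n x : α → ℕ} (hB : E B) (he : E e) (hn : E n) (hx : E x) :
    E fun v => PSM.meR (B v) (e v) (n v) (x v) := by
  have h := (Classical.choose_spec exists_meR).1
  refine E.comp (G := fun v : α => ((B v, e v, n v, x v, ()) : ℕ × ℕ × ℕ × ℕ × Unit)) ?_ h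
  intro i hi
  rcases i with _ | _ | _ | _ | i
  · exact hB
  · exact he
  · exact hn
  · exact hx
  · exact absurd hi (by show ¬ i + 1 + 1 + 1 + 1 < 4; omega)

end Pool.Agent.PSM
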