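import Pool.Agent.PSM.RExp

/-!
# The expression of a history as a word
-/

set_option autoImplicit false

namespace Pool.Agent.PSM

theorem str_anyN (k : ℕ) (r : RegularExpression Bool) :
    str (anyN k r) = (List.replicate k (5 :: str sg)).flatten ++ str r := by
  induction k with
  | zero => simp [anyN]
  | succ k ih => simp [anyN, str, ih, List.replicate_succ]

theorem str_optN (k : ℕ) (r : RegularExpression Bool) :
    str (optN k r) = (List.replicate k (5 :: 4 :: 1 :: str sg)).flatten ++ str r := by
  induction k with
  | zero => simp [optN]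
  | succ k ih => simp [optN, str, ih, List.replicate_succ]

theorem str_repN (B : RegularExpression Bool) (k : ℕ) (r : RegularExpression Bool) :
    str (repN B k r) = (List.replicate k (5 :: str B)).flatten ++ str r := by
  induction k with
  | zero => simp [repN]
  | succ k ih => simp [repN, str, ih, List.replicate_succ]

theorem str_freesN (k : ℕ) (r : RegularExpression Bool) :
    str (freesN k r) = (List.replicate k (4 :: 1 :: 5 :: str sg)).flatten ++ str r := by
  induction k with
  | zero => simp [freesN]
  | succ k ih => simp [freesN, str, ih, List.replicate_succ]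

/-- the symbols of `bitN` -/
def bitS (β : Bool) : List (Fin 7) :=
  [4, 4, 1, 5, if !β then 3 else 2] ++ str al ++ [5, if β then 3 else 2]

theorem str_bitsN (l : List Bool) (r : RegularExpression Bool) :
    str (bitsN l r) = l.flatMap bitS ++ str r := by
  induction l with
  | nil => simp [bitsN]
  | cons b l ih => simp [bitsN, bitN, str, ih, bitS]

theorem bits_length (l : List Bool) : (l.flatMap bitS).length = l.length * (bitS false).length := by
  induction l with
  | nil => simp
  | cons b l ih =>
    have : (bitS b).length = (bitS false).length := by cases b <;> rfl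
    rw [List.flatMap_cons, List.length_append, ih, this, List.length_cons]
    ring

/-- the symbols of a letter -/
def Loc.letS (A : Loc) (b : Bool) : List (Fin 7) :=
  (List.ofFn (A.i0 b)).flatMap bitS ++ (List.replicate A.ℓ (4 :: 1 :: 5 :: str sg)).flatten

theorem str_blksN (A : Loc) (l : List Bool) (r : RegularExpression Bool) :
    str (A.blksN l r) = l.flatMap A.letS ++ str r := by
  induction l with
  | nil => simp [Loc.blksN]
  | cons b l ih => simp [Loc.blksN, str_bitsN, str_freesN, ih, Loc.letS]

theorem str_R (A : Loc) : ∃ (u1 u2 u3 u4 g : List (Fin 7)) (s : Bool → List (Fin 7)),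
    1 ≤ (s false).length ∧ (s true).length = (s false).length ∧ ∀ (n : ℕ) (x : Fin n → Bool), str (A.R x) =
      u1 ++ ((List.ofFn x).flatMap s ++ (u2 ++ ((List.replicate n g).flatten ++
        (u3 ++ ((List.replicate n g).flatten ++ u4))))) := by
  have h2 : ∀ b, (A.letS b).length = A.ℓ * (bitS false).length + A.ℓ * 6 := by
    intro b
    unfold Loc.letS
    rw [List.length_append, bits_length, List.length_ofFn]
    simp [sg, str]
  refine ⟨4 :: ((List.ofFn A.hash).flatMap bitS ++ (List.ofFn A.hash).flatMap bitS),
    0 :: 4 :: 5 :: 6 :: (str A.B2 ++ ((List.replicate A.ℓ (5 :: str sg)).flatten ++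
      ((List.replicate (A.ℓ - 1) (5 :: 4 :: 1 :: str sg)).flatten ++ [4, 5, 2]))),
    (List.replicate (A.ℓ - 1) (5 :: str sg)).flatten ++ (5 :: 3 :: (str al ++ [5, 3])),
    (List.replicate (A.ℓ - 1) (5 :: str sg)).flatten ++ (5 :: 2 :: (str al ++
      4 :: (str A.locE ++ 4 :: (str A.noaccE ++ str A.badE)))),
    5 :: str A.B2, A.letS, ?_, ?_, fun n x => ?_⟩
  · rw [h2]
    have := A.hℓ
    omega
  · rw [h2, h2]
  · unfold Loc.R
    simp only [str]
    unfold Loc.initE Loc.copyE
    simp only [str, str_bitsN, str_blksN, str_anyN, str_optN, str_repN]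
    simp

end Pool.Agent.PSM
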