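import Pool.Agent.PSM.MainT
import Pool.Agent.PSM.LCA
import Pool.Agent.PSM.RLoc
import Pool.Agent.PSM.RHist
import Pool.Agent.PSM.RStr
import Pool.Agent.PSM.RTpl
import Pool.Agent.PSM.RMainA

/-!
# Universality of regular expressions is hard on average for cellular automata: the main theorem

* **`regex`**: the size of the expression measured by `n`;
* **`regexN`**: measured by the length `N` of the expression.
-/

set_option autoImplicit false

open Finset

namespace Pool.Agent.PSM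

variable {d n : ℕ} {Q : Type}

/-! ### automata with seven letters -/

/-- the automaton on the letters of `code2` -/
def CA.t7 (M : CA (d + 1) (Fin 7) Q) : CA (d + 1) (Bool × (Fin 1 → Fin 7)) Q where
  blank := M.blank
  inp a := M.inp (a.2 0)
  rule := M.rule
  out := M.out

theorem CA.result_t7 (M : CA (d + 1) (Fin 7) Q) (T : ℕ) {m : ℕ} (w : Fin m → Fin 7) (b : Bool) :
    M.t7.Result T (fun i => (false, fun _ => w i)) b ↔ M.Result T w b := Iff.rfl

theorem stw_t7 {l : List (Fin 7)} {e n X : ℕ} (hl : l.length = tlen (fun j => fld j e) n)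
    (ht : ∀ (i : ℕ) (h : i < l.length), tpl (fun j => fld j e) n X i = (l[i] : ℕ)) :
    stR e n X = stw (k := 1) (g := 7) fun i => (false, fun _ => l.get i) := by
  funext i
  unfold stR stw
  by_cases h : i < l.length
  · rw [if_pos (hl ▸ h), dif_pos h, ht i h]
    unfold ltr
    simp
  · rw [if_neg (hl ▸ h), dif_neg h]

/-! ### sizes -/

/-- the header is short -/
theorem hdrR_len {d q E K : ℕ} {v : List ℕ} (hE : E < q ^ q ^ 3 ^ (d + 1)) (hq : 2 ≤ q)
    (hK : 2 * (v.map fun a => Nat.log 2 a + 1).sum + v.length ≤ K) :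
    2 * ((d :: q :: E :: v).map fun a => Nat.log 2 a + 1).sum + (d :: q :: E :: v).length + 1 ≤
      (2 * d + K + 20) * q ^ (3 ^ (d + 1) + 1) := by
  have h1 : Nat.log 2 d ≤ d := log_le d
  have h2 : Nat.log 2 q ≤ q := log_le q
  have h4 : Nat.log 2 E ≤ q * q ^ 3 ^ (d + 1) := by
    refine Nat.lt_succ_iff.1 (Nat.log_lt_of_lt_pow' (by omega) ?_)
    calc E < q ^ q ^ 3 ^ (d + 1) := hE
      _ ≤ (2 ^ q) ^ q ^ 3 ^ (d + 1) := Nat.pow_le_pow_left Nat.lt_two_pow_self.le _
      _ = 2 ^ (q * q ^ 3 ^ (d + 1)) := by rw [pow_mul]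
      _ ≤ _ := Nat.pow_le_pow_right (by omega) (by omega)
  have h5 : q * q ^ 3 ^ (d + 1) = q ^ (3 ^ (d + 1) + 1) := (pow_succ' q _).symm
  have h6 : q ≤ q ^ (3 ^ (d + 1) + 1) := Nat.le_self_pow (by omega) q
  rw [h5] at h4
  simp only [List.map_cons, List.sum_cons, List.length_cons]
  nlinarith [Nat.zero_le d, Nat.zero_le K, Nat.mul_le_mul_left (2 * d + K + 16) (le_trans (by omega : 1 ≤ q) h6)]

/-- the length of the expression is at most `2 ^ n` -/
theorem tlen_le {v : ℕ → ℕ} {n W : ℕ} (hW : v 3 + v 5 + v 8 + v 10 + v 12 + v 10 + v 14 ≤ W) (hn : 2 * W ≤ n)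
    (h16 : 16 ≤ n) : tlen v n ≤ 2 ^ n := by
  have h1 : tlen v n ≤ n * (v 3 + v 5 + v 8 + v 10 + v 12 + v 10 + v 14) := by
    unfold tlen
    have h3 : v 3 ≤ n * v 3 := Nat.le_mul_of_pos_left _ (by omega)
    have h8 : v 8 ≤ n * v 8 := Nat.le_mul_of_pos_left _ (by omega)
    have h12 : v 12 ≤ n * v 12 := Nat.le_mul_of_pos_left _ (by omega)
    have h14 : v 14 ≤ n * v 14 := Nat.le_mul_of_pos_left _ (by omega)
    simp only [mul_add]
    omega
  have h2 : n * (v 3 + v 5 + v 8 + v 10 + v 12 + v 10 + v 14) ≤ n * n := Nat.mul_le_mul_left _ (by omega)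
  have h3 : n * n ≤ 2 ^ n := by
    have : ∀ m, 4 ≤ m → m * m ≤ 2 ^ m := by
      intro m hm
      induction m, hm using Nat.le_induction with
      | base => norm_num
      | succ m hm ih =>
        rw [pow_succ]
        nlinarith
    exact this n (by omega)
  exact h1.trans (h2.trans h3)

/-! ### the main theorem -/

open Classical in
/-- **universality of regular expressions is hard on average** -/
theorem regex : ∃ (u1 u2 u3 u4 g : List (Fin 7)) (s : Bool → List (Fin 7))
    (r : (n : ℕ) → (Fin n → Bool) → RegularExpression Bool), 1 ≤ (s false).length ∧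
      (s true).length = (s false).length ∧ (∀ (n : ℕ) (x : Fin n → Bool), str (r n x) = u1 ++ ((List.ofFn x).flatMap s ++ (u2 ++
        ((List.replicate n g).flatten ++ (u3 ++ ((List.replicate n g).flatten ++ u4)))))) ∧
      ∀ d : ℕ, ∃ C : ℕ, ∀ (n : ℕ) (Q : Type) [Fintype Q] (M : CA (d + 1) (Fin 7) Q) (T : ℕ),
        C * Fintype.card Q ^ (3 ^ (d + 1) + 1) ≤ n →
        T ^ (d + 1) * (C * Fintype.card Q * Nat.log 2 n) ^ (d + 2) ≤ n ^ (d + 2) →
        2 * (univ.filter fun x : Fin n → Bool => Answers M T (r n x)).card ≤ 2 ^ n + 2 ^ (n - n / 8) := by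
  have hEm : ∀ {α : Type} [Ctx α] {B e n x : α → ℕ}, E B → E e → E n → E x →
      E fun v => meR (B v) (e v) (n v) (x v) := fun hB he hn hx => E.meR hB he hn hx
  -- the language
  have hL : LinSpace {x : List Bool | fL meR 1 (num x) = 1} :=
    linSpace_of (f := fun a => fL meR 1 a.1) (E_fL hEm 1) fun _ => fL_le _ _ _
  obtain ⟨A, hA⟩ := loc_of (linSpaceCA_of hL)
  obtain ⟨u1, u2, u3, u4, g, s, hs1, hs, hstr⟩ := str_R A
  refine ⟨u1, u2, u3, u4, g, s, fun n x => A.R x, hs1, hs, hstr, fun d => ?_⟩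
  -- the fields
  obtain ⟨v, hv⟩ : ∃ v : List ℕ, v = [u1.length, wn u1, (s false).length, wn (s false), wn (s true), u2.length, wn u2,
    g.length, wn g, u3.length, wn u3, u4.length, wn u4] := ⟨_, rfl⟩
  obtain ⟨K, hK⟩ : ∃ K, K = 2 * (v.map fun a => Nat.log 2 a + 1).sum + v.length := ⟨_, rfl⟩
  obtain ⟨W, hW⟩ : ∃ W, W = u1.length + (s false).length + u2.length + g.length + u3.length + g.length + u4.length :=
    ⟨_, rfl⟩
  obtain ⟨C, hC1, hC⟩ := size (d + 1) (3 * (2 + 2 * 7 ^ 1)) (by omega)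
  obtain ⟨A', hA'⟩ : ∃ A', A' = 8 * (2 * d + K + 20) * (3 * (2 + 2 * 7 ^ 1)) ^ (3 ^ (d + 1) + 1) := ⟨_, rfl⟩
  refine ⟨C + A' + 2 * W + 16, fun n Q _ M T hn hT => ?_⟩
  have hQ : 1 ≤ Fintype.card Q := Fintype.card_pos_iff.2 ⟨M.blank⟩
  have hQp : 1 ≤ Fintype.card Q ^ (3 ^ (d + 1) + 1) := Nat.one_le_pow _ _ hQ
  obtain ⟨q, hq⟩ : ∃ q, q = sc 1 7 (Fintype.card Q) := ⟨_, rfl⟩
  have hqc : q ≤ 3 * (2 + 2 * 7 ^ 1) * Fintype.card Q := hq ▸ sc_le 1 7 hQ
  have hq2 : 2 ≤ q := by
    rw [hq]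
    unfold sc
    omega
  have hnC : C * Fintype.card Q ^ (3 ^ (d + 1) + 1) ≤ n := le_trans (Nat.mul_le_mul_right _ (by omega)) hn
  have hnA : A' * Fintype.card Q ^ (3 ^ (d + 1) + 1) ≤ n := le_trans (Nat.mul_le_mul_right _ (by omega)) hn
  have hnW : 2 * W + 16 ≤ n := by
    refine le_trans ?_ hn
    calc 2 * W + 16 ≤ (C + A' + 2 * W + 16) * 1 := by omega
      _ ≤ _ := Nat.mul_le_mul_left _ hQp
  obtain ⟨hBig, hb1, hh1, hn2, -, hTb⟩ := hC n (Fintype.card Q) q hQ hq2 hqc hnC
  have hT1 : T < bS n q (d + 1) * hS n (d + 1) := by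
    refine hTb T (le_trans ?_ hT)
    exact Nat.mul_le_mul_left _ (Nat.pow_le_pow_left (Nat.mul_le_mul_right _ (Nat.mul_le_mul_right _ (by omega))) _)
  obtain ⟨E0, hE0, hcode⟩ := code2 M.t7
  rw [← hq] at hE0 hcode
  obtain ⟨u, hu, hfld⟩ := headerL (d :: q :: E0 :: v)
  have hlen : u.length + 1 ≤ n / 8 := by
    have h1 := hdrR_len (d := d) (K := K) (v := v) hE0 hq2 hK.ge
    have h3 : q ^ (3 ^ (d + 1) + 1) ≤ (3 * (2 + 2 * 7 ^ 1)) ^ (3 ^ (d + 1) + 1) *
        Fintype.card Q ^ (3 ^ (d + 1) + 1) := by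
      rw [← mul_pow]
      exact Nat.pow_le_pow_left hqc _
    rw [Nat.le_div_iff_mul_le (by omega)]
    calc (u.length + 1) * 8 ≤ ((2 * d + K + 20) * q ^ (3 ^ (d + 1) + 1)) * 8 :=
          Nat.mul_le_mul_right _ ((Nat.succ_le_succ hu).trans h1)
      _ ≤ ((2 * d + K + 20) * ((3 * (2 + 2 * 7 ^ 1)) ^ (3 ^ (d + 1) + 1) *
          Fintype.card Q ^ (3 ^ (d + 1) + 1))) * 8 :=
          Nat.mul_le_mul_right _ (Nat.mul_le_mul_left _ h3)
      _ = A' * Fintype.card Q ^ (3 ^ (d + 1) + 1) := by rw [hA']; ring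
      _ ≤ n := hnA
  have he : num u < 2 ^ (n / 8) := (num_lt u).trans_le (Nat.pow_le_pow_right (by omega) hlen)
  refine le_trans (Nat.mul_le_mul_left 2 (card_le_card ?_))
    (count_fL (m := meR) (c := 1) (fun _ _ _ _ => meR_le _ _ _ _) (fun _ _ _ _ => meR_add _ _ _ _)
      (n := n) (e := num u) (by omega) he)
  intro x hx
  rw [mem_filter] at hx ⊢
  refine ⟨mem_univ _, ?_⟩
  obtain ⟨hres, hans⟩ := hx.2
  subst hv
  have f0 : fld 0 (num u) = d := hfld 0 (by simp)
  have f1 : fld 1 (num u) = q := hfld 1 (by simp)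
  have f2 : fld 2 (num u) = E0 := hfld 2 (by simp)
  have f3 : fld 3 (num u) = u1.length := hfld 3 (by simp)
  have f4 : fld 4 (num u) = wn u1 := hfld 4 (by simp)
  have f5 : fld 5 (num u) = (s false).length := hfld 5 (by simp)
  have f6 : fld 6 (num u) = wn (s false) := hfld 6 (by simp)
  have f7 : fld 7 (num u) = wn (s true) := hfld 7 (by simp)
  have f8 : fld 8 (num u) = u2.length := hfld 8 (by simp)
  have f9 : fld 9 (num u) = wn u2 := hfld 9 (by simp)
  have f10 : fld 10 (num u) = g.length := hfld 10 (by simp)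
  have f11 : fld 11 (num u) = wn g := hfld 11 (by simp)
  have f12 : fld 12 (num u) = u3.length := hfld 12 (by simp)
  have f13 : fld 13 (num u) = wn u3 := hfld 13 (by simp)
  have f14 : fld 14 (num u) = u4.length := hfld 14 (by simp)
  have f15 : fld 15 (num u) = wn u4 := hfld 15 (by simp)
  obtain ⟨htl, htp⟩ := tpl_eq (v := fun j => fld j (num u)) hs f3 f4 f5 f6 f7 f8 f9 f10 f11 f12 f13 f14 f15 x
    (X := num (List.ofFn x)) (num_dgFn x) (hstr n x)
  have hlenn : tlen (fun j => fld j (num u)) n ≤ 2 ^ n := by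
    refine tlen_le (W := W) ?_ (by omega) (by omega)
    simp only [f3, f5, f8, f10, f12, f14, hW]
    exact le_rfl
  have hp := pS_prime (bS n q (d + 1)) (d + 1)
  have hBig' : Big (2 ^ n) (d + 1) q (bS n q (d + 1)) (hS n (d + 1)) (pS (bS n q (d + 1)) (d + 1))
      (tlen (fun j => fld j (num u)) n) := ⟨hBig.pw, hBig.qw, hBig.hw, hBig.nw, hBig.q3, hlenn⟩
  have hme := meR_eq (B := (2 ^ n) ^ 1) (e := num u) (n := n) (X := num (List.ofFn x)) (D := d + 1) (q := q)
    (by rw [f0]) f1 rfl rfl rfl hb1 hh1 (by omega) (by rw [pow_one]) (by rw [pow_one]; exact hBig')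
  obtain ⟨T', hT'⟩ : ∃ T', bS n q (d + 1) * hS n (d + 1) = T' + 1 := ⟨bS n q (d + 1) * hS n (d + 1) - 1, by omega⟩
  have hTT : M.Result T' (str (A.R x)).get true ↔ M.Result T (str (A.R x)).get true := by
    constructor
    · intro h
      rcases hres with h' | h'
      · exact h'
      · exact absurd h (h' T')
    · rintro ⟨t, ht, h⟩
      exact ⟨t, by omega, h⟩
  have hsim : Min.min 1 (simN (d + 1) q (fld 2 (num u)) (bS n q (d + 1)) (hS n (d + 1))
      (pS (bS n q (d + 1)) (d + 1)) (tlen (fun j => fld j (num u)) n) (stR (num u) n (num (List.ofFn x)))) = 1 ↔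
      M.Result T (str (A.R x)).get true := by
    rw [f2, ← htl, stw_t7 htl htp, simN_eq hp (lt_pS _ _) hb1 (by omega) fun i => hq ▸ stw_lt _ _ i, ← hTT,
      ← CA.result_t7, ← hcode _ _ T', hT']
    split_ifs <;> simp_all
  have huniv : (∀ w : List Bool, w ∈ (A.R x).matches') ↔ ¬ fL meR 1 (num (List.ofFn x)) = 1 := by
    rw [R_univ A (by omega) x, ← hA n (by omega) x]
    rfl
  have h3 : fL meR 1 (num (List.ofFn x)) ≤ 1 := fL_le _ _ _
  rw [hme]
  by_cases hR : M.Result T (str (A.R x)).get true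
  · have h4 := hsim.2 hR
    have h5 : ¬ fL meR 1 (num (List.ofFn x)) = 1 := huniv.1 (hans.1 hR)
    rw [h4]
    omega
  · have h4 : ¬ Min.min 1 (simN (d + 1) q (fld 2 (num u)) (bS n q (d + 1)) (hS n (d + 1))
      (pS (bS n q (d + 1)) (d + 1)) (tlen (fun j => fld j (num u)) n) (stR (num u) n (num (List.ofFn x)))) = 1 :=
      fun h => hR (hsim.1 h)
    have h5 : fL meR 1 (num (List.ofFn x)) = 1 := by
      by_contra h
      exact hR (hans.2 (huniv.2 h))
    have h6 := min_le_left 1 (simN (d + 1) q (fld 2 (num u)) (bS n q (d + 1)) (hS n (d + 1))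
      (pS (bS n q (d + 1)) (d + 1)) (tlen (fun j => fld j (num u)) n) (stR (num u) n (num (List.ofFn x))))
    rw [h5]
    omega

/-! ### with the length of the expression -/

theorem length_flatMap {s : Bool → List (Fin 7)} (hs : (s true).length = (s false).length) (l : List Bool) :
    (l.flatMap s).length = l.length * (s false).length := by
  induction l with
  | nil => simp
  | cons b l ih =>
    have hb : (s b).length = (s false).length := by cases b <;> simp [hs]
    rw [List.flatMap_cons, List.length_append, ih, hb, List.length_cons]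
    ring

open Classical in
/-- **universality of regular expressions is hard on average**, `N` the length of the expression -/
theorem regexN : ∃ (u1 u2 u3 u4 g : List (Fin 7)) (s : Bool → List (Fin 7))
    (r : (n : ℕ) → (Fin n → Bool) → RegularExpression Bool), 0 < (s false).length ∧
      (s true).length = (s false).length ∧
      (∀ (n : ℕ) (x : Fin n → Bool), str (r n x) = u1 ++ (List.ofFn x).flatMap s ++ u2 ++
        (List.replicate n g).flatten ++ u3 ++ (List.replicate n g).flatten ++ u4) ∧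
      ∀ d : ℕ, ∃ C : ℕ, ∀ (n N : ℕ) (Q : Type) [Fintype Q] (M : CA (d + 1) (Fin 7) Q) (T : ℕ),
        (∀ x : Fin n → Bool, (str (r n x)).length = N) →
        C * Fintype.card Q ^ (3 ^ (d + 1) + 1) ≤ N →
        T ^ (d + 1) * (C * Fintype.card Q * Nat.log 2 N) ^ (d + 2) ≤ N ^ (d + 2) →
        2 * (univ.filter fun x : Fin n → Bool => Answers M T (r n x)).card ≤ 2 ^ n + 2 ^ (n - n / 8) := by
  obtain ⟨u1, u2, u3, u4, g, s, r, hs1, hs, hstr, h⟩ := regex
  refine ⟨u1, u2, u3, u4, g, s, r, hs1, hs, fun n x => ?_, fun d => ?_⟩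
  · rw [hstr]
    simp only [List.append_assoc]
  obtain ⟨C, hC⟩ := h d
  obtain ⟨W, hW⟩ : ∃ W, W = u1.length + (s false).length + u2.length + g.length + u3.length + g.length + u4.length :=
    ⟨_, rfl⟩
  refine ⟨W * C + W + 1, fun n N Q _ M T hN hn hT => ?_⟩
  have hQ : 1 ≤ Fintype.card Q := Fintype.card_pos_iff.2 ⟨M.blank⟩
  have hQp : 1 ≤ Fintype.card Q ^ (3 ^ (d + 1) + 1) := Nat.one_le_pow _ _ hQ
  have hW1 : 1 ≤ W := by omega
  have hNl : N = u1.length + (n * (s false).length + (u2.length + (n * g.length + (u3.length + (n * g.length +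
      u4.length))))) := by
    rw [← hN fun _ => false, hstr]
    simp only [List.length_append, length_flatMap hs, List.length_ofFn, List.length_flatten, List.map_replicate,
      List.sum_replicate, smul_eq_mul]
  have hNW : W + 1 ≤ N := by
    refine le_trans ?_ hn
    calc W + 1 ≤ (W * C + W + 1) * 1 := by
          have := Nat.zero_le (W * C)
          omega
      _ ≤ _ := Nat.mul_le_mul_left _ hQp
  have hn1 : 1 ≤ n := by
    by_contra h0
    have h0' : n = 0 := by omega
    subst h0'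
    simp only [Nat.zero_mul, Nat.zero_add] at hNl
    omega
  have hNn : N ≤ W * n := by
    rw [hNl, hW]
    have h1 : u1.length ≤ u1.length * n := Nat.le_mul_of_pos_right _ hn1
    have h2 : u2.length ≤ u2.length * n := Nat.le_mul_of_pos_right _ hn1
    have h3 : u3.length ≤ u3.length * n := Nat.le_mul_of_pos_right _ hn1
    have h4 : u4.length ≤ u4.length * n := Nat.le_mul_of_pos_right _ hn1
    rw [Nat.mul_comm n (s false).length, Nat.mul_comm n g.length]
    simp only [add_mul]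
    omega
  have hnN : n ≤ N := by
    have : n * 1 ≤ n * (s false).length := Nat.mul_le_mul_left _ hs1
    omega
  refine hC n Q M T ?_ ?_
  · have h1 : W * (C * Fintype.card Q ^ (3 ^ (d + 1) + 1)) ≤ W * n := by
      calc W * (C * Fintype.card Q ^ (3 ^ (d + 1) + 1)) = (W * C) * Fintype.card Q ^ (3 ^ (d + 1) + 1) := by ring
        _ ≤ (W * C + W + 1) * Fintype.card Q ^ (3 ^ (d + 1) + 1) := Nat.mul_le_mul_right _ (by omega)
        _ ≤ N := hn
        _ ≤ W * n := hNn
    exact Nat.le_of_mul_le_mul_left h1 hW1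
  · have h1 : W ^ (d + 2) * (T ^ (d + 1) * (C * Fintype.card Q * Nat.log 2 n) ^ (d + 2)) ≤ W ^ (d + 2) * n ^ (d + 2) := by
      calc W ^ (d + 2) * (T ^ (d + 1) * (C * Fintype.card Q * Nat.log 2 n) ^ (d + 2)) =
            T ^ (d + 1) * (W * C * Fintype.card Q * Nat.log 2 n) ^ (d + 2) := by
              rw [show W * C * Fintype.card Q * Nat.log 2 n = W * (C * Fintype.card Q * Nat.log 2 n) by ring,
                mul_pow W]
              ring
        _ ≤ T ^ (d + 1) * ((W * C + W + 1) * Fintype.card Q * Nat.log 2 N) ^ (d + 2) := by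
              refine Nat.mul_le_mul_left _ (Nat.pow_le_pow_left ?_ _)
              exact Nat.mul_le_mul (Nat.mul_le_mul_right _ (by omega)) (Nat.log_mono_right hnN)
        _ ≤ N ^ (d + 2) := hT
        _ ≤ (W * n) ^ (d + 2) := Nat.pow_le_pow_left hNn _
        _ = W ^ (d + 2) * n ^ (d + 2) := mul_pow _ _ _
    exact Nat.le_of_mul_le_mul_left h1 (Nat.pow_pos hW1)

end Pool.Agent.PSM
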