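import Pool.Agent.PSM.RExp

/-!
# Pieces of expressions: which words they generate
-/

set_option autoImplicit false

namespace Pool.Agent.PSM

variable {w : List Bool} {P Q r B : RegularExpression Bool}

theorem mem_plus : w ∈ (RegularExpression.plus P Q).matches' ↔ w ∈ P.matches' ∨ w ∈ Q.matches' := Iff.rfl

theorem mem_comp : w ∈ (RegularExpression.comp P Q).matches' ↔
    ∃ u v, u ∈ P.matches' ∧ v ∈ Q.matches' ∧ u ++ v = w := by
  constructor
  · rintro ⟨u, hu, v, hv, rfl⟩
    exact ⟨u, v, hu, hv, rfl⟩
  · rintro ⟨u, v, hu, hv, rfl⟩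
    exact ⟨u, hu, v, hv, rfl⟩

theorem mem_zero : w ∉ (RegularExpression.zero : RegularExpression Bool).matches' := fun h => h

theorem mem_eps : w ∈ (RegularExpression.epsilon : RegularExpression Bool).matches' ↔ w = [] := Iff.rfl

theorem mem_char {b : Bool} : w ∈ (RegularExpression.char b).matches' ↔ w = [b] := Iff.rfl

theorem mem_sg : w ∈ sg.matches' ↔ w.length = 1 := by
  rw [sg, mem_plus, mem_char, mem_char, List.length_eq_one_iff]
  constructor
  · rintro (h | h)
    · exact ⟨_, h⟩
    · exact ⟨_, h⟩
  · rintro ⟨b, h⟩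
    cases b
    · exact Or.inl h
    · exact Or.inr h

theorem mem_compl_char {b : Bool} : w ∈ (RegularExpression.comp (.char b) r).matches' ↔
    ∃ v ∈ r.matches', w = b :: v := by
  rw [mem_comp]
  constructor
  · rintro ⟨u, v, hu, hv, rfl⟩
    rw [mem_char] at hu
    subst hu
    exact ⟨v, hv, rfl⟩
  · rintro ⟨v, hv, rfl⟩
    exact ⟨[b], v, mem_char.2 rfl, hv, rfl⟩

/-- a piece whose words are exactly the words of length `c`, then `Q` -/
private theorem mem_len {c : ℕ} (hB : ∀ w, w ∈ B.matches' ↔ w.length = c) :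
    w ∈ (RegularExpression.comp B Q).matches' ↔ c ≤ w.length ∧ w.drop c ∈ Q.matches' := by
  rw [mem_comp]
  constructor
  · rintro ⟨u, v, hu, hv, rfl⟩
    rw [hB] at hu
    subst hu
    refine ⟨by simp, ?_⟩
    rwa [List.drop_left]
  · rintro ⟨h1, h2⟩
    exact ⟨w.take c, w.drop c, (hB _).2 (by simp [h1]), h2, List.take_append_drop c w⟩

theorem mem_anyN {k : ℕ} : w ∈ (anyN k r).matches' ↔ k ≤ w.length ∧ w.drop k ∈ r.matches' := by
  induction k generalizing w with
  | zero => simp [anyN]
  | succ k ih =>
    rw [anyN, mem_len (fun _ => mem_sg), ih, List.length_drop, List.drop_drop, Nat.add_comm 1 k]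
    constructor
    · rintro ⟨h1, h2, h3⟩
      exact ⟨by omega, h3⟩
    · rintro ⟨h1, h3⟩
      exact ⟨by omega, by omega, h3⟩

theorem mem_optN {k : ℕ} : w ∈ (optN k r).matches' ↔ ∃ j ≤ k, j ≤ w.length ∧ w.drop j ∈ r.matches' := by
  induction k generalizing w with
  | zero =>
    rw [optN]
    constructor
    · intro h
      exact ⟨0, le_rfl, Nat.zero_le _, by simpa using h⟩
    · rintro ⟨j, hj, -, h⟩
      obtain rfl : j = 0 := by omega
      simpa using h
  | succ k ih =>
    rw [optN, mem_comp]
    constructor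
    · rintro ⟨u, v, hu, hv, rfl⟩
      obtain ⟨j, hj, hl, h⟩ := ih.1 hv
      rcases mem_plus.1 hu with hu | hu
      · rw [mem_eps] at hu
        subst hu
        exact ⟨j, by omega, by simpa using hl, by simpa using h⟩
      · rw [mem_sg] at hu
        refine ⟨j + 1, by omega, by rw [List.length_append]; omega, ?_⟩
        rwa [Nat.add_comm j 1, ← hu, ← List.drop_drop, List.drop_left]
    · rintro ⟨j, hj, hl, h⟩
      rcases j with _ | j
      · exact ⟨[], w, mem_plus.2 (Or.inl (mem_eps.2 rfl)), ih.2 ⟨0, Nat.zero_le _, Nat.zero_le _, h⟩, rfl⟩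
      · refine ⟨w.take 1, w.drop 1, mem_plus.2 (Or.inr (mem_sg.2 (by rw [List.length_take]; omega))),
          ih.2 ⟨j, by omega, by rw [List.length_drop]; omega, ?_⟩, List.take_append_drop 1 w⟩
        rw [List.drop_drop, Nat.add_comm 1 j]
        exact h

theorem mem_blkE {k : ℕ} : w ∈ (blkE k).matches' ↔ w.length = k + 1 := by
  induction k generalizing w with
  | zero => exact mem_sg
  | succ k ih =>
    rw [blkE, mem_len (fun _ => mem_sg), ih, List.length_drop]
    omega

theorem mem_repN {c n : ℕ} (hB : ∀ w, w ∈ B.matches' ↔ w.length = c) :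
    w ∈ (repN B n r).matches' ↔ n * c ≤ w.length ∧ w.drop (n * c) ∈ r.matches' := by
  induction n generalizing w with
  | zero => simp [repN]
  | succ n ih =>
    rw [repN, mem_len hB, ih, List.length_drop, List.drop_drop, Nat.add_comm c (n * c), ← Nat.succ_mul]
    constructor
    · rintro ⟨h1, h2, h3⟩
      rw [Nat.succ_mul] at h3 ⊢
      exact ⟨by omega, h3⟩
    · rintro ⟨h1, h3⟩
      rw [Nat.succ_mul] at h1 h3 ⊢
      exact ⟨by omega, by omega, h3⟩

theorem mem_wdN {l : List Bool} : w ∈ (wdN l r).matches' ↔ ∃ v ∈ r.matches', w = l ++ v := by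
  induction l generalizing w with
  | nil => simp [wdN]
  | cons b l ih =>
    rw [wdN, mem_compl_char]
    constructor
    · rintro ⟨v, hv, rfl⟩
      obtain ⟨u, hu, rfl⟩ := ih.1 hv
      exact ⟨u, hu, rfl⟩
    · rintro ⟨u, hu, rfl⟩
      exact ⟨l ++ u, ih.2 ⟨u, hu, rfl⟩, rfl⟩

theorem mem_sumE {l : List (RegularExpression Bool)} : w ∈ (sumE l).matches' ↔ ∃ r ∈ l, w ∈ r.matches' := by
  induction l with
  | nil =>
    rw [sumE]
    constructor
    · intro h
      exact absurd h mem_zero
    · rintro ⟨r, hr, -⟩
      simp at hr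
  | cons a l ih =>
    rw [sumE, mem_plus, ih]
    simp

/-- a star of words of length `c` -/
private theorem star_step {c : ℕ} (hc : 0 < c) (hB : ∀ w, w ∈ B.matches' → w.length = c) :
    w ∈ (RegularExpression.star B).matches' ↔
      w = [] ∨ (c ≤ w.length ∧ w.take c ∈ B.matches' ∧ w.drop c ∈ (RegularExpression.star B).matches') := by
  constructor
  · intro h
    obtain ⟨L, rfl, hL⟩ := Language.mem_kstar.1 h
    rcases L with _ | ⟨u, L⟩
    · exact Or.inl rfl
    · right
      have hu : u ∈ B.matches' := hL u (by simp)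
      have hl := hB u hu
      have h1 : (u :: L).flatten = u ++ L.flatten := rfl
      subst hl
      rw [h1]
      refine ⟨by simp, ?_, ?_⟩
      · rwa [List.take_left]
      · rw [List.drop_left]
        exact Language.mem_kstar.2 ⟨L, rfl, fun y hy => hL y (by simp [hy])⟩
  · rintro (rfl | ⟨-, h2, h3⟩)
    · exact Language.mem_kstar.2 ⟨[], rfl, by simp⟩
    · obtain ⟨L, hL, hL'⟩ := Language.mem_kstar.1 h3
      refine Language.mem_kstar.2 ⟨w.take c :: L, ?_, ?_⟩
      · rw [List.flatten_cons, ← hL, List.take_append_drop]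
      · intro y hy
        rcases List.mem_cons.1 hy with rfl | hy
        · exact h2
        · exact hL' y hy

theorem mem_starL {c : ℕ} (hc : 0 < c) (hB : ∀ w, w ∈ B.matches' → w.length = c) :
    w ∈ (RegularExpression.star B).matches' ↔
      c ∣ w.length ∧ ∀ p < w.length / c, (w.drop (p * c)).take c ∈ B.matches' := by
  induction hm : w.length using Nat.strong_induction_on generalizing w with
  | _ m ih =>
  subst hm
  rw [star_step hc hB]
  constructor
  · rintro (rfl | ⟨h1, h2, h3⟩)
    · exact ⟨by simp, by simp⟩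
    · have hl : (w.drop c).length = w.length - c := List.length_drop
      obtain ⟨h4, h5⟩ := (ih (w.drop c).length (by rw [hl]; omega) rfl).1 h3
      rw [hl] at h4 h5
      refine ⟨?_, ?_⟩
      · have := Nat.dvd_add h4 (Nat.dvd_refl c)
        rwa [Nat.sub_add_cancel h1] at this
      · intro p hp
        rcases p with _ | p
        · simpa using h2
        · have h6 : w.length / c = (w.length - c) / c + 1 := by
            rw [← Nat.add_div_right _ hc, Nat.sub_add_cancel h1]
          have := h5 p (by omega)
          rw [List.drop_drop] at this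
          rwa [Nat.succ_mul, Nat.add_comm (p * c) c]
  · rintro ⟨h1, h2⟩
    rcases Nat.eq_zero_or_pos w.length with h0 | h0
    · exact Or.inl (List.length_eq_zero_iff.1 h0)
    · right
      have h3 : c ≤ w.length := Nat.le_of_dvd h0 h1
      have h6 : w.length / c = (w.length - c) / c + 1 := by
        rw [← Nat.add_div_right _ hc, Nat.sub_add_cancel h3]
      have hl : (w.drop c).length = w.length - c := List.length_drop
      refine ⟨h3, ?_, ?_⟩
      · have := h2 0 (by rw [h6]; exact Nat.succ_pos _)
        simpa using this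
      · refine (ih (w.drop c).length (by rw [hl]; omega) rfl).2 ⟨?_, ?_⟩
        · rw [hl]
          exact Nat.dvd_sub h1 (Nat.dvd_refl c)
        · intro p hp
          rw [hl] at hp
          have := h2 (p + 1) (by omega)
          rw [List.drop_drop]
          rwa [Nat.succ_mul, Nat.add_comm (p * c) c] at this

theorem mem_starB {c : ℕ} (hc : 0 < c) (hB : ∀ w, w ∈ B.matches' ↔ w.length = c) :
    w ∈ (RegularExpression.star B).matches' ↔ c ∣ w.length := by
  rw [mem_starL hc fun w h => (hB w).1 h]
  constructor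
  · exact fun h => h.1
  · intro h
    refine ⟨h, fun p hp => (hB _).2 ?_⟩
    rw [List.length_take, List.length_drop, Nat.min_eq_left]
    have h1 : (p + 1) * c ≤ w.length / c * c := Nat.mul_le_mul_right c hp
    rw [Nat.div_mul_cancel h, Nat.succ_mul] at h1
    omega

theorem mem_al : w ∈ al.matches' := by
  rw [al, mem_starB Nat.one_pos fun _ => mem_sg]
  exact one_dvd _

theorem not_bitsN {l : List Bool} : w ∉ (bitsN l r).matches' ↔ ∃ v, v ∉ r.matches' ∧ w = l ++ v := by
  induction l generalizing w with
  | nil => simp [bitsN]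
  | cons b l ih =>
    rw [bitsN, bitN, mem_plus, mem_plus, mem_eps, mem_compl_char, mem_compl_char]
    constructor
    · intro h
      rcases w with _ | ⟨a, w⟩
      · exact absurd (Or.inl (Or.inl rfl)) h
      · by_cases ha : a = b
        · subst ha
          have h1 : w ∉ (bitsN l r).matches' := fun h2 => h (Or.inr ⟨w, h2, rfl⟩)
          obtain ⟨v, hv, rfl⟩ := ih.1 h1
          exact ⟨v, hv, rfl⟩
        · exfalso
          apply h
          left
          right
          refine ⟨w, mem_al, ?_⟩
          rw [Bool.eq_not.2 ha]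
    · rintro ⟨v, hv, rfl⟩
      rintro ((h | ⟨u, -, h⟩) | ⟨u, hu, h⟩)
      · simp at h
      · rw [List.cons_append, List.cons.injEq] at h
        exact absurd h.1 (by cases b <;> decide)
      · rw [List.cons_append, List.cons.injEq] at h
        exact ih.2 ⟨v, hv, h.2.symm⟩ hu

theorem not_freesN {k : ℕ} : w ∉ (freesN k r).matches' ↔ k ≤ w.length ∧ w.drop k ∉ r.matches' := by
  induction k generalizing w with
  | zero => simp [freesN]
  | succ k ih =>
    rw [freesN, mem_plus, mem_eps, mem_len (fun _ => mem_sg), not_or, not_and]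
    constructor
    · rintro ⟨h1, h2⟩
      have h3 : 1 ≤ w.length := by
        rcases w with _ | ⟨a, w⟩
        · exact absurd rfl h1
        · simp
      obtain ⟨h4, h5⟩ := ih.1 (h2 h3)
      rw [List.length_drop] at h4
      rw [List.drop_drop, Nat.add_comm 1 k] at h5
      exact ⟨by omega, h5⟩
    · rintro ⟨h1, h2⟩
      refine ⟨?_, fun _ => ih.2 ⟨?_, ?_⟩⟩
      · rintro rfl
        simp at h1
      · rw [List.length_drop]
        omega
      · rwa [List.drop_drop, Nat.add_comm 1 k]

end Pool.Agent.PSM
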