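import Pool.Agent.PSM.RBlk
import Pool.Agent.PSM.RSem

/-!
# The expressions `initE` and `badE`

* `mem_B2`: `A.B2` generates the words of length `2 ℓ`;
* **`not_init`**: the words which do not match `A.initE x` are the words which begin with the block `(hash, hash)` and
  blocks with the first halves `A.i0 (x i)`;
* **`not_bad`**: the words which do not match `A.badE` are the words whose length is a multiple of `2 ℓ`.
-/

set_option autoImplicit false

namespace Pool.Agent.PSM

private theorem getD_drop27 (w : List Bool) (k j : ℕ) : (w.drop k).getD j false = w.getD (k + j) false := by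
  simp [List.getD_eq_getElem?_getD, List.getElem?_drop]

/-- the word `a`, then `u` -/
private theorem pre27 {k : ℕ} {a : Fin k → Bool} {w u : List Bool} :
    w = List.ofFn a ++ u ↔ k ≤ w.length ∧ (fun j : Fin k => w.getD j false) = a ∧ u = w.drop k := by
  constructor
  · rintro rfl
    refine ⟨by simp, ?_, by simp⟩
    funext j
    have hj : (j : ℕ) < (List.ofFn a ++ u).length := by
      rw [List.length_append, List.length_ofFn]; omega
    rw [List.getD_eq_getElem _ _ hj, List.getElem_append_left (by simp), List.getElem_ofFn]
  · rintro ⟨hk, rfl, rfl⟩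
    refine List.ext_getElem ?_ fun i h1 h2 => ?_
    · rw [List.length_append, List.length_ofFn, List.length_drop]; omega
    · by_cases hi : i < k
      · rw [List.getElem_append_left (by simpa using hi), List.getElem_ofFn, List.getD_eq_getElem _ _ h1]
      · rw [List.getElem_append_right (by simpa using hi), List.getElem_drop]
        simp only [List.length_ofFn]
        congr 1
        omega

private theorem not_bitsF27 {k : ℕ} {a : Fin k → Bool} {w : List Bool} {r : RegularExpression Bool} :
    w ∉ (bitsN (List.ofFn a) r).matches' ↔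
      k ≤ w.length ∧ (fun j : Fin k => w.getD j false) = a ∧ w.drop k ∉ r.matches' := by
  rw [not_bitsN]
  constructor
  · rintro ⟨v, hv, hw⟩
    obtain ⟨h1, h2, rfl⟩ := pre27.1 hw
    exact ⟨h1, h2, hv⟩
  · rintro ⟨h1, h2, h3⟩
    exact ⟨_, h3, pre27.2 ⟨h1, h2, rfl⟩⟩

variable (A : Loc)

/-- the first half of the first block -/
private theorem fb_zero27 (w : List Bool) : A.fb w 0 = fun j : Fin A.ℓ => w.getD j false := by
  funext j
  simp [Loc.fb]

private theorem sb_zero27 (w : List Bool) : A.sb w 0 = fun j : Fin A.ℓ => (w.drop A.ℓ).getD j false := by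
  funext j
  simp only [Loc.sb, getD_drop27]
  congr 1
  omega

private theorem fb_drop27 (w : List Bool) (p : ℕ) : A.fb ((w.drop A.ℓ).drop A.ℓ) p = A.fb w (p + 1) := by
  funext j
  simp only [Loc.fb, getD_drop27]
  congr 1
  ring

private theorem not_blks27 (l : List Bool) : ∀ w : List Bool, w ∉ (A.blksN l .zero).matches' ↔
    2 * A.ℓ * l.length ≤ w.length ∧ ∀ (i : ℕ) (h : i < l.length), A.fb w i = A.i0 l[i] := by
  induction l with
  | nil =>
    intro w
    simp only [Loc.blksN, List.length_nil, Nat.mul_zero, Nat.zero_le, true_and]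
    exact ⟨fun _ i h => absurd h (Nat.not_lt_zero _), fun _ => mem_zero⟩
  | cons b l ih =>
    intro w
    simp only [Loc.blksN]
    rw [not_bitsF27, not_freesN, ih]
    constructor
    · rintro ⟨h1, h2, h3, h4, h5⟩
      refine ⟨?_, ?_⟩
      · simp only [List.length_drop, List.length_cons] at h3 h4 ⊢
        rw [Nat.mul_succ]
        by_cases hl : 2 * A.ℓ * l.length = 0
        · omega
        · omega
      · intro i h
        cases i with
        | zero => rw [fb_zero27, h2]; rfl
        | succ i =>
          have hi : i < l.length := by simpa using h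
          have := h5 i hi
          rw [fb_drop27] at this
          simpa using this
    · rintro ⟨h1, h2⟩
      simp only [List.length_cons, Nat.mul_succ] at h1
      refine ⟨by omega, ?_, ?_, ?_, ?_⟩
      · have := h2 0 (by simp)
        rw [fb_zero27] at this
        simpa using this
      · simp only [List.length_drop]
        omega
      · simp only [List.length_drop]
        omega
      · intro i hi
        rw [fb_drop27]
        have := h2 (i + 1) (by simpa using hi)
        simpa using this

variable {n : ℕ} {w : List Bool}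

/-- the blocks -/
theorem mem_B2 : w ∈ A.B2.matches' ↔ w.length = 2 * A.ℓ := by
  have h := A.hℓ
  rw [Loc.B2, mem_blkE]
  omega

/-- **the beginning of the history** -/
theorem not_init (x : Fin n → Bool) : w ∉ (A.initE x).matches' ↔ 2 * A.ℓ * (n + 1) ≤ w.length ∧
    A.fb w 0 = A.hash ∧ A.sb w 0 = A.hash ∧ ∀ i : Fin n, A.fb w (i + 1) = A.i0 (x i) := by
  rw [Loc.initE, not_bitsF27, not_bitsF27, not_blks27, fb_zero27, sb_zero27]
  simp only [List.length_drop, List.length_ofFn, fb_drop27, Nat.mul_succ, List.getElem_ofFn]
  constructor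
  · rintro ⟨h1, h2, h3, h4, h5, h6⟩
    exact ⟨by omega, h2, h4, fun i => h6 i i.2⟩
  · rintro ⟨h1, h2, h3, h4⟩
    exact ⟨by omega, h2, by omega, h3, by omega, fun i hi => h4 ⟨i, hi⟩⟩

/-- **the length of the word** -/
theorem not_bad : w ∉ A.badE.matches' ↔ 2 * A.ℓ ∣ w.length := by
  have hℓ : 0 < 2 * A.ℓ := by have := A.hℓ; omega
  have key : ∀ v : List Bool, v ∈ (RegularExpression.comp sg (optN (2 * A.ℓ - 2) .epsilon)).matches' ↔
      1 ≤ v.length ∧ v.length < 2 * A.ℓ := by
    intro v
    rw [mem_comp]
    constructor
    · rintro ⟨a, b, ha, hb, rfl⟩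
      rw [mem_sg] at ha
      rw [mem_optN] at hb
      obtain ⟨j, hj, hjb, hb⟩ := hb
      rw [mem_eps] at hb
      have := congrArg List.length hb
      simp only [List.length_drop, List.length_nil] at this
      rw [List.length_append]
      have := A.hℓ
      omega
    · rintro ⟨h1, h2⟩
      refine ⟨v.take 1, v.drop 1, ?_, ?_, List.take_append_drop 1 v⟩
      · rw [mem_sg, List.length_take]
        omega
      · rw [mem_optN]
        refine ⟨v.length - 1, by omega, by simp, ?_⟩
        rw [mem_eps, List.drop_drop]
        exact List.drop_eq_nil_of_le (by omega)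
  rw [not_iff_comm]
  constructor
  · intro h
    rw [Loc.badE, mem_comp]
    have hd := Nat.div_add_mod w.length (2 * A.ℓ)
    have hm := Nat.mod_lt w.length hℓ
    have hm0 : w.length % (2 * A.ℓ) ≠ 0 := fun h0 => h (Nat.dvd_of_mod_eq_zero h0)
    refine ⟨w.take (2 * A.ℓ * (w.length / (2 * A.ℓ))), w.drop (2 * A.ℓ * (w.length / (2 * A.ℓ))), ?_, ?_,
      List.take_append_drop _ w⟩
    · rw [mem_starB hℓ fun w => mem_B2 A, List.length_take, Nat.min_eq_left (by omega)]
      exact Nat.dvd_mul_right _ _
    · rw [key, List.length_drop]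
      omega
  · intro h hdv
    rw [Loc.badE, mem_comp] at h
    obtain ⟨u, v, hu, hv, rfl⟩ := h
    rw [mem_starB hℓ fun w => mem_B2 A] at hu
    rw [key] at hv
    rw [List.length_append, Nat.dvd_add_right hu] at hdv
    have := Nat.le_of_dvd (by omega) hdv
    omega

end Pool.Agent.PSM
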