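import Pool.Agent.PSM.RDefs

/-!
# Universality of regular expressions and cellular automata in the words of the theory

* `RegexSt`: the statement of the main theorem;
* **`regex_sep`**: no cellular automaton of any dimension `D` answers, for all regular expressions `r` of length `N`,
  whether `r` generates all words, within `T N` steps, `T N ≤ (N / (c log N)) ^ (1 + 1 / D)` for all `c` and all large
  `N`; **`regex_lin`**: in linear time.
-/

set_option autoImplicit false

open Filter

namespace Pool.Agent.PSM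

open Classical in
/-- the statement of the main theorem -/
def RegexSt : Prop :=
  ∃ (u1 u2 u3 u4 g : List (Fin 7)) (s : Bool → List (Fin 7)) (r : (n : ℕ) → (Fin n → Bool) → RegularExpression Bool),
    0 < (s false).length ∧ (s true).length = (s false).length ∧
      (∀ (n : ℕ) (x : Fin n → Bool), str (r n x) = u1 ++ (List.ofFn x).flatMap s ++ u2 ++
        (List.replicate n g).flatten ++ u3 ++ (List.replicate n g).flatten ++ u4) ∧
      ∀ d : ℕ, ∃ C : ℕ, ∀ (n N : ℕ) (Q : Type) [Fintype Q] (M : CA (d + 1) (Fin 7) Q) (T : ℕ),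
        (∀ x : Fin n → Bool, (str (r n x)).length = N) → C * Fintype.card Q ^ (3 ^ (d + 1) + 1) ≤ N →
        T ^ (d + 1) * (C * Fintype.card Q * Nat.log 2 N) ^ (d + 2) ≤ N ^ (d + 2) →
        2 * (Finset.univ.filter fun x : Fin n → Bool => Answers M T (r n x)).card ≤ 2 ^ n + 2 ^ (n - n / 8)

/-- the length of a word with letters of the same length -/
private theorem len_flatMap {s : Bool → List (Fin 7)} {a : ℕ} (h0 : (s false).length = a) (h1 : (s true).length = a)
    (l : List Bool) : (l.flatMap s).length = l.length * a := by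
  induction l with
  | nil => simp
  | cons b l ih =>
    rw [List.flatMap_cons, List.length_append, ih, List.length_cons]
    cases b
    · rw [h0]; ring
    · rw [h1]; ring

/-- **no cellular automaton of any dimension answers within `T N` steps** -/
theorem regex_sep (H : RegexSt) {d : ℕ} {Q : Type} [Fintype Q] (M : CA (d + 1) (Fin 7) Q) (T : ℕ → ℕ)
    (hT : ∀ c : ℕ, ∀ᶠ N in atTop, T N ^ (d + 1) * (c * Nat.log 2 N) ^ (d + 2) ≤ N ^ (d + 2)) :
    ¬ ∀ r : RegularExpression Bool, Answers M (T (str r).length) r := by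
  classical
  intro hall
  obtain ⟨u1, u2, u3, u4, g, s, r, hs0, hs, hstr, HC⟩ := H
  obtain ⟨C, hC⟩ := HC d
  obtain ⟨N0, hN0⟩ := eventually_atTop.1 (hT (C * Fintype.card Q))
  obtain ⟨n, hn⟩ : ∃ n, n = N0 + C * Fintype.card Q ^ (3 ^ (d + 1) + 1) + 8 := ⟨_, rfl⟩
  obtain ⟨N, hN⟩ : ∃ N, N = u1.length + n * (s false).length + u2.length + (List.replicate n g).flatten.length +
      u3.length + (List.replicate n g).flatten.length + u4.length := ⟨_, rfl⟩
  have hlen : ∀ x : Fin n → Bool, (str (r n x)).length = N := fun x => by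
    rw [hstr, hN]
    simp only [List.length_append]
    rw [len_flatMap rfl hs, List.length_ofFn]
  have hnN : n ≤ N := by
    have : n ≤ n * (s false).length := Nat.le_mul_of_pos_right _ hs0
    omega
  have h1 := hC n N Q M (T N) hlen (by omega) (hN0 N (by omega))
  have h2 : (Finset.univ.filter fun x : Fin n → Bool => Answers M (T N) (r n x)) = Finset.univ := by
    rw [Finset.filter_eq_self]
    intro x _
    have := hall (r n x)
    rwa [hlen x] at this
  rw [h2, Finset.card_univ, Fintype.card_fun, Fintype.card_bool, Fintype.card_fin] at h1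
  have h3 : 2 ^ (n - n / 8) < 2 ^ n := Nat.pow_lt_pow_right (by norm_num) (by omega)
  omega

private theorem pow_log' (m e : ℕ) (c : ℕ) : ∀ᶠ n : ℕ in atTop, m * (c * Nat.log 2 n) ^ e ≤ n := by
  have h0 : Tendsto (fun n : ℕ => Nat.log 2 n) atTop atTop := by
    rw [tendsto_atTop]
    intro b
    filter_upwards [eventually_ge_atTop (2 ^ b)] with n hn
    exact Nat.le_log_of_pow_le (by norm_num) hn
  have h1 := (isLittleO_pow_const_const_pow_of_one_lt (R := ℝ) e (by norm_num : (1 : ℝ) < 2)).bound
    (show (0 : ℝ) < 1 / (m * c ^ e + 1) by positivity)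
  filter_upwards [h0.eventually h1, eventually_ge_atTop 1] with n h2 hn
  have h6 : 2 ^ Nat.log 2 n ≤ n := Nat.pow_log_le_self 2 (by omega)
  refine le_trans ?_ h6
  rw [mul_pow, ← mul_assoc]
  rw [Real.norm_of_nonneg (by positivity), Real.norm_of_nonneg (by positivity), one_div_mul_eq_div,
    le_div_iff₀ (by positivity)] at h2
  have h4 : (m : ℝ) * c ^ e * (Nat.log 2 n : ℕ) ^ e ≤ 2 ^ Nat.log 2 n := by
    have h5 : (0 : ℝ) ≤ ((Nat.log 2 n : ℕ) : ℝ) ^ e := by positivity
    nlinarith
  exact_mod_cast h4

/-- **no cellular automaton of any dimension answers in linear time** -/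
theorem regex_lin (H : RegexSt) {d : ℕ} {Q : Type} [Fintype Q] (M : CA (d + 1) (Fin 7) Q) (c : ℕ) :
    ¬ ∀ r : RegularExpression Bool, Answers M (c * (str r).length) r := by
  refine regex_sep H M (fun N => c * N) fun c' => ?_
  filter_upwards [pow_log' (c ^ (d + 1)) (d + 2) c'] with n h1
  calc (c * n) ^ (d + 1) * (c' * Nat.log 2 n) ^ (d + 2) =
      n ^ (d + 1) * (c ^ (d + 1) * (c' * Nat.log 2 n) ^ (d + 2)) := by
        rw [mul_pow c n]
        ring
    _ ≤ n ^ (d + 1) * n := Nat.mul_le_mul_left _ h1
    _ = n ^ (d + 2) := by ring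

end Pool.Agent.PSM
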