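import Pool.Agent.PSM.Defs

/-!
# Linear space against cellular automata: checks of the definitions (helper44; not a hand-in)

* `Run.det`: a program has at most one result, whatever the bounds; `Run.mono`: the bound is monotone;
* `linSpace_compl`: linear space is closed under complement; `linSpace_univ`, `linSpace_empty`.
-/

set_option autoImplicit false

namespace Pool.Agent.PSM

/-- **a program has at most one result** (also with two different bounds) -/
theorem Run.det {B : ℕ} {p : Prg} {s t : ℕ → ℕ} (h : Run B p s t) : ∀ {B' : ℕ} {t' : ℕ → ℕ},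
    Run B' p s t' → t = t' := by
  induction h with
  | inc i s h =>
    intro B' t' h'
    cases h'
    rfl
  | dec i s =>
    intro B' t' h'
    cases h'
    rfl
  | seq h1 h2 ih1 ih2 =>
    intro B' t' h'
    cases h' with
    | seq k1 k2 =>
      have e := ih1 k1
      subst e
      exact ih2 k2
  | stop h =>
    intro B' t' h'
    cases h' with
    | stop _ => rfl
    | step k _ _ => exact absurd h k
  | step h h1 h2 ih1 ih2 =>
    intro B' t' h'
    cases h' with
    | stop k => exact absurd k h
    | step _ k1 k2 =>
      have e := ih1 k1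
      subst e
      exact ih2 k2

/-- a larger bound allows more -/
theorem Run.mono {B B' : ℕ} (hB : B ≤ B') {p : Prg} {s t : ℕ → ℕ} (h : Run B p s t) : Run B' p s t := by
  induction h with
  | inc i s h => exact Run.inc i s (h.trans hB)
  | dec i s => exact Run.dec i s
  | seq _ _ ih1 ih2 => exact Run.seq ih1 ih2
  | stop h => exact Run.stop h
  | step h _ _ ih1 ih2 => exact Run.step h ih1 ih2

/-- the registers never exceed the bound, if they do not at the start -/
theorem Run.le {B : ℕ} {p : Prg} {s t : ℕ → ℕ} (h : Run B p s t) : (∀ i, s i ≤ B) → ∀ i, t i ≤ B := by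
  induction h with
  | inc i s h =>
    intro hs j
    by_cases c : j = i
    · subst c
      rw [Function.update_self]
      exact h
    · rw [Function.update_of_ne c]
      exact hs j
  | dec i s =>
    intro hs j
    by_cases c : j = i
    · subst c
      rw [Function.update_self]
      exact (Nat.sub_le _ _).trans (hs _)
    · rw [Function.update_of_ne c]
      exact hs j
  | seq _ _ ih1 ih2 => exact fun hs => ih2 (ih1 hs)
  | stop h => exact fun hs => hs
  | step h _ _ ih1 ih2 => exact fun hs => ih2 (ih1 hs)

/-- clearing a register -/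
theorem run_clear (B j : ℕ) : ∀ (n : ℕ) (s : ℕ → ℕ), s j = n →
    Run B (Prg.loop j (Prg.dec j)) s (Function.update s j 0) := by
  intro n
  induction n with
  | zero =>
    intro s hs
    have : Function.update s j 0 = s := by rw [← hs, Function.update_eq_self]
    rw [this]
    exact Run.stop hs
  | succ n ih =>
    intro s hs
    have h1 := ih (Function.update s j (s j - 1)) (by rw [Function.update_self, hs, Nat.add_sub_cancel])
    rw [Function.update_idem] at h1
    exact Run.step (by omega) (Run.dec j s) h1

/-- the program which changes the output `0` into `1` and `1` into `0` -/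
def flipP : Prg :=
  Prg.seq (Prg.loop 1 (Prg.dec 1)) (Prg.seq (Prg.inc 1) (Prg.seq
    (Prg.loop 0 (Prg.seq (Prg.dec 0) (Prg.dec 1))) (Prg.loop 1 (Prg.seq (Prg.dec 1) (Prg.inc 0)))))

theorem run_flip {B : ℕ} (hB : 1 ≤ B) (s : ℕ → ℕ) (hs : s 0 ≤ 1) :
    Run B flipP s (Function.update (Function.update s 1 0) 0 (1 - s 0)) := by
  have h1 := run_clear B 1 (s 1) s rfl
  obtain ⟨u, hu⟩ : ∃ u, u = Function.update s 1 0 := ⟨_, rfl⟩
  rw [← hu] at h1
  have hu1 : u 1 = 0 := by rw [hu, Function.update_self]
  have hu0 : u 0 = s 0 := by rw [hu, Function.update_of_ne (by norm_num)]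
  have h2 : Run B (Prg.inc 1) u (Function.update u 1 (u 1 + 1)) := Run.inc 1 u (by omega)
  obtain ⟨v, hv⟩ : ∃ v, v = Function.update u 1 (u 1 + 1) := ⟨_, rfl⟩
  rw [← hv] at h2
  have hv1 : v 1 = 1 := by rw [hv, Function.update_self, hu1]
  have hv0 : v 0 = s 0 := by rw [hv, Function.update_of_ne (by norm_num), hu0]
  refine Run.seq h1 (Run.seq h2 ?_)
  rw [← hu]
  have hvi : ∀ i, i ≠ 0 → i ≠ 1 → v i = u i := by
    intro i h0 h1'
    rw [hv, Function.update_of_ne h1']
  rcases Nat.eq_zero_or_pos (s 0) with c | c
  · -- output 0
    have h3 : Run B (Prg.loop 0 (Prg.seq (Prg.dec 0) (Prg.dec 1))) v v := Run.stop (by rw [hv0, c])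
    have h4 := Run.step (B := B) (p := Prg.seq (Prg.dec 1) (Prg.inc 0)) (i := 1) (s := v) (by omega)
      (Run.seq (Run.dec 1 v) (Run.inc 0 _ (by
        rw [Function.update_of_ne (by norm_num : (0 : ℕ) ≠ 1), hv0, c]
        omega))) (Run.stop (by
        rw [Function.update_of_ne (by norm_num : (1 : ℕ) ≠ 0), Function.update_self, hv1]))
    have e : Function.update (Function.update v 1 (v 1 - 1)) 0 (Function.update v 1 (v 1 - 1) 0 + 1) =
        Function.update u 0 (1 - s 0) := by
      funext i
      by_cases c0 : i = 0
      · subst c0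
        rw [Function.update_self, Function.update_self, Function.update_of_ne (by norm_num : (0 : ℕ) ≠ 1), hv0, c]
      · rw [Function.update_of_ne c0, Function.update_of_ne c0]
        by_cases c1 : i = 1
        · subst c1
          rw [Function.update_self, hv1, hu1]
        · rw [Function.update_of_ne c1, hvi i c0 c1]
    rw [e] at h4
    exact Run.seq h3 h4
  · -- output 1
    have c' : s 0 = 1 := by omega
    have h3 := Run.step (B := B) (p := Prg.seq (Prg.dec 0) (Prg.dec 1)) (i := 0) (s := v) (by omega)
      (Run.seq (Run.dec 0 v) (Run.dec 1 _)) (Run.stop (by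
        rw [Function.update_of_ne (by norm_num : (0 : ℕ) ≠ 1), Function.update_self, hv0, c']))
    have e : Function.update (Function.update v 0 (v 0 - 1)) 1 (Function.update v 0 (v 0 - 1) 1 - 1) =
        Function.update u 0 (1 - s 0) := by
      funext i
      by_cases c1 : i = 1
      · subst c1
        rw [Function.update_self, Function.update_of_ne (by norm_num : (1 : ℕ) ≠ 0),
          Function.update_of_ne (by norm_num : (1 : ℕ) ≠ 0), hv1, hu1]
      · rw [Function.update_of_ne c1]
        by_cases c0 : i = 0
        · subst c0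
          rw [Function.update_self, Function.update_self, hv0]
          omega
        · rw [Function.update_of_ne c0, Function.update_of_ne c0, hvi i c0 c1]
    rw [e] at h3
    refine Run.seq h3 (Run.stop ?_)
    rw [Function.update_of_ne (by norm_num : (1 : ℕ) ≠ 0), hu1]

/-- **linear space is closed under complement** -/
theorem linSpace_compl {L : Set (List Bool)} (h : LinSpace L) : LinSpace Lᶜ := by
  obtain ⟨p, c, hp⟩ := h
  refine ⟨Prg.seq p flipP, c, fun x => ?_⟩
  obtain ⟨t, h1, h2, h3⟩ := hp x
  have ht : t 0 ≤ 1 := by
    by_cases hx : x ∈ L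
    · rw [h2 hx]
    · rw [h3 hx]
      omega
  refine ⟨_, Run.seq h1 (run_flip (Nat.one_le_pow _ _ (by omega)) t ht), ?_, ?_⟩
  · intro hx
    rw [Function.update_self, h3 hx]
  · intro hx
    rw [Function.update_self, h2 (not_not.1 hx)]

/-- the empty language is in linear space -/
theorem linSpace_empty : LinSpace (∅ : Set (List Bool)) := by
  refine ⟨Prg.loop 0 (Prg.dec 0), 0, fun x => ⟨_, run_clear _ 0 _ _ rfl, fun hx => absurd hx (Set.notMem_empty x),
    fun _ => Function.update_self _ _ _⟩⟩

/-- the language of all words is in linear space -/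
theorem linSpace_univ : LinSpace (Set.univ : Set (List Bool)) := by
  have h := linSpace_compl linSpace_empty
  rwa [Set.compl_empty] at h

end Pool.Agent.PSM
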