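import Pool.Agent.PSM.ELib2

/-!
# Linear space against cellular automata: a check of the definitions (not a hand-in; helper16)

* `oddW`: the words with an odd number of letters `true`; **`oddW_linSpace`**: it is in linear space;
* `parCA g`: an automaton with four states on the line; **`parCA_decides`**: on every word of length `n` it gives the right
  answer for `oddW` within `n` steps (no quantifiers).
-/

set_option autoImplicit false

open Finset

namespace Pool.Agent.PSM

/-- the words with an odd number of letters `true` -/
def oddW : Set (List Bool) := {l | l.count true % 2 = 1}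

/-! ### linear space -/

theorem sb_length_lt_num (l : List Bool) : l.length < num l := by
  induction l with
  | nil => exact Nat.one_pos
  | cons b l ih =>
    show l.length + 1 < 2 * num l + b.toNat
    omega

theorem sb_dg_num_zero (b : Bool) (l : List Bool) : dg 2 0 (num (b :: l)) = b.toNat := by
  have hb : b.toNat < 2 := Bool.toNat_lt b
  show (2 * num l + b.toNat) / 2 ^ 0 % 2 = b.toNat
  rw [pow_zero, Nat.div_one]
  omega

theorem sb_dg_num_succ (b : Bool) (l : List Bool) (i : ℕ) : dg 2 (i + 1) (num (b :: l)) = dg 2 i (num l) := by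
  have hb : b.toNat < 2 := Bool.toNat_lt b
  show (2 * num l + b.toNat) / 2 ^ (i + 1) % 2 = num l / 2 ^ i % 2
  rw [pow_succ', ← Nat.div_div_eq_div_mul]
  have : (2 * num l + b.toNat) / 2 = num l := by omega
  rw [this]

/-- the ones of the number of a word -/
theorem sb_sum_dg_num (l : List Bool) : ∀ N, l.length < N →
    ∑ i ∈ range N, dg 2 i (num l) = l.count true + 1 := by
  induction l with
  | nil =>
    intro N hN
    obtain ⟨N, rfl⟩ : ∃ M, N = M + 1 := ⟨N - 1, by
      have : 0 < N := hN
      omega⟩
    rw [sum_range_succ']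
    have h0 : ∀ i ∈ range N, dg 2 (i + 1) (num []) = 0 := by
      intro i _
      show 1 / 2 ^ (i + 1) % 2 = 0
      rw [Nat.div_eq_of_lt (Nat.one_lt_two_pow (by omega))]
    rw [sum_eq_zero h0]
    rfl
  | cons b l ih =>
    intro N hN
    obtain ⟨N, rfl⟩ : ∃ M, N = M + 1 := ⟨N - 1, by
      have : l.length + 1 < N := hN
      omega⟩
    have hN' : l.length < N := by
      have : l.length + 1 < N + 1 := hN
      omega
    rw [sum_range_succ', sb_dg_num_zero, sum_congr rfl fun i _ => sb_dg_num_succ b l i, ih N hN']
    cases b
    · simp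
    · rw [List.count_cons_self, Bool.toNat_true]

/-- **the parity of the ones is in linear space** -/
theorem oddW_linSpace : LinSpace oddW := by
  have hf : E fun a : ℕ × Unit => ((∑ i ∈ range a.1, dg 2 i a.1) + 1) % 2 :=
    E.mod (E.inc (E.sum (α := ℕ × Unit) (y := fun a => a.1) (F := fun i a => dg 2 i a.1) E.fst
      (E.dg (E.const 2) E.fst E.fst.snd))) (E.const 2)
  have h := linSpace_of hf fun a => by omega
  convert h using 1
  ext l
  show l.count true % 2 = 1 ↔ ((∑ i ∈ range (num l), dg 2 i (num l)) + 1) % 2 = 1
  rw [sb_sum_dg_num l (num l) (sb_length_lt_num l)]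
  omega

/-! ### the automaton -/

/-- four states: `none` empty (later: even), `some none` odd, `some (some a)` a letter, at the origin the parity so far -/
def parRule : Option (Option Bool) → Option (Option Bool) → Option (Option Bool) → Option (Option Bool)
  | none, some (some a), some (some b) => some (some (xor a b))
  | none, some (some true), _ => some none
  | none, some (some false), _ => none
  | some _, some (some _), some (some b) => some (some b)
  | some _, some (some _), _ => none
  | _, q, _ => q

/-- the output -/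
def parOut : Option (Option Bool) → Option Bool
  | none => some false
  | some none => some true
  | some (some _) => none

/-- the automaton for the parity of the ones, on the line -/
def parCA (g : ℕ) : CA (0 + 1) (Bool × (Fin 0 → Fin g)) (Option (Option Bool)) where
  blank := none
  inp a := some (some a.1)
  rule c := parRule (c fun _ => 0) (c fun _ => 1) (c fun _ => 2)
  out := parOut

variable {g n : ℕ}

/-- the parity of the first `t` letters -/
def parN (l : List Bool) (t : ℕ) : Bool := decide ((l.take t).count true % 2 = 1)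

theorem parN_succ (l : List Bool) (t : ℕ) (h : t < l.length) : parN l (t + 1) = xor (parN l t) l[t] := by
  unfold parN
  rw [List.take_add_one, List.getElem?_eq_getElem h, Option.toList_some, List.count_append]
  cases l[t]
  · simp
  · rw [List.count_singleton_self]
    rcases Nat.mod_two_eq_zero_or_one ((l.take t).count true) with h1 | h1
    · rw [h1]
      have : ((l.take t).count true + 1) % 2 = 1 := by omega
      rw [this]
      rfl
    · rw [h1]
      have : ((l.take t).count true + 1) % 2 = 0 := by omega
      rw [this]
      rfl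

/-- the states at the time `t` -/
def parCfg (l : List Bool) (t : ℕ) (z : Fin (0 + 1) → ℤ) : Option (Option Bool) :=
  if z 0 < 0 then none
  else if z 0 = 0 then some (some (parN l (t + 1)))
  else l[(z 0).toNat + t]?.map some

theorem parCA_cfg (x : Fin n → Bool) (y : Fin 0 → Fin n → Fin g) :
    ∀ t < n, (parCA g).step^[t] ((parCA g).start fun i => (x i, fun j => y j i)) = parCfg (List.ofFn x) t := by
  intro t
  induction t with
  | zero =>
    intro hn
    funext z
    have hl : 0 < (List.ofFn x).length := by rw [List.length_ofFn]; exact hn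
    show (parCA g).start (fun i => (x i, fun j => y j i)) z = _
    unfold CA.start parCfg
    rcases lt_trichotomy (z 0) 0 with h | h | h
    · rw [if_pos h, dif_neg (by omega)]
      rfl
    · have h1 : (∀ i, i ≠ 0 → z i = 0) ∧ 0 ≤ z 0 ∧ (z 0).toNat < n := by
        refine ⟨fun i hi => absurd (Subsingleton.elim (α := Fin 1) i 0) hi, by omega, ?_⟩
        rw [h]
        exact hn
      rw [dif_pos h1, if_neg (by omega), if_pos h, parN_succ _ _ hl]
      show some (some (x ⟨(z 0).toNat, h1.2.2⟩)) = _
      have h2 : (⟨(z 0).toNat, h1.2.2⟩ : Fin n) = ⟨0, hn⟩ := by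
        apply Fin.ext
        show (z 0).toNat = 0
        rw [h]
        rfl
      rw [h2]
      simp [parN]
    · by_cases h3 : (z 0).toNat < n
      · have h1 : (∀ i, i ≠ 0 → z i = 0) ∧ 0 ≤ z 0 ∧ (z 0).toNat < n :=
          ⟨fun i hi => absurd (Subsingleton.elim (α := Fin 1) i 0) hi, by omega, h3⟩
        have h4 : (z 0).toNat + 0 < (List.ofFn x).length := by rw [List.length_ofFn]; omega
        rw [dif_pos h1, if_neg (by omega), if_neg (by omega), List.getElem?_eq_getElem h4]
        show some (some (x ⟨(z 0).toNat, h1.2.2⟩)) = _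
        simp
      · have h4 : (List.ofFn x).length ≤ (z 0).toNat + 0 := by rw [List.length_ofFn]; omega
        rw [dif_neg (fun h1 => h3 h1.2.2), if_neg (by omega), if_neg (by omega), List.getElem?_eq_none h4]
        rfl
  | succ t ih =>
    intro ht
    have hl : (List.ofFn x).length = n := List.length_ofFn
    rw [Function.iterate_succ_apply', ih (by omega)]
    funext z
    set l := List.ofFn x with hldef
    show parRule (parCfg l t fun i => z i + ((0 : Fin 3) : ℤ) - 1) (parCfg l t fun i => z i + ((1 : Fin 3) : ℤ) - 1)
      (parCfg l t fun i => z i + ((2 : Fin 3) : ℤ) - 1) = parCfg l (t + 1) z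
    have e0 : (((0 : Fin 3) : ℕ) : ℤ) = 0 := rfl
    have e1 : (((1 : Fin 3) : ℕ) : ℤ) = 1 := rfl
    have e2 : (((2 : Fin 3) : ℕ) : ℤ) = 2 := rfl
    unfold parCfg
    simp only [e0, e1, e2]
    rcases lt_trichotomy (z 0) 0 with h | h | h
    · rw [if_pos (show z 0 + 0 - 1 < 0 by omega), if_pos (show z 0 + 1 - 1 < 0 by omega), if_pos h]
      split_ifs <;> rfl
    · have h5 : t + 1 < l.length := by omega
      rw [if_pos (show z 0 + 0 - 1 < 0 by omega), if_neg (show ¬ z 0 + 1 - 1 < 0 by omega),
        if_pos (show z 0 + 1 - 1 = 0 by omega), if_neg (show ¬ z 0 + 2 - 1 < 0 by omega),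
        if_neg (show ¬ z 0 + 2 - 1 = 0 by omega), if_neg (show ¬ z 0 < 0 by omega), if_pos h]
      have h6 : (z 0 + 2 - 1).toNat + t = t + 1 := by
        rw [h]
        show 1 + t = t + 1
        omega
      rw [h6, List.getElem?_eq_getElem h5, parN_succ l (t + 1) h5]
      rfl
    · have h7 : (z 0 + 1 - 1).toNat + t = (z 0).toNat + t := by
        rw [show z 0 + 1 - 1 = z 0 by omega]
      have h8 : (z 0 + 2 - 1).toNat + t = (z 0).toNat + (t + 1) := by omega
      rw [if_neg (show ¬ z 0 + 0 - 1 < 0 by omega), if_neg (show ¬ z 0 + 1 - 1 < 0 by omega),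
        if_neg (show ¬ z 0 + 1 - 1 = 0 by omega), if_neg (show ¬ z 0 + 2 - 1 < 0 by omega),
        if_neg (show ¬ z 0 + 2 - 1 = 0 by omega), if_neg (show ¬ z 0 < 0 by omega),
        if_neg (show ¬ z 0 = 0 by omega), h7, h8]
      -- the left neighbour is not empty if the cell is not empty
      by_cases h9 : (z 0).toNat + t < l.length
      · rw [List.getElem?_eq_getElem h9]
        have h10 : ∃ q, (if z 0 + 0 - 1 = 0 then some (some (parN l (t + 1))) else
            l[(z 0 + 0 - 1).toNat + t]?.map some) = some q := by
          split_ifs with h11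
          · exact ⟨_, rfl⟩
          · have h12 : (z 0 + 0 - 1).toNat + t < l.length := by omega
            rw [List.getElem?_eq_getElem h12]
            exact ⟨_, rfl⟩
        obtain ⟨q, hq⟩ := h10
        rw [hq]
        cases h13 : l[(z 0).toNat + (t + 1)]? with
        | none => rfl
        | some b => rfl
      · have h11 : l[(z 0).toNat + t]? = none := List.getElem?_eq_none (by omega)
        have h12 : l[(z 0).toNat + (t + 1)]? = none := List.getElem?_eq_none (by omega)
        rw [h11, h12]
        split_ifs
        · rfl
        · cases l[(z 0 + 0 - 1).toNat + t]? <;> rfl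

/-- the answer -/
theorem parCA_result (x : Fin n → Bool) (y : Fin 0 → Fin n → Fin g) :
    (parCA g).Result n (fun i => (x i, fun j => y j i)) (parN (List.ofFn x) n) := by
  refine ⟨n, le_rfl, ?_, fun s hs => ?_⟩
  · rcases n with _ | n
    · have : (parCA g).origin (fun i => (x i, fun j => y j i)) 0 = none := by
        unfold CA.origin
        show (parCA g).start _ 0 = none
        unfold CA.start
        rw [dif_neg (by simp)]
        rfl
      rw [this]
      rfl
    · have hl : (List.ofFn x).length = n + 1 := List.length_ofFn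
      unfold CA.origin
      rw [Function.iterate_succ_apply', parCA_cfg x y n (by omega)]
      set l := List.ofFn x with hldef
      show parOut (parRule (parCfg l n fun i => (0 : Fin (0 + 1) → ℤ) i + ((0 : Fin 3) : ℤ) - 1)
        (parCfg l n fun i => (0 : Fin (0 + 1) → ℤ) i + ((1 : Fin 3) : ℤ) - 1)
        (parCfg l n fun i => (0 : Fin (0 + 1) → ℤ) i + ((2 : Fin 3) : ℤ) - 1)) = _
      have e0 : (((0 : Fin 3) : ℕ) : ℤ) = 0 := rfl
      have e1 : (((1 : Fin 3) : ℕ) : ℤ) = 1 := rfl
      have e2 : (((2 : Fin 3) : ℕ) : ℤ) = 2 := rfl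
      unfold parCfg
      simp only [e0, e1, e2, Pi.zero_apply]
      rw [if_pos (show (0 : ℤ) + 0 - 1 < 0 by omega), if_neg (show ¬ (0 : ℤ) + 1 - 1 < 0 by omega),
        if_pos (show (0 : ℤ) + 1 - 1 = 0 by omega), if_neg (show ¬ (0 : ℤ) + 2 - 1 < 0 by omega),
        if_neg (show ¬ (0 : ℤ) + 2 - 1 = 0 by omega)]
      have h6 : ((0 : ℤ) + 2 - 1).toNat + n = n + 1 := by
        show 1 + n = n + 1
        omega
      rw [h6, List.getElem?_eq_none (by omega)]
      cases parN l (n + 1) <;> rfl
  · unfold CA.origin
    rw [parCA_cfg x y s hs]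
    show parOut (parCfg (List.ofFn x) s 0) = none
    unfold parCfg
    rw [if_neg (show ¬ (0 : Fin (0 + 1) → ℤ) 0 < 0 by simp), if_pos (show (0 : Fin (0 + 1) → ℤ) 0 = 0 by simp)]
    rfl

/-- **the automaton gives the right answer on every word of length `n` within `n` steps** -/
theorem parCA_decides (R : Fin 0 → Quant) (x : Fin n → Bool) :
    Decides (parCA g) R n x (List.ofFn x ∈ oddW) := by
  refine ⟨fun y => ⟨_, parCA_result x y⟩, ?_⟩
  show (parCA g).Result n (fun i => (x i, fun j => (Fin.elim0 : Fin 0 → Fin n → Fin g) j i)) true ↔ _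
  have h1 := parCA_result (g := g) x (Fin.elim0 : Fin 0 → Fin n → Fin g)
  have h2 : parN (List.ofFn x) n = true ↔ List.ofFn x ∈ oddW := by
    unfold parN
    rw [List.take_of_length_le (by rw [List.length_ofFn]), decide_eq_true_iff]
    rfl
  rw [← h2]
  constructor
  · rintro ⟨t, -, h3, h4⟩
    obtain ⟨t', -, h5, h6⟩ := h1
    rcases lt_trichotomy t t' with h7 | rfl | h7
    · rw [h6 t h7] at h3
      cases h3
    · rw [h5] at h3
      exact Option.some.inj h3
    · rw [h4 t' h7] at h5
      cases h5
  · intro h3
    rw [h3] at h1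
    exact h1

end Pool.Agent.PSM
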