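import Pool.Agent.PSM.Cone

/-!
# Linear space against cellular automata: the simulation on numbers (helper9, row G1)

* `Agr`: the number `R` has the registers `r`; `agr_addVN`, `agr_addFN`, `agr_stpN`;
* `lfN_eq`: the leaf of the time `τ`;
* **`simN_of`**: if the loop on registers adds the value of the root, the simulation gives the output of the automaton
  at the time `b h`.
-/

set_option autoImplicit false

open Finset

namespace Pool.Agent.PSM.Cn

/-- two loops, an invariant relation -/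
theorem itr_rel {α β : Type} {F : ℕ → α → α} {G : ℕ → β → β} (I : α → β → Prop) {r : α} {s : β} (n : ℕ)
    (h0 : I r s) (h : ∀ i, ∀ x y, I x y → I (F i x) (G i y)) : I (itr F r n) (itr G s n) := by
  induction n with
  | zero => exact h0
  | succ n ih => exact h n _ _ ih

theorem dg_of_zero (a i : ℕ) : dg a i 0 = 0 := by simp [dg]

theorem idx_lt {F m q t u s : ℕ} (ht : t < F) (hu : u < m) (hs : s < q) :
    (t * m + u) * q + s < F * m * q := by
  calc (t * m + u) * q + s < (t * m + u) * q + q := by omega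
    _ = (t * m + u + 1) * q := by ring
    _ ≤ (t * m + m) * q := Nat.mul_le_mul_right _ (by omega)
    _ = (t + 1) * m * q := by ring
    _ ≤ F * m * q := Nat.mul_le_mul_right _ (Nat.mul_le_mul_right _ ht)

theorem idx_mod {m q t u s : ℕ} (hs : s < q) : ((t * m + u) * q + s) % q = s := by
  rw [Nat.mul_add_mod_self_right, Nat.mod_eq_of_lt hs]

theorem idx_div {m q t u s : ℕ} (hs : s < q) : ((t * m + u) * q + s) / q = t * m + u := by
  rw [mul_comm, Nat.mul_add_div (by omega), Nat.div_eq_of_lt hs, add_zero]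

theorem idx_div_mod {m q t u s : ℕ} (hu : u < m) (hs : s < q) : ((t * m + u) * q + s) / q % m = u := by
  rw [idx_div hs, Nat.mul_add_mod_self_right, Nat.mod_eq_of_lt hu]

theorem idx_div_mul {m q t u s : ℕ} (hu : u < m) (hs : s < q) :
    ((t * m + u) * q + s) / (m * q) = t := by
  rw [mul_comm m q, ← Nat.div_div_eq_div_mul, idx_div hs, mul_comm t m, Nat.mul_add_div (by omega),
    Nat.div_eq_of_lt hu, add_zero]

theorem rg_le {t e f : ℕ} (he : e < f) : rg t e ≤ f := by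
  unfold rg
  split_ifs <;> omega

end Pool.Agent.PSM.Cn

namespace Pool.Agent.PSM

variable {p : ℕ} {A : TE} {ι : Type}

/-- the number `R` has the registers `r` -/
def Agr (p : ℕ) (A : TE) (R : ℕ) (r : St p) : Prop := ∀ t ≤ A.f, ∀ u < A.m, ∀ s < A.q, decN p A R t u s = r t u s

theorem idx_lenN {t u s : ℕ} (ht : t ≤ A.f) (hu : u < A.m) (hs : s < A.q) :
    (t * A.m + u) * A.q + s < lenN A := Cn.idx_lt (by omega) hu hs

theorem agr_addVN (hp : 0 < p) {R : ℕ} {r : St p} (h : Agr p A R r) (t : ℕ) (v : ℕ → ℕ) :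
    Agr p A (addVN p A t v R) (addV p A t v r) := by
  intro t' ht' u hu s hs
  have hr := h t' ht' u hu s hs
  unfold decN at hr ⊢
  unfold addVN addV
  rw [Cn.dg_en (fun i _ => by split_ifs <;> exact Nat.mod_lt _ hp)
    (idx_lenN ht' hu hs)]
  rw [Cn.idx_div_mul hu hs, Cn.idx_div_mod hu hs, Cn.idx_mod hs]
  by_cases h1 : t' = t
  · subst h1
    simp only [hu, hs, and_self, if_true]
    rw [← hr, ZMod.natCast_mod]
    push_cast
    rfl
  · rw [if_neg h1, if_neg fun h => h1 h.1, ← hr]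

theorem cast_FhN {R : ℕ} {r : St p} (hA : A.Ok) (h : Agr p A R r) (hm : 0 < A.q) (t u s : ℕ) :
    ((FhN p A t u s R : ℕ) : ZMod p) = Fh p A r t u s := by
  unfold FhN Fh
  rw [ZMod.natCast_mod, Nat.cast_sum]
  refine sum_congr rfl fun a _ => ?_
  split_ifs
  · rw [ZMod.natCast_mod, Nat.cast_prod]
    refine prod_congr rfl fun z hz => ?_
    exact h _ (Cn.rg_le (hA.ch z (mem_range.1 hz))) _ (hA.cl z (mem_range.1 hz)) _ (Cn.dg_lt hm _ _)
  · simp

theorem agr_addFN (hp : 0 < p) (hA : A.Ok) (hq : 0 < A.q) {R : ℕ} {r : St p} (h : Agr p A R r) (y t : ℕ) :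
    Agr p A (addFN p A y t R) (addF p A y t r) := by
  intro t' ht' u hu s hs
  have hr := h t' ht' u hu s hs
  unfold decN at hr ⊢
  unfold addFN addF
  rw [Cn.dg_en (fun i _ => by split_ifs <;> exact Nat.mod_lt _ hp)
    (idx_lenN ht' hu hs)]
  rw [Cn.idx_div_mul hu hs, Cn.idx_div_mod hu hs, Cn.idx_mod hs]
  by_cases h1 : t' = t
  · subst h1
    simp only [hu, hs, and_self, if_true]
    rw [← hr, ZMod.natCast_mod]
    push_cast
    rw [cast_FhN hA h hq, Nat.cast_sub (Nat.mod_lt _ hp).le, ZMod.natCast_self, ZMod.natCast_mod]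
    push_cast
    ring
  · rw [if_neg h1, if_neg fun h => h1 h.1, ← hr]

/-- **one step of the loop on numbers** -/
theorem agr_stpN (hp : 0 < p) (hA : A.Ok) (hq : 0 < A.q) {D b h n : ℕ} {st : ℕ → ℕ} {nd : ι → ℕ → ι}
    {lf : ι → ℕ → ℕ} {j : ι} (hlf : ∀ τ, (fun u => lfN D b h n τ st A.f (p * (A.f + 1)) u) =
      lf (ndN nd A.f (p * (A.f + 1)) h τ j h)) (τ : ℕ) {R : ℕ} {r : St p} (hr : Agr p A R r) :
    Agr p A (stpN p A D b h n st τ R) (stp p A nd lf h j 0 τ r) := by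
  unfold stpN stp
  simp only
  by_cases h1 : lsN A.f (p * (A.f + 1)) h τ = h
  · rw [if_pos h1, if_pos h1, h1, ← hlf τ]
    exact agr_addVN hp hr _ _
  · rw [if_neg h1, if_neg h1]
    split_ifs
    · exact agr_addFN hp hA hq hr _ _
    · exact hr

/-- the node after `l` levels -/
theorem ndN_eq {D : ℕ} (f W h τ l : ℕ) (i : Fin D) : ndN ndZ f W h τ (0 : Fin D → ℤ) l i =
    ((∑ k ∈ range l, dg 3 i (phs f W h k τ - 1) : ℕ) : ℤ) - l := by
  induction l with
  | zero => simp [ndN, itr]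
  | succ l ih =>
    rw [sum_range_succ]
    show ndN ndZ f W h τ (0 : Fin D → ℤ) l i + (dg 3 i (phs f W h l τ - 1) : ℤ) - 1 = _
    rw [ih]
    push_cast
    ring

/-- **the leaf of the time `τ`** -/
theorem lfN_eq {d : ℕ} (b h n τ : ℕ) (st : ℕ → ℕ) (f W u : ℕ) : lfN (d + 1) b h n τ st f W u =
    lfZ b n st (ndN ndZ f W h τ (0 : Fin (d + 1) → ℤ) h) u := by
  have e : ∀ i : Fin (d + 1), (b : ℤ) * ndN ndZ f W h τ (0 : Fin (d + 1) → ℤ) h i + (dg b i u : ℤ) =
      ((b * jN f W h τ i + dg b i u : ℕ) : ℤ) - ((b * h : ℕ) : ℤ) := by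
    intro i
    rw [ndN_eq]
    unfold jN
    push_cast
    ring
  unfold lfN lfZ stZ
  simp only [e]
  have h0 : ((0 : Fin (d + 1)) : ℕ) = 0 := rfl
  have e1 : (∀ i < d + 1, i ≠ 0 → b * jN f W h τ i + dg b i u = b * h) ↔
      ∀ i : Fin (d + 1), i ≠ 0 → ((b * jN f W h τ i + dg b i u : ℕ) : ℤ) - ((b * h : ℕ) : ℤ) = 0 := by
    constructor
    · intro H i hi
      have := H i i.2 fun hh => hi (Fin.ext hh)
      rw [this]
      ring
    · intro H i hi hi0
      have := H ⟨i, hi⟩ fun hh => hi0 (by simpa using congrArg Fin.val hh)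
      have h2 : ((b * jN f W h τ i + dg b i u : ℕ) : ℤ) = ((b * h : ℕ) : ℤ) := by
        simp only at this
        linarith
      exact_mod_cast h2
  have e2 : b * h ≤ b * jN f W h τ 0 + dg b 0 u ↔
      0 ≤ ((b * jN f W h τ ((0 : Fin (d + 1)) : ℕ) + dg b ((0 : Fin (d + 1)) : ℕ) u : ℕ) : ℤ) -
        ((b * h : ℕ) : ℤ) := by
    rw [h0, sub_nonneg]
    exact_mod_cast Iff.rfl
  have e3 : (((b * jN f W h τ ((0 : Fin (d + 1)) : ℕ) + dg b ((0 : Fin (d + 1)) : ℕ) u : ℕ) : ℤ) -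
        ((b * h : ℕ) : ℤ)).toNat = b * jN f W h τ 0 + dg b 0 u - b * h := by
    rw [h0]
    omega
  rw [e3]
  simp only [e1, e2]

/-- **the simulation**, from the loop on registers -/
theorem simN_of {d q T b h n : ℕ} {st : ℕ → ℕ} (hp : p.Prime) (hb : 0 < b) (hq : 0 < q) (hst : ∀ i, st i < q)
    (hloop : itr (stp p (teW (d + 1) q T b) ndZ (lfZ b n st) h (0 : Fin (d + 1) → ℤ) 0) (0 : St p)
      ((p * ((teW (d + 1) q T b).f + 1)) ^ h) =
      addV p (teW (d + 1) q T b) 0 (V (teW (d + 1) q T b) ndZ (lfZ b n st) h (0 : Fin (d + 1) → ℤ)) 0) :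
    simN (d + 1) q T b h p n st =
      if evZ q T (stZ n st) (b * h) (0 : Fin (d + 1) → ℤ) % 3 = 1 then 1 else 0 := by
  have hA : (teW (d + 1) q T b).Ok := ok_teW hb hq
  obtain ⟨A, hAd⟩ : ∃ A, A = teW (d + 1) q T b := ⟨_, rfl⟩
  have hAq : A.q = q := by rw [hAd]; rfl
  have hAf : A.f = 3 ^ (d + 1) := by rw [hAd]; rfl
  have hAm : A.m = b ^ (d + 1) := by rw [hAd]; rfl
  rw [← hAd] at hloop hA
  have hm : 0 < b ^ (d + 1) := pow_pos hb _
  have key : Agr p A (itr (stpN p A (d + 1) b h n st) 0 ((p * (A.f + 1)) ^ h))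
      (itr (stp p A ndZ (lfZ b n st) h (0 : Fin (d + 1) → ℤ) 0) (0 : St p) ((p * (A.f + 1)) ^ h)) :=
    Cn.itr_rel (fun R r => Agr p A R r) _ (fun t _ u _ s _ => by simp [decN, Cn.dg_of_zero])
      fun τ R r hr => agr_stpN hp.pos hA (by rw [hAq]; exact hq)
        (fun τ => funext fun u => lfN_eq b h n τ st _ _ u) τ hr
  rw [hloop] at key
  have hV : V A ndZ (lfZ b n st) h (0 : Fin (d + 1) → ℤ) 0 =
      evZ q T (stZ n st) (b * h) (0 : Fin (d + 1) → ℤ) := by
    rw [hAd, V_teW hst h 0 hm, mul_comm h b]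
    congr 1
    funext i
    simp [Cn.dg_of_zero]
  obtain ⟨v, hv⟩ : ∃ v, v = evZ q T (stZ n st) (b * h) (0 : Fin (d + 1) → ℤ) := ⟨_, rfl⟩
  have hvq : v < q := by
    rw [hv]
    exact evZ_lt hq (stZ_lt hst) _ _
  have hd : ∀ s < q, dg p s (itr (stpN p A (d + 1) b h n st) 0 ((p * (A.f + 1)) ^ h)) = if v = s then 1 else 0 := by
    intro s hs
    have h1 := key 0 (Nat.zero_le _) 0 (by rw [hAm]; exact hm) s (by rw [hAq]; exact hs)
    unfold decN addV at h1
    rw [if_pos ⟨rfl, by rw [hAm]; exact hm, by rw [hAq]; exact hs⟩, hV, ← hv, zero_mul, zero_add, zero_mul,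
      zero_add] at h1
    have h2 : ((dg p s (itr (stpN p A (d + 1) b h n st) 0 ((p * (A.f + 1)) ^ h)) : ℕ) : ZMod p) =
        ((if v = s then 1 else 0 : ℕ) : ZMod p) := by
      rw [h1]
      push_cast
      simp
    have h3 := (ZMod.natCast_eq_natCast_iff' _ _ _).1 h2
    rw [Nat.mod_eq_of_lt (Cn.dg_lt hp.pos _ _), Nat.mod_eq_of_lt (by
      split_ifs <;> have := hp.two_le <;> omega)] at h3
    exact h3
  show (∑ s ∈ range q, if s % 3 = 1 then dg p s (itr (stpN p (teW (d + 1) q T b) (d + 1) b h n st) 0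
    ((p * (3 ^ (d + 1) + 1)) ^ h)) else 0) =
      if evZ q T (stZ n st) (b * h) (0 : Fin (d + 1) → ℤ) % 3 = 1 then 1 else 0
  rw [← hAd, ← hAf, ← hv]
  rw [sum_congr rfl fun s hs => by rw [hd s (mem_range.1 hs)]]
  rw [sum_eq_single v (fun s _ hne => by rw [if_neg (Ne.symm hne)]; simp)
    (fun hh => absurd (mem_range.2 hvq) hh), if_pos rfl]

end Pool.Agent.PSM
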