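import Pool.Agent.PSM.BigD

/-!
# Linear space against cellular automata: sizes (helper69)

* `KD`, `bS`: side of the blocks, `hS`: height of the tree, `pS`: the prime (least prime above `(3 b) ^ D + 1`);
* **`size`**: with these numbers everything fits into `2 ^ n`, and `T ^ D (C q0 log n) ^ (D + 1) ≤ n ^ (D + 1)` gives
  `T < b h`.
-/

set_option autoImplicit false

open Finset

namespace Pool.Agent.PSM

/-! ### initial segments -/

/-- the number of elements of a downward closed set is its first gap -/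
theorem filter_down {P : ℕ → Prop} [DecidablePred P] (hP : ∀ i, P (i + 1) → P i) (n : ℕ) :
    (range n).filter P = range ((range n).filter P).card := by
  have hle : ∀ {j i : ℕ}, j ≤ i → P i → P j := by
    intro j i hji
    induction i, hji using Nat.le_induction with
    | base => exact id
    | succ i hi ih => exact fun h => ih (hP i h)
  have key : ∀ n : ℕ, ∃ m, (range n).filter P = range m := by
    intro n
    by_cases h : ∃ i < n, ¬ P i
    · classical
      obtain ⟨i, hi, hni⟩ := h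
      have hex : ∃ i, ¬ P i := ⟨i, hni⟩
      refine ⟨Nat.find hex, ?_⟩
      ext j
      simp only [mem_filter, mem_range]
      constructor
      · rintro ⟨-, hj⟩
        by_contra hc
        exact Nat.find_spec hex (hle (not_lt.1 hc) hj)
      · intro hj
        refine ⟨?_, not_not.1 (Nat.find_min hex hj)⟩
        exact lt_of_lt_of_le hj ((Nat.find_min' hex hni).trans hi.le)
    · push Not at h
      refine ⟨n, ?_⟩
      ext j
      simp only [mem_filter, mem_range]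
      exact ⟨fun hj => hj.1, fun hj => ⟨hj, h j hj⟩⟩
  obtain ⟨m, hm⟩ := key n
  rw [hm, card_range]

/-! ### the prime -/

/-- the least prime above `(3 b) ^ D + 1` -/
def pS (b D : ℕ) : ℕ :=
  (3 * b) ^ D + 2 + ((range ((3 * b) ^ D + 1)).filter fun i => ∀ j ≤ i, ¬ ((3 * b) ^ D + 2 + j).Prime).card

theorem lt_pS (b D : ℕ) : (3 * b) ^ D + 1 < pS b D := by
  unfold pS
  omega

theorem pS_le (b D : ℕ) : pS b D ≤ 2 * ((3 * b) ^ D + 1) + 1 := by
  unfold pS
  have := (card_filter_le (range ((3 * b) ^ D + 1)) fun i => ∀ j ≤ i, ¬ ((3 * b) ^ D + 2 + j).Prime)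
  rw [card_range] at this
  omega

theorem pS_prime (b D : ℕ) : (pS b D).Prime := by
  obtain ⟨M, hM⟩ : ∃ M, M = (3 * b) ^ D + 1 := ⟨_, rfl⟩
  obtain ⟨p, hp, h1, h2⟩ := Nat.exists_prime_lt_and_le_two_mul M (by omega)
  unfold pS
  have e : (3 * b) ^ D + 2 = M + 1 := by omega
  rw [← hM, e]
  have hd := filter_down (P := fun i => ∀ j ≤ i, ¬ (M + 1 + j).Prime)
    (fun i h j hj => h j (by omega)) M
  obtain ⟨m, hm⟩ : ∃ m, m = ((range M).filter fun i => ∀ j ≤ i, ¬ (M + 1 + j).Prime).card := ⟨_, rfl⟩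
  rw [← hm] at hd ⊢
  have hmM : m < M := by
    by_contra hc
    have h3 : p - (M + 1) ∈ (range M).filter fun i => ∀ j ≤ i, ¬ (M + 1 + j).Prime := by
      rw [hd, mem_range]
      omega
    have h4 := (mem_filter.1 h3).2 _ le_rfl
    rw [show M + 1 + (p - (M + 1)) = p by omega] at h4
    exact h4 hp
  have h5 : m ∉ (range M).filter fun i => ∀ j ≤ i, ¬ (M + 1 + j).Prime := by
    rw [hd]
    simp
  rw [mem_filter] at h5
  push Not at h5
  obtain ⟨j, hj, h6⟩ := h5 (mem_range.2 hmM)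
  rcases hj.lt_or_eq with h7 | h7
  · have h8 : j ∈ (range M).filter fun i => ∀ j ≤ i, ¬ (M + 1 + j).Prime := by
      rw [hd]
      exact mem_range.2 h7
    exact absurd h6 ((mem_filter.1 h8).2 j le_rfl)
  · rwa [h7] at h6

/-! ### side and height -/

/-- the constant of the side -/
def KD (D : ℕ) : ℕ := (3 ^ D + 1) * (2 * D + 5)

/-- the side of the blocks -/
def bS (n q D : ℕ) : ℕ := ((range n).filter fun i => (i + 1) ^ D * (KD D * q * Nat.log 2 n) ≤ n).card

/-- the height -/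
def hS (n D : ℕ) : ℕ := n / ((4 * D + 6) * Nat.log 2 n)

private theorem bS_down (n q D : ℕ) : ((range n).filter fun i => (i + 1) ^ D * (KD D * q * Nat.log 2 n) ≤ n) =
    range (bS n q D) :=
  filter_down (P := fun i => (i + 1) ^ D * (KD D * q * Nat.log 2 n) ≤ n)
    (fun i h => (Nat.mul_le_mul_right _ (Nat.pow_le_pow_left (by omega) D)).trans h) n

theorem bS_le (n q D : ℕ) (h : 1 ≤ bS n q D) : bS n q D ^ D * (KD D * q * Nat.log 2 n) ≤ n := by
  have h1 : bS n q D - 1 ∈ (range n).filter fun i => (i + 1) ^ D * (KD D * q * Nat.log 2 n) ≤ n := by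
    rw [bS_down, mem_range]
    omega
  have h2 := (mem_filter.1 h1).2
  rwa [Nat.sub_add_cancel h] at h2

theorem lt_bS {n q D : ℕ} (hD : 1 ≤ D) (h : 2 ≤ KD D * q * Nat.log 2 n) (hn : 1 ≤ n) :
    n < (bS n q D + 1) ^ D * (KD D * q * Nat.log 2 n) := by
  by_contra hc
  rw [not_lt] at hc
  have h1 : bS n q D < n := by
    by_contra h2
    rw [not_lt] at h2
    have h3 : n ≤ (bS n q D + 1) ^ D := (by omega : n ≤ bS n q D + 1).trans (Nat.le_self_pow (by omega) _)
    have h4 : n * 2 ≤ n := (Nat.mul_le_mul h3 h).trans hc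
    omega
  have h2 : bS n q D ∈ (range n).filter fun i => (i + 1) ^ D * (KD D * q * Nat.log 2 n) ≤ n :=
    mem_filter.2 ⟨mem_range.2 h1, hc⟩
  rw [bS_down] at h2
  simp at h2

theorem one_le_bS {n q D : ℕ} (h : KD D * q * Nat.log 2 n ≤ n) (hn : 1 ≤ n) : 1 ≤ bS n q D := by
  have h1 : 0 ∈ (range n).filter fun i => (i + 1) ^ D * (KD D * q * Nat.log 2 n) ≤ n :=
    mem_filter.2 ⟨mem_range.2 hn, by simpa using h⟩
  rw [bS_down, mem_range] at h1
  exact h1

private theorem sq_le (L : ℕ) : L ^ 2 ≤ 4 * 2 ^ L := by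
  induction L with
  | zero => norm_num
  | succ L ih =>
    rcases Nat.lt_or_ge L 3 with h | h
    · interval_cases L <;> norm_num
    · have : (L + 1) ^ 2 ≤ 2 * L ^ 2 := by nlinarith
      rw [pow_succ 2 L]
      omega

theorem log_sq (n : ℕ) (hn : 1 ≤ n) : Nat.log 2 n ^ 2 ≤ 4 * n :=
  (sq_le _).trans (Nat.mul_le_mul_left 4 (Nat.pow_log_le_self 2 (by omega)))

theorem Big.mono {B B' D q b h p n : ℕ} (H : Big B D q b h p n) (hB : B ≤ B') : Big B' D q b h p n :=
  ⟨H.pw.trans hB, H.qw.trans hB, H.hw.trans hB, H.nw.trans hB, H.q3.trans hB, H.nB.trans hB⟩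

/-- **sizes** -/
theorem size (D c1 : ℕ) (hD : 1 ≤ D) : ∃ C : ℕ, 1 ≤ C ∧ ∀ n q0 q : ℕ, 1 ≤ q0 → 2 ≤ q → q ≤ c1 * q0 →
    C * q0 ^ (3 ^ D + 1) ≤ n → Big (2 ^ n) D q (bS n q D) (hS n D) (pS (bS n q D) D) n ∧ 1 ≤ bS n q D ∧
      1 ≤ hS n D ∧ 2 ≤ n ∧ q ^ q ^ 3 ^ D ≤ 2 ^ n ∧ ∀ T : ℕ,
        T ^ D * (C * q0 * Nat.log 2 n) ^ (D + 1) ≤ n ^ (D + 1) → T < bS n q D * hS n D := by
  obtain ⟨A, hA⟩ : ∃ A, A = 2 ^ D * KD D * (c1 + 1) := ⟨_, rfl⟩
  obtain ⟨C, hC⟩ : ∃ C, C = 4 * A ^ 2 + A * (8 * D + 12) ^ D + c1 ^ (3 ^ D + 1) + 2 := ⟨_, rfl⟩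
  refine ⟨C, by omega, fun n q0 q h0 hq hqc hn => ?_⟩
  have hf : 3 ^ D + 1 = 3 ^ D + 1 := rfl
  have h3D : 3 ≤ 3 ^ D := Nat.le_self_pow (by omega) 3
  have hq0p : ∀ k, 1 ≤ q0 ^ k := fun k => Nat.one_le_pow _ _ h0
  have hc1 : 1 ≤ c1 := by
    rcases Nat.eq_zero_or_pos c1 with h | h
    · rw [h] at hqc
      omega
    · exact h
  have hC1 : 2 ≤ C := by omega
  have hCn : C ≤ n := (Nat.le_mul_of_pos_right _ (hq0p _)).trans hn
  have hn2 : 2 ≤ n := hC1.trans hCn
  obtain ⟨L, hL⟩ : ∃ L, L = Nat.log 2 n := ⟨_, rfl⟩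
  have hL1 : 1 ≤ L := by
    rw [hL]
    exact Nat.log_pos (by norm_num) hn2
  have hLn : n < 2 ^ (L + 1) := by
    rw [hL]
    exact Nat.lt_pow_succ_log_self (by norm_num) n
  have hL2 : L ^ 2 ≤ 4 * n := by
    rw [hL]
    exact log_sq n (by omega)
  obtain ⟨K, hK⟩ : ∃ K, K = KD D := ⟨_, rfl⟩
  have hKe : K = (3 ^ D + 1) * (2 * D + 5) := hK
  have hK1 : 28 ≤ K := by
    rw [hKe]
    calc 28 = 4 * 7 := by norm_num
      _ ≤ (3 ^ D + 1) * (2 * D + 5) := Nat.mul_le_mul (by omega) (by omega)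
  -- the linear bound
  have hAL : A * q0 * L ≤ n := by
    have h1 : (A * q0 * L) ^ 2 ≤ n ^ 2 := by
      calc (A * q0 * L) ^ 2 = A ^ 2 * q0 ^ 2 * L ^ 2 := by ring
        _ ≤ A ^ 2 * q0 ^ 2 * (4 * n) := Nat.mul_le_mul_left _ hL2
        _ = (4 * A ^ 2 * q0 ^ 2) * n := by ring
        _ ≤ n * n := by
            refine Nat.mul_le_mul_right n (le_trans ?_ hn)
            exact Nat.mul_le_mul (by omega) (Nat.pow_le_pow_right h0 (by omega))
        _ = n ^ 2 := by ring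
    exact (Nat.pow_le_pow_iff_left (by norm_num)).1 h1
  have hKq : 2 ^ D * (K * q * L) ≤ A * q0 * L := by
    calc 2 ^ D * (K * q * L) = 2 ^ D * K * L * q := by ring
      _ ≤ 2 ^ D * K * L * ((c1 + 1) * q0) := Nat.mul_le_mul_left _ (hqc.trans (Nat.mul_le_mul_right _ (by omega)))
      _ = A * q0 * L := by
          rw [hA, hK]
          ring
  have h2D : 1 ≤ 2 ^ D := Nat.one_le_pow _ _ (by norm_num)
  have hKqn : K * q * L ≤ n := (Nat.le_mul_of_pos_left _ h2D).trans (hKq.trans hAL)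
  have hKq2 : 2 ≤ K * q * L := by
    calc 2 ≤ 28 * 2 * 1 := by norm_num
      _ ≤ K * q * L := Nat.mul_le_mul (Nat.mul_le_mul hK1 hq) hL1
  obtain ⟨b, hb⟩ : ∃ b, b = bS n q D := ⟨_, rfl⟩
  have hb1 : 1 ≤ b := by
    rw [hb]
    exact one_le_bS (by rw [← hK, ← hL]; exact hKqn) (by omega)
  have hbn : b ^ D * (K * q * L) ≤ n := by
    rw [hK, hL, hb]
    exact bS_le n q D (hb ▸ hb1)
  have hbg : n < (b + 1) ^ D * (K * q * L) := by
    rw [hb, hK, hL]
    exact lt_bS hD (by rw [← hK, ← hL]; exact hKq2) (by omega)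
  obtain ⟨h, hh⟩ : ∃ h, h = hS n D := ⟨_, rfl⟩
  obtain ⟨x, hx⟩ : ∃ x, x = (4 * D + 6) * L := ⟨_, rfl⟩
  have hhe : h = n / x := by
    rw [hh, hx, hL]
    rfl
  have hx0 : 0 < x := by
    rw [hx]
    positivity
  have hxn : x ≤ n := by
    refine le_trans ?_ hKqn
    rw [hx]
    refine Nat.mul_le_mul_right L ?_
    calc 4 * D + 6 ≤ 4 * (2 * D + 5) := by omega
      _ ≤ (3 ^ D + 1) * (2 * D + 5) := Nat.mul_le_mul_right _ (by omega)
      _ = K := hKe.symm
      _ ≤ K * q := Nat.le_mul_of_pos_right _ (by omega)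
  have hh1 : 1 ≤ h := by
    rw [hhe]
    exact Nat.div_pos hxn hx0
  have hxh : x * h ≤ n := by
    rw [hhe]
    exact Nat.mul_div_le n x
  have hxg : n < 2 * (x * h) := by
    have h1 : n < x * (h + 1) := by
      rw [hhe]
      exact Nat.lt_mul_div_succ n hx0
    have h2 : x ≤ x * h := Nat.le_mul_of_pos_right _ hh1
    have h3 : x * (h + 1) = x * h + x := by ring
    omega
  obtain ⟨p, hp⟩ : ∃ p, p = pS b D := ⟨_, rfl⟩
  have h3b : (3 * b) ^ D ≤ n := by
    refine le_trans ?_ hbn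
    rw [mul_pow, mul_comm]
    refine Nat.mul_le_mul_left _ ?_
    calc 3 ^ D ≤ (3 ^ D + 1) * (2 * D + 5) := by nlinarith
      _ = K := hKe.symm
      _ ≤ K * (q * L) := Nat.le_mul_of_pos_right _ (by positivity)
      _ = K * q * L := by ring
  have hp4 : p ≤ 2 ^ (L + 3) := by
    have h1 := pS_le b D
    rw [← hp] at h1
    have h2 : p ≤ 4 * n := by omega
    refine h2.trans ?_
    rw [show L + 3 = 2 + (L + 1) by ring, pow_add]
    omega
  have h2n : n ≤ 2 ^ n := Nat.lt_two_pow_self.le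
  have hq2 : q ≤ 2 ^ q := Nat.lt_two_pow_self.le
  have hqt : q ^ (3 ^ D + 1) ≤ n := by
    calc q ^ (3 ^ D + 1) ≤ (c1 * q0) ^ (3 ^ D + 1) := Nat.pow_le_pow_left hqc _
      _ = c1 ^ (3 ^ D + 1) * q0 ^ (3 ^ D + 1) := mul_pow _ _ _
      _ ≤ C * q0 ^ (3 ^ D + 1) := Nat.mul_le_mul_right _ (by omega)
      _ ≤ n := hn
  refine ⟨?_, hb ▸ hb1, hh ▸ hh1, hn2, ?_, ?_⟩
  · rw [← hb, ← hh, ← hp]
    refine ⟨?_, ?_, ?_, h3b.trans h2n, ?_, h2n⟩
    · calc p ^ ((3 ^ D + 1) * b ^ D * q) ≤ (2 ^ (L + 3)) ^ ((3 ^ D + 1) * b ^ D * q) := Nat.pow_le_pow_left hp4 _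
        _ = 2 ^ ((L + 3) * ((3 ^ D + 1) * b ^ D * q)) := by rw [← pow_mul]
        _ ≤ 2 ^ n := by
            refine Nat.pow_le_pow_right (by norm_num) (le_trans ?_ hbn)
            calc (L + 3) * ((3 ^ D + 1) * b ^ D * q) ≤ ((2 * D + 5) * L) * ((3 ^ D + 1) * b ^ D * q) := by
                  refine Nat.mul_le_mul_right _ ?_
                  nlinarith
              _ = b ^ D * (K * q * L) := by
                  rw [hKe]
                  ring
    · calc q ^ (3 * b) ^ D ≤ (2 ^ q) ^ (3 * b) ^ D := Nat.pow_le_pow_left hq2 _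
        _ = 2 ^ (q * (3 * b) ^ D) := by rw [← pow_mul]
        _ ≤ 2 ^ n := by
            refine Nat.pow_le_pow_right (by norm_num) (le_trans ?_ hbn)
            rw [mul_pow]
            calc q * (3 ^ D * b ^ D) = b ^ D * (3 ^ D * q * 1) := by ring
              _ ≤ b ^ D * (K * q * L) := by
                  refine Nat.mul_le_mul_left _ (Nat.mul_le_mul (Nat.mul_le_mul_right _ ?_) hL1)
                  rw [hKe]
                  nlinarith
    · have h1 : p * (3 ^ D + 1) ≤ 2 ^ (L + 3 + (2 * D + 1)) := by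
        rw [pow_add]
        refine Nat.mul_le_mul hp4 ?_
        have h5 : 3 ^ D ≤ 4 ^ D := Nat.pow_le_pow_left (by norm_num) D
        have h6 : (2 : ℕ) ^ (2 * D + 1) = 2 * 4 ^ D := by
          rw [pow_succ, pow_mul]
          ring
        rw [h6]
        omega
      calc (p * (3 ^ D + 1)) ^ h ≤ (2 ^ (L + 3 + (2 * D + 1))) ^ h := Nat.pow_le_pow_left h1 _
        _ = 2 ^ ((L + 3 + (2 * D + 1)) * h) := by rw [← pow_mul]
        _ ≤ 2 ^ n := by
            refine Nat.pow_le_pow_right (by norm_num) (le_trans ?_ hxh)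
            refine Nat.mul_le_mul_right _ ?_
            rw [hx]
            nlinarith
    · exact ((Nat.pow_le_pow_right (by omega) (by omega)).trans hqt).trans h2n
  · calc q ^ q ^ 3 ^ D ≤ (2 ^ q) ^ q ^ 3 ^ D := Nat.pow_le_pow_left hq2 _
      _ = 2 ^ (q ^ (3 ^ D + 1)) := by
          rw [← pow_mul, pow_succ, mul_comm]
      _ ≤ 2 ^ n := Nat.pow_le_pow_right (by norm_num) hqt
  · intro T hT
    rw [← hb, ← hh]
    by_contra hc
    rw [not_lt] at hc
    -- `n ^ (D + 1) < (b h) ^ D * A * q0 * (8 D + 12) ^ D * L ^ (D + 1)`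
    have h1 : n < b ^ D * (A * q0 * L) := by
      refine hbg.trans_le ?_
      calc (b + 1) ^ D * (K * q * L) ≤ (2 * b) ^ D * (K * q * L) :=
            Nat.mul_le_mul_right _ (Nat.pow_le_pow_left (by omega) D)
        _ = b ^ D * (2 ^ D * (K * q * L)) := by
            rw [mul_pow]
            ring
        _ ≤ b ^ D * (A * q0 * L) := Nat.mul_le_mul_left _ hKq
    have h2 : n ^ D < (2 * (x * h)) ^ D := Nat.pow_lt_pow_left hxg (by omega)
    have h3 : n ^ (D + 1) < (2 * (x * h)) ^ D * (b ^ D * (A * q0 * L)) := by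
      rw [pow_succ]
      exact Nat.mul_lt_mul'' h2 h1
    have h4 : (2 * (x * h)) ^ D * (b ^ D * (A * q0 * L)) = (b * h) ^ D * (A * (8 * D + 12) ^ D * q0 * L ^ (D + 1)) := by
      rw [hx, show 2 * ((4 * D + 6) * L * h) = (8 * D + 12) * L * h by ring]
      simp only [mul_pow]
      ring
    rw [h4] at h3
    have h5 : (b * h) ^ D * (A * (8 * D + 12) ^ D * q0 * L ^ (D + 1)) ≤ T ^ D * (C * q0 * L) ^ (D + 1) := by
      refine Nat.mul_le_mul (Nat.pow_le_pow_left hc D) ?_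
      rw [mul_pow, mul_pow]
      refine Nat.mul_le_mul_right _ (Nat.mul_le_mul ?_ (Nat.le_self_pow (by omega) _))
      exact (by omega : A * (8 * D + 12) ^ D ≤ C).trans (Nat.le_self_pow (by omega) _)
    rw [hL] at h3 h5
    omega

end Pool.Agent.PSM
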